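import Mathlib

/-!
The Kramer step: the quadratic form `Q u = u 0 * u 1`, the symplectic form `e`, and the correction
classes `kk`, `mm` of `SL_2` of a perfect field of characteristic 2.
-/

set_option autoImplicit false
set_option linter.unusedSectionVars false

namespace Pool.Agent.Work.MP_787500_nt.KS

open Matrix

variable {F : Type*} [Field F] [CharP F 2] [PerfectRing F 2]

/-- the square root -/
noncomputable def rt : F →+* F := ((frobeniusEquiv F 2).symm : F →+* F)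

theorem rt_sq (x : F) : rt x ^ 2 = x := frobenius_apply_frobeniusEquiv_symm F 2 x

theorem sq_inj {x y : F} (h : x ^ 2 = y ^ 2) : x = y :=
  (frobeniusEquiv F 2).injective (by simpa [frobeniusEquiv_apply, frobenius_def] using h)

theorem rt_of_sq (x : F) : rt (x ^ 2) = x := sq_inj (rt_sq _)

theorem add_self (x : F) : x + x = 0 := CharTwo.add_self_eq_zero x

theorem add_sq' (x y : F) : (x + y) ^ 2 = x ^ 2 + y ^ 2 := CharTwo.add_sq x y

/-- the symplectic form -/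
def ee (x y : Fin 2 → F) : F := x 0 * y 1 + x 1 * y 0

/-- the quadratic form -/
def qq (x : Fin 2 → F) : F := x 0 * x 1

/-- the correction cocycle -/
noncomputable def kk (g : Matrix (Fin 2) (Fin 2) F) : Fin 2 → F :=
  ![rt (g 0 0 * g 0 1), rt (g 1 0 * g 1 1)]

/-- its secondary class -/
noncomputable def mm (g : Matrix (Fin 2) (Fin 2) F) : F := rt (g 0 1 * g 1 0)

theorem ee_comm (x y : Fin 2 → F) : ee x y = ee y x := by unfold ee; ring

theorem ee_self (x : Fin 2 → F) : ee x x = 0 := by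
  unfold ee
  rw [mul_comm (x 1)]
  exact add_self _

theorem ee_add_left (x y z : Fin 2 → F) : ee (x + y) z = ee x z + ee y z := by
  simp only [ee, Pi.add_apply]; ring

theorem ee_add_right (x y z : Fin 2 → F) : ee x (y + z) = ee x y + ee x z := by
  simp only [ee, Pi.add_apply]; ring

theorem ee_smul_left (a : F) (x y : Fin 2 → F) : ee (a • x) y = a * ee x y := by
  simp only [ee, Pi.smul_apply, smul_eq_mul]; ring

theorem ee_smul_right (a : F) (x y : Fin 2 → F) : ee x (a • y) = a * ee x y := by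
  simp only [ee, Pi.smul_apply, smul_eq_mul]; ring

theorem ee_zero_left (x : Fin 2 → F) : ee 0 x = 0 := by simp [ee]

theorem ee_zero_right (x : Fin 2 → F) : ee x 0 = 0 := by simp [ee]

theorem ee_nondeg {x : Fin 2 → F} (h : ∀ y, ee x y = 0) : x = 0 := by
  have h0 := h ![0, 1]
  have h1 := h ![1, 0]
  simp [ee] at h0 h1
  ext i
  fin_cases i
  · exact h0
  · exact h1

theorem qq_add (x y : Fin 2 → F) : qq (x + y) = qq x + qq y + ee x y := by
  simp only [qq, ee, Pi.add_apply]; ring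

theorem qq_zero : qq (0 : Fin 2 → F) = 0 := by simp [qq]

theorem kk_one : kk (1 : Matrix (Fin 2) (Fin 2) F) = 0 := by
  ext i
  fin_cases i <;> simp [kk]

theorem mm_one : mm (1 : Matrix (Fin 2) (Fin 2) F) = 0 := by simp [mm]

section det

variable {g h : Matrix (Fin 2) (Fin 2) F}

theorem det_eq (hg : g.det = 1) : g 0 0 * g 1 1 + g 0 1 * g 1 0 = 1 := by
  rw [det_fin_two] at hg
  rw [← hg, sub_eq_add_neg, CharTwo.neg_eq]

theorem mulVec_zero' (g : Matrix (Fin 2) (Fin 2) F) (u : Fin 2 → F) :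
    (g *ᵥ u) 0 = g 0 0 * u 0 + g 0 1 * u 1 := by
  simp [mulVec, dotProduct, Fin.sum_univ_two]

theorem mulVec_one' (g : Matrix (Fin 2) (Fin 2) F) (u : Fin 2 → F) :
    (g *ᵥ u) 1 = g 1 0 * u 0 + g 1 1 * u 1 := by
  simp [mulVec, dotProduct, Fin.sum_univ_two]

theorem ee_mulVec (hg : g.det = 1) (x y : Fin 2 → F) : ee (g *ᵥ x) (g *ᵥ y) = ee x y := by
  have h1 := det_eq hg
  simp only [ee, mulVec_zero', mulVec_one']
  linear_combination (x 0 * y 1 + x 1 * y 0) * h1 +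
    (g 0 0 * g 1 0 * x 0 * y 0 + g 0 1 * g 1 1 * x 1 * y 1) * (CharTwo.two_eq_zero (R := F))

/-- `e (k_g, g u) = √(ac) u 0 + √(bd) u 1` -/
theorem ee_kk (hg : g.det = 1) (u : Fin 2 → F) :
    ee (kk g) (g *ᵥ u) ^ 2 = g 0 0 * g 1 0 * u 0 ^ 2 + g 0 1 * g 1 1 * u 1 ^ 2 := by
  have h1 := det_eq hg
  have e1 : (kk g 0) ^ 2 = g 0 0 * g 0 1 := rt_sq _
  have e2 : (kk g 1) ^ 2 = g 1 0 * g 1 1 := rt_sq _
  simp only [ee, mulVec_zero', mulVec_one', add_sq', mul_pow, e1, e2]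
  linear_combination (g 0 0 * g 1 0 * u 0 ^ 2 + g 0 1 * g 1 1 * u 1 ^ 2) * h1

theorem qq_mulVec (hg : g.det = 1) (u : Fin 2 → F) :
    qq (g *ᵥ u) + qq u = ee (kk g) (g *ᵥ u) ^ 2 := by
  have h1 := det_eq hg
  rw [ee_kk hg]
  simp only [qq, mulVec_zero', mulVec_one']
  linear_combination (u 0 * u 1) * h1 + (u 0 * u 1) * (CharTwo.two_eq_zero (R := F))

theorem kk_mul (hg : g.det = 1) (hh : h.det = 1) : kk (g * h) = kk g + g *ᵥ kk h := by
  have hgh : (g * h).det = 1 := by rw [det_mul, hg, hh, one_mul]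
  -- uniqueness
  have h1 : ∀ u, ee (kk (g * h)) ((g * h) *ᵥ u) ^ 2 =
      ee (kk g + g *ᵥ kk h) ((g * h) *ᵥ u) ^ 2 := by
    intro u
    rw [← qq_mulVec hgh, ee_add_left, add_sq', ← mulVec_mulVec, ee_mulVec hg,
      ← qq_mulVec hg, ← qq_mulVec hh]
    linear_combination - qq (h *ᵥ u) * (CharTwo.two_eq_zero (R := F))
  have h2 : ∀ y, ee (kk (g * h) + (kk g + g *ᵥ kk h)) y = 0 := by
    intro y
    have h3 : (g * h) *ᵥ ((g * h)⁻¹ *ᵥ y) = y := by
      rw [mulVec_mulVec, mul_nonsing_inv _ (by rw [hgh]; exact isUnit_one), one_mulVec]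
    have h4 := sq_inj (h1 ((g * h)⁻¹ *ᵥ y))
    rw [h3] at h4
    rw [ee_add_left, h4, add_self]
  have h5 := ee_nondeg h2
  ext i
  have h6 := congrFun h5 i
  simp only [Pi.add_apply, Pi.zero_apply] at h6 ⊢
  rw [add_eq_zero_iff_eq_neg, CharTwo.neg_eq] at h6
  exact h6

theorem mm_mul (hg : g.det = 1) (hh : h.det = 1) :
    mm (g * h) = mm g + mm h + ee (kk g) (g *ᵥ kk h) := by
  have h1 := det_eq hg
  have h2 := det_eq hh
  apply sq_inj
  have e1 : (kk h 0) ^ 2 = h 0 0 * h 0 1 := rt_sq _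
  have e2 : (kk h 1) ^ 2 = h 1 0 * h 1 1 := rt_sq _
  have m1 : mm (g * h) ^ 2 = (g * h) 0 1 * (g * h) 1 0 := rt_sq _
  have m2 : mm g ^ 2 = g 0 1 * g 1 0 := rt_sq _
  have m3 : mm h ^ 2 = h 0 1 * h 1 0 := rt_sq _
  rw [add_sq', add_sq', m1, m2, m3, ee_kk hg, e1, e2]
  simp only [mul_apply, Fin.sum_univ_two]
  linear_combination (h 0 1 * h 1 0) * h1 + (g 0 1 * g 1 0) * h2 -
    (g 0 1 * g 1 0 * h 0 1 * h 1 0) * (CharTwo.two_eq_zero (R := F))

theorem mm_sq (hg : g.det = 1) : mm g ^ 2 + mm g = qq (kk g) := by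
  have h1 := det_eq hg
  apply sq_inj
  have m2 : mm g ^ 2 = g 0 1 * g 1 0 := rt_sq _
  have e1 : (kk g 0) ^ 2 = g 0 0 * g 0 1 := rt_sq _
  have e2 : (kk g 1) ^ 2 = g 1 0 * g 1 1 := rt_sq _
  have e3 : qq (kk g) ^ 2 = (kk g 0) ^ 2 * (kk g 1) ^ 2 := by unfold qq; ring
  rw [add_sq', m2, e3, e1, e2]
  linear_combination -(g 0 1 * g 1 0) * h1 +
    (g 0 1 * g 1 0 * (g 0 1 * g 1 0)) * (CharTwo.two_eq_zero (R := F))

end det

end Pool.Agent.Work.MP_787500_nt.KS
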