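import Mathlib

/-!
The Kramer step: the rank of a symmetric bilinear form `b` over a field of characteristic 2 with
`b x x = (b k x) ^ 2` is congruent to `b k k`.
-/

set_option autoImplicit false
set_option linter.unusedSectionVars false

namespace Pool.Agent.Work.MP_787500_nt.KS

section alt

variable {F : Type*} [Field F]

private theorem alt_aux (n : ℕ) : ∀ (V : Type _) [AddCommGroup V] [Module F V]
    [FiniteDimensional F V] (b : V →ₗ[F] V →ₗ[F] F) (_ : ∀ x, b x x = 0),
    Module.finrank F V = n → ∃ m, Module.finrank F V = Module.finrank F (LinearMap.ker b) + 2 * m := by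
  induction n using Nat.strong_induction_on with
  | _ n ih =>
    intro V _ _ _ b hb hn
    by_cases h0 : b = 0
    · refine ⟨0, ?_⟩
      rw [h0, LinearMap.ker_zero, finrank_top, mul_zero, add_zero]
    have hskew : ∀ x y, b x y = - b y x := by
      intro x y
      have h1 := hb (x + y)
      simp only [map_add, LinearMap.add_apply, hb, zero_add, add_zero] at h1
      linear_combination h1
    obtain ⟨e, he⟩ : ∃ e, b e ≠ 0 := by
      by_contra h
      push Not at h
      exact h0 (LinearMap.ext h)
    obtain ⟨f', hf'⟩ : ∃ f, b e f ≠ 0 := by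
      by_contra h
      push Not at h
      exact he (LinearMap.ext h)
    let f : V := (b e f')⁻¹ • f'
    have hef : b e f = 1 := by
      show b e ((b e f')⁻¹ • f') = 1
      rw [map_smul, smul_eq_mul, inv_mul_cancel₀ hf']
    have hfe : b f e = -1 := by rw [hskew, hef]
    let φ : V →ₗ[F] (F × F) := (b e).prod (b f)
    have hφ : Function.Surjective φ := by
      rintro ⟨s, t⟩
      refine ⟨s • f - t • e, ?_⟩
      show (b e (s • f - t • e), b f (s • f - t • e)) = (s, t)
      simp only [map_sub, map_smul, smul_eq_mul, hef, hfe, hb]
      ext <;> simp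
    let W : Submodule F V := LinearMap.ker φ
    have hW : ∀ x, x ∈ W ↔ b e x = 0 ∧ b f x = 0 := by
      intro x
      show (b e x, b f x) = 0 ↔ _
      rw [Prod.mk_eq_zero]
    have hrk : Module.finrank F W + 2 = n := by
      have h1 := LinearMap.finrank_range_add_finrank_ker φ
      rw [LinearMap.range_eq_top.2 hφ, finrank_top, Module.finrank_prod, Module.finrank_self,
        hn] at h1
      show Module.finrank F (LinearMap.ker φ) + 2 = n
      omega
    let b' : W →ₗ[F] W →ₗ[F] F := b.domRestrict₁₂ W W
    have hb' : ∀ x y : W, b' x y = b x y := fun x y => rfl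
    obtain ⟨m, hm⟩ := ih (Module.finrank F W) (by omega) W b' (fun x => hb x) rfl
    -- the kernels agree
    have hker : ∀ x : V, x ∈ LinearMap.ker b ↔ ∃ h : x ∈ W, (⟨x, h⟩ : W) ∈ LinearMap.ker b' := by
      intro x
      constructor
      · intro hx
        rw [LinearMap.mem_ker] at hx
        have h : x ∈ W := by
          rw [hW, hskew e, hskew f, hx]
          simp
        refine ⟨h, ?_⟩
        rw [LinearMap.mem_ker]
        ext y
        rw [hb', hx]
        rfl
      · rintro ⟨h, hx⟩
        rw [LinearMap.mem_ker] at hx ⊢
        obtain ⟨h1, h2⟩ := (hW x).1 h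
        have h3 : b x e = 0 := by rw [hskew, h1, neg_zero]
        have h4 : b x f = 0 := by rw [hskew, h2, neg_zero]
        ext v
        have hv : v - (b e v) • f + (b f v) • e ∈ W := by
          rw [hW]
          simp only [map_add, map_sub, map_smul, smul_eq_mul, hef, hfe, hb]
          constructor <;> ring
        have h5 : b' ⟨x, h⟩ ⟨_, hv⟩ = 0 := by rw [hx]; rfl
        rw [hb'] at h5
        simp only [map_add, map_sub, map_smul, smul_eq_mul, h3, h4, mul_zero, sub_zero,
          add_zero] at h5
        exact h5
    have hk : Module.finrank F (LinearMap.ker b) = Module.finrank F (LinearMap.ker b') := by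
      have h1 : LinearMap.ker b = (LinearMap.ker b').map W.subtype := by
        ext x
        rw [hker, Submodule.mem_map]
        constructor
        · rintro ⟨h, hx⟩
          exact ⟨⟨x, h⟩, hx, rfl⟩
        · rintro ⟨y, hy, rfl⟩
          exact ⟨y.2, hy⟩
      rw [h1]
      exact (Submodule.equivMapOfInjective W.subtype W.injective_subtype _).finrank_eq.symm
    refine ⟨m + 1, ?_⟩
    rw [hk]
    omega

/-- an alternating form has even rank -/
theorem alt_even {V : Type*} [AddCommGroup V] [Module F V] [FiniteDimensional F V]
    (b : V →ₗ[F] V →ₗ[F] F) (hb : ∀ x, b x x = 0) :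
    ∃ m, Module.finrank F V = Module.finrank F (LinearMap.ker b) + 2 * m :=
  alt_aux _ V b hb rfl

end alt

section sym

variable {F : Type*} [Field F] [CharP F 2] {V : Type*} [AddCommGroup V] [Module F V]
  [FiniteDimensional F V]

/-- A symmetric form with `b x x = (b k x) ^ 2`. -/
theorem sym_rank (b : V →ₗ[F] V →ₗ[F] F) (hs : ∀ x y, b x y = b y x) (k : V)
    (hk : ∀ x, b x x = b k x ^ 2) :
    (Module.finrank F V : F) = Module.finrank F (LinearMap.ker b) + b k k := by
  have h2 : (2 : F) = 0 := CharTwo.two_eq_zero
  let b' : V →ₗ[F] V →ₗ[F] F := b + (b k).smulRight (b k)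
  have hb' : ∀ x y, b' x y = b x y + b k x * b k y := by
    intro x y
    show b x y + (b k x • b k) y = _
    rw [LinearMap.smul_apply, smul_eq_mul]
  have halt : ∀ x, b' x x = 0 := by
    intro x
    rw [hb', hk]
    linear_combination (b k x ^ 2) * h2
  obtain ⟨m, hm⟩ := alt_even b' halt
  have hker : ∀ y, y ∈ LinearMap.ker b' ↔ y + b k y • k ∈ LinearMap.ker b := by
    intro y
    rw [LinearMap.mem_ker, LinearMap.mem_ker, LinearMap.ext_iff, LinearMap.ext_iff]
    refine forall_congr' fun z => ?_
    rw [hb', map_add, map_smul, LinearMap.add_apply, LinearMap.smul_apply, smul_eq_mul]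
  have hkk : b k k = 0 ∨ b k k = 1 := by
    have h := hk k
    have h3 : b k k * (b k k - 1) = 0 := by linear_combination -h
    rcases mul_eq_zero.1 h3 with h4 | h4
    · exact Or.inl h4
    · exact Or.inr (sub_eq_zero.1 h4)
  rcases hkk with h0 | h1
  · have h : LinearMap.ker b' = LinearMap.ker b := by
      ext y
      rw [hker]
      constructor
      · intro hy
        have h3 : b k y = 0 := by
          rw [LinearMap.mem_ker] at hy
          have h4 : b (y + b k y • k) k = 0 := by rw [hy]; rfl
          rw [map_add, map_smul, LinearMap.add_apply, LinearMap.smul_apply, h0, smul_zero,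
            add_zero, hs] at h4
          exact h4
        rwa [h3, zero_smul, add_zero] at hy
      · intro hy
        have h3 : b k y = 0 := by
          rw [hs, LinearMap.mem_ker.1 hy]; rfl
        rwa [h3, zero_smul, add_zero]
    rw [hm, h, h0]
    push_cast
    linear_combination (m : F) * h2
  · have hkn : k ∉ LinearMap.ker b := by
      intro h
      rw [LinearMap.mem_ker] at h
      rw [h] at h1
      exact zero_ne_one h1
    have h : LinearMap.ker b' = LinearMap.ker b ⊔ Submodule.span F {k} := by
      ext y
      rw [hker, Submodule.mem_sup]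
      constructor
      · intro hy
        refine ⟨_, hy, b k y • k, Submodule.smul_mem _ _ (Submodule.mem_span_singleton_self k), ?_⟩
        rw [add_assoc, ← add_smul]
        have h3 : b k y + b k y = 0 := by linear_combination (b k y) * h2
        rw [h3, zero_smul, add_zero]
      · rintro ⟨r, hr, z, hz, rfl⟩
        obtain ⟨c, rfl⟩ := Submodule.mem_span_singleton.1 hz
        have h3 : b k r = 0 := by
          rw [hs, LinearMap.mem_ker.1 hr]; rfl
        rw [map_add, map_smul, h3, h1, smul_eq_mul, mul_one, zero_add, add_assoc, ← add_smul]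
        have h4 : c + c = 0 := by linear_combination c * h2
        rw [h4, zero_smul, add_zero]
        exact hr
    have hfin : Module.finrank F (LinearMap.ker b') = Module.finrank F (LinearMap.ker b) + 1 := by
      rw [h]
      have h5 := Submodule.finrank_sup_add_finrank_inf_eq (LinearMap.ker b) (Submodule.span F {k})
      have h6 : LinearMap.ker b ⊓ Submodule.span F {k} = ⊥ := by
        rw [eq_bot_iff]
        rintro y ⟨hy1, hy2⟩
        obtain ⟨c, rfl⟩ := Submodule.mem_span_singleton.1 hy2
        rw [Submodule.mem_bot]
        by_cases hc : c = 0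
        · rw [hc, zero_smul]
        · exact absurd ((Submodule.smul_mem_iff _ hc).1 hy1) hkn
      have hk0 : k ≠ 0 := fun h => hkn (h ▸ Submodule.zero_mem _)
      rw [h6, finrank_bot, add_zero, finrank_span_singleton hk0] at h5
      exact h5
    rw [hm, hfin, h1]
    push_cast
    linear_combination (m : F) * h2

end sym

end Pool.Agent.Work.MP_787500_nt.KS
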