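import Mathlib
import Pool.Agent.Work.MP_787500_nt.KS.Lin

/-!
The Kramer step over the quadratic extension: pure linear algebra.
-/

set_option autoImplicit false
set_option linter.unusedSectionVars false

namespace Pool.Agent.Work.MP_787500_nt.KS

variable {F : Type*} [Field F] {W : Type*} [AddCommGroup W] [Module F W] [FiniteDimensional F W]

/-- the annihilator of a subspace -/
def ann (b : W →ₗ[F] W →ₗ[F] F) (N : Submodule F W) : Submodule F W where
  carrier := {x | ∀ y ∈ N, b x y = 0}
  add_mem' := fun {x x'} h h' y hy => by rw [map_add, LinearMap.add_apply, h y hy, h' y hy, add_zero]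
  zero_mem' := fun y _ => by rw [map_zero, LinearMap.zero_apply]
  smul_mem' := fun c {x} h y hy => by rw [map_smul, LinearMap.smul_apply, h y hy, smul_zero]

theorem mem_ann {b : W →ₗ[F] W →ₗ[F] F} {N : Submodule F W} {x : W} :
    x ∈ ann b N ↔ ∀ y ∈ N, b x y = 0 := Iff.rfl

theorem finrank_ann' {b : W →ₗ[F] W →ₗ[F] F} (hs : ∀ x y, b x y = b y x) (N : Submodule F W) :
    Module.finrank F N + Module.finrank F (ann b N) =
      Module.finrank F W + Module.finrank F (N ⊓ LinearMap.ker b : Submodule F W) := by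
  have hr : LinearMap.BilinForm.IsRefl b := fun x y h => by rw [hs y x]; exact h
  have h1 := LinearMap.BilinForm.finrank_add_finrank_orthogonal hr N
  have h2 : LinearMap.BilinForm.orthogonal b N = ann b N := by
    ext x
    rw [LinearMap.BilinForm.mem_orthogonal_iff, mem_ann]
    exact ⟨fun h y hy => (hs x y).trans (h y hy), fun h y hy => (hs y x).trans (h y hy)⟩
  have h3 : LinearMap.BilinForm.orthogonal b ⊤ = LinearMap.ker b := by
    ext x
    rw [LinearMap.BilinForm.mem_orthogonal_iff, LinearMap.mem_ker]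
    constructor
    · intro h
      exact LinearMap.ext fun y => (hs x y).trans (h y trivial)
    · intro h y _
      show b y x = 0
      rw [hs, h, LinearMap.zero_apply]
  rw [h2, h3] at h1
  exact h1

theorem finrank_ann {b : W →ₗ[F] W →ₗ[F] F} (hs : ∀ x y, b x y = b y x)
    {N : Submodule F W} (hN : LinearMap.ker b ≤ N) :
    Module.finrank F N + Module.finrank F (ann b N) =
      Module.finrank F W + Module.finrank F (LinearMap.ker b) := by
  rw [finrank_ann' hs, inf_eq_right.2 hN]

theorem ker_le_ann {b : W →ₗ[F] W →ₗ[F] F} (N : Submodule F W) : LinearMap.ker b ≤ ann b N := by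
  intro x hx y _
  rw [LinearMap.mem_ker] at hx
  rw [hx, LinearMap.zero_apply]

theorem ann_ann {b : W →ₗ[F] W →ₗ[F] F} (hs : ∀ x y, b x y = b y x)
    {N : Submodule F W} (hN : LinearMap.ker b ≤ N) : ann b (ann b N) = N := by
  symm
  apply Submodule.eq_of_le_of_finrank_eq
  · intro x hx y hy
    rw [hs]
    exact hy x hx
  · have h1 := finrank_ann hs hN
    have h2 := finrank_ann hs (ker_le_ann (b := b) N)
    omega

/-- two orthogonal subspaces -/
theorem finrank_orth {b : W →ₗ[F] W →ₗ[F] F} (hs : ∀ x y, b x y = b y x)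
    {P Q : Submodule F W} (hP : LinearMap.ker b ≤ P) (h : ∀ x ∈ P, ∀ y ∈ Q, b x y = 0) :
    Module.finrank F P + Module.finrank F Q ≤
      Module.finrank F W + Module.finrank F (LinearMap.ker b) := by
  have h1 := finrank_ann hs hP
  have h2 : Q ≤ ann b P := by
    intro y hy x hx
    rw [hs]
    exact h x hx y hy
  have h3 := Submodule.finrank_mono h2
  omega

/-- the sum of a subspace and the image of a linear map -/
theorem finrank_map_sup {A V : Type*} [AddCommGroup A] [Module F A] [FiniteDimensional F A]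
    [AddCommGroup V] [Module F V] [FiniteDimensional F V] (f : A →ₗ[F] V) (R : Submodule F V) :
    Module.finrank F (LinearMap.range f ⊔ R : Submodule F V) + Module.finrank F (R.comap f) =
      Module.finrank F A + Module.finrank F R := by
  have h1 := Submodule.finrank_sup_add_finrank_inf_eq (LinearMap.range f) R
  have h2 := LinearMap.finrank_range_add_finrank_ker f
  have h3 := LinearMap.finrank_range_add_finrank_ker (f.comp (R.comap f).subtype)
  have h4 : LinearMap.range (f.comp (R.comap f).subtype) = LinearMap.range f ⊓ R := by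
    rw [LinearMap.range_comp, Submodule.range_subtype, Submodule.map_comap_eq]
  have h5 : Module.finrank F (LinearMap.ker (f.comp (R.comap f).subtype)) =
      Module.finrank F (LinearMap.ker f) := by
    have hle : LinearMap.ker f ≤ R.comap f := by
      intro x hx
      rw [LinearMap.mem_ker] at hx
      show f x ∈ R
      rw [hx]
      exact R.zero_mem
    have h6 : LinearMap.ker (f.comp (R.comap f).subtype) = (LinearMap.ker f).comap (R.comap f).subtype :=
      LinearMap.ker_comp _ _
    rw [h6]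
    exact (Submodule.comapSubtypeEquivOfLe hle).finrank_eq
  rw [h4, h5] at h3
  omega

/-- a maximal isotropic subspace for an alternating form -/
theorem exists_lagr {b : W →ₗ[F] W →ₗ[F] F} (hs : ∀ x y, b x y = b y x) (ha : ∀ x, b x x = 0) :
    ∃ X : Submodule F W, ann b X = X := by
  -- take an isotropic subspace of maximal dimension
  have hex : ∃ n, ∃ X : Submodule F W, X ≤ ann b X ∧ Module.finrank F W - Module.finrank F X = n :=
    ⟨_, ⊥, bot_le, rfl⟩
  classical
  obtain ⟨X, h1, h2⟩ := Nat.find_spec hex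
  have hmin := fun n (hn : n < Nat.find hex) => Nat.find_min hex hn
  refine ⟨X, le_antisymm (fun x hx => ?_) h1⟩
  by_contra hxX
  have h3 : X ⊔ Submodule.span F {x} ≤ ann b (X ⊔ Submodule.span F {x}) := by
    intro y hy z hz
    obtain ⟨y₁, hy₁, y₂, hy₂, rfl⟩ := Submodule.mem_sup.1 hy
    obtain ⟨z₁, hz₁, z₂, hz₂, rfl⟩ := Submodule.mem_sup.1 hz
    obtain ⟨c, rfl⟩ := Submodule.mem_span_singleton.1 hy₂
    obtain ⟨c', rfl⟩ := Submodule.mem_span_singleton.1 hz₂
    simp only [map_add, map_smul, LinearMap.add_apply, LinearMap.smul_apply, ha, smul_zero, add_zero]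
    rw [h1 hy₁ z₁ hz₁, hs y₁ x, hx y₁ hy₁, hx z₁ hz₁]
    simp
  have h4 : X < X ⊔ Submodule.span F {x} := by
    refine lt_of_le_of_ne le_sup_left fun h5 => hxX ?_
    rw [h5]
    exact Submodule.mem_sup_right (Submodule.mem_span_singleton_self x)
  have h5 := Submodule.finrank_lt_finrank_of_lt h4
  have h6 := Submodule.finrank_le (X ⊔ Submodule.span F {x})
  refine hmin (Module.finrank F W - Module.finrank F (X ⊔ Submodule.span F {x} : Submodule F W))
    (by omega) ⟨_, h3, rfl⟩

/-- the diagonal part -/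
def dgA (H : Submodule F (W × W)) : Submodule F W where
  carrier := {a | (a, a) ∈ H}
  add_mem' := fun h h' => H.add_mem h h'
  zero_mem' := H.zero_mem
  smul_mem' := fun c _ h => H.smul_mem c h

/-- the sums -/
def smB (H : Submodule F (W × W)) : Submodule F W :=
  H.map (LinearMap.fst F W W + LinearMap.snd F W W)

theorem mem_smB {H : Submodule F (W × W)} {y : W} :
    y ∈ smB H ↔ ∃ x₁ x₂, (x₁, x₂) ∈ H ∧ x₁ + x₂ = y := by
  constructor
  · rintro ⟨⟨x₁, x₂⟩, h, rfl⟩
    exact ⟨x₁, x₂, h, rfl⟩
  · rintro ⟨x₁, x₂, h, rfl⟩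
    exact ⟨(x₁, x₂), h, rfl⟩

variable [CharP F 2]

theorem W_self (F : Type*) [Field F] [CharP F 2] {W : Type*} [AddCommGroup W] [Module F W]
    (x : W) : x + x = 0 := by
  rw [← two_smul F x, CharTwo.two_eq_zero, zero_smul]

variable {b : W →ₗ[F] W →ₗ[F] F} {H : Submodule F (W × W)}

theorem dgA_eq (hs : ∀ x y, b x y = b y x)
    (hH : ∀ x₁ x₂, (x₁, x₂) ∈ H ↔ ∀ y₁ y₂, (y₁, y₂) ∈ H → b x₁ y₁ + b x₂ y₂ = 0) :
    dgA H = ann b (smB H) := by
  ext a
  constructor
  · intro ha y hy
    obtain ⟨x₁, x₂, hx, rfl⟩ := mem_smB.1 hy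
    rw [map_add]
    exact (hH a a).1 ha x₁ x₂ hx
  · intro ha
    refine (hH a a).2 fun y₁ y₂ hy => ?_
    rw [← map_add]
    exact ha _ (mem_smB.2 ⟨y₁, y₂, hy, rfl⟩)

/-- The Kramer step in the form of linear algebra. -/
theorem kramer_LA [PerfectRing F 2] (hs : ∀ x y, b x y = b y x) (k : W)
    (hk : ∀ x, b x x = b k x ^ 2)
    (hH : ∀ x₁ x₂, (x₁, x₂) ∈ H ↔ ∀ y₁ y₂, (y₁, y₂) ∈ H → b x₁ y₁ + b x₂ y₂ = 0)
    (hsw : ∀ x₁ x₂, (x₁, x₂) ∈ H → (x₂, x₁) ∈ H) (hq : ∀ x₁ x₂, (x₁, x₂) ∈ H → b x₁ x₂ = 0)
    (X : Submodule F W) (hX : ann b X = X) :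
    ∃ u, (u + k, u) ∈ H ∧
      (Module.finrank F (H ⊓ X.prod X : Submodule F (W × W)) : F) =
        Module.finrank F (dgA H) + Module.finrank F X + b u k := by
  have h2 : (2 : F) = 0 := CharTwo.two_eq_zero
  have hA := dgA_eq hs hH
  have hRX : LinearMap.ker b ≤ X := hX ▸ ker_le_ann X
  have hRA : LinearMap.ker b ≤ dgA H := hA ▸ ker_le_ann _
  have hRB : LinearMap.ker b ≤ smB H := by
    intro r hr
    refine mem_smB.2 ⟨r, 0, (hH r 0).2 fun y₁ y₂ _ => ?_, add_zero r⟩
    rw [LinearMap.mem_ker] at hr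
    rw [hr, map_zero, LinearMap.zero_apply, LinearMap.zero_apply, add_zero]
  have hB : ann b (dgA H) = smB H := by rw [hA, ann_ann hs hRB]
  have hkX : k ∈ X := by
    rw [← hX]
    intro x hx
    have h1 : b x x = 0 := by
      have h3 : x ∈ ann b X := by rw [hX]; exact hx
      exact h3 x hx
    rw [hk] at h1
    exact pow_eq_zero_iff (two_ne_zero) |>.1 h1
  have hkB : k ∈ smB H := by
    rw [← hB]
    intro a ha
    have h1 : b a a = 0 := hq a a ha
    rw [hk] at h1
    exact pow_eq_zero_iff (two_ne_zero) |>.1 h1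
  obtain ⟨k₁, u₀, hku, hksum⟩ := mem_smB.1 hkB
  have hk₁ : k₁ = u₀ + k := by
    rw [← hksum, add_comm k₁, ← add_assoc, W_self F, zero_add]
  rw [hk₁] at hku
  refine ⟨u₀, hku, ?_⟩
  -- the space `N = X ∩ B`
  let N : Submodule F W := X ⊓ smB H
  have hNx : ∀ y : N, ∃ x₂, (x₂ + y.1, x₂) ∈ H := by
    intro y
    obtain ⟨x₁, x₂, hx, hy⟩ := mem_smB.1 y.2.2
    refine ⟨x₂, ?_⟩
    have : x₂ + y.1 = x₁ := by
      rw [← hy, add_comm x₁, ← add_assoc, W_self F, zero_add]
    rwa [this]
  choose s hs' using hNx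
  -- well defined modulo `A`
  have hwd : ∀ (y : W) (x x' : W), (x + y, x) ∈ H → (x' + y, x') ∈ H → ∀ z ∈ smB H,
      b x z = b x' z := by
    intro y x x' hx hx' z hz
    have h1 : x - x' ∈ dgA H := by
      show (x - x', x - x') ∈ H
      have h3 := H.sub_mem hx hx'
      have h4 : (x + y, x) - (x' + y, x') = (x - x', x - x') := by
        refine Prod.ext ?_ rfl
        show x + y - (x' + y) = x - x'
        abel
      rwa [h4] at h3
    rw [hA] at h1
    have h3 := h1 z hz
    rw [map_sub, LinearMap.sub_apply, sub_eq_zero] at h3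
    exact h3
  let φ : N →ₗ[F] N →ₗ[F] F := LinearMap.mk₂ F (fun y z => b (s y) z.1)
    (fun y y' z => by
      rw [hwd (y + y').1 (s (y + y')) (s y + s y') (hs' (y + y')) (by
        have h3 := H.add_mem (hs' y) (hs' y')
        have h4 : (s y + y.1, s y) + (s y' + y'.1, s y') = (s y + s y' + (y + y').1, s y + s y') := by
          refine Prod.ext ?_ rfl
          show s y + y.1 + (s y' + y'.1) = s y + s y' + (y.1 + y'.1)
          abel
        rwa [h4] at h3) z.1 z.2.2, map_add, LinearMap.add_apply])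
    (fun c y z => by
      rw [hwd (c • y).1 (s (c • y)) (c • s y) (hs' (c • y)) (by
        have h3 := H.smul_mem c (hs' y)
        have h4 : c • (s y + y.1, s y) = (c • s y + (c • y).1, c • s y) := by
          refine Prod.ext ?_ rfl
          exact smul_add _ _ _
        rwa [h4] at h3) z.1 z.2.2, map_smul, LinearMap.smul_apply])
    (fun y z z' => by
      show b (s y) (z.1 + z'.1) = _
      rw [map_add])
    (fun c y z => by
      show b (s y) (c • z.1) = _
      rw [map_smul])
  have hφ : ∀ y z, φ y z = b (s y) z.1 := fun y z => LinearMap.mk₂_apply F _ _ _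
  -- polarization of `q`
  have hpol : ∀ x₁ x₂ y₁ y₂, (x₁, x₂) ∈ H → (y₁, y₂) ∈ H → b x₁ y₂ + b y₁ x₂ = 0 := by
    intro x₁ x₂ y₁ y₂ hx hy
    have h1 := hq _ _ (H.add_mem hx hy)
    simp only [map_add, LinearMap.add_apply] at h1
    rw [hq _ _ hx, hq _ _ hy] at h1
    linear_combination h1
  have hφs : ∀ y z, φ y z = φ z y := by
    intro y z
    rw [hφ, hφ]
    have h1 := hpol _ _ _ _ (hs' y) (hs' z)
    simp only [map_add, LinearMap.add_apply] at h1
    rw [hs y.1 (s z)] at h1
    have h3 := hs (s y) (s z)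
    have h4 := hs z.1 (s y)
    rw [h4] at h1
    linear_combination h1 - h3 - (b (s z) y.1) * h2 - (b (s z) (s y)) * h2
  have hkN : k ∈ N := ⟨hkX, hkB⟩
  have hdiag : ∀ y, φ y y = φ ⟨k, hkN⟩ y ^ 2 := by
    intro y
    rw [hφs ⟨k, hkN⟩ y, hφ, hφ]
    have h1 := hq _ _ (hs' y)
    rw [map_add, LinearMap.add_apply, hk, hs y.1] at h1
    show b (s y) y.1 = b (s y) k ^ 2
    rw [hs (s y) k]
    linear_combination h1 - (b k (s y) ^ 2) * h2
  have hrank := sym_rank φ hφs ⟨k, hkN⟩ hdiag
  have hkk : φ ⟨k, hkN⟩ ⟨k, hkN⟩ = b u₀ k := by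
    rw [hφ]
    exact hwd k _ _ (hs' ⟨k, hkN⟩) hku k hkB
  -- the Selmer space and its projection
  let Sl : Submodule F (W × W) := H ⊓ X.prod X
  let p : Sl →ₗ[F] W := (LinearMap.fst F W W + LinearMap.snd F W W).comp Sl.subtype
  have hp := LinearMap.finrank_range_add_finrank_ker p
  have hpr : LinearMap.range p = (LinearMap.ker φ).map N.subtype := by
    ext y
    constructor
    · rintro ⟨⟨⟨x₁, x₂⟩, hx, hx₁, hx₂⟩, rfl⟩
      have hyN : x₁ + x₂ ∈ N := ⟨X.add_mem hx₁ hx₂, mem_smB.2 ⟨x₁, x₂, hx, rfl⟩⟩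
      refine ⟨⟨x₁ + x₂, hyN⟩, ?_, rfl⟩
      show (⟨x₁ + x₂, hyN⟩ : N) ∈ LinearMap.ker φ
      rw [LinearMap.mem_ker]
      refine LinearMap.ext fun z => ?_
      rw [hφ, LinearMap.zero_apply, hwd (x₁ + x₂) _ x₂ (hs' ⟨x₁ + x₂, hyN⟩) (by
        have h3 : x₂ + (x₁ + x₂) = x₁ := by
          rw [add_comm x₁, ← add_assoc, W_self F, zero_add]
        rw [h3]; exact hx) z.1 z.2.2]
      have h3 : x₂ ∈ ann b X := by rw [hX]; exact hx₂
      exact h3 z.1 z.2.1
    · rintro ⟨y, hy, rfl⟩
      have hy' : y ∈ LinearMap.ker φ := hy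
      rw [LinearMap.mem_ker] at hy'
      -- `s y` is in the annihilator of `X ∩ B`
      have h3 : s y ∈ ann b N := by
        intro z hz
        have h4 := LinearMap.congr_fun hy' ⟨z, hz⟩
        rw [hφ] at h4
        exact h4
      have h5 : ann b N = X ⊔ dgA H := by
        have h6 : N = ann b (X ⊔ dgA H) := by
          ext z
          constructor
          · rintro ⟨hz1, hz2⟩ w hw
            obtain ⟨x, hx, a, ha, rfl⟩ := Submodule.mem_sup.1 hw
            rw [← hX] at hz1
            rw [← hB] at hz2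
            rw [map_add, hz1 x hx, hz2 a ha, add_zero]
          · intro hz
            refine ⟨?_, ?_⟩
            · rw [← hX]
              intro x hx
              exact hz x (Submodule.mem_sup_left hx)
            · rw [← hB]
              intro a ha
              exact hz a (Submodule.mem_sup_right ha)
        rw [h6, ann_ann hs (hRX.trans le_sup_left)]
      rw [h5] at h3
      obtain ⟨ξ, hξ, a, ha, hsum⟩ := Submodule.mem_sup.1 h3
      have h7 : (ξ + y.1, ξ) ∈ H := by
        have h8 := H.sub_mem (hs' y) (show (a, a) ∈ H from ha)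
        have h9 : (s y + y.1, s y) - (a, a) = (ξ + y.1, ξ) := by
          rw [← hsum]
          refine Prod.ext ?_ ?_
          · show ξ + a + y.1 - a = ξ + y.1
            abel
          · show ξ + a - a = ξ
            abel
        rwa [h9] at h8
      refine ⟨⟨(ξ + y.1, ξ), h7, X.add_mem hξ y.2.1, hξ⟩, ?_⟩
      show ξ + y.1 + ξ = y.1
      rw [add_comm ξ, add_assoc, W_self F, add_zero]
  have hpk : Module.finrank F (LinearMap.ker p) = Module.finrank F (dgA H ⊓ X : Submodule F W) := by
    let q : (dgA H ⊓ X : Submodule F W) →ₗ[F] Sl :=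
      { toFun := fun a => ⟨(a.1, a.1), a.2.1, a.2.2, a.2.2⟩
        map_add' := fun _ _ => rfl
        map_smul' := fun _ _ => rfl }
    have hqi : Function.Injective q := by
      intro a a' h
      exact Subtype.ext (congrArg (fun w : Sl => w.1.1) h)
    have hqr : LinearMap.range q = LinearMap.ker p := by
      ext w
      constructor
      · rintro ⟨a, rfl⟩
        rw [LinearMap.mem_ker]
        exact W_self F a.1
      · intro hw
        rw [LinearMap.mem_ker] at hw
        obtain ⟨⟨x₁, x₂⟩, hx, hx₁, hx₂⟩ := w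
        have h3 : x₁ + x₂ = 0 := hw
        have h4 : x₁ = x₂ := by
          have h5 : x₁ + x₂ + x₂ = x₂ := by rw [h3, zero_add]
          rwa [add_assoc, W_self F, add_zero] at h5
        subst h4
        exact ⟨⟨x₁, hx, hx₁⟩, rfl⟩
    rw [← hqr, LinearMap.finrank_range_of_inj hqi]
  have hpr' : Module.finrank F (LinearMap.range p) = Module.finrank F (LinearMap.ker φ) := by
    rw [hpr]
    exact (Submodule.equivMapOfInjective N.subtype N.injective_subtype _).finrank_eq.symm
  rw [hpk, hpr'] at hp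
  -- dimension of `N`
  have hN1 : ann b (X ⊔ dgA H) = N := by
    ext z
    constructor
    · intro hz
      refine ⟨?_, ?_⟩
      · rw [← hX]
        intro x hx
        exact hz x (Submodule.mem_sup_left hx)
      · rw [← hB]
        intro a ha
        exact hz a (Submodule.mem_sup_right ha)
    · rintro ⟨hz1, hz2⟩ w hw
      obtain ⟨x, hx, a, ha, rfl⟩ := Submodule.mem_sup.1 hw
      rw [← hX] at hz1
      rw [← hB] at hz2
      rw [map_add, hz1 x hx, hz2 a ha, add_zero]
  have hd1 := finrank_ann hs (hRX.trans (le_sup_left : X ≤ X ⊔ dgA H))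
  rw [hN1] at hd1
  have hd2 := Submodule.finrank_sup_add_finrank_inf_eq X (dgA H)
  have hd3 := finrank_ann hs hRX
  rw [hX] at hd3
  rw [inf_comm] at hd2
  -- conclusion
  have he : Module.finrank F Sl = Module.finrank F (LinearMap.ker φ) +
      Module.finrank F (dgA H ⊓ X : Submodule F W) := hp.symm
  show (Module.finrank F Sl : F) = _
  rw [he]
  rw [hkk] at hrank
  have hd4 : Module.finrank F N + Module.finrank F (dgA H) =
      Module.finrank F X + Module.finrank F (dgA H ⊓ X : Submodule F W) := by omega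
  have hd5 : (Module.finrank F N : F) + Module.finrank F (dgA H) =
      Module.finrank F X + Module.finrank F (dgA H ⊓ X : Submodule F W) := by
    have h3 := congrArg (Nat.cast : ℕ → F) hd4
    push_cast at h3
    exact h3
  push_cast
  rw [hrank] at hd5
  linear_combination hd5 - (b u₀ k + Module.finrank F (dgA H)) * h2 +
    (Module.finrank F (dgA H ⊓ X : Submodule F W) : F) * h2

end Pool.Agent.Work.MP_787500_nt.KS
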