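import Mathlib
import Pool.Agent.Work.MP_787500_nt.KS.Alg

/-!
The Kramer step: the restriction of the correction class `kk` to every cyclic group is trivial, and the
character `D_v (g) = e (v, g v) + mm g` is the parity of the dimension of the space of fixed vectors.
-/

set_option autoImplicit false
set_option linter.unusedSectionVars false

namespace Pool.Agent.Work.MP_787500_nt.KS

open Matrix

variable {F : Type*} [Field F] [CharP F 2] [PerfectRing F 2]

/-- the space of vectors fixed by `g` -/
def fixv (g : Matrix (Fin 2) (Fin 2) F) : Submodule F (Fin 2 → F) where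
  carrier := {u | g *ᵥ u = u}
  add_mem' := fun {a b} ha hb => by
    change g *ᵥ a = a at ha
    change g *ᵥ b = b at hb
    change g *ᵥ (a + b) = a + b
    rw [mulVec_add, ha, hb]
  zero_mem' := mulVec_zero g
  smul_mem' := fun c {x} hx => by
    change g *ᵥ x = x at hx
    change g *ᵥ (c • x) = c • x
    rw [mulVec_smul, hx]

theorem mem_fixv {g : Matrix (Fin 2) (Fin 2) F} {u : Fin 2 → F} : u ∈ fixv g ↔ g *ᵥ u = u :=
  Iff.rfl

private theorem vec_ext {x y : Fin 2 → F} (h0 : x 0 = y 0) (h1 : x 1 = y 1) : x = y := by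
  ext i
  fin_cases i
  · exact h0
  · exact h1

theorem kk_zero_sq (g : Matrix (Fin 2) (Fin 2) F) : kk g 0 ^ 2 = g 0 0 * g 0 1 := rt_sq _

theorem kk_one_sq (g : Matrix (Fin 2) (Fin 2) F) : kk g 1 ^ 2 = g 1 0 * g 1 1 := rt_sq _

theorem mm_sq' (g : Matrix (Fin 2) (Fin 2) F) : mm g ^ 2 = g 0 1 * g 1 0 := rt_sq _

variable {g : Matrix (Fin 2) (Fin 2) F}

theorem kk_fix (hg : g.det = 1) : ∃ v, g *ᵥ v + kk g = v := by
  have h1 := det_eq hg
  by_cases ht : g 0 0 + g 1 1 = 0
  · have ha : g 1 1 = g 0 0 := by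
      linear_combination (norm := (ring_nf; reduce_mod_char!)) ht
    by_cases hb : g 0 1 = 0
    · -- b = 0, so a = d = 1
      have h3 : g 0 0 = 1 := by
        apply sq_inj
        rw [ha, hb] at h1
        linear_combination h1
      by_cases hc : g 1 0 = 0
      · refine ⟨0, vec_ext ?_ ?_⟩
        · rw [Pi.add_apply, mulVec_zero']
          have : kk g 0 = 0 := by apply sq_inj; rw [kk_zero_sq, hb]; ring
          rw [this]; simp
        · rw [Pi.add_apply, mulVec_one']
          have : kk g 1 = 0 := by apply sq_inj; rw [kk_one_sq, hc]; ring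
          rw [this]; simp
      · refine ⟨![(rt (g 1 0))⁻¹, 0], vec_ext ?_ ?_⟩
        · rw [Pi.add_apply, mulVec_zero']
          have : kk g 0 = 0 := by apply sq_inj; rw [kk_zero_sq, hb]; ring
          rw [this, h3, hb]; simp
        · rw [Pi.add_apply, mulVec_one']
          have h4 : rt (g 1 0) ^ 2 = g 1 0 := rt_sq _
          have h5 : rt (g 1 0) ≠ 0 := by
            intro h; rw [h] at h4; exact hc (by rw [← h4]; ring)
          have : kk g 1 = rt (g 1 0) := by
            apply sq_inj; rw [kk_one_sq, ha, h3, h4]; ring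
          rw [this]
          simp only [cons_val_zero, cons_val_one]
          rw [mul_zero, add_zero]
          field_simp
          rw [h4, mul_zero]
          exact CharTwo.add_self_eq_zero (g 1 0)
    · -- b ≠ 0
      have h4 : rt (g 0 0) ^ 2 = g 0 0 := rt_sq _
      have h6 : rt (g 0 1) ^ 2 = g 0 1 := rt_sq _
      have h5 : rt (g 0 1) ≠ 0 := by
        intro h; rw [h] at h6; exact hb (by rw [← h6]; ring)
      refine ⟨![0, rt (g 0 0) / rt (g 0 1)], vec_ext ?_ ?_⟩
      · rw [Pi.add_apply, mulVec_zero']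
        have : kk g 0 = rt (g 0 0) * rt (g 0 1) := by
          apply sq_inj; rw [kk_zero_sq, mul_pow, h4, h6]
        rw [this]
        simp only [cons_val_zero, cons_val_one]
        have h7 : g 0 1 * (rt (g 0 0) / rt (g 0 1)) = rt (g 0 0) * rt (g 0 1) := by
          rw [mul_div_assoc', div_eq_iff h5]
          linear_combination -rt (g 0 0) * h6
        rw [h7]
        linear_combination (norm := (ring_nf; reduce_mod_char!))
      · rw [Pi.add_apply, mulVec_one']
        have : kk g 1 = rt (g 0 0) * (1 + g 0 0) / rt (g 0 1) := by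
          apply sq_inj
          rw [kk_one_sq, div_pow, mul_pow, h4, h6, eq_div_iff hb, ha]
          rw [ha] at h1
          linear_combination (norm := (ring_nf; reduce_mod_char!)) (g 0 0) * h1
        rw [this, ha]
        simp only [cons_val_zero, cons_val_one]
        rw [mul_zero, zero_add, mul_div_assoc', ← add_div]
        congr 1
        linear_combination (norm := (ring_nf; reduce_mod_char!))
  · -- tr ≠ 0
    refine ⟨![((g 1 1 + 1) * kk g 0 + g 0 1 * kk g 1) / (g 0 0 + g 1 1),
      (g 1 0 * kk g 0 + (g 0 0 + 1) * kk g 1) / (g 0 0 + g 1 1)], vec_ext ?_ ?_⟩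
    · rw [Pi.add_apply, mulVec_zero']
      simp only [cons_val_zero, cons_val_one]
      rw [eq_div_iff ht, add_mul, add_mul, mul_assoc, mul_assoc, div_mul_cancel₀ _ ht,
        div_mul_cancel₀ _ ht]
      linear_combination (norm := (ring_nf; reduce_mod_char!)) (kk g 0) * h1
    · rw [Pi.add_apply, mulVec_one']
      simp only [cons_val_zero, cons_val_one]
      rw [eq_div_iff ht, add_mul, add_mul, mul_assoc, mul_assoc, div_mul_cancel₀ _ ht,
        div_mul_cancel₀ _ ht]
      linear_combination (norm := (ring_nf; reduce_mod_char!)) (kk g 1) * h1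

theorem kk_of_fix {v : Fin 2 → F} (hv : g *ᵥ v + kk g = v) : kk g = g *ᵥ v + v := by
  have h : g *ᵥ v + (g *ᵥ v + kk g) = g *ᵥ v + v := by rw [hv]
  rw [← add_assoc] at h
  have h' : g *ᵥ v + g *ᵥ v = 0 := by
    ext i
    exact add_self _
  rwa [h', zero_add] at h

/-- the value of the secondary character is in `{0, 1}` -/
theorem tau_idem (hg : g.det = 1) {v : Fin 2 → F} (hv : g *ᵥ v + kk g = v) :
    (ee v (g *ᵥ v) + mm g) ^ 2 = ee v (g *ᵥ v) + mm g := by
  have h3 : kk g = g *ᵥ v + v := kk_of_fix hv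
  have h4 := mm_sq hg
  have h5 := qq_mulVec hg v
  have h6 : ee (kk g) (g *ᵥ v) = ee v (g *ᵥ v) := by
    rw [h3, ee_add_left, ee_self, zero_add]
  have h7 : qq (kk g) = qq (g *ᵥ v) + qq v + ee v (g *ᵥ v) := by
    rw [h3, qq_add, ee_comm v]
  rw [h6] at h5
  rw [add_sq']
  linear_combination (norm := (ring_nf; reduce_mod_char!)) h4 + h7 + h5

theorem tau_case (hg : g.det = 1) {v : Fin 2 → F} (hv : g *ᵥ v + kk g = v)
    (ht : g 0 0 + g 1 1 ≠ 0) : ee v (g *ᵥ v) + mm g = 0 := by
  have h1 := det_eq hg
  have hk := kk_of_fix hv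
  have e0' : kk g 0 = (g 0 0 + 1) * v 0 + g 0 1 * v 1 := by
    have := congrFun hk 0
    rw [Pi.add_apply, mulVec_zero'] at this
    linear_combination this
  have e1' : kk g 1 = g 1 0 * v 0 + (g 1 1 + 1) * v 1 := by
    have := congrFun hk 1
    rw [Pi.add_apply, mulVec_one'] at this
    linear_combination this
  have hm := mm_sq hg
  have hm' := mm_sq' g
  have k0 := kk_zero_sq g
  have k1 := kk_one_sq g
  unfold qq at hm
  have h3 : (g 0 0 + g 1 1) * (ee v (g *ᵥ v) + mm g) = 0 := by
    have h4 : ee v (g *ᵥ v) = ee v (kk g) := by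
      rw [hk, ee_add_right, ee_self, add_zero]
    have h5 : (g 0 0 + g 1 1) * v 0 = (g 1 1 + 1) * kk g 0 + g 0 1 * kk g 1 := by
      rw [e0', e1']
      linear_combination (norm := (ring_nf; reduce_mod_char!)) (v 0) * h1
    have h6 : (g 0 0 + g 1 1) * v 1 = g 1 0 * kk g 0 + (g 0 0 + 1) * kk g 1 := by
      rw [e0', e1']
      linear_combination (norm := (ring_nf; reduce_mod_char!)) (v 1) * h1
    rw [h4]
    unfold ee
    linear_combination (norm := (ring_nf; reduce_mod_char!)) (kk g 1) * h5 + (kk g 0) * h6 + (g 1 0) * k0 +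
      (g 0 1) * k1 + (g 0 0 + g 1 1) * hm + (g 0 0 + g 1 1) * hm'
  exact (mul_eq_zero.1 h3).resolve_left ht

/-- independence of the choice of `v` -/
theorem tau_indep (hg : g.det = 1) {v w : Fin 2 → F} (hv : g *ᵥ v + kk g = v)
    (hw : g *ᵥ w + kk g = w) : ee v (g *ᵥ v) = ee w (g *ᵥ w) := by
  have h1 := kk_of_fix hv
  have h2 := kk_of_fix hw
  have h3 : g *ᵥ (v + w) = v + w := by
    rw [mulVec_add]
    have h4 : g *ᵥ v + v = g *ᵥ w + w := by rw [← h1, ← h2]
    ext i
    have h5 := congrFun h4 i
    simp only [Pi.add_apply] at h5 ⊢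
    linear_combination (norm := (ring_nf; reduce_mod_char!)) h5
  have h4 := ee_mulVec hg v (v + w)
  rw [h3, ee_add_right, ee_add_right, ee_self, zero_add] at h4
  -- e(gv, v) + e(gv, w) = e(v, w)
  have h6 : g *ᵥ w = g *ᵥ v + (v + w) := by
    rw [← h3, mulVec_add]
    ext i
    simp only [Pi.add_apply]
    linear_combination (norm := (ring_nf; reduce_mod_char!))
  rw [h6, ee_add_right, ee_add_right, ee_self, ee_comm w (g *ᵥ v), ee_comm w v, ee_comm v (g *ᵥ v)]
  linear_combination (norm := (ring_nf; reduce_mod_char!)) h4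

theorem tau_case0 (hg : g.det = 1) {v : Fin 2 → F} (hv : g *ᵥ v + kk g = v)
    (ht : g 0 0 + g 1 1 = 0) (hne : g ≠ 1) : ee v (g *ᵥ v) + mm g = 1 := by
  have h1 := det_eq hg
  have ha : g 1 1 = g 0 0 := by
    linear_combination (norm := (ring_nf; reduce_mod_char!)) ht
  have hk := kk_of_fix hv
  have e0' : kk g 0 = (g 0 0 + 1) * v 0 + g 0 1 * v 1 := by
    have := congrFun hk 0
    rw [Pi.add_apply, mulVec_zero'] at this
    linear_combination this
  have e1' : kk g 1 = g 1 0 * v 0 + (g 1 1 + 1) * v 1 := by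
    have := congrFun hk 1
    rw [Pi.add_apply, mulVec_one'] at this
    linear_combination this
  have h4 : ee v (g *ᵥ v) = ee v (kk g) := by
    rw [hk, ee_add_right, ee_self, add_zero]
  have h5 : ee v (kk g) = g 1 0 * v 0 ^ 2 + g 0 1 * v 1 ^ 2 := by
    unfold ee
    rw [e0', e1', ha]
    linear_combination (norm := (ring_nf; reduce_mod_char!))
  have h6 := mm_sq' g
  have k0 := kk_zero_sq g
  have k1 := kk_one_sq g
  rw [h4, h5]
  rw [ha] at h1 e1' k1
  by_cases hb : g 0 1 = 0
  · have h3 : g 0 0 = 1 := by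
      apply sq_inj
      rw [hb] at h1
      linear_combination h1
    have hc : g 1 0 ≠ 0 := by
      intro hc
      apply hne
      ext i j
      fin_cases i <;> fin_cases j <;> simp [h3, hb, hc, ha]
    have h7 : mm g = 0 := by apply sq_inj; rw [h6, hb]; ring
    rw [h7, hb]
    rw [e1', h3] at k1
    have h8 : (g 1 0 * v 0) ^ 2 = g 1 0 := by
      linear_combination (norm := (ring_nf; reduce_mod_char!)) k1
    have h9 : g 1 0 * v 0 ^ 2 = 1 := by
      apply mul_left_cancel₀ hc
      linear_combination h8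
    rw [h9]; ring
  · -- b (c v0^2 + b v1^2) = (1 + a^2) v0^2 + b^2 v1^2 = k0^2 = a b
    rw [e0'] at k0
    have h8 : g 1 0 * v 0 ^ 2 + g 0 1 * v 1 ^ 2 = g 0 0 := by
      apply mul_left_cancel₀ hb
      linear_combination (norm := (ring_nf; reduce_mod_char!)) k0 + v 0 ^ 2 * h1
    have h9 : mm g = 1 + g 0 0 := by
      apply sq_inj
      rw [h6]
      linear_combination (norm := (ring_nf; reduce_mod_char!)) h1
    rw [h8, h9]
    linear_combination (norm := (ring_nf; reduce_mod_char!))

theorem finrank_fixv_of_tr (hg : g.det = 1) (ht : g 0 0 + g 1 1 ≠ 0) :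
    Module.finrank F (fixv g) = 0 := by
  have h1 := det_eq hg
  have h : fixv g = ⊥ := by
    rw [eq_bot_iff]
    intro u hu
    rw [mem_fixv] at hu
    have e0 := congrFun hu 0
    have e1 := congrFun hu 1
    rw [mulVec_zero'] at e0
    rw [mulVec_one'] at e1
    rw [Submodule.mem_bot]
    refine vec_ext ?_ ?_
    · have h5 : (g 0 0 + g 1 1) * u 0 = 0 := by
        linear_combination (norm := (ring_nf; reduce_mod_char!)) (u 0) * h1 + (g 1 1 + 1) * e0 + (g 0 1) * e1
      exact (mul_eq_zero.1 h5).resolve_left ht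
    · have h6 : (g 0 0 + g 1 1) * u 1 = 0 := by
        linear_combination (norm := (ring_nf; reduce_mod_char!)) (u 1) * h1 + (g 0 0 + 1) * e1 + (g 1 0) * e0
      exact (mul_eq_zero.1 h6).resolve_left ht
  rw [h, finrank_bot]

theorem finrank_fixv_of_unip (hg : g.det = 1) (ht : g 0 0 + g 1 1 = 0) (hne : g ≠ 1) :
    Module.finrank F (fixv g) = 1 := by
  have h1 := det_eq hg
  have h2 : Module.finrank F (fixv g) < 2 := by
    have h3 : fixv g < ⊤ := by
      rw [lt_top_iff_ne_top]
      intro h
      apply hne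
      ext i j
      have h4 : (Pi.single j 1 : Fin 2 → F) ∈ fixv g := by rw [h]; trivial
      have h5 := congrFun (mem_fixv.1 h4) i
      rw [mulVec_single_one] at h5
      rw [one_apply]
      simpa [Pi.single_apply, eq_comm] using h5
    have := Submodule.finrank_lt h3.ne
    simpa using this
  have h3 : Module.finrank F (fixv g) ≠ 0 := by
    have h4 : (g + 1).det = 0 := by
      rw [det_fin_two, Matrix.add_apply, Matrix.add_apply, Matrix.add_apply, Matrix.add_apply,
        one_apply_eq, one_apply_eq, one_apply_ne (by decide), one_apply_ne (by decide)]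
      linear_combination (norm := (ring_nf; reduce_mod_char!)) h1 + ht
    obtain ⟨u, hu, h5⟩ := exists_mulVec_eq_zero_iff.2 h4
    intro h6
    have h7 : fixv g = ⊥ := Submodule.finrank_eq_zero.1 h6
    have h8 : u ∈ fixv g := by
      rw [mem_fixv]
      rw [add_mulVec, one_mulVec] at h5
      ext i
      have := congrFun h5 i
      simp only [Pi.add_apply, Pi.zero_apply] at this
      linear_combination (norm := (ring_nf; reduce_mod_char!)) this
    rw [h7, Submodule.mem_bot] at h8
    exact hu h8
  omega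

/-- the secondary character is the parity of the dimension of the space of fixed vectors -/
theorem tau_eq (hg : g.det = 1) {v : Fin 2 → F} (hv : g *ᵥ v + kk g = v) :
    ee v (g *ᵥ v) + mm g = (Module.finrank F (fixv g) : F) := by
  by_cases ht : g 0 0 + g 1 1 = 0
  · by_cases hne : g = 1
    · subst hne
      have h : fixv (1 : Matrix (Fin 2) (Fin 2) F) = ⊤ := by
        rw [eq_top_iff]
        intro u _
        rw [mem_fixv, one_mulVec]
      rw [h, finrank_top, Module.finrank_fin_fun, one_mulVec, ee_self, mm_one]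
      have h2 : (2 : F) = 0 := CharTwo.two_eq_zero
      rw [Nat.cast_ofNat, h2, add_zero]
    · rw [tau_case0 hg hv ht hne, finrank_fixv_of_unip hg ht hne, Nat.cast_one]
  · rw [tau_case hg hv ht, finrank_fixv_of_tr hg ht, Nat.cast_zero]

end Pool.Agent.Work.MP_787500_nt.KS
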