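import Mathlib
import Pool.Agent.Work.MP_787500_nt.KS.Defs
import Pool.Agent.Work.MP_787500_nt.GP.F01_Card

/-!
The Kramer step: the trace, the pairing, representation of functionals.
-/

set_option autoImplicit false
set_option linter.unusedSectionVars false

namespace Pool.Agent.Work.MP_787500_nt.KS

open Matrix
open Pool.Agent.Work.MP_787500_nt.GP (A0 hf hf_add hf_zero hf_two hf_neg smul_hf eq_hf hf_inj IsAct d0 d1
  d2 tw cup11 cup21 cup12 cup01 cup02)
open Pool.Agent.Work.MP_787500_nt.KR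

variable {F : Type*} [Field F] [Finite F] [CharP F 2] [Algebra (ZMod 2) F]

theorem hfT_sq (x : F) : hfT (x ^ 2) = hfT x := by
  rw [hfT_apply, hfT_apply]
  congr 1
  have h := Algebra.trace_eq_of_algEquiv (FiniteField.frobeniusAlgEquivOfAlgebraic (ZMod 2) F) x
  rw [FiniteField.coe_frobeniusAlgEquivOfAlgebraic] at h
  simpa [ZMod.card] using h

theorem hfT_two (x : F) : hfT x + hfT x = 0 := by rw [hfT_apply, hf_two]

theorem hfT_neg (x : F) : -hfT x = hfT x := by rw [hfT_apply, hf_neg]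

theorem smul_hfT {u : ℤ_[2]} (hu : (2 : ℤ_[2]) ∣ u - 1) (x : F) : u • hfT x = hfT x := by
  rw [hfT_apply, smul_hf hu]

theorem hfT_nondeg {b : F} (h : ∀ a, hfT (a * b) = 0) : b = 0 := by
  have h1 := traceForm_nondegenerate (ZMod 2) F
  refine h1.1 b fun a => ?_
  rw [Algebra.traceForm_apply]
  have h2 := h a
  rw [hfT_apply, ← hf_zero] at h2
  rw [mul_comm]
  exact hf_inj h2

theorem hfT_smul (c : ZMod 2) (x : F) :
    hfT (c • x) = hf (c * Algebra.trace (ZMod 2) F x) := by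
  rw [hfT_apply, map_smul, smul_eq_mul]

theorem BU_symm (x y : Fin 2 → F) : BU x y = BU y x := by
  rw [BU_apply, BU_apply, ee_comm]

theorem BU_flip : (BU : (Fin 2 → F) →+ (Fin 2 → F) →+ A0).flip = BU := by
  refine DFunLike.ext _ _ fun x => DFunLike.ext _ _ fun y => ?_
  rw [AddMonoidHom.flip_apply, BU_symm]

theorem BU_nondeg {x : Fin 2 → F} (h : ∀ y, BU x y = 0) : x = 0 := by
  refine ee_nondeg fun y => hfT_nondeg fun a => ?_
  rw [← ee_smul_right]
  exact h (a • y)

theorem isAct_act {G : Type*} [Group G] (A : G →* Matrix (Fin 2) (Fin 2) F) :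
    IsAct (act A) where
  one m := by
    show A 1 *ᵥ m = m
    rw [map_one, one_mulVec]
  mul g h m := by
    show A (g * h) *ᵥ m = A g *ᵥ (A h *ᵥ m)
    rw [map_mul, mulVec_mulVec]
  add g m m' := mulVec_add _ _ _

theorem pair_BU {G : Type*} [Group G] {S : FSys G} {χ : G → ℤ_[2]} (hχ : IsChar S χ)
    {A : G →* Matrix (Fin 2) (Fin 2) F} (hA : ∀ g, (A g).det = 1) (hs : Smooth S (act A)) :
    Pair S χ (act A) (act A) (BU : (Fin 2 → F) →+ (Fin 2 → F) →+ A0) where
  act := isAct_act A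
  act' := isAct_act A
  sm := hs
  sm' := hs
  eqv g m m' := by
    show hfT (ee (A g *ᵥ m) (A g *ᵥ m')) = χ g • hfT (ee m m')
    rw [ee_mulVec (hA g), smul_hfT (hχ.odd g)]
  nd _ := BU_nondeg
  nd' _ h := BU_nondeg fun y => by rw [BU_symm]; exact h y

theorem d0_act {G : Type*} (A : G → Matrix (Fin 2) (Fin 2) F) (m : Fin 2 → F) (g : G) :
    d0 (act A) m g = A g *ᵥ m + m := by
  show A g *ᵥ m - m = A g *ᵥ m + m
  ext i
  rw [Pi.sub_apply, Pi.add_apply, sub_eq_add_neg, CharTwo.neg_eq]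

section loc

variable {D : Type*} [Group D] {SD : FSys D} {χ : D → ℤ_[2]} {inv : (D → D → A0) → A0}
  {A : D →* Matrix (Fin 2) (Fin 2) F}

theorem inv_zero (L : LocH SD χ inv) : inv (fun _ _ => 0) = 0 := by
  have h := L.cob (fun _ => 0) (by
    obtain ⟨W, hW⟩ := SD.ex
    exact ⟨W, hW, fun _ _ _ => rfl⟩)
  convert h using 2
  funext a b
  simp [d1, tw]

theorem zero_Z2 : Z2 SD (tw χ) (fun _ _ => 0) := by
  obtain ⟨W, hW⟩ := SD.ex
  exact ⟨⟨W, hW, fun _ _ _ _ _ _ => rfl⟩, fun a b c => by simp [d2, tw]⟩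

/-- the invariant of the cup product, as a pairing -/
theorem inv_add_left (L : LocH SD χ inv) (hA : ∀ g, (A g).det = 1) (hs : Smooth SD (act A))
    {x x' y : D → Fin 2 → F} (hx : Z1 SD (act A) x) (hx' : Z1 SD (act A) x')
    (hy : Z1 SD (act A) y) :
    inv (cup11 (act A) BU (x + x') y) =
      inv (cup11 (act A) BU x y) + inv (cup11 (act A) BU x' y) := by
  rw [← L.add _ _ (cup11_Z2 (pair_BU L.char hA hs) hx hy)
    (cup11_Z2 (pair_BU L.char hA hs) hx' hy)]
  congr 1
  funext a b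
  show BU (x a + x' a) _ = _
  rw [map_add]
  rfl

theorem inv_add_right (L : LocH SD χ inv) (hA : ∀ g, (A g).det = 1) (hs : Smooth SD (act A))
    {x y y' : D → Fin 2 → F} (hx : Z1 SD (act A) x) (hy : Z1 SD (act A) y)
    (hy' : Z1 SD (act A) y') :
    inv (cup11 (act A) BU x (y + y')) =
      inv (cup11 (act A) BU x y) + inv (cup11 (act A) BU x y') := by
  rw [← L.add _ _ (cup11_Z2 (pair_BU L.char hA hs) hx hy)
    (cup11_Z2 (pair_BU L.char hA hs) hx hy')]
  congr 1
  funext a b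
  show BU (x a) (A a *ᵥ (y b + y' b)) = BU (x a) (A a *ᵥ y b) + BU (x a) (A a *ᵥ y' b)
  rw [mulVec_add, map_add]

/-- the cup product is balanced -/
theorem cup_smul (c : F) (x y : D → Fin 2 → F) :
    cup11 (act A) BU (c • x) y = cup11 (act A) BU x (c • y) := by
  funext a b
  show hfT (ee (c • x a) (A a *ᵥ y b)) = hfT (ee (x a) (A a *ᵥ (c • y b)))
  rw [ee_smul_left, mulVec_smul, ee_smul_right]

theorem inv_symm (L : LocH SD χ inv) (hA : ∀ g, (A g).det = 1) (hs : Smooth SD (act A))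
    {x y : D → Fin 2 → F} (hx : Z1 SD (act A) x) (hy : Z1 SD (act A) y) :
    inv (cup11 (act A) BU x y) = inv (cup11 (act A) BU y x) := by
  have P := pair_BU L.char hA hs
  have h1 := cup_anti P hx hy
  rw [BU_flip] at h1
  have hsm : Sm1 SD (fun g => -BU (x g) (y g)) := by
    obtain ⟨W, hW, h2⟩ := hx.1
    obtain ⟨W', hW', h2'⟩ := hy.1
    exact ⟨W ⊓ W', SD.inf hW hW', fun g w hw => by
      beta_reduce
      rw [h2 g w hw.1, h2' g w hw.2]⟩
  have h3 := L.cob _ hsm
  have h4 : (fun a b => cup11 (act A) BU x y a b + cup11 (act A) BU y x a b) =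
      d1 (tw χ) (fun g => -BU (x g) (y g)) := by
    funext a b
    rw [h1 a b]
    simp only [d1, tw, smul_neg]
    abel
  rw [← h4, L.add _ _ (cup11_Z2 P hx hy) (cup11_Z2 P hy hx)] at h3
  have h5 : inv (cup11 (act A) BU y x) + inv (cup11 (act A) BU y x) = 0 := by
    rw [← L.add _ _ (cup11_Z2 P hy hx) (cup11_Z2 P hy hx)]
    have h6 : (fun a b => cup11 (act A) BU y x a b + cup11 (act A) BU y x a b) =
        fun _ _ => (0 : A0) := by
      funext a b
      exact hfT_two _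
    rw [h6, inv_zero L]
  rw [← sub_eq_zero]
  have h7 : inv (cup11 (act A) BU y x) = -inv (cup11 (act A) BU y x) :=
    eq_neg_of_add_eq_zero_left h5
  rw [h7, sub_neg_eq_add]
  exact h3

theorem inv_cob_left (L : LocH SD χ inv) (hA : ∀ g, (A g).det = 1) (hs : Smooth SD (act A))
    {x y : D → Fin 2 → F} (hx : ∃ m : Fin 2 → F, ∀ g, x g = A g *ᵥ m + m)
    (hy : Z1 SD (act A) y) : inv (cup11 (act A) BU x y) = 0 := by
  obtain ⟨m, hm⟩ := hx
  have P := pair_BU L.char hA hs
  have hsm : Sm1 SD (cup01 BU m y) := cup01_sm hy.1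
  have h1 := L.cob _ hsm
  have h2 : d1 (tw χ) (cup01 BU m y) = cup11 (act A) BU x y := by
    funext a b
    rw [leib01 P.eqv m y a b]
    have h3 : d1 (act A) y a b = 0 := by
      show y a + act A a (y b) - y (a * b) = 0
      rw [hy.2 a b, sub_self]
    have h4 : cup02 BU m (d1 (act A) y) a b = 0 := by
      show BU m (d1 (act A) y a b) = 0
      rw [h3, map_zero]
    rw [h4, add_zero]
    show BU (d0 (act A) m a) _ = BU (x a) _
    rw [d0_act, hm]
  rw [← h2, h1]

theorem inv_cob_right (L : LocH SD χ inv) (hA : ∀ g, (A g).det = 1) (hs : Smooth SD (act A))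
    {x y : D → Fin 2 → F} (hx : Z1 SD (act A) x)
    (hy : ∃ m : Fin 2 → F, ∀ g, y g = A g *ᵥ m + m) : inv (cup11 (act A) BU x y) = 0 := by
  have hy' : Z1 SD (act A) y := by
    obtain ⟨m, hm⟩ := hy
    have h := d0_Z1 (isAct_act A) hs m
    convert h using 1
    funext g
    rw [d0_act, hm]
  rw [inv_symm L hA hs hx hy', inv_cob_left L hA hs hy hx]

/-- every functional on the cocycles that kills the coboundaries is a cup product -/
theorem local_rep (L : LocH SD χ inv) (hA : ∀ g, (A g).det = 1) (hs : Smooth SD (act A))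
    (ld : LDual SD inv (act A) (act A) (BU : (Fin 2 → F) →+ (Fin 2 → F) →+ A0))
    (φ : cocS SD (A : D → Matrix (Fin 2) (Fin 2) F) →+ A0)
    (hφ : ∀ z : cocS SD (A : D → Matrix (Fin 2) (Fin 2) F),
      (∃ m : Fin 2 → F, ∀ g, z.1 g = A g *ᵥ m + m) → φ z = 0) :
    ∃ t : cocS SD (A : D → Matrix (Fin 2) (Fin 2) F), ∀ z, φ z = inv (cup11 (act A) BU t.1 z.1) := by
  have hfin : Finite (cocS SD (A : D → Matrix (Fin 2) (Fin 2) F)) := ld.fin
  let β : cocS SD (A : D → Matrix (Fin 2) (Fin 2) F) →+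
      cocS SD (A : D → Matrix (Fin 2) (Fin 2) F) →+ A0 :=
    AddMonoidHom.mk' (fun z => AddMonoidHom.mk' (fun t => inv (cup11 (act A) BU t.1 z.1))
        (fun t t' => inv_add_left L hA hs t.2 t'.2 z.2))
      (fun z z' => by
        refine DFunLike.ext _ _ fun t => ?_
        exact inv_add_right L hA hs t.2 z.2 z'.2)
  obtain ⟨t, ht⟩ := GP.exists_rep β φ (fun z hz => hφ z (by
    obtain ⟨m, hm⟩ := ld.one' z.1 z.2 (fun x hx => hz ⟨x, hx⟩)
    exact ⟨m, fun g => by rw [hm, d0_act]⟩))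
  exact ⟨t, fun z => (ht z).symm⟩

end loc

end Pool.Agent.Work.MP_787500_nt.KS
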