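import Mathlib
import Pool.Agent.Work.MP_787500_nt.KS.Basic

/-!
The Kramer step: functionals on the global cocycles that vanish on a subspace given by local conditions
are sums of local cup products with elements of the annihilators.
-/

set_option autoImplicit false
set_option linter.unusedSectionVars false

namespace Pool.Agent.Work.MP_787500_nt.KS

open Matrix
open Pool.Agent.Work.MP_787500_nt.GP (A0 hf hf_add hf_zero hf_two hf_neg smul_hf eq_hf hf_inj IsAct d0 d1
  d2 tw cup11 cup21 cup12 cup01 cup02)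
open Pool.Agent.Work.MP_787500_nt.KR

variable {F : Type*} [Field F] [Finite F] [CharP F 2] [Algebra (ZMod 2) F]
  {G : Type*} [Group G] {S : FSys G} {I : Type*} [Fintype I] {D : I → Type*}
  [∀ i, Group (D i)] {SD : ∀ i, FSys (D i)} {j : ∀ i, D i →* G} {χ : G → ℤ_[2]}
  {inv : ∀ i, (D i → D i → A0) → A0} {tr : ((G → G → G → A0) × (∀ i, D i → D i → A0)) →+ A0}
  {A : G →* Matrix (Fin 2) (Fin 2) F} {ε : G → ZMod 2}
  {sp : I → Prop} {X : ∀ i, Submodule F (D i → Fin 2 → F)} {t : I → ℕ}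

/-- the restriction of the representation to a local group -/
def Ai (j : ∀ i, D i →* G) (A : G →* Matrix (Fin 2) (Fin 2) F) (i : I) :
    D i →* Matrix (Fin 2) (Fin 2) F := A.comp (j i)

theorem Ai_apply (i : I) (d : D i) : Ai j A i d = A (j i d) := rfl

theorem KH.det_i (H : KH S SD j χ inv tr A ε sp X t) (i : I) (d : D i) : (Ai j A i d).det = 1 :=
  H.det _

theorem KH.sm_i (H : KH S SD j χ inv tr A ε sp X t) (i : I) : Smooth (SD i) (act (Ai j A i)) :=
  H.sm.comp (H.glob.jsm i)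

theorem KH.ld_i (H : KH S SD j χ inv tr A ε sp X t) (i : I) :
    LDual (SD i) (inv i) (act (Ai j A i)) (act (Ai j A i)) (BU : (Fin 2 → F) →+ (Fin 2 → F) →+ A0) :=
  H.ld i

theorem KH.res_Z1 (H : KH S SD j χ inv tr A ε sp X t) (i : I) {z : G → Fin 2 → F}
    (hz : Z1 S (act A) z) : Z1 (SD i) (act (Ai j A i)) (fun d => z (j i d)) :=
  Z1.comp (H.glob.jsm i) hz

/-- restriction of cocycles -/
def resH (H : KH S SD j χ inv tr A ε sp X t) (i : I) :
    cocS S (A : G → Matrix (Fin 2) (Fin 2) F) →ₗ[F]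
      cocS (SD i) (Ai j A i : D i → Matrix (Fin 2) (Fin 2) F) where
  toFun z := ⟨fun d => z.1 (j i d), H.res_Z1 i z.2⟩
  map_add' _ _ := rfl
  map_smul' _ _ := rfl

/-- a functional that vanishes on the kernel of `R` extends along `R` -/
theorem ext_factor {U P : Type*} [AddCommGroup U] [AddCommGroup P] (R : U →+ P) (φ : U →+ A0)
    (h : ∀ z, R z = 0 → φ z = 0) : ∃ ψ : P →+ A0, ∀ z, ψ (R z) = φ z := by
  have hmem : ∀ q : R.range, ∃ z, R z = q.1 := fun q => q.2
  let f : R.range →+ A0 :=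
    { toFun := fun q => φ (Classical.choose (hmem q))
      map_zero' := by
        have h1 := Classical.choose_spec (hmem 0)
        exact h _ h1
      map_add' := by
        intro q q'
        have h1 := Classical.choose_spec (hmem q)
        have h1' := Classical.choose_spec (hmem q')
        have h1'' := Classical.choose_spec (hmem (q + q'))
        rw [← map_add, ← sub_eq_zero, ← map_sub]
        apply h
        rw [map_sub, map_add, h1, h1', h1'']
        exact sub_self _ }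
  obtain ⟨ψ, hψ⟩ := GP.ext_hom R.range f
  refine ⟨ψ, fun z => ?_⟩
  have h1 := hψ ⟨R z, z, rfl⟩
  rw [h1]
  show φ (Classical.choose (hmem ⟨R z, z, rfl⟩)) = φ z
  have h2 := Classical.choose_spec (hmem ⟨R z, z, rfl⟩)
  rw [← sub_eq_zero, ← map_sub]
  apply h
  rw [map_sub, h2, sub_self]

/-- a functional that vanishes on the intersection of the preimages of `Y i` is a sum of functionals
that vanish on `Y i` -/
theorem ext_sum {U : Type*} [AddCommGroup U] {I : Type*} [Fintype I] {Z : I → Type*}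
    [∀ i, AddCommGroup (Z i)] (r : ∀ i, U →+ Z i) (Y : ∀ i, AddSubgroup (Z i)) (φ : U →+ A0)
    (h : ∀ z, (∀ i, r i z ∈ Y i) → φ z = 0) :
    ∃ ψ : ∀ i, Z i →+ A0, (∀ i, ∀ y ∈ Y i, ψ i y = 0) ∧ ∀ z, φ z = ∑ i, ψ i (r i z) := by
  classical
  let R : U →+ (∀ i, Z i ⧸ Y i) :=
    AddMonoidHom.mk' (fun z i => QuotientAddGroup.mk' (Y i) (r i z))
      (fun z z' => by
        funext i
        rw [map_add, map_add]
        rfl)
  have hR : ∀ z, R z = 0 → φ z = 0 := by
    intro z hz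
    refine h z fun i => ?_
    have h1 : QuotientAddGroup.mk' (Y i) (r i z) = 0 := congrFun hz i
    exact (QuotientAddGroup.eq_zero_iff _).1 h1
  obtain ⟨ψ, hψ⟩ := ext_factor R φ hR
  refine ⟨fun i => ψ.comp ((AddMonoidHom.single (fun i => Z i ⧸ Y i) i).comp
    (QuotientAddGroup.mk' (Y i))), fun i y hy => ?_, fun z => ?_⟩
  · have h1 : QuotientAddGroup.mk' (Y i) y = 0 := (QuotientAddGroup.eq_zero_iff _).2 hy
    rw [AddMonoidHom.comp_apply, AddMonoidHom.comp_apply, h1, map_zero, map_zero]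
  · rw [← hψ]
    have h1 : R z = ∑ i, AddMonoidHom.single (fun i => Z i ⧸ Y i) i (R z i) :=
      (Finset.univ_sum_single (R z)).symm
    rw [h1, map_sum]
    rfl

theorem exists_loc (H : KH S SD j χ inv tr A ε sp X t)
    (Y : ∀ i, Submodule F (D i → Fin 2 → F)) (hB : ∀ i, cobS (Ai j A i) ≤ Y i)
    (φ : cocS S (A : G → Matrix (Fin 2) (Fin 2) F) →+ A0)
    (hφ : ∀ z : cocS S (A : G → Matrix (Fin 2) (Fin 2) F),
      (∀ i, (fun d => z.1 (j i d)) ∈ Y i) → φ z = 0) :
    ∃ s : ∀ i, D i → Fin 2 → F, (∀ i, Z1 (SD i) (act (Ai j A i)) (s i)) ∧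
      (∀ i, ∀ y ∈ Y i, Z1 (SD i) (act (Ai j A i)) y →
        inv i (cup11 (act (Ai j A i)) BU (s i) y) = 0) ∧
      ∀ z : cocS S (A : G → Matrix (Fin 2) (Fin 2) F), φ z =
        ∑ i, inv i (cup11 (act (Ai j A i)) BU (s i) (fun d => z.1 (j i d))) := by
  obtain ⟨ψ, h1, h2⟩ := ext_sum
    (Z := fun i => cocS (SD i) (Ai j A i : D i → Matrix (Fin 2) (Fin 2) F))
    (fun i => (resH H i).toAddMonoidHom)
    (fun i => ((Y i).toAddSubgroup.comap
      (cocS (SD i) (Ai j A i : D i → Matrix (Fin 2) (Fin 2) F)).subtype.toAddMonoidHom)) φ hφ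
  have key : ∀ i, ∃ s : cocS (SD i) (Ai j A i : D i → Matrix (Fin 2) (Fin 2) F),
      ∀ z, ψ i z = inv i (cup11 (act (Ai j A i)) BU s.1 z.1) := by
    intro i
    refine local_rep (H.glob.loc i) (H.det_i i) (H.sm_i i) (H.ld_i i) (ψ i) ?_
    rintro z ⟨m, hm⟩
    exact h1 i z (hB i ⟨m, hm⟩)
  choose s hs using key
  refine ⟨fun i => (s i).1, fun i => (s i).2, fun i y hy hy' => ?_, fun z => ?_⟩
  · rw [← hs i ⟨y, hy'⟩]
    exact h1 i ⟨y, hy'⟩ hy
  · rw [h2]
    refine Finset.sum_congr rfl fun i _ => ?_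
    rw [hs]
    rfl

end Pool.Agent.Work.MP_787500_nt.KS
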