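import Mathlib
import Pool.Agent.Work.MP_787500_nt.KS.Form

/-!
The Kramer step: the diagonal of the form is given by the correction class `k`, and the value at `k`.
-/

set_option autoImplicit false
set_option linter.unusedSectionVars false

namespace Pool.Agent.Work.MP_787500_nt.KS

open Matrix
open Pool.Agent.Work.MP_787500_nt.GP (A0 hf hf_add hf_zero hf_two hf_neg smul_hf eq_hf hf_inj IsAct d0 d1
  d2 tw cup11 cup21 cup12 cup01 cup02)
open Pool.Agent.Work.MP_787500_nt.KR

variable {F : Type*} [Field F] [Finite F] [CharP F 2] [Algebra (ZMod 2) F]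
  {G : Type*} [Group G] {S : FSys G} {I : Type*} [Fintype I] {D : I → Type*}
  [∀ i, Group (D i)] {SD : ∀ i, FSys (D i)} {j : ∀ i, D i →* G} {χ : G → ℤ_[2]}
  {inv : ∀ i, (D i → D i → A0) → A0} {tr : ((G → G → G → A0) × (∀ i, D i → D i → A0)) →+ A0}
  {A : G →* Matrix (Fin 2) (Fin 2) F} {ε : G → ZMod 2}
  {sp : I → Prop} {X : ∀ i, Submodule F (D i → Fin 2 → F)} {t : I → ℕ}

/-- the correction class -/
noncomputable def kc (A : G →* Matrix (Fin 2) (Fin 2) F) : G → Fin 2 → F := fun g => kk (A g)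

theorem smooth_A (hs : Smooth S (act A)) : ∃ W, S.mem W ∧ ∀ w ∈ W, A w = 1 := by
  obtain ⟨W, hW, h⟩ := hs
  refine ⟨W, hW, fun w hw => ?_⟩
  ext a b
  have h1 := congrFun (h w hw (Pi.single b 1)) a
  rw [act, mulVec_single_one] at h1
  rw [one_apply]
  simpa [Pi.single_apply, eq_comm] using h1

theorem kc_Z1 (hA : ∀ g, (A g).det = 1) (hs : Smooth S (act A)) : Z1 S (act A) (kc A) := by
  obtain ⟨W, hW, h⟩ := smooth_A hs
  refine ⟨⟨W, hW, fun g w hw => ?_⟩, fun g h => kk_coc hA g h⟩
  show kk (A (g * w)) = kk (A g)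
  rw [map_mul, h w hw, mul_one]

theorem mm_sm (hs : Smooth S (act A)) : Sm1 S (fun g => mm (A g)) := by
  obtain ⟨W, hW, h⟩ := smooth_A hs
  exact ⟨W, hW, fun g w hw => by
    beta_reduce
    rw [map_mul, h w hw, mul_one]⟩

theorem zmod2_cases (a : ZMod 2) : a = 0 ∨ a = 1 := by
  fin_cases a
  · exact Or.inl rfl
  · exact Or.inr rfl

/-- `hfT (ε • x) = hfT (ε • x ^ 2)` -/
theorem hfT_eps_sq (a : ZMod 2) (x : F) : hfT (a • x) = hfT (a • x ^ 2) := by
  rcases zmod2_cases a with rfl | rfl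
  · rw [zero_smul, zero_smul]
  · rw [one_smul, one_smul, hfT_sq]

theorem TT_diag (H : KH S SD j χ inv tr A ε sp X t) {p v : I → Fin 2 → F}
    {y : G → Fin 2 → F} (hy : Z1 S (act A) y) (hp : IsP j A sp p y) (hv : IsP j A sp v (kc A))
    (α : F) : TT j tr A ε sp (α • p) (α • y) y = TT j tr A ε sp (rt α • v) (rt α • kc A) y := by
  have hrt : rt α ^ 2 = α := rt_sq α
  rw [← sub_eq_zero]
  have hneg : TT j tr A ε sp (rt α • v) (rt α • kc A) y +
      TT j tr A ε sp (rt α • v) (rt α • kc A) y = 0 := by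
    unfold TT
    rw [← map_add, ← map_zero tr]
    congr 1
    refine Prod.ext ?_ ?_
    · funext g h k
      exact hfT_two _
    · funext i u v
      exact hfT_two _
  have h3 := (eq_neg_of_add_eq_zero_left hneg).symm
  rw [sub_eq_add_neg, h3]
  unfold TT
  rw [← map_add]
  have hsm : Sm2 S (fun g h => ε g • (α * qq (y h))) :=
    sm_eps H.esm (sm1_one hy.1 (fun u => α * qq u))
  classical
  have h4 := tr_zero H hsm (fun i u w => if sp i then 0 else
    ε (j i u) • (α * (ee (p i) (y (j i w)) + ee (v i) (y (j i w)) ^ 2))) (by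
    intro i u w
    split_ifs with hi
    · rw [H.esp i hi, zero_smul, add_zero]
    · rw [← smul_add, ← mul_add]
      have h5 := loc_diag (H.det (j i w)) (v := v i) (hv i hi w) (p i)
      rw [← hp i hi w] at h5
      rw [h5, mul_zero, smul_zero])
  rw [← h4]
  congr 1
  refine Prod.ext ?_ ?_
  · funext g h k
    show hfT (ff A ε (α • y) y g h k) + hfT (ff A ε (rt α • kc A) y g h k) =
      hfT (dF2 (fun g h => ε g • (α * qq (y h))) g h k)
    have h6 : hfT (ff A ε (rt α • kc A) y g h k) =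
        hfT (ε g • (α * ee (kk (A h)) (A h *ᵥ y k) ^ 2)) := by
      show hfT (ε g • ee (rt α • kk (A h)) (A h *ᵥ y k)) = _
      rw [hfT_eps_sq, ee_smul_left, mul_pow, hrt]
    have h7 : hfT (ff A ε (α • y) y g h k) = hfT (ε g • (α * ee (y h) (A h *ᵥ y k))) := by
      show hfT (ε g • ee (α • y h) (A h *ᵥ y k)) = _
      rw [ee_smul_left]
    have h8 : dF1 (fun h => α * qq (y h)) h k =
        α * ee (y h) (A h *ᵥ y k) + α * ee (kk (A h)) (A h *ᵥ y k) ^ 2 := by
      rw [← mul_add, ← qq_coc H.det hy.2]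
      unfold dF1
      ring
    rw [h6, h7, ← map_add, leib_chi H.eadd (fun h => α * qq (y h)), h8, smul_add]
  · funext i u w
    show hfT (cc j ε sp (α • p) y i u w) + hfT (cc j ε sp (rt α • v) y i u w) =
      hfT (if sp i then 0 else
        ε (j i u) • (α * (ee (p i) (y (j i w)) + ee (v i) (y (j i w)) ^ 2)))
    unfold cc
    split_ifs with hi
    · rw [map_zero, add_zero]
    · rw [Pi.smul_apply, Pi.smul_apply, ee_smul_left, ee_smul_left, hfT_eps_sq (x := rt α * _),
        mul_pow, hrt, ← map_add, ← smul_add, ← mul_add]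

/-! ### The class `k` is in the strict Selmer space -/

theorem inv_kc {E : Type*} [Group E] {SE : FSys E} {χ : E → ℤ_[2]} {iv : (E → E → A0) → A0}
    {A : E →* Matrix (Fin 2) (Fin 2) F} (L : LocH SE χ iv) (hA : ∀ g, (A g).det = 1)
    (hs : Smooth SE (act A)) {x : E → Fin 2 → F} (hx : Z1 SE (act A) x) :
    iv (cup11 (act A) BU (kc A) x) = iv (cup11 (act A) BU x x) := by
  have P := pair_BU L.char hA hs
  have hk := kc_Z1 hA hs
  have hsm : Sm1 SE (fun g => hfT (qq (x g))) := sm1_one hx.1 (fun u => hfT (qq u))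
  have h1 := L.cob _ hsm
  have h2 : cup11 (act A) BU (kc A) x = fun a b => cup11 (act A) BU x x a b +
      d1 (tw χ) (fun g => hfT (qq (x g))) a b := by
    funext a b
    show hfT (ee (kk (A a)) (A a *ᵥ x b)) = hfT (ee (x a) (A a *ᵥ x b)) +
      (hfT (qq (x a)) + χ a • hfT (qq (x b)) - hfT (qq (x (a * b))))
    rw [smul_hfT (L.char.odd a), sub_eq_add_neg, hfT_neg, ← map_add, ← map_add, ← map_add,
      ← hfT_sq (ee (kk (A a)) (A a *ᵥ x b))]
    congr 1
    have h3 := qq_coc hA hx.2 a b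
    unfold dF1 at h3
    rw [h3]
    linear_combination (norm := (ring_nf; reduce_mod_char!))
  rw [h2, L.add _ _ (cup11_Z2 P hx hx) (d1_tw_Z2 L.char hsm), h1, add_zero]

theorem kc_Rel (H : KH S SD j χ inv tr A ε sp X t) : kc A ∈ Rel S j A sp X := by
  refine ⟨kc_Z1 H.det H.sm, fun i hi => ?_⟩
  have hk : Z1 (SD i) (act (Ai j A i)) (fun d => kc A (j i d)) := H.res_Z1 i (kc_Z1 H.det H.sm)
  rw [H.lag i hi]
  refine ⟨hk, fun y hy => ?_⟩
  have h1 := (H.lag i hi y).1 hy
  have h2 := inv_kc (H.glob.loc i) (H.det_i i) (H.sm_i i) (x := y) h1.1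
  have h3 := h1.2 y hy
  exact h2.trans h3

theorem exists_kv (H : KH S SD j χ inv tr A ε sp X t) : ∃ v : I → Fin 2 → F,
    IsP j A sp v (kc A) := by
  have h : ∀ i, ∃ v : Fin 2 → F, ¬ sp i → ∀ d, kc A (j i d) = A (j i d) *ᵥ v + v := by
    intro i
    by_cases hi : sp i
    · exact ⟨0, fun h => absurd hi h⟩
    · obtain ⟨g₀, hg⟩ := H.cyc i hi
      obtain ⟨v, hv⟩ := kk_cob_cyclic (A := Ai j A i) (H.det_i i) g₀ hg
      exact ⟨v, fun _ => hv⟩
  choose v hv using h
  exact ⟨v, hv⟩

theorem kc_Str (H : KH S SD j χ inv tr A ε sp X t) : kc A ∈ Str S j A sp X := by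
  obtain ⟨v, hv⟩ := exists_kv H
  exact ⟨kc_Rel H, fun i hi => ⟨v i, hv i hi⟩⟩

/-! ### The value at `k` -/

/-- the parity of the dimension of the space of fixed vectors -/
noncomputable def tauZ (g : Matrix (Fin 2) (Fin 2) F) : ZMod 2 :=
  (Module.finrank F (fixv g) : ZMod 2)

theorem tauZ_map {g : Matrix (Fin 2) (Fin 2) F} (hg : g.det = 1) {v : Fin 2 → F}
    (hv : kk g = g *ᵥ v + v) : algebraMap (ZMod 2) F (tauZ g) = ee v (kk g) + mm g := by
  have h1 : g *ᵥ v + kk g = v := by
    rw [hv]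
    ext l
    simp only [Pi.add_apply]
    linear_combination (norm := (ring_nf; reduce_mod_char!))
  rw [loc_tau hv, tau_eq hg h1]
  unfold tauZ
  rw [map_natCast]

theorem tauZ_mul {E : Type*} [Group E] {A : E →* Matrix (Fin 2) (Fin 2) F}
    (hA : ∀ g, (A g).det = 1) {v : Fin 2 → F} (hv : ∀ g, kk (A g) = A g *ᵥ v + v) (g h : E) :
    tauZ (A (g * h)) = tauZ (A g) + tauZ (A h) := by
  apply (algebraMap (ZMod 2) F).injective
  rw [map_add, tauZ_map (hA _) (hv _), tauZ_map (hA _) (hv _), tauZ_map (hA _) (hv _)]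
  have h1 := mm_coc hA g h
  unfold dF1 at h1
  have h2 := kk_coc hA g h
  dsimp only at h2
  rw [h2, ee_add_right]
  have h3 : ee (kk (A g)) (A g *ᵥ kk (A h)) =
      ee v (kk (A h)) + ee v (A g *ᵥ kk (A h)) := by
    nth_rewrite 1 [hv g]
    rw [ee_add_left, ee_mulVec (hA g)]
  rw [h3] at h1
  linear_combination (norm := (ring_nf; reduce_mod_char!)) h1

theorem hf_cup_Z2 {E : Type*} [Group E] {SE : FSys E} {χ : E → ℤ_[2]} (hχ : IsChar SE χ)
    {a b : E → ZMod 2} (ha : Sm1 SE a) (hb : Sm1 SE b) (ha' : ∀ g h, a (g * h) = a g + a h)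
    (hb' : ∀ g h, b (g * h) = b g + b h) : Z2 SE (tw χ) (fun u v => hf (a u * b v)) := by
  refine ⟨sm2_pair ha hb (fun x y => hf (x * y)), fun u v w => ?_⟩
  show χ u • hf (a v * b w) - hf (a (u * v) * b w) + hf (a u * b (v * w)) - hf (a u * b v) = 0
  rw [smul_hf (hχ.odd u), sub_eq_add_neg, sub_eq_add_neg, hf_neg, hf_neg, ← hf_add, ← hf_add,
    ← hf_add, ha', hb', ← hf_zero]
  congr 1
  have h2 : (2 : ZMod 2) = 0 := rfl
  linear_combination (a v * b w + a u * b w + a u * b v) * h2

open scoped Classical in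
theorem TT_kk (H : KH S SD j χ inv tr A ε sp X t) {v : I → Fin 2 → F} (hv : IsP j A sp v (kc A))
    (α : F) : TT j tr A ε sp (α • v) (α • kc A) (kc A) =
      hf (Algebra.trace (ZMod 2) F α * ((∑ i, if sp i then 0 else t i : ℕ) : ZMod 2)) := by
  have hsm : Sm2 S (fun g h => ε g • (α * mm (A h))) :=
    sm_eps H.esm (sm1_one (mm_sm H.sm) (fun u => α * u))
  have hloc : ∀ i, (fun u w => hfT (cc j ε sp (α • v) (kc A) i u w +
      (ε (j i u) • (α * mm (A (j i w)))))) = fun u w =>
      if sp i then 0 else hf (ε (j i u) * (Algebra.trace (ZMod 2) F α * tauZ (A (j i w)))) := by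
    intro i
    funext u w
    unfold cc
    split_ifs with hi
    · rw [H.esp i hi, zero_smul, add_zero, map_zero]
    · rw [← smul_add, Pi.smul_apply, ee_smul_left, ← mul_add]
      show hfT (ε (j i u) • (α * (ee (v i) (kk (A (j i w))) + mm (A (j i w))))) = _
      rw [← tauZ_map (H.det _) (hv i hi w), hfT_smul, mul_comm α, ← Algebra.smul_def, map_smul,
        smul_eq_mul, mul_comm (tauZ _)]
  have hZ : ∀ i, Z2 (SD i) (tw fun d => χ (j i d)) (fun u w =>
      if sp i then 0 else hf (ε (j i u) * (Algebra.trace (ZMod 2) F α * tauZ (A (j i w))))) := by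
    intro i
    by_cases hi : sp i
    · simp only [hi, if_true]
      exact zero_Z2
    · simp only [hi, if_false]
      refine hf_cup_Z2 (H.glob.loc i).char (H.esm.comp (H.glob.jsm i)) ?_
        (fun g h => by rw [map_mul, H.eadd]) (fun g h => ?_)
      · obtain ⟨W, hW, h1⟩ := smooth_A (H.sm_i i)
        refine ⟨W, hW, fun g w hw => ?_⟩
        have h2 : A (j i (g * w)) = A (j i g) := by
          have h3 : A (j i w) = 1 := h1 w hw
          rw [map_mul, map_mul, h3, mul_one]
        beta_reduce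
        rw [h2]
      · rw [← mul_add]
        congr 1
        exact tauZ_mul (A := Ai j A i) (H.det_i i) (v := v i) (hv i hi) g h
  have h4 := tr_eval H hsm (cc j ε sp (α • v) (kc A)) (fun i => by
    rw [hloc i]
    exact hZ i)
  have h5 : TT j tr A ε sp (α • v) (α • kc A) (kc A) =
      tr (fun g h k => hfT (dF2 (fun g h => ε g • (α * mm (A h))) g h k),
        fun i u w => hfT (cc j ε sp (α • v) (kc A) i u w)) := by
    unfold TT
    congr 2
    funext g h k
    congr 1
    rw [leib_chi H.eadd (fun h => α * mm (A h))]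
    show ε g • ee (α • kk (A h)) (A h *ᵥ kk (A k)) = _
    rw [ee_smul_left, ← mm_coc H.det]
    congr 1
    unfold dF1
    ring
  rw [h5, h4]
  have h6 : ∀ i, inv i (fun u w => hfT (cc j ε sp (α • v) (kc A) i u w +
      (ε (j i u) • (α * mm (A (j i w)))))) =
      hf (Algebra.trace (ZMod 2) F α * ((if sp i then 0 else t i : ℕ) : ZMod 2)) := by
    intro i
    rw [hloc i]
    by_cases hi : sp i
    · simp only [hi, if_true]
      rw [inv_zero (H.glob.loc i), Nat.cast_zero, mul_zero, hf_zero]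
    · simp only [hi, if_false]
      rcases zmod2_cases (Algebra.trace (ZMod 2) F α) with h | h
      · rw [h]
        simp only [zero_mul, mul_zero, hf_zero]
        exact inv_zero (H.glob.loc i)
      · rw [h]
        simp only [one_mul]
        exact H.tau i hi
  rw [Finset.sum_congr rfl fun i _ => h6 i]
  have h7 : ∀ s : Finset I, ∑ i ∈ s, hf (Algebra.trace (ZMod 2) F α *
      ((if sp i then 0 else t i : ℕ) : ZMod 2)) =
      hf (Algebra.trace (ZMod 2) F α * ((∑ i ∈ s, if sp i then 0 else t i : ℕ) : ZMod 2)) := by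
    intro s
    induction s using Finset.induction_on with
    | empty => rw [Finset.sum_empty, Finset.sum_empty, Nat.cast_zero, mul_zero, hf_zero]
    | insert a s ha ih =>
      rw [Finset.sum_insert ha, Finset.sum_insert ha, ih, ← hf_add, ← mul_add, ← Nat.cast_add]
  exact h7 Finset.univ

end Pool.Agent.Work.MP_787500_nt.KS
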