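import Mathlib
import Pool.Agent.Work.MP_787500_nt.KR.Defs
import Pool.Agent.Work.MP_787500_nt.KS.Alg

/-!
The plane over the field with two elements.
-/

set_option autoImplicit false
set_option linter.unusedSectionVars false

namespace Pool.Agent.Work.MP_787500_nt.KS

open Pool.Agent.Work.MP_787500_nt.GP (IsAct d0)

/-- the plane over the field with two elements -/
abbrev P2 : Type := Fin 2 → ZMod 2

/-- the invariant quadratic form -/
def qf (x : P2) : ZMod 2 := x 0 + x 1 + x 0 * x 1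

theorem qf_zero : qf 0 = 0 := by simp [qf]

theorem qf_add : ∀ x y : P2, qf (x + y) = qf x + qf y + ee x y := by
  unfold ee qf
  decide

theorem qf_eq : ∀ x : P2, qf x = if x = 0 then 0 else 1 := by
  unfold qf
  decide

theorem p2_add_self (x : P2) : x + x = 0 := by
  ext i
  exact CharTwo.add_self_eq_zero _

theorem p2_sub (x y : P2) : x - y = x + y := by
  rw [sub_eq_iff_eq_add, add_assoc, p2_add_self, add_zero]

theorem p2_neg (x : P2) : -x = x := by
  rw [neg_eq_iff_add_eq_zero, p2_add_self]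

theorem p2_smul (a : ZMod 2) (x : P2) : a • x = 0 ∨ a • x = x := by
  have h : a = 0 ∨ a = 1 := by
    revert a
    decide
  rcases h with rfl | rfl
  · left
    exact zero_smul _ _
  · right
    exact one_smul _ _

theorem p2_lin {f : P2 → P2} (hf : ∀ x y, f (x + y) = f x + f y) (a : ZMod 2) (x : P2) :
    f (a • x) = a • f x := by
  have h0 : f 0 = 0 := by
    have := hf 0 0
    rw [add_zero] at this
    exact left_eq_add.1 this
  have h : a = 0 ∨ a = 1 := by
    revert a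
    decide
  rcases h with rfl | rfl
  · rw [zero_smul, zero_smul, h0]
  · rw [one_smul, one_smul]

/-- the first basis vector -/
def b0 : P2 := ![1, 0]

/-- the second basis vector -/
def b1 : P2 := ![0, 1]

theorem p2_basis : ∀ x : P2, x = x 0 • b0 + x 1 • b1 := by
  unfold b0 b1
  decide

/-- a linear map is given by the images of the basis vectors -/
theorem p2_eq {f : P2 → P2} (hf : ∀ x y, f (x + y) = f x + f y) (x : P2) :
    f x = x 0 • f b0 + x 1 • f b1 := by
  conv_lhs => rw [p2_basis x]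
  rw [hf, p2_lin hf, p2_lin hf]

theorem ee_one_iff : ∀ x y : P2, ee x y = 1 ↔ x ≠ 0 ∧ y ≠ 0 ∧ x ≠ y := by
  unfold ee
  decide

theorem ee_map_aux : ∀ p q x y : P2, ee p q = 1 →
    ee (x 0 • p + x 1 • q) (y 0 • p + y 1 • q) = ee x y := by
  unfold ee
  decide

theorem inj_det {f : P2 → P2} (hi : Function.Injective f)
    (h0 : f 0 = 0) : ee (f b0) (f b1) = 1 := by
  rw [ee_one_iff]
  refine ⟨fun h => ?_, fun h => ?_, fun h => ?_⟩
  · have := hi (h.trans h0.symm)
    revert this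
    unfold b0
    decide
  · have := hi (h.trans h0.symm)
    revert this
    unfold b1
    decide
  · have := hi h
    revert this
    unfold b0 b1
    decide

theorem ee_map {f : P2 → P2} (hf : ∀ x y, f (x + y) = f x + f y) (hi : Function.Injective f)
    (x y : P2) : ee (f x) (f y) = ee x y := by
  have h0 : f 0 = 0 := by
    have := hf 0 0
    rw [add_zero] at this
    exact left_eq_add.1 this
  rw [p2_eq hf x, p2_eq hf y]
  exact ee_map_aux _ _ _ _ (inj_det hi h0)

theorem qf_map {f : P2 → P2} (hf : ∀ x y, f (x + y) = f x + f y) (hi : Function.Injective f)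
    (x : P2) : qf (f x) = qf x := by
  have h0 : f 0 = 0 := by
    have := hf 0 0
    rw [add_zero] at this
    exact left_eq_add.1 this
  rw [qf_eq, qf_eq]
  by_cases hx : x = 0
  · rw [hx, h0]
  · have : f x ≠ 0 := fun h => hx (hi (h.trans h0.symm))
    rw [if_neg hx, if_neg this]

/-! ## The sign -/

/-- the sign of a linear automorphism, seen as a permutation of the three nonzero vectors -/
def sg (f : P2 → P2) : ZMod 2 := f b0 0 + f b0 1 + f b1 0 + f b1 1 + f b1 0 * f b0 1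

theorem sg_mul_aux : ∀ p q p' q' : P2, ee p q = 1 → ee p' q' = 1 →
    (p' 0 • p + p' 1 • q) 0 + (p' 0 • p + p' 1 • q) 1 + (q' 0 • p + q' 1 • q) 0 +
      (q' 0 • p + q' 1 • q) 1 + (q' 0 • p + q' 1 • q) 0 * (p' 0 • p + p' 1 • q) 1 =
    (p 0 + p 1 + q 0 + q 1 + q 0 * p 1) + (p' 0 + p' 1 + q' 0 + q' 1 + q' 0 * p' 1) := by
  unfold ee
  decide

theorem sg_comp {f f' : P2 → P2} (hf : ∀ x y, f (x + y) = f x + f y) (hi : Function.Injective f)
    (h0 : f 0 = 0) (hi' : Function.Injective f') (h0' : f' 0 = 0) :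
    sg (fun x => f (f' x)) = sg f + sg f' := by
  unfold sg
  show f (f' b0) 0 + f (f' b0) 1 + f (f' b1) 0 + f (f' b1) 1 + f (f' b1) 0 * f (f' b0) 1 = _
  rw [p2_eq hf (f' b0), p2_eq hf (f' b1)]
  exact sg_mul_aux _ _ _ _ (inj_det hi h0) (inj_det hi' h0')

section act

variable {G : Type*} [Group G] {υ : G → P2 → P2}

theorem act_inj (h : IsAct υ) (g : G) : Function.Injective (υ g) := by
  intro x y hxy
  rw [← h.one x, ← inv_mul_cancel g, h.mul, hxy, ← h.mul, inv_mul_cancel, h.one]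

theorem act_zero (h : IsAct υ) (g : G) : υ g 0 = 0 := by
  have := h.add g 0 0
  rw [add_zero] at this
  exact left_eq_add.1 this

theorem act_smul (h : IsAct υ) (g : G) (a : ZMod 2) (x : P2) : υ g (a • x) = a • υ g x :=
  p2_lin (h.add g) a x

theorem act_ee (h : IsAct υ) (g : G) (x y : P2) : ee (υ g x) (υ g y) = ee x y :=
  ee_map (h.add g) (act_inj h g) x y

theorem act_qf (h : IsAct υ) (g : G) (x : P2) : qf (υ g x) = qf x :=
  qf_map (h.add g) (act_inj h g) x

theorem act_inv (h : IsAct υ) (g : G) (x : P2) : υ g⁻¹ (υ g x) = x := by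
  rw [← h.mul, inv_mul_cancel, h.one]

theorem act_inv' (h : IsAct υ) (g : G) (x : P2) : υ g (υ g⁻¹ x) = x := by
  rw [← h.mul, mul_inv_cancel, h.one]

theorem act_sg_mul (h : IsAct υ) (g g' : G) : sg (υ (g * g')) = sg (υ g) + sg (υ g') := by
  have : υ (g * g') = fun x => υ g (υ g' x) := funext fun x => h.mul g g' x
  rw [this]
  exact sg_comp (h.add g) (act_inj h g) (act_zero h g) (act_inj h g') (act_zero h g')

/-- the fixed vectors -/
def FX (h : IsAct υ) : Submodule (ZMod 2) P2 where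
  carrier := {m | ∀ g, υ g m = m}
  add_mem' := by
    intro a b ha hb g
    rw [h.add, ha, hb]
  zero_mem' := act_zero h
  smul_mem' := by
    intro c a ha g
    rw [act_smul h, ha]

theorem mem_FX {h : IsAct υ} {m : P2} : m ∈ FX h ↔ ∀ g, υ g m = m := Iff.rfl

theorem p2_finrank : Module.finrank (ZMod 2) P2 = 2 := by simp

theorem fx_le (h : IsAct υ) : Module.finrank (ZMod 2) (FX h) ≤ 2 := by
  have := Submodule.finrank_le (FX h)
  rwa [p2_finrank] at this

theorem p2_third : ∀ v w x : P2, v ≠ 0 → w ≠ 0 → ¬ v = w → x ≠ 0 → x = v ∨ x = w ∨ x = v + w := by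
  decide

theorem p2_span_aux : ∀ v m w : P2, v = 0 ∨ m = 0 ∨ v = m ∨ w = 0 ∨ w = v ∨ w = m ∨ w = v + m := by
  decide

theorem p2_span (v w m : P2) (hv : v ≠ 0) (hm : m ≠ 0) (h : v ≠ m) :
    w = 0 ∨ w = v ∨ w = m ∨ w = v + m :=
  (((p2_span_aux v m w).resolve_left hv).resolve_left hm).resolve_left h

theorem p2_ne : ∀ m : P2, ∃ w : P2, w ≠ 0 ∧ w ≠ m := by
  decide

theorem p2_count : ∀ p q : P2, ee p q = 1 →
    (Nat.card {m : P2 // m 0 • p + m 1 • q = m} = 1 ∧
      p 0 + p 1 + q 0 + q 1 + q 0 * p 1 = 0) ∨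
    (Nat.card {m : P2 // m 0 • p + m 1 • q = m} = 2 ∧
      p 0 + p 1 + q 0 + q 1 + q 0 * p 1 = 1) ∨
    (Nat.card {m : P2 // m 0 • p + m 1 • q = m} = 4 ∧
      p 0 + p 1 + q 0 + q 1 + q 0 * p 1 = 0) := by
  simp only [Nat.card_eq_fintype_card, Fintype.card_subtype]
  unfold ee
  decide

/-- the trichotomy -/
theorem act_cases (h : IsAct υ) : (∀ g m, υ g m = m) ∨
    (∃ v g w, v ≠ 0 ∧ υ g w ≠ w ∧ ∀ g, υ g v = v) ∨
    ∀ v w, v ≠ 0 → w ≠ 0 → ∃ g, υ g v = w := by
  by_cases h1 : ∀ g m, υ g m = m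
  · exact Or.inl h1
  push Not at h1
  obtain ⟨g₀, w₀, hw₀⟩ := h1
  by_cases h2 : ∃ v : P2, v ≠ 0 ∧ ∀ g, υ g v = v
  · obtain ⟨v, hv, hv'⟩ := h2
    exact Or.inr (Or.inl ⟨v, g₀, w₀, hv, hw₀, hv'⟩)
  refine Or.inr (Or.inr fun v w hv hw => ?_)
  push Not at h2
  by_cases hvw : v = w
  · exact ⟨1, by rw [h.one, hvw]⟩
  have h3 : ∀ x : P2, x ≠ 0 → x = v ∨ x = w ∨ x = v + w := fun x =>
    p2_third v w x hv hw hvw
  have hne : ∀ g x, x ≠ 0 → υ g x ≠ 0 := fun g x hx h0 =>
    hx (act_inj h g (h0.trans (act_zero h g).symm))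
  obtain ⟨g, hg⟩ := h2 v hv
  obtain ⟨g', hg'⟩ := h2 w hw
  rcases h3 _ (hne g v hv) with h4 | h4 | h4
  · exact absurd h4 hg
  · exact ⟨g, h4⟩
  rcases h3 _ (hne g' w hw) with h5 | h5 | h5
  · refine ⟨g'⁻¹, ?_⟩
    rw [← h5, act_inv h]
  · exact absurd h5 hg'
  · refine ⟨g'⁻¹ * g, ?_⟩
    rw [h.mul, h4, ← h5, act_inv h]

theorem fx_triv {h : IsAct υ} (h1 : ∀ g m, υ g m = m) : Module.finrank (ZMod 2) (FX h) = 2 := by
  have : FX h = ⊤ := by
    ext m
    simp [mem_FX, h1]
  rw [this, finrank_top, p2_finrank]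

theorem fx_two {h : IsAct υ} {v w : P2} {g : G} (hv : v ≠ 0) (hw : υ g w ≠ w)
    (hv' : ∀ g, υ g v = v) : FX h = Submodule.span (ZMod 2) {v} ∧
      Module.finrank (ZMod 2) (FX h) = 1 := by
  have e : FX h = Submodule.span (ZMod 2) {v} := by
    ext m
    rw [Submodule.mem_span_singleton]
    constructor
    · intro hm
      by_contra h2
      push Not at h2
      have hm0 : m ≠ 0 := fun h0 => h2 0 (by rw [zero_smul, h0])
      have hmv : v ≠ m := fun h0 => h2 1 (by rw [one_smul, h0])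
      have h3 := p2_span v w m hv hm0 hmv
      apply hw
      rcases h3 with rfl | rfl | rfl | rfl
      · exact act_zero h g
      · exact hv' g
      · exact hm g
      · rw [h.add, hv', hm g]
    · rintro ⟨a, rfl⟩ g
      rw [act_smul h, hv']
  refine ⟨e, ?_⟩
  rw [e, finrank_span_singleton hv]

theorem fx_tr {h : IsAct υ} (ht : ∀ v w, v ≠ 0 → w ≠ 0 → ∃ g, υ g v = w) : FX h = ⊥ := by
  rw [eq_bot_iff]
  intro m hm
  rw [Submodule.mem_bot]
  by_contra h0
  obtain ⟨w, hw0, hw⟩ := p2_ne m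
  obtain ⟨g, hg⟩ := ht m w h0 hw0
  rw [hm g] at hg
  exact hw hg.symm

theorem fx_tr' {h : IsAct υ} (ht : ∀ v w, v ≠ 0 → w ≠ 0 → ∃ g, υ g v = w) :
    Module.finrank (ZMod 2) (FX h) = 0 := by
  rw [fx_tr ht, finrank_bot]

/-- the sign is the parity of the dimension of the fixed space of a cyclic group -/
theorem fx_sg {h : IsAct υ} {σ : G} (hσ : ∀ m, υ σ m = m → ∀ g, υ g m = m) :
    (Module.finrank (ZMod 2) (FX h) : ZMod 2) = sg (υ σ) := by
  have hmem : ∀ m, m ∈ FX h ↔ m 0 • υ σ b0 + m 1 • υ σ b1 = m := by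
    intro m
    rw [← p2_eq (h.add σ), mem_FX]
    exact ⟨fun h1 => h1 σ, hσ m⟩
  have hd := inj_det (act_inj h σ) (act_zero h σ)
  have hcard : Nat.card (FX h) = Nat.card {m : P2 // m 0 • υ σ b0 + m 1 • υ σ b1 = m} :=
    Nat.card_congr (Equiv.subtypeEquivRight hmem)
  have h2 : Nat.card (FX h) = 2 ^ Module.finrank (ZMod 2) (FX h) := by
    rw [Module.natCard_eq_pow_finrank (K := ZMod 2), Nat.card_zmod]
  rcases p2_count _ _ hd with ⟨h3, h4⟩ | ⟨h3, h4⟩ | ⟨h3, h4⟩
  · have : Module.finrank (ZMod 2) (FX h) = 0 := by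
      rw [hcard, h3] at h2
      exact (Nat.pow_eq_one.1 h2.symm).resolve_left (by norm_num)
    rw [this]
    exact h4.symm
  · have : Module.finrank (ZMod 2) (FX h) = 1 := by
      rw [hcard, h3] at h2
      exact Nat.pow_right_injective le_rfl (by simpa using h2.symm)
    rw [this]
    exact h4.symm
  · have : Module.finrank (ZMod 2) (FX h) = 2 := by
      rw [hcard, h3] at h2
      exact Nat.pow_right_injective le_rfl (by simpa using h2.symm)
    rw [this]
    exact h4.symm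

end act

end Pool.Agent.Work.MP_787500_nt.KS
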