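import Mathlib
import Pool.Agent.Work.MP_787500_nt.KR.PDefs
import Pool.Agent.Work.MP_787500_nt.KR.Sys
import Pool.Agent.Work.MP_787500_nt.KS.V1

/-!
The cocycles with values in the plane over the field with two elements, in terms of homomorphisms: the
group acts transitively on the three nonzero vectors.
-/

set_option autoImplicit false
set_option linter.unusedSectionVars false

namespace Pool.Agent.Work.MP_787500_nt.KS

open Pool.Agent.Work.MP_787500_nt.GP (IsAct d0)
open Pool.Agent.Work.MP_787500_nt.PA (TwoSys homs)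
open Pool.Agent.Work.MP_787500_nt.KR (FSys Z1 Sm1 Smooth two res zM)

section homs

variable {X : Type*} [Group X] (F : FSys X)

theorem mem_homs_two {f : X → ZMod 2} : f ∈ homs (two F) ⊤ ↔
    (∃ W, F.mem W ∧ ∀ w ∈ W, f w = 0) ∧ ∀ a b, f (a * b) = f a + f b := by
  constructor
  · rintro ⟨⟨W, ⟨-, ⟨W₁, h1, h2⟩, -⟩, h3⟩, -, h4⟩
    have h5 : ∀ a b, f (a * b) = f a + f b := fun a b => h4 a trivial b trivial
    have h6 : f 1 = 0 := by
      have := h5 1 1
      rw [one_mul] at this
      exact left_eq_add.1 this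
    refine ⟨⟨W₁, h1, fun w hw => ?_⟩, h5⟩
    have := h3 1 w (h2 hw)
    rwa [one_mul, h6] at this
  · rintro ⟨⟨W, h1, h2⟩, h3⟩
    have h6 : f 1 = 0 := by
      have := h3 1 1
      rw [one_mul] at this
      exact left_eq_add.1 this
    have hinv : ∀ a, f a⁻¹ = f a := by
      intro a
      have := h3 a a⁻¹
      rw [mul_inv_cancel, h6] at this
      exact (CharTwo.add_eq_zero.1 this.symm).symm
    let φ : X →* Multiplicative (ZMod 2) :=
      { toFun := fun a => Multiplicative.ofAdd (f a)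
        map_one' := by rw [h6]; rfl
        map_mul' := fun a b => by rw [h3]; rfl }
    have hk : ∀ a, a ∈ φ.ker ↔ f a = 0 := fun a => Iff.rfl
    refine ⟨⟨φ.ker, ⟨inferInstance, ⟨W, h1, fun w hw => (hk w).2 (h2 w hw)⟩, ?_⟩, fun g w hw => ?_⟩,
      fun g hg => absurd trivial hg, fun g _ h _ => h3 g h⟩
    · have h7 : φ.ker.index = Nat.card φ.range := by
        rw [Subgroup.index_ker]
      have h8 : Nat.card φ.range ∣ Nat.card (Multiplicative (ZMod 2)) :=
        Subgroup.card_subgroup_dvd_card _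
      have h9 : Nat.card (Multiplicative (ZMod 2)) = 2 ^ 1 := by
        rw [pow_one]
        exact Nat.card_zmod 2
      rw [h9] at h8
      obtain ⟨k, -, hk⟩ := (Nat.dvd_prime_pow Nat.prime_two).1 h8
      exact ⟨k, h7.trans hk⟩
    · rw [h3, (hk w).1 hw, add_zero]

theorem mem_homs_res {C : Subgroup X} {f : C → ZMod 2} : f ∈ homs (two (res F C)) ⊤ ↔
    (∃ W, F.mem W ∧ ∀ w : C, (w : X) ∈ W → f w = 0) ∧ ∀ a b, f (a * b) = f a + f b := by
  rw [mem_homs_two]
  refine and_congr_left fun h3 => ?_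
  constructor
  · rintro ⟨V, ⟨-, W, h1, h2⟩, h4⟩
    exact ⟨W, h1, fun w hw => h4 w (h2 (Subgroup.mem_subgroupOf.2 hw))⟩
  · rintro ⟨W, h1, h2⟩
    have := F.normal h1
    exact ⟨W.subgroupOf C, ⟨inferInstance, W, h1, le_rfl⟩,
      fun w hw => h2 w (Subgroup.mem_subgroupOf.1 hw)⟩

end homs

section act

variable {G : Type*} [Group G] (F : FSys G) {υ : G → P2 → P2}

/-- the space of cocycles -/
abbrev ZU (h : IsAct υ) : Submodule (ZMod 2) (G → P2) := zM (O := ZMod 2) F h (act_smul h)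

theorem mem_ZU {h : IsAct υ} {x : G → P2} : x ∈ ZU F h ↔ Z1 F υ x := Iff.rfl

theorem z1_one {h : IsAct υ} {x : G → P2} (hx : Z1 F υ x) : x 1 = 0 := by
  have := hx.2 1 1
  rw [one_mul, h.one] at this
  exact left_eq_add.1 this

theorem z1_inv {h : IsAct υ} {x : G → P2} (hx : Z1 F υ x) (g : G) : x g⁻¹ = υ g⁻¹ (x g) := by
  have h1 := hx.2 g⁻¹ g
  rw [inv_mul_cancel, z1_one (h := h) F hx] at h1
  rw [← add_zero (υ g⁻¹ (x g)), h1, add_left_comm, p2_add_self, add_zero]

theorem mem_zu_iff (h : IsAct υ) {x : G → P2} : Z1 F υ x ↔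
    (∃ W, F.mem W ∧ ∀ w ∈ W, x w = 0) ∧ ∀ a b, x (a * b) = x a + υ a (x b) := by
  constructor
  · intro hx
    obtain ⟨⟨W, hW, h1⟩, h2⟩ := id hx
    refine ⟨⟨W, hW, fun w hw => ?_⟩, h2⟩
    have := h1 1 w hw
    rwa [one_mul, z1_one (h := h) F hx] at this
  · rintro ⟨⟨W, hW, h1⟩, h2⟩
    refine ⟨⟨W, hW, fun g w hw => ?_⟩, h2⟩
    rw [h2, h1 w hw, act_zero h, add_zero]

/-- the coboundaries -/
def dM (hs : Smooth F υ) (h : IsAct υ) : P2 →ₗ[ZMod 2] ZU F h where
  toFun m := ⟨d0 υ m, by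
    obtain ⟨W, hW, h1⟩ := hs
    rw [mem_ZU, mem_zu_iff F h]
    refine ⟨⟨W, hW, fun w hw => ?_⟩, fun a b => ?_⟩
    · show υ w m - m = 0
      rw [h1 w hw, sub_self]
    · show υ (a * b) m - m = υ a m - m + υ a (υ b m - m)
      rw [p2_sub, p2_sub, p2_sub, h.add, ← h.mul]
      rw [show υ a m + m + (υ (a * b) m + υ a m) = (υ a m + υ a m) + (υ (a * b) m + m) by abel,
        p2_add_self, zero_add]⟩
  map_add' m m' := by
    apply Subtype.ext
    funext g
    show υ g (m + m') - (m + m') = υ g m - m + (υ g m' - m')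
    rw [h.add]
    abel
  map_smul' a m := by
    apply Subtype.ext
    funext g
    show υ g (a • m) - a • m = a • (υ g m - m)
    rw [act_smul h, smul_sub]

theorem dM_apply (hs : Smooth F υ) (h : IsAct υ) (m : P2) (g : G) :
    (dM F hs h m : G → P2) g = υ g m + m := p2_sub _ _

theorem ker_dM (hs : Smooth F υ) (h : IsAct υ) : LinearMap.ker (dM F hs h) = FX h := by
  ext m
  rw [LinearMap.mem_ker, mem_FX]
  constructor
  · intro h1 g
    have := congrFun (congrArg Subtype.val h1) g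
    rw [dM_apply] at this
    exact (CharTwo.add_eq_zero (R := P2)).1 this
  · intro h1
    apply Subtype.ext
    funext g
    rw [dM_apply, h1 g, p2_add_self]
    rfl

/-- the stabilizer of a vector -/
def Stc (h : IsAct υ) (v : P2) : Subgroup G where
  carrier := {g | υ g v = v}
  mul_mem' := by
    intro a b ha hb
    show υ (a * b) v = v
    rw [h.mul, show υ b v = v from hb, show υ a v = v from ha]
  one_mem' := h.one v
  inv_mem' := by
    intro a ha
    show υ a⁻¹ v = v
    conv_lhs => rw [← show υ a v = v from ha]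
    rw [act_inv h]

theorem mem_Stc {h : IsAct υ} {v : P2} {g : G} : g ∈ Stc h v ↔ υ g v = v := Iff.rfl

end act

end Pool.Agent.Work.MP_787500_nt.KS
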