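import Mathlib
import Pool.Agent.Work.MP_787500_nt.KR.F06
import Pool.Agent.Work.MP_787500_nt.KS.V2
import Pool.Agent.Work.MP_787500_nt.KS.LA

/-!
The local cup product form on cocycles with values in the plane over the field with two elements.
-/

set_option autoImplicit false
set_option linter.unusedSectionVars false

namespace Pool.Agent.Work.MP_787500_nt.KS

open Pool.Agent.Work.MP_787500_nt.GP (A0 half hf hf_zero hf_one hf_add hf_inj hf_two eq_hf smul_hf
  IsAct d0 d1 tw cup11 cup01)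
open Pool.Agent.Work.MP_787500_nt.PA (TwoSys homs)
open Pool.Agent.Work.MP_787500_nt.KR (FSys Z1 Z2 Sm1 Smooth two res zM LocH Pair IsChar)

/-- the form with values in `ℚ_2 / ℤ_2` -/
noncomputable def eP : P2 →+ P2 →+ A0 :=
  AddMonoidHom.mk' (fun m => AddMonoidHom.mk' (fun m' => hf (ee m m'))
      (fun a b => by rw [ee_add_right, hf_add]))
    (fun a b => AddMonoidHom.ext fun c => by
      show hf (ee (a + b) c) = hf (ee a c) + hf (ee b c)
      rw [ee_add_left, hf_add])

theorem eP_apply (m m' : P2) : eP m m' = hf (ee m m') := rfl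

open scoped Classical in
/-- the inverse of `hf` -/
noncomputable def tf (t : A0) : ZMod 2 := if t = 0 then 0 else 1

theorem tf_hf (a : ZMod 2) : tf (hf a) = a := by
  have h : a = 0 ∨ a = 1 := by
    revert a
    decide
  unfold tf
  rcases h with rfl | rfl
  · rw [if_pos hf_zero]
  · rw [if_neg]
    intro h0
    exact one_ne_zero (hf_inj (h0.trans hf_zero.symm))

section loc

variable {D : Type*} [Group D] {SD : FSys D} {χ : D → ℤ_[2]} {inv : (D → D → A0) → A0}
  {υ : D → P2 → P2}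

theorem pairP (hc : IsChar SD χ) (h : IsAct υ) (hsm : Smooth SD υ) : Pair SD χ υ υ eP where
  act := h
  act' := h
  sm := hsm
  sm' := hsm
  eqv g m m' := by
    rw [eP_apply, eP_apply, act_ee h, smul_hf (hc.odd g)]
  nd m hm := ee_nondeg fun y => hf_inj ((hm y).trans hf_zero.symm)
  nd' m hm := ee_nondeg fun y => by
    rw [ee_comm]
    exact hf_inj ((hm y).trans hf_zero.symm)

theorem inv_zero' (L : LocH SD χ inv) : inv (fun _ _ => 0) = 0 := by
  have h := L.cob (fun _ => 0) (by
    obtain ⟨W, hW⟩ := SD.ex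
    exact ⟨W, hW, fun _ _ _ => rfl⟩)
  have e : d1 (tw χ) (fun _ => (0 : A0)) = fun _ _ => 0 := by
    funext a b
    simp [d1, tw]
  rwa [e] at h

variable (L : LocH SD χ inv) (h : IsAct υ) (hsm : Smooth SD υ)

include L h hsm in
theorem inv_two {x y : D → P2} (hx : Z1 SD υ x) (hy : Z1 SD υ y) :
    ∃ a, inv (cup11 υ eP x y) = hf a := by
  refine eq_hf ?_
  have hz := KR.cup11_Z2 (pairP L.char h hsm) hx hy
  rw [← L.add _ _ hz hz]
  have e : (fun a b => cup11 υ eP x y a b + cup11 υ eP x y a b) = fun _ _ => 0 := by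
    funext a b
    exact hf_two _
  rw [e]
  exact inv_zero' L

/-- the form -/
noncomputable def bL : ZU SD h →ₗ[ZMod 2] ZU SD h →ₗ[ZMod 2] ZMod 2 :=
  have key : ∀ x y : ZU SD h, inv (cup11 υ eP (x : D → P2) y) =
      hf (tf (inv (cup11 υ eP (x : D → P2) y))) := fun x y => by
    obtain ⟨a, ha⟩ := inv_two L h hsm x.2 y.2
    rw [ha, tf_hf]
  have hl : ∀ x x' y : ZU SD h, tf (inv (cup11 υ eP ((x + x' : ZU SD h) : D → P2) y)) =
      tf (inv (cup11 υ eP (x : D → P2) y)) + tf (inv (cup11 υ eP (x' : D → P2) y)) := fun x x' y => by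
    apply hf_inj
    rw [hf_add, ← key, ← key, ← key, ← L.add _ _ (KR.cup11_Z2 (pairP L.char h hsm) x.2 y.2)
      (KR.cup11_Z2 (pairP L.char h hsm) x'.2 y.2)]
    congr 1
    funext a b
    show eP ((x : D → P2) a + (x' : D → P2) a) _ = _
    rw [map_add]
    rfl
  have hr : ∀ x y y' : ZU SD h, tf (inv (cup11 υ eP (x : D → P2) (y + y' : ZU SD h))) =
      tf (inv (cup11 υ eP (x : D → P2) y)) + tf (inv (cup11 υ eP (x : D → P2) y')) := fun x y y' => by
    apply hf_inj
    rw [hf_add, ← key, ← key, ← key, ← L.add _ _ (KR.cup11_Z2 (pairP L.char h hsm) x.2 y.2)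
      (KR.cup11_Z2 (pairP L.char h hsm) x.2 y'.2)]
    congr 1
    funext a b
    show eP _ (υ a ((y : D → P2) b + (y' : D → P2) b)) = _
    rw [h.add, map_add]
    rfl
  AddMonoidHom.toZModLinearMap 2 (AddMonoidHom.mk' (fun x =>
    AddMonoidHom.toZModLinearMap 2 (AddMonoidHom.mk'
      (fun y => tf (inv (cup11 υ eP (x : D → P2) y))) (hr x)))
    (fun x x' => by
      ext y
      exact hl x x' y))

theorem hf_bL (x y : ZU SD h) : hf (bL L h hsm x y) = inv (cup11 υ eP (x : D → P2) y) := by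
  obtain ⟨a, ha⟩ := inv_two L h hsm x.2 y.2
  rw [ha]
  show hf (tf (inv (cup11 υ eP (x : D → P2) y))) = _
  rw [ha, tf_hf]

theorem bL_self (x : ZU SD h) : bL L h hsm x x = 0 := by
  apply hf_inj
  rw [hf_bL, hf_zero]
  have e : cup11 υ eP (x : D → P2) x = d1 (tw χ) (fun g => hf (qf ((x : D → P2) g))) := by
    funext a b
    have h1 : (x : D → P2) (a * b) = (x : D → P2) a + υ a ((x : D → P2) b) := x.2.2 a b
    show hf (ee ((x : D → P2) a) (υ a ((x : D → P2) b))) = hf (qf ((x : D → P2) a)) +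
      χ a • hf (qf ((x : D → P2) b)) - hf (qf ((x : D → P2) (a * b)))
    rw [smul_hf (L.char.odd a), h1, qf_add, act_qf h, ← hf_add, sub_eq_add_neg, GP.hf_neg, ← hf_add]
    congr 1
    have key : ∀ p q r : ZMod 2, r = p + q + (p + q + r) := by decide
    exact key _ _ _
  rw [e]
  obtain ⟨⟨W, hW, h1⟩, -⟩ := x.2
  exact L.cob _ ⟨W, hW, fun g w hw => congrArg (fun m => hf (qf m)) (h1 g w hw)⟩

theorem bL_symm (x y : ZU SD h) : bL L h hsm x y = bL L h hsm y x := by
  have h1 := bL_self L h hsm (x + y)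
  rw [map_add, map_add, LinearMap.add_apply, LinearMap.add_apply, bL_self, bL_self, zero_add,
    add_zero] at h1
  rw [add_comm] at h1
  exact (CharTwo.add_eq_zero).1 h1

theorem bL_cob (m : P2) (y : ZU SD h) : bL L h hsm (dM SD hsm h m) y = 0 := by
  apply hf_inj
  rw [hf_bL, hf_zero]
  exact KR.f06_left L (pairP L.char h hsm) m y.2

theorem ker_bL (h1 : ∀ x, Z1 SD υ x → (∀ y, Z1 SD υ y → inv (cup11 υ eP x y) = 0) →
    ∃ m, x = d0 υ m) : LinearMap.ker (bL L h hsm) = LinearMap.range (dM SD hsm h) := by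
  ext x
  rw [LinearMap.mem_ker, LinearMap.mem_range]
  constructor
  · intro hx
    obtain ⟨m, hm⟩ := h1 x x.2 fun y hy => by
      have := hf_bL L h hsm x ⟨y, hy⟩
      rw [hx, LinearMap.zero_apply, hf_zero] at this
      exact this.symm
    exact ⟨m, Subtype.ext hm.symm⟩
  · rintro ⟨m, rfl⟩
    exact LinearMap.ext fun y => bL_cob L h hsm m y

end loc

end Pool.Agent.Work.MP_787500_nt.KS
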