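import Mathlib
import Pool.Agent.Work.MP_787500_nt.KS.V5

/-!
Families of local groups: the sum of the local cup product forms.
-/

set_option autoImplicit false
set_option linter.unusedSectionVars false

namespace Pool.Agent.Work.MP_787500_nt.KS

open Pool.Agent.Work.MP_787500_nt.GP (A0 half hf hf_zero hf_one hf_add hf_inj hf_two eq_hf smul_hf
  IsAct d0 d1 tw cup11 cup01)
open Pool.Agent.Work.MP_787500_nt.PA (TwoSys homs)
open Pool.Agent.Work.MP_787500_nt.KR (FSys Z1 Z2 Sm1 Smooth two res zM LocH Pair IsChar)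

/-! ## Products of spaces with forms -/

section pi

variable {Φ : Type*} [Fintype Φ] {V : Φ → Type*} [∀ w, AddCommGroup (V w)]
  [∀ w, Module (ZMod 2) (V w)]

/-- the sum of forms -/
noncomputable def bPi (b : ∀ w, V w →ₗ[ZMod 2] V w →ₗ[ZMod 2] ZMod 2) :
    (∀ w, V w) →ₗ[ZMod 2] (∀ w, V w) →ₗ[ZMod 2] ZMod 2 :=
  LinearMap.mk₂ (ZMod 2) (fun x y => ∑ w, b w (x w) (y w))
    (fun x x' y => by
      rw [← Finset.sum_add_distrib]
      exact Finset.sum_congr rfl fun w _ => by rw [Pi.add_apply, map_add, LinearMap.add_apply])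
    (fun c x y => by
      rw [smul_eq_mul, Finset.mul_sum]
      exact Finset.sum_congr rfl fun w _ => by
        rw [Pi.smul_apply, map_smul, LinearMap.smul_apply, smul_eq_mul])
    (fun x y y' => by
      rw [← Finset.sum_add_distrib]
      exact Finset.sum_congr rfl fun w _ => by rw [Pi.add_apply, map_add])
    (fun c x y => by
      rw [smul_eq_mul, Finset.mul_sum]
      exact Finset.sum_congr rfl fun w _ => by
        rw [Pi.smul_apply, map_smul, smul_eq_mul])

theorem bPi_apply (b : ∀ w, V w →ₗ[ZMod 2] V w →ₗ[ZMod 2] ZMod 2) (x y : ∀ w, V w) :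
    bPi b x y = ∑ w, b w (x w) (y w) := rfl

/-- the product of subspaces -/
def sPi (X : ∀ w, Submodule (ZMod 2) (V w)) : Submodule (ZMod 2) (∀ w, V w) where
  carrier := {x | ∀ w, x w ∈ X w}
  add_mem' := fun h h' w => (X w).add_mem (h w) (h' w)
  zero_mem' := fun w => (X w).zero_mem
  smul_mem' := fun c _ h w => (X w).smul_mem c (h w)

theorem mem_sPi {X : ∀ w, Submodule (ZMod 2) (V w)} {x : ∀ w, V w} :
    x ∈ sPi X ↔ ∀ w, x w ∈ X w := Iff.rfl

theorem finrank_sPi [∀ w, FiniteDimensional (ZMod 2) (V w)] (X : ∀ w, Submodule (ZMod 2) (V w)) :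
    Module.finrank (ZMod 2) (sPi X) = ∑ w, Module.finrank (ZMod 2) (X w) := by
  let e : sPi X ≃ₗ[ZMod 2] (∀ w, X w) :=
    { toFun := fun x w => ⟨x.1 w, x.2 w⟩
      map_add' := fun _ _ => rfl
      map_smul' := fun _ _ => rfl
      invFun := fun x => ⟨fun w => (x w).1, fun w => (x w).2⟩
      left_inv := fun _ => rfl
      right_inv := fun _ => rfl }
  rw [e.finrank_eq, Module.finrank_pi_fintype]

theorem ann_sPi (b : ∀ w, V w →ₗ[ZMod 2] V w →ₗ[ZMod 2] ZMod 2)
    (X : ∀ w, Submodule (ZMod 2) (V w)) : ann (bPi b) (sPi X) = sPi fun w => ann (b w) (X w) := by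
  classical
  ext x
  constructor
  · intro hx w y hy
    have h1 := hx (Pi.single w y) (fun w' => by
      by_cases hw : w' = w
      · subst hw
        rw [Pi.single_eq_same]
        exact hy
      · rw [Pi.single_eq_of_ne hw]
        exact (X w').zero_mem)
    rw [bPi_apply, Finset.sum_eq_single w] at h1
    · rwa [Pi.single_eq_same] at h1
    · intro w' _ hw
      rw [Pi.single_eq_of_ne hw, map_zero]
    · intro h2
      exact absurd (Finset.mem_univ w) h2
  · intro hx y hy
    rw [bPi_apply]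
    exact Finset.sum_eq_zero fun w _ => hx w (y w) (hy w)

theorem ker_eq_ann {W : Type*} [AddCommGroup W] [Module (ZMod 2) W]
    (b : W →ₗ[ZMod 2] W →ₗ[ZMod 2] ZMod 2) : LinearMap.ker b = ann b ⊤ := by
  ext x
  rw [LinearMap.mem_ker]
  exact ⟨fun h y _ => by rw [h, LinearMap.zero_apply], fun h => LinearMap.ext fun y => h y trivial⟩

theorem ker_bPi (b : ∀ w, V w →ₗ[ZMod 2] V w →ₗ[ZMod 2] ZMod 2) :
    LinearMap.ker (bPi b) = sPi fun w => LinearMap.ker (b w) := by
  have h2 : (⊤ : Submodule (ZMod 2) (∀ w, V w)) = sPi fun _ => ⊤ := by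
    ext x
    simp [mem_sPi]
  rw [ker_eq_ann, h2, ann_sPi]
  congr 1
  funext w
  exact (ker_eq_ann (b w)).symm

end pi

/-! ## Families of local groups -/

section fam

variable {Φ : Type*} [Fintype Φ] {D : Φ → Type*} [∀ w, Group (D w)] (SD : ∀ w, FSys (D w))
  (χ : ∀ w, D w → ℤ_[2]) (inv : ∀ w, (D w → D w → A0) → A0) (υ : ∀ w, D w → P2 → P2)

/-- local duality for the plane -/
structure LocU : Prop where
  act : ∀ w, IsAct (υ w)
  sm : ∀ w, Smooth (SD w) (υ w)
  loc : ∀ w, LocH (SD w) (χ w) (inv w)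
  one : ∀ w x, Z1 (SD w) (υ w) x → (∀ y, Z1 (SD w) (υ w) y → inv w (cup11 (υ w) eP x y) = 0) →
    ∃ m, x = d0 (υ w) m
  fin : ∀ w, FiniteDimensional (ZMod 2) (ZU (SD w) (act w))

variable {SD χ inv υ} (H : LocU SD χ inv υ)

/-- the space of families of local cocycles -/
abbrev VF : Type _ := ∀ w, ZU (SD w) (H.act w)

theorem LocU.finV : FiniteDimensional (ZMod 2) (VF H) := by
  have := H.fin
  infer_instance

/-- the sum of the local forms -/
noncomputable def bF : VF H →ₗ[ZMod 2] VF H →ₗ[ZMod 2] ZMod 2 :=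
  bPi fun w => bL (H.loc w) (H.act w) (H.sm w)

theorem hf_sum {ι : Type*} (s : Finset ι) (f : ι → ZMod 2) : hf (∑ i ∈ s, f i) = ∑ i ∈ s, hf (f i) :=
  map_sum (⟨⟨hf, hf_zero⟩, hf_add⟩ : ZMod 2 →+ A0) f s

theorem hf_bF (x y : VF H) :
    hf (bF H x y) = ∑ w, inv w (cup11 (υ w) eP (x w : D w → P2) (y w)) := by
  unfold bF
  rw [bPi_apply, hf_sum]
  exact Finset.sum_congr rfl fun w _ => hf_bL _ _ _ _ _

theorem bF_self (x : VF H) : bF H x x = 0 := by
  unfold bF
  rw [bPi_apply]
  exact Finset.sum_eq_zero fun w _ => bL_self _ _ _ _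

theorem bF_symm (x y : VF H) : bF H x y = bF H y x := by
  unfold bF
  rw [bPi_apply, bPi_apply]
  exact Finset.sum_congr rfl fun w _ => bL_symm _ _ _ _ _

/-- the families of coboundaries -/
noncomputable def RF : Submodule (ZMod 2) (VF H) :=
  sPi fun w => LinearMap.range (dM (SD w) (H.sm w) (H.act w))

theorem ker_bF : LinearMap.ker (bF H) = RF H := by
  unfold bF RF
  rw [ker_bPi]
  congr 1
  funext w
  exact ker_bL (H.loc w) (H.act w) (H.sm w) (H.one w)

theorem finrank_cob {D : Type*} [Group D] (SD : FSys D) {υ : D → P2 → P2} (hsm : Smooth SD υ)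
    (h : IsAct υ) : Module.finrank (ZMod 2) (LinearMap.range (dM SD hsm h)) +
      Module.finrank (ZMod 2) (FX h) = 2 := by
  have h1 := LinearMap.finrank_range_add_finrank_ker (dM SD hsm h)
  rwa [ker_dM, p2_finrank] at h1

theorem finrank_RF : Module.finrank (ZMod 2) (RF H) +
    ∑ w, Module.finrank (ZMod 2) (FX (H.act w)) = 2 * Fintype.card Φ := by
  have := H.fin
  unfold RF
  rw [finrank_sPi, ← Finset.sum_add_distrib, Finset.sum_congr rfl fun w _ =>
    finrank_cob (SD w) (H.sm w) (H.act w)]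
  rw [Finset.sum_const, smul_eq_mul, mul_comm]
  rfl

theorem mem_RF {x : VF H} : x ∈ RF H ↔ ∀ w, ∃ m, ∀ d, (x w : D w → P2) d = υ w d m + m := by
  unfold RF
  rw [mem_sPi]
  refine forall_congr' fun w => ?_
  rw [LinearMap.mem_range]
  constructor
  · rintro ⟨m, hm⟩
    exact ⟨m, fun d => by rw [← hm, dM_apply]⟩
  · rintro ⟨m, hm⟩
    exact ⟨m, Subtype.ext (funext fun d => by rw [hm, dM_apply])⟩

end fam

end Pool.Agent.Work.MP_787500_nt.KS
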