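import Mathlib
import Pool.Agent.Work.MP_787500_nt.KS.V6

/-!
The Kramer step over the quadratic field, residue field with two elements.
-/

set_option autoImplicit false
set_option linter.unusedSectionVars false

namespace Pool.Agent.Work.MP_787500_nt.KS

open Pool.Agent.Work.MP_787500_nt.GP (A0 half hf hf_zero hf_one hf_add hf_inj hf_two eq_hf smul_hf
  IsAct d0 d1 tw cup11 cup01)
open Pool.Agent.Work.MP_787500_nt.PA (TwoSys homs)
open Pool.Agent.Work.MP_787500_nt.KR (FSys Z1 Z2 Sm1 Smooth two res zM LocH Pair IsChar)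

variable {G : Type*} [Group G] (S : FSys G) {Φ : Type*} [Fintype Φ] {D : Φ → Type*}
  [∀ w, Group (D w)] (SD : ∀ w, FSys (D w)) (j : ∀ w, D w →* G) (χ : G → ℤ_[2])
  (inv : ∀ w, (D w → D w → A0) → A0) (κ : G →* G) (υ : G → P2 → P2) (C : P2 → P2)

/-- Hypotheses over the quadratic field: `κ` is the conjugation of the group, `C` of the module. -/
structure KU : Prop where
  act : IsAct υ
  sm : Smooth S υ
  cadd : ∀ x y, C (x + y) = C x + C y
  cc : ∀ x, C (C x) = x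
  ck : ∀ g x, C (υ (κ g) x) = υ g (C x)
  kk : ∀ g, κ (κ g) = g
  ksys : ∀ W, S.mem W → ∃ W', S.mem W' ∧ ∀ v ∈ W', κ v ∈ W
  jsm : ∀ w W, S.mem W → ∃ W', (SD w).mem W' ∧ ∀ v ∈ W', j w v ∈ W
  fin : FiniteDimensional (ZMod 2) (ZU S act)
  loc : LocU SD (fun w d => χ (j w d)) inv (fun w d => υ (j w d))
  mid : ∀ c c' : ∀ w, D w → P2, (∀ w, Z1 (SD w) (fun d => υ (j w d)) (c w)) →
    (∀ w, Z1 (SD w) (fun d => υ (j w d)) (c' w)) →
    (∀ x, Z1 S υ x → ∑ w, (inv w (cup11 (fun d => υ (j w d)) eP (c w) (fun d => x (j w d))) +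
      inv w (cup11 (fun d => υ (j w d)) eP (c' w) (fun d => C (x (κ (j w d)))))) = 0) →
    ∃ (X : G → P2) (m m' : Φ → P2), Z1 S υ X ∧
      (∀ w d, c w d = X (j w d) + (υ (j w d) (m w) + m w)) ∧
      ∀ w d, c' w d = C (X (κ (j w d))) + (υ (j w d) (m' w) + m' w)
  recip : ∀ x y, Z1 S υ x → Z1 S υ y →
    ∑ w, (inv w (cup11 (fun d => υ (j w d)) eP (fun d => x (j w d)) (fun d => y (j w d))) +
      inv w (cup11 (fun d => υ (j w d)) eP (fun d => C (x (κ (j w d))))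
        (fun d => C (y (κ (j w d)))))) = 0
  alt : ∀ x, Z1 S υ x →
    ∑ w, inv w (cup11 (fun d => υ (j w d)) eP (fun d => x (j w d))
      (fun d => C (x (κ (j w d))))) = 0
  sha : ∀ x, Z1 S υ x → (∀ w, ∃ m, ∀ d, x (j w d) = υ (j w d) m + m) →
    (∀ w, ∃ m, ∀ d, C (x (κ (j w d))) = υ (j w d) m + m) → ∃ m, ∀ g, x g = υ g m + m
  nofix : ∀ m, (∀ g, υ g m = m) → m = 0

variable {S SD j χ inv κ υ C}

section

variable (H : KU S SD j χ inv κ υ C)

theorem KU.czero (H : KU S SD j χ inv κ υ C) : C 0 = 0 := by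
  have := H.cadd 0 0
  rw [add_zero] at this
  exact left_eq_add.1 this

theorem KU.csmul (H : KU S SD j χ inv κ υ C) (a : ZMod 2) (x : P2) : C (a • x) = a • C x :=
  p2_lin H.cadd a x

/-- the conjugate of a cocycle -/
theorem KU.conj (H : KU S SD j χ inv κ υ C) {x : G → P2} (hx : Z1 S υ x) :
    Z1 S υ (fun g => C (x (κ g))) := by
  obtain ⟨⟨W, hW, h1⟩, h2⟩ := hx
  obtain ⟨W', hW', h3⟩ := H.ksys W hW
  refine ⟨⟨W', hW', fun g w hw => ?_⟩, fun a b => ?_⟩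
  · show C (x (κ (g * w))) = C (x (κ g))
    rw [map_mul, h1 _ _ (h3 w hw)]
  · show C (x (κ (a * b))) = C (x (κ a)) + υ a (C (x (κ b)))
    rw [map_mul, h2, H.cadd, H.ck]

/-- conjugation -/
def KU.cj (H : KU S SD j χ inv κ υ C) : ZU S H.act →ₗ[ZMod 2] ZU S H.act where
  toFun x := ⟨fun g => C ((x : G → P2) (κ g)), H.conj x.2⟩
  map_add' _ _ := Subtype.ext (funext fun _ => H.cadd _ _)
  map_smul' _ _ := Subtype.ext (funext fun _ => H.csmul _ _)

theorem KU.cj_apply (x : ZU S H.act) (g : G) : (H.cj x : G → P2) g = C ((x : G → P2) (κ g)) := rfl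

theorem KU.cj_cj (x : ZU S H.act) : H.cj (H.cj x) = x := by
  apply Subtype.ext
  funext g
  rw [KU.cj_apply, KU.cj_apply, H.kk, H.cc]

/-- restriction to the local groups -/
def KU.rs (H : KU S SD j χ inv κ υ C) : ZU S H.act →ₗ[ZMod 2] VF H.loc where
  toFun x w := ⟨fun d => (x : G → P2) (j w d), Z1.comp (H.jsm w) x.2⟩
  map_add' _ _ := rfl
  map_smul' _ _ := rfl

theorem KU.rs_apply (x : ZU S H.act) (w : Φ) (d : D w) :
    (H.rs x w : D w → P2) d = (x : G → P2) (j w d) := rfl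

/-- both restrictions -/
def KU.rr (H : KU S SD j χ inv κ υ C) : ZU S H.act →ₗ[ZMod 2] (VF H.loc × VF H.loc) :=
  H.rs.prod (H.rs.comp H.cj)

theorem KU.rr_apply (x : ZU S H.act) : H.rr x = (H.rs x, H.rs (H.cj x)) := rfl

/-- the image of the global classes -/
noncomputable def KU.HH (H : KU S SD j χ inv κ υ C) : Submodule (ZMod 2) (VF H.loc × VF H.loc) :=
  LinearMap.range H.rr ⊔ (RF H.loc).prod (RF H.loc)

/-- coboundaries -/
noncomputable def KU.BG (H : KU S SD j χ inv κ υ C) : Submodule (ZMod 2) (ZU S H.act) :=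
  LinearMap.range (dM S H.sm H.act)

theorem KU.mem_BG {x : ZU S H.act} : x ∈ H.BG ↔ ∃ m, ∀ g, (x : G → P2) g = υ g m + m := by
  unfold KU.BG
  rw [LinearMap.mem_range]
  constructor
  · rintro ⟨m, hm⟩
    exact ⟨m, fun d => by rw [← hm, dM_apply]⟩
  · rintro ⟨m, hm⟩
    exact ⟨m, Subtype.ext (funext fun d => by rw [hm, dM_apply])⟩

theorem KU.finrank_BG : Module.finrank (ZMod 2) H.BG = 2 := by
  have h1 := finrank_cob S H.sm H.act
  have h2 : FX H.act = ⊥ := by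
    rw [eq_bot_iff]
    intro m hm
    exact H.nofix m hm
  rw [h2, finrank_bot, add_zero] at h1
  exact h1

theorem KU.cj_BG {x : ZU S H.act} (hx : x ∈ H.BG) : H.cj x ∈ H.BG := by
  rw [H.mem_BG] at hx ⊢
  obtain ⟨m, hm⟩ := hx
  refine ⟨C m, fun g => ?_⟩
  rw [KU.cj_apply, hm, H.cadd, H.ck]

theorem KU.rs_BG {x : ZU S H.act} (hx : x ∈ H.BG) : H.rs x ∈ RF H.loc := by
  rw [H.mem_BG] at hx
  obtain ⟨m, hm⟩ := hx
  rw [mem_RF]
  exact fun w => ⟨m, fun d => by rw [KU.rs_apply, hm]⟩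

theorem KU.sha_mem {x : ZU S H.act} (h1 : H.rs x ∈ RF H.loc) (h2 : H.rs (H.cj x) ∈ RF H.loc) :
    x ∈ H.BG := by
  rw [mem_RF] at h1 h2
  rw [H.mem_BG]
  exact H.sha x x.2 h1 h2

theorem KU.comap_rr : ((RF H.loc).prod (RF H.loc)).comap H.rr = H.BG := by
  ext x
  constructor
  · rintro ⟨h1, h2⟩
    exact H.sha_mem h1 h2
  · intro hx
    exact ⟨H.rs_BG hx, H.rs_BG (H.cj_BG hx)⟩

/-- self-orthogonality of the image of the global classes -/
theorem KU.HH_iff (x₁ x₂ : VF H.loc) : (x₁, x₂) ∈ H.HH ↔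
    ∀ y₁ y₂, (y₁, y₂) ∈ H.HH → bF H.loc x₁ y₁ + bF H.loc x₂ y₂ = 0 := by
  have hR : ∀ {r : VF H.loc}, r ∈ RF H.loc → ∀ y, bF H.loc r y = 0 := by
    intro r hr y
    rw [← ker_bF, LinearMap.mem_ker] at hr
    rw [hr, LinearMap.zero_apply]
  have hR' : ∀ {r : VF H.loc}, r ∈ RF H.loc → ∀ y, bF H.loc y r = 0 := by
    intro r hr y
    rw [bF_symm, hR hr]
  constructor
  · intro hx y₁ y₂ hy
    obtain ⟨_, ⟨x, rfl⟩, ⟨r₁, r₂⟩, ⟨hr₁, hr₂⟩, hxr⟩ := Submodule.mem_sup.1 hx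
    obtain ⟨_, ⟨y, rfl⟩, ⟨s₁, s₂⟩, ⟨hs₁, hs₂⟩, hys⟩ := Submodule.mem_sup.1 hy
    have e1 : x₁ = H.rs x + r₁ := (congrArg Prod.fst hxr).symm
    have e2 : x₂ = H.rs (H.cj x) + r₂ := (congrArg Prod.snd hxr).symm
    have e3 : y₁ = H.rs y + s₁ := (congrArg Prod.fst hys).symm
    have e4 : y₂ = H.rs (H.cj y) + s₂ := (congrArg Prod.snd hys).symm
    rw [e1, e2, e3, e4]
    simp only [map_add, LinearMap.add_apply]
    rw [hR hr₁, hR hr₁, hR hr₂, hR hr₂, hR' hs₁, hR' hs₂, add_zero, add_zero, add_zero, add_zero,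
      add_zero]
    apply hf_inj
    rw [hf_add, hf_bF, hf_bF, ← Finset.sum_add_distrib, hf_zero]
    exact H.recip x y x.2 y.2
  · intro hx
    obtain ⟨X, m, m', hX, h1, h2⟩ := H.mid (fun w => x₁ w) (fun w => x₂ w) (fun w => (x₁ w).2)
      (fun w => (x₂ w).2) (fun y hy => by
        have h3 := hx (H.rs ⟨y, hy⟩) (H.rs (H.cj ⟨y, hy⟩))
          (Submodule.mem_sup_left ⟨⟨y, hy⟩, rfl⟩)
        have h4 := congrArg hf h3
        rw [hf_add, hf_bF, hf_bF, ← Finset.sum_add_distrib, hf_zero] at h4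
        exact h4)
    refine Submodule.mem_sup.2 ⟨H.rr ⟨X, hX⟩, ⟨_, rfl⟩,
      (x₁ - H.rs ⟨X, hX⟩, x₂ - H.rs (H.cj ⟨X, hX⟩)), ⟨?_, ?_⟩, ?_⟩
    · show x₁ - H.rs ⟨X, hX⟩ ∈ RF H.loc
      rw [mem_RF]
      refine fun w => ⟨m w, fun d => ?_⟩
      show (x₁ w : D w → P2) d - X (j w d) = _
      rw [h1]
      abel
    · show x₂ - H.rs (H.cj ⟨X, hX⟩) ∈ RF H.loc
      rw [mem_RF]
      refine fun w => ⟨m' w, fun d => ?_⟩
      show (x₂ w : D w → P2) d - C (X (κ (j w d))) = _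
      rw [h2]
      abel
    · rw [KU.rr_apply]
      refine Prod.ext ?_ ?_
      · show H.rs ⟨X, hX⟩ + (x₁ - H.rs ⟨X, hX⟩) = x₁
        abel
      · show H.rs (H.cj ⟨X, hX⟩) + (x₂ - H.rs (H.cj ⟨X, hX⟩)) = x₂
        abel

theorem KU.HH_alt (x₁ x₂ : VF H.loc) (hx : (x₁, x₂) ∈ H.HH) : bF H.loc x₁ x₂ = 0 := by
  have hR : ∀ {r : VF H.loc}, r ∈ RF H.loc → ∀ y, bF H.loc r y = 0 := by
    intro r hr y
    rw [← ker_bF, LinearMap.mem_ker] at hr
    rw [hr, LinearMap.zero_apply]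
  have hR' : ∀ {r : VF H.loc}, r ∈ RF H.loc → ∀ y, bF H.loc y r = 0 := by
    intro r hr y
    rw [bF_symm, hR hr]
  obtain ⟨_, ⟨x, rfl⟩, ⟨r₁, r₂⟩, ⟨hr₁, hr₂⟩, hxr⟩ := Submodule.mem_sup.1 hx
  have e1 : x₁ = H.rs x + r₁ := (congrArg Prod.fst hxr).symm
  have e2 : x₂ = H.rs (H.cj x) + r₂ := (congrArg Prod.snd hxr).symm
  rw [e1, e2]
  simp only [map_add, LinearMap.add_apply]
  rw [hR hr₁, hR hr₁, hR' hr₂, add_zero, add_zero, add_zero]
  apply hf_inj
  rw [hf_bF, hf_zero]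
  exact H.alt x x.2

/-! ## The count -/

variable (X : ∀ w, Submodule (ZMod 2) (ZU (SD w) (H.loc.act w)))

/-- the Selmer space with the same local conditions at a place and at its conjugate -/
noncomputable def KU.sel : Submodule (ZMod 2) (ZU S H.act) :=
  ((sPi X).prod (sPi X)).comap H.rr

theorem KU.mem_sel {x : ZU S H.act} :
    x ∈ H.sel X ↔ (∀ w, H.rs x w ∈ X w) ∧ ∀ w, H.rs (H.cj x) w ∈ X w := Iff.rfl

/-- the cocycles whose class is fixed by the conjugation -/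
noncomputable def KU.AK : Submodule (ZMod 2) (ZU S H.act) := H.BG.comap (H.cj - LinearMap.id)

theorem KU.mem_AK {x : ZU S H.act} : x ∈ H.AK ↔ H.cj x - x ∈ H.BG := Iff.rfl

theorem finrank_prodS {V W : Type*} [AddCommGroup V] [Module (ZMod 2) V] [AddCommGroup W]
    [Module (ZMod 2) W] [FiniteDimensional (ZMod 2) V] [FiniteDimensional (ZMod 2) W]
    (P : Submodule (ZMod 2) V) (Q : Submodule (ZMod 2) W) :
    Module.finrank (ZMod 2) (P.prod Q) = Module.finrank (ZMod 2) P + Module.finrank (ZMod 2) Q := by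
  let e : P.prod Q ≃ₗ[ZMod 2] (P × Q) :=
    { toFun := fun x => (⟨x.1.1, x.2.1⟩, ⟨x.1.2, x.2.2⟩)
      map_add' := fun _ _ => rfl
      map_smul' := fun _ _ => rfl
      invFun := fun x => ⟨(x.1.1, x.2.1), x.1.2, x.2.2⟩
      left_inv := fun _ => rfl
      right_inv := fun _ => rfl }
  rw [e.finrank_eq, Module.finrank_prod]

variable {X}

theorem KU.RF_le (hX : ∀ w, ann (bL (H.loc.loc w) (H.loc.act w) (H.loc.sm w)) (X w) = X w) :
    RF H.loc ≤ sPi X := by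
  have := H.loc.finV
  rw [← ker_bF]
  have h1 := ker_le_ann (b := bF H.loc) (sPi X)
  have h2 : ann (bF H.loc) (sPi X) = sPi X := by
    unfold bF
    rw [ann_sPi]
    congr 1
    funext w
    exact hX w
  rwa [h2] at h1

theorem KU.HH_inf (hX : ∀ w, ann (bL (H.loc.loc w) (H.loc.act w) (H.loc.sm w)) (X w) = X w) :
    H.HH ⊓ (sPi X).prod (sPi X) =
      LinearMap.range (H.rr.comp (H.sel X).subtype) ⊔ (RF H.loc).prod (RF H.loc) := by
  have hR := H.RF_le hX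
  have hRR : (RF H.loc).prod (RF H.loc) ≤ (sPi X).prod (sPi X) := fun z hz => ⟨hR hz.1, hR hz.2⟩
  apply le_antisymm
  · rintro z ⟨h1, h2⟩
    obtain ⟨_, ⟨x, rfl⟩, r, hr, rfl⟩ := Submodule.mem_sup.1 h1
    have h3 : H.rr x ∈ (sPi X).prod (sPi X) := by
      have := Submodule.sub_mem _ h2 (hRR hr)
      rwa [add_sub_cancel_right] at this
    exact Submodule.add_mem_sup ⟨⟨x, h3⟩, rfl⟩ hr
  · refine sup_le ?_ ?_
    · rintro _ ⟨x, rfl⟩
      exact ⟨Submodule.mem_sup_left ⟨x.1, rfl⟩, x.2⟩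
    · exact le_inf le_sup_right hRR

theorem KU.BG_le_sel (hX : ∀ w, ann (bL (H.loc.loc w) (H.loc.act w) (H.loc.sm w)) (X w) = X w) :
    H.BG ≤ H.sel X := fun _ hx =>
  ⟨H.RF_le hX (H.rs_BG hx), H.RF_le hX (H.rs_BG (H.cj_BG hx))⟩

theorem KU.finrank_HH_inf
    (hX : ∀ w, ann (bL (H.loc.loc w) (H.loc.act w) (H.loc.sm w)) (X w) = X w) :
    Module.finrank (ZMod 2) (H.HH ⊓ (sPi X).prod (sPi X) : Submodule (ZMod 2) _) + 2 =
      Module.finrank (ZMod 2) (H.sel X) + 2 * Module.finrank (ZMod 2) (RF H.loc) := by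
  have := H.fin
  have := H.loc.finV
  have h1 := finrank_map_sup (H.rr.comp (H.sel X).subtype) ((RF H.loc).prod (RF H.loc))
  rw [← H.HH_inf hX, finrank_prodS] at h1
  have h2 : ((RF H.loc).prod (RF H.loc)).comap (H.rr.comp (H.sel X).subtype) =
      H.BG.comap (H.sel X).subtype := by
    rw [← H.comap_rr, Submodule.comap_comp]
  rw [h2, (Submodule.comapSubtypeEquivOfLe (H.BG_le_sel hX)).finrank_eq, H.finrank_BG] at h1
  omega

theorem KU.dgA_HH : dgA H.HH = LinearMap.range (H.rs.comp H.AK.subtype) ⊔ RF H.loc := by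
  ext a
  constructor
  · intro ha
    obtain ⟨_, ⟨x, rfl⟩, ⟨r₁, r₂⟩, ⟨hr₁, hr₂⟩, hxr⟩ := Submodule.mem_sup.1 (show (a, a) ∈ H.HH from ha)
    have e1 : a = H.rs x + r₁ := (congrArg Prod.fst hxr).symm
    have e2 : a = H.rs (H.cj x) + r₂ := (congrArg Prod.snd hxr).symm
    have h1 : H.rs (H.cj x - x) ∈ RF H.loc := by
      rw [map_sub]
      have h2 : H.rs (H.cj x) - H.rs x = r₁ - r₂ := by
        rw [sub_eq_sub_iff_add_eq_add, ← e2, e1, add_comm]
      rw [h2]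
      exact Submodule.sub_mem _ hr₁ hr₂
    have h2 : H.rs (H.cj (H.cj x - x)) ∈ RF H.loc := by
      rw [map_sub, H.cj_cj]
      rw [← neg_sub, map_neg]
      exact Submodule.neg_mem _ h1
    have h3 : x ∈ H.AK := H.sha_mem h1 h2
    rw [e1]
    exact Submodule.add_mem_sup ⟨⟨x, h3⟩, rfl⟩ hr₁
  · intro ha
    obtain ⟨_, ⟨x, rfl⟩, r, hr, rfl⟩ := Submodule.mem_sup.1 ha
    show (_, _) ∈ H.HH
    have h1 : H.cj x - x ∈ H.BG := x.2
    have h2 := H.rs_BG h1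
    rw [map_sub] at h2
    refine Submodule.mem_sup.2 ⟨H.rr x, ⟨_, rfl⟩, (r, r - (H.rs (H.cj x) - H.rs x)), ⟨hr,
      Submodule.sub_mem _ hr h2⟩, ?_⟩
    rw [KU.rr_apply]
    refine Prod.ext rfl ?_
    show H.rs (H.cj x) + (r - (H.rs (H.cj x) - H.rs x)) = H.rs x + r
    abel

theorem KU.BG_le_AK : H.BG ≤ H.AK := fun _ hx => Submodule.sub_mem _ (H.cj_BG hx) hx

theorem KU.finrank_dgA : Module.finrank (ZMod 2) (dgA H.HH) + 2 =
    Module.finrank (ZMod 2) H.AK + Module.finrank (ZMod 2) (RF H.loc) := by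
  have := H.fin
  have := H.loc.finV
  have h1 := finrank_map_sup (H.rs.comp H.AK.subtype) (RF H.loc)
  rw [← H.dgA_HH] at h1
  have h2 : (RF H.loc).comap (H.rs.comp H.AK.subtype) = H.BG.comap H.AK.subtype := by
    ext x
    constructor
    · intro hx
      have h3 : H.rs x ∈ RF H.loc := hx
      have h4 := H.rs_BG (show H.cj x - x ∈ H.BG from x.2)
      have h5 : H.rs (H.cj x) ∈ RF H.loc := by
        rw [map_sub] at h4
        have := Submodule.add_mem _ h4 h3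
        rwa [sub_add_cancel] at this
      exact H.sha_mem h3 h5
    · intro hx
      exact H.rs_BG hx
  rw [h2, (Submodule.comapSubtypeEquivOfLe H.BG_le_AK).finrank_eq, H.finrank_BG] at h1
  exact h1

/-- The Kramer step over the quadratic field. -/
theorem KU.count (hX : ∀ w, ann (bL (H.loc.loc w) (H.loc.act w) (H.loc.sm w)) (X w) = X w) :
    ((Module.finrank (ZMod 2) (H.sel X) + Module.finrank (ZMod 2) H.AK +
      ∑ w, Module.finrank (ZMod 2) (FX (H.loc.act w)) +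
      ∑ w, Module.finrank (ZMod 2) (X w) : ℕ) : ZMod 2) = 0 := by
  have := H.fin
  have := H.loc.finV
  have := H.loc.fin
  have h1 : ann (bF H.loc) (sPi X) = sPi X := by
    unfold bF
    rw [ann_sPi]
    congr 1
    funext w
    exact hX w
  obtain ⟨u, -, hu⟩ := kramer_LA (H := H.HH) (bF_symm H.loc) 0 (fun x => by
    rw [bF_self, map_zero, LinearMap.zero_apply]
    rfl) H.HH_iff (fun x₁ x₂ hx => by
      obtain ⟨_, ⟨x, rfl⟩, ⟨r₁, r₂⟩, ⟨hr₁, hr₂⟩, hxr⟩ := Submodule.mem_sup.1 hx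
      refine Submodule.mem_sup.2 ⟨H.rr (H.cj x), ⟨_, rfl⟩, (r₂, r₁), ⟨hr₂, hr₁⟩, ?_⟩
      rw [KU.rr_apply, H.cj_cj]
      exact Prod.ext (congrArg Prod.snd hxr) (congrArg Prod.fst hxr)) H.HH_alt (sPi X) h1
  rw [map_zero, add_zero, finrank_sPi] at hu
  have h2 := H.finrank_HH_inf hX
  have h3 := H.finrank_dgA
  have h4 := finrank_RF H.loc
  have h5 : ((Module.finrank (ZMod 2) (H.HH ⊓ (sPi X).prod (sPi X) : Submodule (ZMod 2) _) +
      (Module.finrank (ZMod 2) (dgA H.HH) + ∑ w, Module.finrank (ZMod 2) (X w)) : ℕ) : ZMod 2) = 0 := by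
    rw [Nat.cast_add, Nat.cast_add, hu]
    exact CharTwo.add_self_eq_zero (_ : ZMod 2)
  rw [ZMod.natCast_eq_zero_iff] at h5 ⊢
  omega

end

end Pool.Agent.Work.MP_787500_nt.KS
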