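import Mathlib
import Pool.Agent.Work.MP_787500_nt.KS.V7

/-!
From the quadratic field to the rational numbers: the cocycles whose class is fixed by the conjugation are
the restrictions of the cocycles of the larger group.
-/

set_option autoImplicit false
set_option linter.unusedSectionVars false

namespace Pool.Agent.Work.MP_787500_nt.KS

open Pool.Agent.Work.MP_787500_nt.GP (A0 half hf hf_zero hf_one hf_add hf_inj hf_two eq_hf smul_hf
  IsAct d0 d1 tw cup11 cup01)
open Pool.Agent.Work.MP_787500_nt.PA (TwoSys homs)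
open Pool.Agent.Work.MP_787500_nt.KR (FSys Z1 Z2 Sm1 Smooth two res zM LocH Pair IsChar)

/-- the fixed vectors of one map -/
def FX1 (f : P2 → P2) (hf : ∀ x y, f (x + y) = f x + f y) : Submodule (ZMod 2) P2 where
  carrier := {m | f m = m}
  add_mem' := by
    intro a b ha hb
    show f (a + b) = a + b
    rw [hf, show f a = a from ha, show f b = b from hb]
  zero_mem' := by
    have := hf 0 0
    rw [add_zero] at this
    exact left_eq_add.1 this
  smul_mem' := by
    intro c a ha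
    show f (c • a) = c • a
    rw [p2_lin hf, show f a = a from ha]

theorem mem_FX1 {f : P2 → P2} {hf : ∀ x y, f (x + y) = f x + f y} {m : P2} :
    m ∈ FX1 f hf ↔ f m = m := Iff.rfl

theorem fx1_sg {f : P2 → P2} (hf : ∀ x y, f (x + y) = f x + f y) (hi : Function.Injective f) :
    (Module.finrank (ZMod 2) (FX1 f hf) : ZMod 2) = sg f := by
  have h0 : f 0 = 0 := by
    have := hf 0 0
    rw [add_zero] at this
    exact left_eq_add.1 this
  have hmem : ∀ m, m ∈ FX1 f hf ↔ m 0 • f b0 + m 1 • f b1 = m := by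
    intro m
    rw [← p2_eq hf, mem_FX1]
  have hcard : Nat.card (FX1 f hf) = Nat.card {m : P2 // m 0 • f b0 + m 1 • f b1 = m} :=
    Nat.card_congr (Equiv.subtypeEquivRight hmem)
  have h2 : Nat.card (FX1 f hf) = 2 ^ Module.finrank (ZMod 2) (FX1 f hf) := by
    rw [Module.natCard_eq_pow_finrank (K := ZMod 2), Nat.card_zmod]
  rcases p2_count _ _ (inj_det hi h0) with ⟨h3, h4⟩ | ⟨h3, h4⟩ | ⟨h3, h4⟩
  · have : Module.finrank (ZMod 2) (FX1 f hf) = 0 := by
      rw [hcard, h3] at h2
      exact (Nat.pow_eq_one.1 h2.symm).resolve_left (by norm_num)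
    rw [this]
    exact h4.symm
  · have : Module.finrank (ZMod 2) (FX1 f hf) = 1 := by
      rw [hcard, h3] at h2
      exact Nat.pow_right_injective le_rfl (by simpa using h2.symm)
    rw [this]
    exact h4.symm
  · have : Module.finrank (ZMod 2) (FX1 f hf) = 2 := by
      rw [hcard, h3] at h2
      exact Nat.pow_right_injective le_rfl (by simpa using h2.symm)
    rw [this]
    exact h4.symm

variable {G : Type*} [Group G] {S : FSys G} {Φ : Type*} [Fintype Φ] {D : Φ → Type*}
  [∀ w, Group (D w)] {SD : ∀ w, FSys (D w)} {j : ∀ w, D w →* G} {χ : G → ℤ_[2]}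
  {inv : ∀ w, (D w → D w → A0) → A0} {κ : G →* G}

/-- `G` is a subgroup of index two of `Gq`, `c` is an involution outside of `G`, `κ` is the conjugation by
`c`, and the system of `Gq` is compatible with that of `G`. -/
structure Ext2 {Gq : Type*} [Group Gq] (Sq : FSys Gq) (ι : G →* Gq) (c : Gq) (κ : G →* G)
    (S : FSys G) (υ : Gq → P2 → P2) : Prop where
  inj : Function.Injective ι
  cc : c * c = 1
  kap : ∀ g, ι (κ g) = c * ι g * c
  cases : ∀ g, (∃ n, g = ι n) ∨ ∃ n, g = ι n * c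
  nc : ∀ n, ι n ≠ c
  act : IsAct υ
  sm : Smooth Sq υ
  smx : ∀ x : Gq → P2, (∀ a b, x (a * b) = x a + υ a (x b)) →
    ((∃ W, Sq.mem W ∧ ∀ w ∈ W, x w = 0) ↔ ∃ W, S.mem W ∧ ∀ w ∈ W, x (ι w) = 0)

section ext

variable {Gq : Type*} [Group Gq] {Sq : FSys Gq} {ι : G →* Gq} {c : Gq} {υ : Gq → P2 → P2}
  (E : Ext2 Sq ι c κ S υ) (H : KU S SD j χ inv κ (fun g => υ (ι g)) (υ c))

include E in
theorem Ext2.c_fix {x : Gq → P2} (hx : Z1 Sq υ x) : υ c (x c) = x c := by
  have h1 := hx.2 c c
  rw [E.cc, z1_one (h := E.act) Sq hx] at h1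
  exact ((CharTwo.add_eq_zero (R := P2)).1 h1.symm).symm

include E in
theorem Ext2.conj_apply {x : Gq → P2} (hx : Z1 Sq υ x) (n : G) :
    υ c (x (ι (κ n))) = x (ι n) + (υ (ι n) (x c) + x c) := by
  rw [E.kap, hx.2, hx.2, E.act.add, E.act.add, ← E.act.mul, ← E.act.mul]
  have e1 : c * (c * ι n) = ι n := by rw [← mul_assoc, E.cc, one_mul]
  rw [E.cc, E.act.one, e1, E.c_fix hx, add_comm (x c), add_assoc, add_comm (x c)]

/-- restriction -/
def Ext2.rq : ZU Sq E.act →ₗ[ZMod 2] ZU S H.act where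
  toFun x := ⟨fun g => (x : Gq → P2) (ι g), by
    have hx := (mem_zu_iff Sq E.act).1 x.2
    rw [mem_ZU, mem_zu_iff S H.act]
    exact ⟨(E.smx _ hx.2).1 hx.1, fun a b => by rw [map_mul, hx.2]⟩⟩
  map_add' _ _ := rfl
  map_smul' _ _ := rfl

theorem Ext2.rq_apply (x : ZU Sq E.act) (g : G) : (E.rq H x : G → P2) g = (x : Gq → P2) (ι g) := rfl

theorem Ext2.rq_mem (x : ZU Sq E.act) : E.rq H x ∈ H.AK := by
  rw [H.mem_AK, H.mem_BG]
  refine ⟨(x : Gq → P2) c, fun g => ?_⟩
  show υ c ((x : Gq → P2) (ι (κ g))) - (x : Gq → P2) (ι g) = _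
  rw [E.conj_apply x.2, add_sub_cancel_left]

/-- a cocycle that vanishes on the subgroup vanishes -/
theorem Ext2.rq_inj : Function.Injective (E.rq H) := by
  rw [← LinearMap.ker_eq_bot, LinearMap.ker_eq_bot']
  intro x hx
  have h1 : ∀ n, (x : Gq → P2) (ι n) = 0 := fun n => congrFun (congrArg Subtype.val hx) n
  have h2 : (x : Gq → P2) c = 0 := by
    apply H.nofix
    intro n
    have h3 := E.conj_apply x.2 n
    rw [h1, h1, act_zero E.act, zero_add] at h3
    exact (CharTwo.add_eq_zero (R := P2)).1 h3.symm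
  apply Subtype.ext
  funext g
  rcases E.cases g with ⟨n, rfl⟩ | ⟨n, rfl⟩
  · exact h1 n
  · show (x : Gq → P2) (ι n * c) = 0
    rw [x.2.2, h1, h2, act_zero E.act, add_zero]

theorem Ext2.rq_surj {x : ZU S H.act} (hx : x ∈ H.AK) : ∃ y, E.rq H y = x := by
  classical
  rw [H.mem_AK, H.mem_BG] at hx
  obtain ⟨p, hp⟩ := hx
  have hp' : ∀ n, υ c ((x : G → P2) (κ n)) = (x : G → P2) n + (υ (ι n) p + p) := by
    intro n
    have h1 : υ c ((x : G → P2) (κ n)) - (x : G → P2) n = υ (ι n) p + p := hp n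
    rw [← h1]
    abel
  have hcc : ∀ m, υ c (υ c m) = m := fun m => by rw [← E.act.mul, E.cc, E.act.one]
  -- `p` is fixed by `c`
  have hpc : υ c p = p := by
    have h2 : p + υ c p = 0 := by
      apply H.nofix
      intro n
      have h3 := hp' (κ n)
      rw [H.kk] at h3
      have h4 := congrArg (υ c) h3
      rw [hcc, E.act.add, hp', E.act.add, ← E.act.mul, E.kap, mul_assoc, ← mul_assoc, E.cc,
        one_mul, E.act.mul] at h4
      -- `x n = x n + (n p + p) + (n c p + c p)`
      have h5 : υ (ι n) p + p + (υ (ι n) (υ c p) + υ c p) = 0 := by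
        have h6 : (x : G → P2) n + (υ (ι n) p + p + (υ (ι n) (υ c p) + υ c p)) = (x : G → P2) n := by
          rw [← add_assoc]
          exact h4.symm
        exact add_eq_left.1 h6
      show υ (ι n) (p + υ c p) = p + υ c p
      rw [E.act.add]
      have h7 : υ (ι n) p + υ (ι n) (υ c p) + (p + υ c p) = 0 := by
        rw [← h5]
        abel
      exact (CharTwo.add_eq_zero (R := P2)).1 h7
    rw [add_comm] at h2
    exact (CharTwo.add_eq_zero (R := P2)).1 h2
  -- the extension
  have hcs : ∀ n m : G, ι n ≠ ι m * c := by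
    intro n m h1
    apply E.nc (m⁻¹ * n)
    rw [map_mul, map_inv, h1]
    group
  let y : Gq → P2 := fun g => if h : ∃ n, ι n = g then (x : G → P2) h.choose else
    if h' : ∃ n, ι n * c = g then (x : G → P2) h'.choose + υ (ι h'.choose) p else 0
  have hy1 : ∀ n, y (ι n) = (x : G → P2) n := by
    intro n
    have h : ∃ m, ι m = ι n := ⟨n, rfl⟩
    have h1 : y (ι n) = (x : G → P2) h.choose := dif_pos h
    rw [h1, E.inj h.choose_spec]
  have hy2 : ∀ n, y (ι n * c) = (x : G → P2) n + υ (ι n) p := by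
    intro n
    have h0 : ¬ ∃ m, ι m = ι n * c := fun ⟨m, hm⟩ => hcs m n hm
    have h : ∃ m, ι m * c = ι n * c := ⟨n, rfl⟩
    have h1 : y (ι n * c) = (x : G → P2) h.choose + υ (ι h.choose) p := by
      show dite _ _ _ = _
      rw [dif_neg h0, dif_pos h]
    rw [h1, E.inj (mul_right_cancel h.choose_spec)]
  have hx2 : ∀ a b, (x : G → P2) (a * b) = (x : G → P2) a + υ (ι a) ((x : G → P2) b) := x.2.2
  have hmul : ∀ a b, y (a * b) = y a + υ a (y b) := by
    intro a b
    rcases E.cases a with ⟨n, rfl⟩ | ⟨n, rfl⟩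
    · rcases E.cases b with ⟨m, rfl⟩ | ⟨m, rfl⟩
      · rw [← map_mul, hy1, hy1, hy1, hx2]
      · rw [← mul_assoc, ← map_mul, hy2, hy1, hy2, hx2, E.act.add, map_mul, E.act.mul, add_assoc]
    · have hcm : ∀ m, c * ι m = ι (κ m) * c := by
        intro m
        rw [E.kap, mul_assoc, E.cc, mul_one]
      rcases E.cases b with ⟨m, rfl⟩ | ⟨m, rfl⟩
      · have e1 : ι n * c * ι m = ι (n * κ m) * c := by rw [mul_assoc, hcm, map_mul, mul_assoc]
        have h3 : υ c ((x : G → P2) m) = (x : G → P2) (κ m) + (υ (ι (κ m)) p + p) := by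
          have := hp' (κ m)
          rwa [H.kk] at this
        rw [e1, hy2, hy2, hy1, hx2, E.act.mul (ι n) c, h3, E.act.add (ι n), E.act.add (ι n),
          map_mul, E.act.mul]
        have e2 : (x : G → P2) n + υ (ι n) p + (υ (ι n) ((x : G → P2) (κ m)) +
            (υ (ι n) (υ (ι (κ m)) p) + υ (ι n) p)) =
            (υ (ι n) p + υ (ι n) p) + ((x : G → P2) n + υ (ι n) ((x : G → P2) (κ m)) +
            υ (ι n) (υ (ι (κ m)) p)) := by abel
        rw [e2, p2_add_self, zero_add]
      · have e1 : ι n * c * (ι m * c) = ι (n * κ m) := by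
          rw [mul_assoc, ← mul_assoc c, hcm, map_mul, mul_assoc, E.cc, mul_one]
        have h3 : υ c ((x : G → P2) m) = (x : G → P2) (κ m) + (υ (ι (κ m)) p + p) := by
          have := hp' (κ m)
          rwa [H.kk] at this
        have h4 : υ c (υ (ι m) p) = υ (ι (κ m)) p := by
          rw [← E.act.mul, hcm, E.act.mul, hpc]
        rw [e1, hy1, hy2, hy2, hx2, E.act.mul (ι n) c, E.act.add c, h3, h4, E.act.add (ι n),
          E.act.add (ι n), E.act.add (ι n)]
        have e2 : (x : G → P2) n + υ (ι n) p + (υ (ι n) ((x : G → P2) (κ m)) +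
            (υ (ι n) (υ (ι (κ m)) p) + υ (ι n) p) + υ (ι n) (υ (ι (κ m)) p)) =
            (υ (ι n) p + υ (ι n) p) + (υ (ι n) (υ (ι (κ m)) p) + υ (ι n) (υ (ι (κ m)) p)) +
            ((x : G → P2) n + υ (ι n) ((x : G → P2) (κ m))) := by abel
        rw [e2, p2_add_self, p2_add_self, zero_add, zero_add]
  have hyZ : y ∈ ZU Sq E.act := by
    rw [mem_ZU, mem_zu_iff Sq E.act]
    refine ⟨(E.smx y hmul).2 ?_, hmul⟩
    obtain ⟨W, hW, h1⟩ := ((mem_zu_iff S H.act).1 x.2).1
    exact ⟨W, hW, fun w hw => by rw [hy1, h1 w hw]⟩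
  exact ⟨⟨y, hyZ⟩, Subtype.ext (funext fun n => hy1 n)⟩

theorem Ext2.range_rq : LinearMap.range (E.rq H) = H.AK := by
  ext x
  constructor
  · rintro ⟨y, rfl⟩
    exact E.rq_mem H y
  · intro hx
    exact E.rq_surj H hx

theorem Ext2.finrank_AK : Module.finrank (ZMod 2) H.AK = Module.finrank (ZMod 2) (ZU Sq E.act) := by
  rw [← E.range_rq H, LinearMap.finrank_range_of_inj (E.rq_inj H)]

include H in
theorem Ext2.finq : FiniteDimensional (ZMod 2) (ZU Sq E.act) := by
  have := H.fin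
  exact FiniteDimensional.of_injective (E.rq H) (E.rq_inj H)

end ext

end Pool.Agent.Work.MP_787500_nt.KS
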