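import Mathlib
import Pool.Agent.Work.MP_787500_nt.KS.V8

/-!
The rational numbers: an upper bound for the number of classes, from reciprocity.
-/

set_option autoImplicit false
set_option linter.unusedSectionVars false

namespace Pool.Agent.Work.MP_787500_nt.KS

open Pool.Agent.Work.MP_787500_nt.GP (A0 half hf hf_zero hf_one hf_add hf_inj hf_two eq_hf smul_hf
  IsAct d0 d1 tw cup11 cup01)
open Pool.Agent.Work.MP_787500_nt.PA (TwoSys homs)
open Pool.Agent.Work.MP_787500_nt.KR (FSys Z1 Z2 Sm1 Sm2 Smooth two res zM LocH Pair IsChar)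

variable {G : Type*} [Group G] {S : FSys G} {Φ : Type*} [Fintype Φ] {D : Φ → Type*}
  [∀ w, Group (D w)] {SD : ∀ w, FSys (D w)} {j : ∀ w, D w →* G} {χ : G → ℤ_[2]}
  {inv : ∀ w, (D w → D w → A0) → A0} {κ : G →* G}

/-- The remaining places of the larger group, and reciprocity. -/
structure RecU {Gq : Type*} [Group Gq] (Sq : FSys Gq) (ι : G →* Gq) (c : Gq)
    (j : ∀ w, D w →* G) (inv : ∀ w, (D w → D w → A0) → A0) {Ψ : Type*} [Fintype Ψ] {E : Ψ → Type*}
    [∀ v, Group (E v)] (SE : ∀ v, FSys (E v)) (je : ∀ v, E v →* Gq) (χe : ∀ v, E v → ℤ_[2])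
    (inve : ∀ v, (E v → E v → A0) → A0) : Prop where
  jsm : ∀ v W, Sq.mem W → ∃ W', (SE v).mem W' ∧ ∀ x ∈ W', je v x ∈ W
  loc : ∀ v, LocH (SE v) (χe v) (inve v)
  recip : ∀ f : Gq → Gq → ZMod 2, Sm2 Sq f →
    (∀ g h k, f g h + f (g * h) k = f h k + f g (h * k)) →
    ∑ w, inv w (fun a b => hf (f (ι (j w a)) (ι (j w b)))) +
      ∑ v, inve v (fun a b => hf (f (je v a) (je v b))) + hf (f c c + f 1 1) = 0

section rec

variable {Gq : Type*} [Group Gq] {Sq : FSys Gq} {ι : G →* Gq} {c : Gq} {υ : Gq → P2 → P2}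
  {Ψ : Type*} [Fintype Ψ] {E : Ψ → Type*}
  [∀ v, Group (E v)] {SE : ∀ v, FSys (E v)} {je : ∀ v, E v →* Gq} {χe : ∀ v, E v → ℤ_[2]}
  {inve : ∀ v, (E v → E v → A0) → A0}
  (X : Ext2 Sq ι c κ S υ) (H : KU S SD j χ inv κ (fun g => υ (ι g)) (υ c))
  (R : RecU Sq ι c j inv SE je χe inve)

/-- the cup product of two cocycles is a cocycle -/
theorem eeP_coc {υ : Gq → P2 → P2} (h : IsAct υ) {x y : Gq → P2}
    (hx : ∀ a b, x (a * b) = x a + υ a (x b)) (hy : ∀ a b, y (a * b) = y a + υ a (y b))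
    (g k l : Gq) : ee (x g) (υ g (y k)) + ee (x (g * k)) (υ (g * k) (y l)) =
      ee (x k) (υ k (y l)) + ee (x g) (υ g (y (k * l))) := by
  rw [hx, hy, h.add, ee_add_left, ee_add_right, h.mul, act_ee h]
  abel

theorem eeP_sm {Sq : FSys Gq} {υ : Gq → P2 → P2} (hsm : Smooth Sq υ) (h : IsAct υ) {x y : Gq → P2}
    (hx : Sm1 Sq x) (hy : Sm1 Sq y) : Sm2 Sq (fun a b => ee (x a) (υ a (y b))) := by
  obtain ⟨W, hW, h1⟩ := hsm
  obtain ⟨W1, hW1, h2⟩ := hx
  obtain ⟨W2, hW2, h3⟩ := hy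
  refine ⟨W ⊓ (W1 ⊓ W2), Sq.inf hW (Sq.inf hW1 hW2), fun g k w hw w' hw' => ?_⟩
  show ee (x (g * w)) (υ (g * w) (y (k * w'))) = ee (x g) (υ g (y k))
  rw [h2 g w hw.2.1, h3 k w' hw'.2.2, h.mul, h1 w hw.1]

include X R in
/-- the local groups at the remaining places act smoothly -/
theorem RecU.smE (v : Ψ) : Smooth (SE v) (fun d => υ (je v d)) := X.sm.comp (R.jsm v)

include X in
theorem RecU.actE (v : Ψ) : IsAct (fun d => υ (je v d)) := X.act.comp (je v)

include X R in
/-- Isotropy: `y` is trivial at the remaining places and at `c`. -/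
theorem RecU.iso {x y : Gq → P2} (hx : Z1 Sq υ x) (hy : Z1 Sq υ y)
    (hv : ∀ v, ∃ m, ∀ d, y (je v d) = υ (je v d) m + m) (hc : ∃ m, y c = υ c m + m) :
    ∑ w, inv w (cup11 (fun d => υ (ι (j w d))) eP (fun d => x (ι (j w d)))
      (fun d => y (ι (j w d)))) = 0 := by
  have h1 := R.recip (fun a b => ee (x a) (υ a (y b))) (eeP_sm X.sm X.act hx.1 hy.1)
    (fun g k l => eeP_coc X.act hx.2 hy.2 g k l)
  have h2 : ∑ v, inve v (fun a b => hf (ee (x (je v a)) (υ (je v a) (y (je v b))))) = 0 := by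
    refine Finset.sum_eq_zero fun v _ => ?_
    obtain ⟨m, hm⟩ := hv v
    have hp := pairP (R.loc v).char (RecU.actE X v) (RecU.smE X R v)
    have h3 := KR.f06_right (R.loc v) hp m (Z1.comp (R.jsm v) hx)
    rw [← h3]
    congr 1
    funext a b
    show hf (ee (x (je v a)) (υ (je v a) (y (je v b)))) =
      hf (ee (x (je v a)) (υ (je v a) (υ (je v b) m - m)))
    rw [hm, p2_sub]
  have h3 : ee (x c) (υ c (y c)) + ee (x 1) (υ 1 (y 1)) = 0 := by
    obtain ⟨m, hm⟩ := hc
    have h4 := X.c_fix hx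
    have h5 : υ c (υ c m) = m := by rw [← X.act.mul, X.cc, X.act.one]
    rw [z1_one (h := X.act) Sq hx, ee_zero_left, add_zero, hm, X.act.add, h5, ee_add_right]
    have h6 : ee (x c) (υ c m) = ee (x c) m := by
      have := act_ee X.act c (x c) m
      rwa [h4] at this
    rw [h6]
    exact CharTwo.add_self_eq_zero _
  rw [h2, add_zero] at h1
  simp only [h3, hf_zero, add_zero] at h1
  exact h1

/-! ## The count -/

/-- restriction to the remaining places and the value at `c` -/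
def RecU.re : ZU Sq X.act →ₗ[ZMod 2] ((∀ v, ZU (SE v) (RecU.actE (je := je) X v)) × P2) where
  toFun x := (fun v => ⟨fun d => (x : Gq → P2) (je v d), Z1.comp (R.jsm v) x.2⟩, (x : Gq → P2) c)
  map_add' _ _ := rfl
  map_smul' _ _ := rfl

theorem RecU.re_fst (x : ZU Sq X.act) (v : Ψ) (d : E v) :
    ((RecU.re X R x).1 v : E v → P2) d = (x : Gq → P2) (je v d) := rfl

theorem RecU.re_snd (x : ZU Sq X.act) : (RecU.re X R x).2 = (x : Gq → P2) c := rfl

/-- `1 + c` -/
def nrm (X : Ext2 Sq ι c κ S υ) : P2 →ₗ[ZMod 2] P2 where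
  toFun m := υ c m + m
  map_add' a b := by
    rw [X.act.add]
    abel
  map_smul' a m := by
    rw [act_smul X.act, RingHom.id_apply, smul_add]

theorem ker_nrm (X : Ext2 Sq ι c κ S υ) : LinearMap.ker (nrm X) = FX1 (υ c) (X.act.add c) := by
  ext m
  rw [LinearMap.mem_ker, mem_FX1]
  constructor
  · intro h
    exact (CharTwo.add_eq_zero (R := P2)).1 h
  · intro h
    show υ c m + m = 0
    rw [h, p2_add_self]

theorem finrank_nrm (X : Ext2 Sq ι c κ S υ) : Module.finrank (ZMod 2) (LinearMap.range (nrm X)) +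
    Module.finrank (ZMod 2) (FX1 (υ c) (X.act.add c)) = 2 := by
  have h1 := LinearMap.finrank_range_add_finrank_ker (nrm X)
  rwa [ker_nrm, p2_finrank] at h1

/-- the cocycles that are trivial at the remaining places and at `c` -/
noncomputable def RecU.K0 : Submodule (ZMod 2) (ZU Sq X.act) :=
  ((sPi fun v => LinearMap.range (dM (SE v) (RecU.smE X R v) (RecU.actE X v))).prod
    (LinearMap.range (nrm X))).comap (RecU.re X R)

theorem RecU.mem_K0 {x : ZU Sq X.act} : x ∈ RecU.K0 X R ↔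
    (∀ v, ∃ m, ∀ d, (x : Gq → P2) (je v d) = υ (je v d) m + m) ∧
      ∃ m, (x : Gq → P2) c = υ c m + m := by
  unfold RecU.K0
  rw [Submodule.mem_comap]
  constructor
  · rintro ⟨h1, ⟨m, hm⟩⟩
    refine ⟨fun v => ?_, m, hm.symm⟩
    obtain ⟨m', hm'⟩ := h1 v
    exact ⟨m', fun d => by
      have := congrFun (congrArg Subtype.val hm') d
      rw [dM_apply] at this
      exact this.symm⟩
  · rintro ⟨h1, m, hm⟩
    refine ⟨fun v => ?_, m, hm.symm⟩
    obtain ⟨m', hm'⟩ := h1 v
    exact ⟨m', Subtype.ext (funext fun d => by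
      rw [dM_apply]
      exact (hm' d).symm)⟩

/-- the codimension of `K0` -/
theorem RecU.codim (hfin : ∀ v, FiniteDimensional (ZMod 2) (ZU (SE v) (RecU.actE (je := je) X v)))
    (hq : FiniteDimensional (ZMod 2) (ZU Sq X.act)) :
    Module.finrank (ZMod 2) (ZU Sq X.act) + 2 * Fintype.card Ψ + 2 ≤
      ∑ v, (Module.finrank (ZMod 2) (ZU (SE v) (RecU.actE (je := je) X v)) +
        Module.finrank (ZMod 2) (FX (RecU.actE (je := je) X v))) +
      2 * Module.finrank (ZMod 2) (FX1 (υ c) (X.act.add c)) +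
      Module.finrank (ZMod 2) (RecU.K0 X R) := by
  have hV : FiniteDimensional (ZMod 2) (∀ v, ZU (SE v) (RecU.actE (je := je) X v)) := by
    infer_instance
  have h1 := finrank_map_sup (RecU.re X R)
    ((sPi fun v => LinearMap.range (dM (SE v) (RecU.smE X R v) (RecU.actE X v))).prod
      (LinearMap.range (nrm X)))
  have h2 : LinearMap.range (RecU.re X R) ⊔
      ((sPi fun v => LinearMap.range (dM (SE v) (RecU.smE X R v) (RecU.actE X v))).prod
      (LinearMap.range (nrm X))) ≤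
      (⊤ : Submodule (ZMod 2) (∀ v, ZU (SE v) (RecU.actE (je := je) X v))).prod
        (FX1 (υ c) (X.act.add c)) := by
    refine sup_le ?_ ?_
    · rintro _ ⟨x, rfl⟩
      exact ⟨trivial, X.c_fix x.2⟩
    · rintro z ⟨-, ⟨m, hm⟩⟩
      refine ⟨trivial, ?_⟩
      show υ c z.2 = z.2
      rw [← hm]
      show υ c (υ c m + m) = υ c m + m
      rw [X.act.add, ← X.act.mul, X.cc, X.act.one, add_comm]
  have h3 := Submodule.finrank_mono h2
  rw [finrank_prodS, finrank_top, Module.finrank_pi_fintype] at h3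
  rw [finrank_prodS, finrank_sPi] at h1
  have h4 : ∑ v, Module.finrank (ZMod 2) (LinearMap.range (dM (SE v) (RecU.smE X R v)
      (RecU.actE (je := je) X v))) +
      ∑ v, Module.finrank (ZMod 2) (FX (RecU.actE (je := je) X v)) = 2 * Fintype.card Ψ := by
    rw [← Finset.sum_add_distrib, Finset.sum_congr rfl fun v _ =>
      finrank_cob (SE v) (RecU.smE X R v) (RecU.actE X v)]
    rw [Finset.sum_const, smul_eq_mul, mul_comm]
    rfl
  have h5 := finrank_nrm X
  rw [Finset.sum_add_distrib]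
  change _ + Module.finrank (ZMod 2) (RecU.K0 X R) = _ at h1
  omega

/-- the restriction of the larger group to the places of the quadratic field -/
def RecU.rf : ZU Sq X.act →ₗ[ZMod 2] VF H.loc := H.rs.comp (X.rq H)

/-- coboundaries -/
noncomputable def BQ (X : Ext2 Sq ι c κ S υ) : Submodule (ZMod 2) (ZU Sq X.act) :=
  LinearMap.range (dM Sq X.sm X.act)

include H in
theorem finrank_BQ : Module.finrank (ZMod 2) (BQ X) = 2 := by
  have h1 := finrank_cob Sq X.sm X.act
  have h2 : FX X.act = ⊥ := by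
    rw [eq_bot_iff]
    intro m hm
    exact H.nofix m fun g => hm (ι g)
  rw [h2, finrank_bot, add_zero] at h1
  exact h1

theorem RecU.comap_rf : (RF H.loc).comap (RecU.rf X H) = BQ X := by
  ext x
  constructor
  · intro hx
    have h1 : H.rs (X.rq H x) ∈ RF H.loc := hx
    have h2 := X.rq_mem H x
    rw [H.mem_AK] at h2
    have h3 := H.rs_BG h2
    have h4 : H.rs (H.cj (X.rq H x)) ∈ RF H.loc := by
      rw [map_sub] at h3
      have := Submodule.add_mem _ h3 h1
      rwa [sub_add_cancel] at this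
    obtain ⟨m, hm⟩ := H.mem_BG.1 (H.sha_mem h1 h4)
    refine ⟨m, X.rq_inj H (Subtype.ext (funext fun g => ?_))⟩
    rw [hm]
    show (dM Sq X.sm X.act m : Gq → P2) (ι g) = _
    rw [dM_apply]
  · rintro ⟨m, rfl⟩
    show RecU.rf X H _ ∈ RF H.loc
    rw [mem_RF]
    refine fun w => ⟨m, fun d => ?_⟩
    show (dM Sq X.sm X.act m : Gq → P2) (ι (j w d)) = _
    rw [dM_apply]

theorem RecU.BQ_le : BQ X ≤ RecU.K0 X R := by
  rintro _ ⟨m, rfl⟩
  rw [RecU.mem_K0]
  exact ⟨fun v => ⟨m, fun d => dM_apply _ _ _ _ _⟩, m, dM_apply _ _ _ _ _⟩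

/-- the bound from isotropy -/
theorem RecU.bound : Module.finrank (ZMod 2) (RecU.K0 X R) + Module.finrank (ZMod 2) (ZU Sq X.act) +
    Module.finrank (ZMod 2) (RF H.loc) ≤
    ∑ w, Module.finrank (ZMod 2) (ZU (SD w) (H.loc.act w)) + 4 := by
  have := X.finq H
  have := H.loc.finV
  have hfi := H.loc.fin
  have h1 := finrank_map_sup ((RecU.rf X H).comp (RecU.K0 X R).subtype) (RF H.loc)
  have h2 := finrank_map_sup (RecU.rf X H) (RF H.loc)
  have h3 : (RF H.loc).comap ((RecU.rf X H).comp (RecU.K0 X R).subtype) =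
      (BQ X).comap (RecU.K0 X R).subtype := by
    rw [← RecU.comap_rf X H, Submodule.comap_comp]
  rw [h3, (Submodule.comapSubtypeEquivOfLe (RecU.BQ_le X R)).finrank_eq, finrank_BQ X H] at h1
  rw [RecU.comap_rf, finrank_BQ X H] at h2
  have hR : ∀ {r : VF H.loc}, r ∈ RF H.loc → ∀ y, bF H.loc r y = 0 := by
    intro r hr y
    rw [← ker_bF, LinearMap.mem_ker] at hr
    rw [hr, LinearMap.zero_apply]
  have h4 := finrank_orth (b := bF H.loc) (bF_symm H.loc)
    (P := LinearMap.range ((RecU.rf X H).comp (RecU.K0 X R).subtype) ⊔ RF H.loc)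
    (Q := LinearMap.range (RecU.rf X H) ⊔ RF H.loc) (by rw [ker_bF]; exact le_sup_right) (by
      intro p hp q hq
      obtain ⟨_, ⟨y, rfl⟩, r, hr, rfl⟩ := Submodule.mem_sup.1 hp
      obtain ⟨_, ⟨x, rfl⟩, s, hs, rfl⟩ := Submodule.mem_sup.1 hq
      rw [map_add, map_add, LinearMap.add_apply, LinearMap.add_apply, hR hr, hR hr,
        bF_symm H.loc _ s, hR hs, add_zero, add_zero, add_zero, bF_symm]
      apply hf_inj
      rw [hf_bF, hf_zero]
      obtain ⟨h5, h6⟩ := (RecU.mem_K0 X R).1 y.2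
      exact RecU.iso X R x.2 (y : ZU Sq X.act).2 h5 h6)
  rw [ker_bF, Module.finrank_pi_fintype] at h4
  omega

end rec

end Pool.Agent.Work.MP_787500_nt.KS
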