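import Mathlib
import Pool.Agent.Work.MP_787500_nt.KS.V9

/-!
The parity of the Selmer space of the plane over the field with two elements.
-/

set_option autoImplicit false
set_option linter.unusedSectionVars false

namespace Pool.Agent.Work.MP_787500_nt.KS

open Pool.Agent.Work.MP_787500_nt.GP (A0 half hf hf_zero hf_one hf_add hf_inj hf_two eq_hf smul_hf
  IsAct d0 d1 tw cup11 cup01)
open Pool.Agent.Work.MP_787500_nt.PA (TwoSys homs)
open Pool.Agent.Work.MP_787500_nt.KR (FSys Z1 Z2 Sm1 Sm2 Smooth two res zM LocH Pair IsChar)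

variable {G : Type*} [Group G] {S : FSys G} {Φ : Type*} [Fintype Φ] {D : Φ → Type*}
  [∀ w, Group (D w)] {SD : ∀ w, FSys (D w)} {j : ∀ w, D w →* G} {χ : G → ℤ_[2]}
  {inv : ∀ w, (D w → D w → A0) → A0} {κ : G →* G}
  {Gq : Type*} [Group Gq] {Sq : FSys Gq} {ι : G →* Gq} {c : Gq} {υ : Gq → P2 → P2}
  {Ψ : Type*} [Fintype Ψ] {E : Ψ → Type*}
  [∀ v, Group (E v)] {SE : ∀ v, FSys (E v)} {je : ∀ v, E v →* Gq} {χe : ∀ v, E v → ℤ_[2]}
  {inve : ∀ v, (E v → E v → A0) → A0}

open scoped Classical in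
/-- the character with kernel `G` -/
noncomputable def ep (ι : G →* Gq) (g : Gq) : ZMod 2 := if ∃ n, ι n = g then 0 else 1

theorem ep_ι (ι : G →* Gq) (n : G) : ep ι (ι n) = 0 := if_pos ⟨n, rfl⟩

theorem ep_c (X : Ext2 Sq ι c κ S υ) (n : G) : ep ι (ι n * c) = 1 := by
  refine if_neg ?_
  rintro ⟨m, hm⟩
  apply X.nc (n⁻¹ * m)
  rw [map_mul, map_inv, hm]
  group

theorem ep_mul (X : Ext2 Sq ι c κ S υ) (g k : Gq) : ep ι (g * k) = ep ι g + ep ι k := by
  have hcm : ∀ m, c * ι m = ι (κ m) * c := by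
    intro m
    rw [X.kap, mul_assoc, X.cc, mul_one]
  rcases X.cases g with ⟨n, rfl⟩ | ⟨n, rfl⟩
  · rcases X.cases k with ⟨m, rfl⟩ | ⟨m, rfl⟩
    · rw [← map_mul, ep_ι, ep_ι, ep_ι, add_zero]
    · rw [← mul_assoc, ← map_mul, ep_c X, ep_ι, ep_c X, zero_add]
  · rcases X.cases k with ⟨m, rfl⟩ | ⟨m, rfl⟩
    · rw [mul_assoc, hcm, ← mul_assoc, ← map_mul, ep_c X, ep_ι, ep_c X, add_zero]
    · rw [mul_assoc, ← mul_assoc c, hcm, mul_assoc, X.cc, mul_one, ← map_mul, ep_ι, ep_c X, ep_c X]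
      decide

theorem sign_zero (X : Ext2 Sq ι c κ S υ) (R : RecU Sq ι c j inv SE je χe inve)
    (hL : ∀ w, LocH (SD w) (fun d => χ (j w d)) (inv w))
    (heps : ∃ W, Sq.mem W ∧ ∀ w ∈ W, ∃ n, ι n = w)
    (hloc : ∀ v, inve v (fun a b => hf (ep ι (je v a) * sg (υ (je v b)))) =
      hf (Module.finrank (ZMod 2) (FX (RecU.actE (je := je) X v)) : ZMod 2)) :
    ((∑ v, Module.finrank (ZMod 2) (FX (RecU.actE (je := je) X v)) +
      Module.finrank (ZMod 2) (FX1 (υ c) (X.act.add c)) : ℕ) : ZMod 2) = 0 := by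
  obtain ⟨W, hW, h1⟩ := heps
  obtain ⟨W', hW', h2⟩ := X.sm
  have hsg1 : ∀ g k, sg (υ (g * k)) = sg (υ g) + sg (υ k) := act_sg_mul X.act
  have hsg0 : ∀ w ∈ W', ∀ g, sg (υ (g * w)) = sg (υ g) := by
    intro w hw g
    have : υ (g * w) = υ g := funext fun m => by rw [X.act.mul, h2 w hw]
    rw [this]
  have hsgone : sg (υ 1) = 0 := by
    have := hsg1 1 1
    rw [one_mul] at this
    exact left_eq_add.1 this
  have hsm : Sm2 Sq (fun a b => ep ι a * sg (υ b)) := by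
    refine ⟨W ⊓ W', Sq.inf hW hW', fun g k w hw w' hw' => ?_⟩
    obtain ⟨n, hn⟩ := h1 w hw.1
    show ep ι (g * w) * sg (υ (k * w')) = ep ι g * sg (υ k)
    rw [hsg0 w' hw'.2, ep_mul X, ← hn, ep_ι, add_zero]
  have h3 := R.recip (fun a b => ep ι a * sg (υ b)) hsm (fun g k l => by
    rw [ep_mul X, hsg1]
    ring)
  have h4 : ∑ w, inv w (fun a b => hf (ep ι (ι (j w a)) * sg (υ (ι (j w b))))) = 0 := by
    refine Finset.sum_eq_zero fun w _ => ?_
    have e : (fun a b => hf (ep ι (ι (j w a)) * sg (υ (ι (j w b))))) = fun _ _ => 0 := by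
      funext a b
      rw [ep_ι, zero_mul, hf_zero]
    rw [e]
    exact inv_zero' (hL w)
  have hc : ep ι c = 1 := by
    have := ep_c X 1
    rwa [map_one, one_mul] at this
  rw [h4, zero_add, Finset.sum_congr rfl fun v _ => hloc v, ← hf_sum, ← hf_add] at h3
  have h5 := hf_inj (h3.trans hf_zero.symm)
  rw [hc, one_mul, hsgone, mul_zero, add_zero, ← fx1_sg (X.act.add c) (act_inj X.act c)] at h5
  rw [Nat.cast_add, Nat.cast_sum]
  exact h5

/-- The parity formula for the plane over the field with two elements. -/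
theorem parity_P2 (X : Ext2 Sq ι c κ S υ) (H : KU S SD j χ inv κ (fun g => υ (ι g)) (υ c))
    (R : RecU Sq ι c j inv SE je χe inve)
    (heps : ∃ W, Sq.mem W ∧ ∀ w ∈ W, ∃ n, ι n = w)
    (hloc : ∀ v, inve v (fun a b => hf (ep ι (je v a) * sg (υ (je v b)))) =
      hf (Module.finrank (ZMod 2) (FX (RecU.actE (je := je) X v)) : ZMod 2))
    (d : Φ → ℕ) (hd : ∑ w, d w = 1)
    (hD : ∀ w, Module.finrank (ZMod 2) (ZU (SD w) (H.loc.act w)) =
      2 * d w + 2 + Module.finrank (ZMod 2) (FX (H.loc.act w)))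
    (hE : ∀ v, FiniteDimensional (ZMod 2) (ZU (SE v) (RecU.actE (je := je) X v)) ∧
      Module.finrank (ZMod 2) (ZU (SE v) (RecU.actE (je := je) X v)) =
        2 + Module.finrank (ZMod 2) (FX (RecU.actE (je := je) X v)))
    (hlow : 2 + ∑ w, Module.finrank (ZMod 2) (FX (H.loc.act w)) +
      ∑ v, Module.finrank (ZMod 2) (FX (RecU.actE (je := je) X v)) +
      Module.finrank (ZMod 2) (FX1 (υ c) (X.act.add c)) ≤ Module.finrank (ZMod 2) (ZU Sq X.act))
    {L : ∀ w, Submodule (ZMod 2) (ZU (SD w) (H.loc.act w))}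
    (hL : ∀ w, ann (bL (H.loc.loc w) (H.loc.act w) (H.loc.sm w)) (L w) = L w) :
    ((Module.finrank (ZMod 2) (H.sel L) + ∑ w, Module.finrank (ZMod 2) (L w) : ℕ) : ZMod 2) = 0 := by
  have h1 := H.count hL
  have h2 := sign_zero X R H.loc.loc heps hloc
  have h3 := RecU.codim X R (fun v => (hE v).1) (X.finq H)
  have h4 := RecU.bound X H R
  have h5 := finrank_RF H.loc
  have h6 := X.finrank_AK H
  have h7 : ∑ w, Module.finrank (ZMod 2) (ZU (SD w) (H.loc.act w)) =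
      2 + 2 * Fintype.card Φ + ∑ w, Module.finrank (ZMod 2) (FX (H.loc.act w)) := by
    rw [Finset.sum_congr rfl fun w _ => hD w, Finset.sum_add_distrib, Finset.sum_add_distrib,
      ← Finset.mul_sum, hd, Finset.sum_const, smul_eq_mul, mul_comm _ 2]
    rfl
  have h8 : ∑ v, (Module.finrank (ZMod 2) (ZU (SE v) (RecU.actE (je := je) X v)) +
        Module.finrank (ZMod 2) (FX (RecU.actE (je := je) X v))) =
      2 * Fintype.card Ψ + 2 * ∑ v, Module.finrank (ZMod 2) (FX (RecU.actE (je := je) X v)) := by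
    rw [Finset.sum_congr rfl fun v _ => congrArg (· + Module.finrank (ZMod 2)
      (FX (RecU.actE (je := je) X v))) (hE v).2, Finset.sum_add_distrib, Finset.sum_add_distrib,
      Finset.sum_const, smul_eq_mul]
    have : Finset.univ.card = Fintype.card Ψ := rfl
    rw [this]
    ring
  rw [ZMod.natCast_eq_zero_iff] at h1 h2 ⊢
  omega

end Pool.Agent.Work.MP_787500_nt.KS
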