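import Mathlib
import Pool.Agent.Work.MP_787500_nt.KS.V2

/-!
The cocycles with values in the plane over the field with two elements, transitive case.
-/

set_option autoImplicit false
set_option linter.unusedSectionVars false

namespace Pool.Agent.Work.MP_787500_nt.KS

open Pool.Agent.Work.MP_787500_nt.GP (IsAct d0)
open Pool.Agent.Work.MP_787500_nt.PA (TwoSys homs)
open Pool.Agent.Work.MP_787500_nt.KR (FSys Z1 Sm1 Smooth two res zM)

theorem p2_sum_ne : ∑ v ∈ Finset.univ.filter (fun v : P2 => v ≠ 0), v = 0 := by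
  decide

theorem p2_card_ne : (Finset.univ.filter (fun v : P2 => v ≠ 0)).card = 3 := by
  decide

theorem p2_dual : ∀ φ : P2 → ZMod 2, ∀ v ∈ Finset.univ.filter (fun v : P2 => v ≠ 0),
    ee v (∑ w ∈ Finset.univ.filter (fun v : P2 => v ≠ 0), φ w • w) =
      (∑ w ∈ Finset.univ.filter (fun v : P2 => v ≠ 0), φ w) + φ v := by
  unfold ee
  decide

theorem ee_sep {x y : P2} (h : ∀ v : P2, v ≠ 0 → ee v x = ee v y) : x = y := by
  have h1 : ∀ v : P2, ee (x + y) v = 0 := by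
    intro v
    rw [ee_comm, ee_add_right]
    by_cases hv : v = 0
    · rw [hv, ee_zero_left, ee_zero_left, add_zero]
    · rw [h v hv]
      exact CharTwo.add_self_eq_zero _
  exact (CharTwo.add_eq_zero (R := P2)).1 (ee_nondeg h1)

section act

variable {G : Type*} [Group G] (F : FSys G) {υ : G → P2 → P2}

theorem ee_fix (h : IsAct υ) {g : G} {v m : P2} (hv : υ g v = v) : ee v (υ g m) = ee v m := by
  have := act_ee h g v m
  rwa [hv] at this

/-- the form as a linear map -/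
def eeL (v : P2) : P2 →ₗ[ZMod 2] ZMod 2 where
  toFun := ee v
  map_add' := ee_add_right v
  map_smul' a m := by
    rw [ee_smul_right]
    rfl

theorem eeL_apply (v m : P2) : eeL v m = ee v m := rfl

/-- the nonzero vectors -/
abbrev NZ : Finset P2 := Finset.univ.filter (fun v : P2 => v ≠ 0)

theorem mem_NZ {v : P2} : v ∈ NZ ↔ v ≠ 0 := by simp [NZ]

theorem act_NZ (h : IsAct υ) (g : G) {v : P2} (hv : v ∈ NZ) : υ g v ∈ NZ := by
  rw [mem_NZ] at hv ⊢
  exact fun h0 => hv (act_inj h g (h0.trans (act_zero h g).symm))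

theorem sum_NZ {A : Type*} [AddCommMonoid A] (h : IsAct υ) (g : G) (φ : P2 → A) :
    ∑ v ∈ NZ, φ (υ g v) = ∑ v ∈ NZ, φ v :=
  Finset.sum_nbij' (υ g) (υ g⁻¹) (fun _ hv => act_NZ h g hv) (fun _ hv => act_NZ h g⁻¹ hv)
    (fun v _ => act_inv h g v) (fun v _ => act_inv' h g v) (fun _ _ => rfl)

/-- the formula behind Shapiro's lemma -/
theorem shap_formula {h : IsAct υ} {x : G → P2} (hx : Z1 F υ x) {v₀ : P2} {f : G → ZMod 2}
    (hf : ∀ a b, f (a * b) = f a + f b) (hC : ∀ g, υ g v₀ = v₀ → ee v₀ (x g) = f g)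
    {s : P2 → G} {B : Finset P2} (hs : ∀ v ∈ B, υ (s v) v₀ = v) {v : P2} {g : G}
    (hv : v ∈ B) (hv' : υ g⁻¹ v ∈ B) :
    ee v (x g) + f g = (ee v (x (s v)) + f (s v)) +
      (ee (υ g⁻¹ v) (x (s (υ g⁻¹ v))) + f (s (υ g⁻¹ v))) := by
  have hf1 : f 1 = 0 := by
    have := hf 1 1
    rw [one_mul] at this
    exact left_eq_add.1 this
  have hfi : ∀ a, f a⁻¹ = f a := by
    intro a
    have := hf a a⁻¹
    rw [mul_inv_cancel, hf1] at this
    exact (CharTwo.add_eq_zero.1 this.symm).symm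
  set a := s v with ha
  set b := s (υ g⁻¹ v) with hb
  have h1 : υ a v₀ = v := hs v hv
  have h2 : υ b v₀ = υ g⁻¹ v := hs _ hv'
  have hc : υ (a⁻¹ * g * b) v₀ = v₀ := by
    rw [h.mul, h2, h.mul, act_inv' h, ← h1, act_inv h]
  have h3 := hC _ hc
  -- `g = a c b⁻¹`
  have hg : g = a * ((a⁻¹ * g * b) * b⁻¹) := by group
  set c := a⁻¹ * g * b with hcdef
  have h4 : x g = x a + υ a (x c + υ c (x b⁻¹)) := by
    conv_lhs => rw [hg]
    rw [hx.2, hx.2]
  have h5 : ee v (υ a (x c)) = ee v₀ (x c) := by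
    conv_lhs => rw [← h1]
    rw [act_ee h]
  have h6 : ee v (υ a (υ c (x b⁻¹))) = ee (υ g⁻¹ v) (x b) := by
    rw [z1_inv (h := h) F hx, ← h2]
    conv_lhs => rw [← h1]
    rw [act_ee h]
    conv_lhs => rw [← hc]
    rw [act_ee h]
    conv_lhs => rw [← act_inv h b v₀]
    rw [act_ee h]
  have h7 : f g = f a + (f c + f b) := by
    conv_lhs => rw [hg]
    rw [hf, hf, hfi]
  rw [h4, h.add, ee_add_right, ee_add_right, h5, h6, h3, h7]
  have h8 : ∀ a b c d e : ZMod 2, a + (c + e) + (b + (c + d)) = a + b + (e + d) := by decide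
  exact h8 _ _ _ _ _

/-! ## Corestriction -/

open scoped Classical in
/-- extension by zero -/
noncomputable def exz {C : Subgroup G} (ω : C → ZMod 2) (g : G) : ZMod 2 :=
  if h : g ∈ C then ω ⟨g, h⟩ else 0

theorem exz_mem {C : Subgroup G} (ω : C → ZMod 2) {g : G} (h : g ∈ C) : exz ω g = ω ⟨g, h⟩ :=
  dif_pos h

/-- corestriction with weights -/
noncomputable def crs {A : Type*} [AddCommGroup A] [Module (ZMod 2) A] (υ : G → P2 → P2)
    (B : Finset P2) (s : P2 → G) {C : Subgroup G} (ω : C → ZMod 2) (wt : P2 → A) (g : G) : A :=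
  ∑ v ∈ B, exz ω ((s v)⁻¹ * g * s (υ g⁻¹ v)) • wt v

variable {F}

theorem crs_mul {A : Type*} [AddCommGroup A] [Module (ZMod 2) A] {ρ : G → A → A} (hρ : IsAct ρ)
    (hl : ∀ g (a : ZMod 2) m, ρ g (a • m) = a • ρ g m) (h : IsAct υ) {B : Finset P2}
    (hB : ∀ g, ∀ v ∈ B, υ g v ∈ B) {s : P2 → G} {v₀ : P2} (hs : ∀ v ∈ B, υ (s v) v₀ = v)
    {ω : Stc h v₀ → ZMod 2} (hω : ∀ a b, ω (a * b) = ω a + ω b) {wt : P2 → A}
    (hw : ∀ g, ∀ v ∈ B, ρ g (wt v) = wt (υ g v)) (g g' : G) :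
    crs υ B s ω wt (g * g') = crs υ B s ω wt g + ρ g (crs υ B s ω wt g') := by
  have hmem : ∀ g, ∀ v ∈ B, (s v)⁻¹ * g * s (υ g⁻¹ v) ∈ Stc h v₀ := by
    intro g v hv
    rw [mem_Stc, h.mul, hs _ (hB g⁻¹ v hv), h.mul, act_inv' h]
    have h1 := act_inv h (s v) v₀
    rwa [hs v hv] at h1
  have hadd : ∀ {a b : G} (ha : a ∈ Stc h v₀) (hb : b ∈ Stc h v₀), exz ω (a * b) =
      exz ω a + exz ω b := by
    intro a b ha hb
    rw [exz_mem ω ha, exz_mem ω hb, exz_mem ω (mul_mem ha hb), ← hω]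
    rfl
  have hsum : ρ g (crs υ B s ω wt g') =
      ∑ v ∈ B, exz ω ((s v)⁻¹ * g' * s (υ g'⁻¹ v)) • wt (υ g v) := by
    unfold crs
    have hr0 : ρ g 0 = 0 := by
      have := hρ.add g 0 0
      rw [add_zero] at this
      exact left_eq_add.1 this
    let φ : A →+ A := AddMonoidHom.mk' (ρ g) (hρ.add g)
    have h1 := map_sum φ (fun v => exz ω ((s v)⁻¹ * g' * s (υ g'⁻¹ v)) • wt v) B
    refine h1.trans (Finset.sum_congr rfl fun v hv => ?_)
    show ρ g _ = _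
    rw [hl, hw g v hv]
  have hre : ∑ v ∈ B, exz ω ((s (υ g⁻¹ v))⁻¹ * g' * s (υ g'⁻¹ (υ g⁻¹ v))) • wt v =
      ∑ v ∈ B, exz ω ((s v)⁻¹ * g' * s (υ g'⁻¹ v)) • wt (υ g v) := by
    refine Finset.sum_nbij' (υ g⁻¹) (υ g) (fun v hv => hB g⁻¹ v hv) (fun v hv => hB g v hv)
      (fun v _ => act_inv' h g v) (fun v _ => act_inv h g v) (fun v _ => ?_)
    rw [act_inv' h]
  rw [hsum, ← hre]
  unfold crs
  rw [← Finset.sum_add_distrib]
  refine Finset.sum_congr rfl fun v hv => ?_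
  have e : (s v)⁻¹ * (g * g') * s (υ (g * g')⁻¹ v) =
      ((s v)⁻¹ * g * s (υ g⁻¹ v)) * ((s (υ g⁻¹ v))⁻¹ * g' * s (υ g'⁻¹ (υ g⁻¹ v))) := by
    rw [mul_inv_rev, h.mul]
    group
  rw [e, hadd (hmem g v hv) (hmem g' _ (hB g⁻¹ v hv)), add_smul]

theorem crs_sm {A : Type*} [AddCommGroup A] [Module (ZMod 2) A] (hsm : Smooth F υ)
    {B : Finset P2} (s : P2 → G) {C : Subgroup G} {ω : C → ZMod 2}
    (hω : ∃ W, F.mem W ∧ ∀ w : C, (w : G) ∈ W → ω w = 0) (wt : P2 → A) :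
    ∃ W, F.mem W ∧ ∀ w ∈ W, crs υ B s ω wt w = 0 := by
  obtain ⟨W, hW, h1⟩ := hω
  obtain ⟨W', hW', h2⟩ := hsm
  have hn := F.normal hW
  refine ⟨W ⊓ W', F.inf hW hW', fun w hw => ?_⟩
  unfold crs
  refine Finset.sum_eq_zero fun v _ => ?_
  have h3 : υ w⁻¹ v = v := h2 _ (W'.inv_mem hw.2) v
  rw [h3]
  have h4 : (s v)⁻¹ * w * s v ∈ W := by
    have := hn.conj_mem w hw.1 (s v)⁻¹
    rwa [inv_inv] at this
  have h5 : exz ω ((s v)⁻¹ * w * s v) = 0 := by
    unfold exz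
    split_ifs with h6
    · exact h1 _ h4
    · rfl
  rw [h5, zero_smul]

/-- the value of the corestriction on the stabilizer of `v₀`, paired with `v₀` -/
theorem crs_res {A : Type*} [AddCommGroup A] [Module (ZMod 2) A] {h : IsAct υ}
    {B : Finset P2} {s : P2 → G} {v₀ : P2} (hv₀ : v₀ ∈ B) (hs : s v₀ = 1) (ω : Stc h v₀ → ZMod 2)
    (wt : P2 → A) (L : A →ₗ[ZMod 2] ZMod 2) (hL : ∀ v ∈ B, L (wt v) = if v = v₀ then 1 else 0)
    (c : Stc h v₀) : L (crs υ B s ω wt (c : G)) = ω c := by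
  unfold crs
  rw [map_sum, Finset.sum_eq_single v₀]
  · have h1 : υ (c : G)⁻¹ v₀ = v₀ := (Stc h v₀).inv_mem c.2
    rw [h1, hs, map_smul, hL v₀ hv₀, if_pos rfl, inv_one, one_mul, mul_one, exz_mem ω c.2,
      smul_eq_mul, mul_one]
  · intro v hv hne
    rw [map_smul, hL v hv, if_neg hne, smul_zero]
  · intro h2
    exact absurd hv₀ h2

/-! ## The transitive case -/

section tr

variable (F)

theorem exists_sec {h : IsAct υ} (B : Finset P2) {v₀ : P2} (hB : ∀ v ∈ B, ∃ g, υ g v₀ = v) :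
    ∃ s : P2 → G, (∀ v ∈ B, υ (s v) v₀ = v) ∧ s v₀ = 1 := by
  classical
  choose! s hs using hB
  refine ⟨fun v => if v = v₀ then 1 else s v, fun v hv => ?_, if_pos rfl⟩
  by_cases hvv : v = v₀
  · simp only [hvv, if_true, h.one]
  · simp only [hvv, if_false]
    exact hs v hv

/-- the restriction to the stabilizer, paired with the fixed vector, and restriction of
homomorphisms -/
def LT (h : IsAct υ) (v₀ : P2) :
    (ZU F h × homs (two F) ⊤) →ₗ[ZMod 2] homs (two (res F (Stc h v₀))) ⊤ where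
  toFun p := ⟨fun c => ee v₀ ((p.1 : G → P2) c) + (p.2 : G → ZMod 2) c, by
    rw [mem_homs_res]
    obtain ⟨⟨W, hW, h1⟩, h2⟩ := (mem_zu_iff F h).1 p.1.2
    obtain ⟨⟨W', hW', h1'⟩, h2'⟩ := (mem_homs_two F).1 p.2.2
    refine ⟨⟨W ⊓ W', F.inf hW hW', fun w hw => ?_⟩, fun a b => ?_⟩
    · rw [h1 _ hw.1, h1' _ hw.2, ee_zero_right, add_zero]
    · have h3 : υ (a : G) v₀ = v₀ := a.2
      rw [Subgroup.coe_mul, h2, h2', ee_add_right]
      rw [ee_fix h h3]
      ring⟩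
  map_add' p q := by
    apply Subtype.ext
    funext c
    show ee v₀ ((p.1 : G → P2) c + (q.1 : G → P2) c) + ((p.2 : G → ZMod 2) c + (q.2 : G → ZMod 2) c) =
      ee v₀ ((p.1 : G → P2) c) + (p.2 : G → ZMod 2) c + (ee v₀ ((q.1 : G → P2) c) + (q.2 : G → ZMod 2) c)
    rw [ee_add_right]
    ring
  map_smul' a p := by
    apply Subtype.ext
    funext c
    show ee v₀ (a • (p.1 : G → P2) c) + a • (p.2 : G → ZMod 2) c =
      a • (ee v₀ ((p.1 : G → P2) c) + (p.2 : G → ZMod 2) c)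
    rw [ee_smul_right, smul_add, smul_eq_mul, smul_eq_mul]

theorem LT_apply (h : IsAct υ) (v₀ : P2) (p : ZU F h × homs (two F) ⊤) (c : Stc h v₀) :
    (LT F h v₀ p : Stc h v₀ → ZMod 2) c = ee v₀ ((p.1 : G → P2) c) + (p.2 : G → ZMod 2) c := rfl

theorem LT_surj (hsm : Smooth F υ) (h : IsAct υ)
    (ht : ∀ v w, v ≠ 0 → w ≠ 0 → ∃ g, υ g v = w) {v₀ : P2} (hv₀ : v₀ ≠ 0) :
    Function.Surjective (LT F h v₀) := by
  rintro ⟨ω, hω⟩
  obtain ⟨h1, h2⟩ := (mem_homs_res F).1 hω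
  obtain ⟨s, hs, hs1⟩ := exists_sec (h := h) NZ (v₀ := v₀) fun v hv => ht v₀ v hv₀ (mem_NZ.1 hv)
  have hx : crs υ NZ s ω (fun v => v) ∈ ZU F h := by
    rw [mem_ZU, mem_zu_iff F h]
    exact ⟨crs_sm hsm s h1 _, fun a b => crs_mul h (act_smul h) h (fun g v hv => act_NZ h g hv) hs h2
      (fun g v _ => rfl) a b⟩
  have hf : crs υ NZ s ω (fun _ => (1 : ZMod 2)) ∈ homs (two F) ⊤ := by
    rw [mem_homs_two]
    refine ⟨crs_sm hsm s h1 _, fun a b => ?_⟩
    exact crs_mul (ρ := fun _ m => m) ⟨fun _ => rfl, fun _ _ _ => rfl, fun _ _ _ => rfl⟩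
      (fun _ _ _ => rfl) h (fun g v hv => act_NZ h g hv) hs h2 (fun g v _ => rfl) a b
  refine ⟨(⟨_, hx⟩, ⟨_, hf⟩), Subtype.ext (funext fun c => ?_)⟩
  rw [LT_apply]
  -- combine the two weights
  have h3 := crs_res (h := h) (A := P2 × ZMod 2) (mem_NZ.2 hv₀) hs1 ω (fun v => (v, (1 : ZMod 2)))
    ((eeL v₀).coprod LinearMap.id) (fun v hv => by
      rw [LinearMap.coprod_apply, eeL_apply, LinearMap.id_apply]
      have hv' := mem_NZ.1 hv
      split_ifs with h4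
      · rw [h4, ee_self, zero_add]
      · rw [(ee_one_iff v₀ v).2 ⟨hv₀, hv', fun h5 => h4 h5.symm⟩]
        exact CharTwo.add_self_eq_zero (1 : ZMod 2)) c
  refine Eq.trans ?_ h3
  rw [LinearMap.coprod_apply, eeL_apply, LinearMap.id_apply]
  have e1 : (crs υ NZ s ω (fun v => (v, (1 : ZMod 2))) (c : G)).1 =
      crs υ NZ s ω (fun v => v) (c : G) := by
    unfold crs
    rw [Prod.fst_sum]
    rfl
  have e2 : (crs υ NZ s ω (fun v => (v, (1 : ZMod 2))) (c : G)).2 =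
      crs υ NZ s ω (fun _ => (1 : ZMod 2)) (c : G) := by
    unfold crs
    rw [Prod.snd_sum]
    rfl
  rw [e1, e2]

theorem LT_ker (hsm : Smooth F υ) (h : IsAct υ)
    (ht : ∀ v w, v ≠ 0 → w ≠ 0 → ∃ g, υ g v = w) {v₀ : P2} (hv₀ : v₀ ≠ 0) :
    LinearMap.ker (LT F h v₀) = LinearMap.range ((dM F hsm h).prod (0 : P2 →ₗ[ZMod 2] homs (two F) ⊤)) := by
  ext ⟨x, f⟩
  rw [LinearMap.mem_ker, LinearMap.mem_range]
  constructor
  · intro h1
    have hx : Z1 F υ (x : G → P2) := x.2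
    have h2 : ∀ g, υ g v₀ = v₀ → ee v₀ ((x : G → P2) g) = (f : G → ZMod 2) g := by
      intro g hg
      have h3 := congrFun (congrArg Subtype.val h1) ⟨g, hg⟩
      rw [LT_apply] at h3
      exact (CharTwo.add_eq_zero).1 h3
    obtain ⟨-, hf⟩ := (mem_homs_two F).1 f.2
    obtain ⟨s, hs, hs1⟩ := exists_sec (h := h) NZ (v₀ := v₀) fun v hv => ht v₀ v hv₀ (mem_NZ.1 hv)
    let φ : P2 → ZMod 2 := fun v => ee v ((x : G → P2) (s v)) + (f : G → ZMod 2) (s v)
    have h4 : ∀ g, ∀ v ∈ NZ, ee v ((x : G → P2) g) + (f : G → ZMod 2) g = φ v + φ (υ g⁻¹ v) := by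
      intro g v hv
      exact shap_formula F (h := h) hx hf h2 hs hv (act_NZ h _ hv)
    -- the homomorphism vanishes
    have h5 : ∀ g, (f : G → ZMod 2) g = 0 := by
      intro g
      have h6 : ∑ v ∈ NZ, (ee v ((x : G → P2) g) + (f : G → ZMod 2) g) =
          ∑ v ∈ NZ, (φ v + φ (υ g⁻¹ v)) := Finset.sum_congr rfl (h4 g)
      rw [Finset.sum_add_distrib, Finset.sum_add_distrib, sum_NZ h, Finset.sum_const, p2_card_ne,
        CharTwo.add_self_eq_zero] at h6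
      have h7 : ∑ v ∈ NZ, ee v ((x : G → P2) g) = 0 := by
        have h8 := map_sum (eeL ((x : G → P2) g)) (fun v => v) NZ
        rw [p2_sum_ne, map_zero] at h8
        rw [h8]
        exact Finset.sum_congr rfl fun v _ => ee_comm _ _
      rw [h7, zero_add] at h6
      have h9 : ∀ a : ZMod 2, 3 • a = 0 → a = 0 := by decide
      exact h9 _ h6
    refine ⟨∑ w ∈ NZ, φ w • w, ?_⟩
    refine Prod.ext (Subtype.ext (funext fun g => ?_)) (Subtype.ext (funext fun g => (h5 g).symm))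
    show (dM F hsm h _ : G → P2) g = _
    rw [dM_apply]
    apply ee_sep
    intro v hv
    have hv' := mem_NZ.2 hv
    have h6 := h4 g v hv'
    rw [h5, add_zero] at h6
    rw [h6, ee_add_right, p2_dual φ v hv']
    have h7 : ee v (υ g (∑ w ∈ NZ, φ w • w)) = ee (υ g⁻¹ v) (∑ w ∈ NZ, φ w • w) := by
      have := act_ee h g⁻¹ v (υ g (∑ w ∈ NZ, φ w • w))
      rw [act_inv h] at this
      exact this.symm
    rw [h7, p2_dual φ _ (act_NZ h g⁻¹ hv')]
    have h8 : ∀ a b c : ZMod 2, a + b + (a + c) = c + b := by decide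
    exact h8 _ _ _
  · rintro ⟨m, hm⟩
    have h1 : x = dM F hsm h m := (congrArg Prod.fst hm).symm
    have h2 : f = 0 := (congrArg Prod.snd hm).symm
    apply Subtype.ext
    funext c
    rw [LT_apply, h1, h2, dM_apply, ee_add_right, ee_fix h c.2]
    show ee v₀ m + ee v₀ m + 0 = 0
    rw [add_zero]
    exact CharTwo.add_self_eq_zero _

/-- a linear map with finite-dimensional kernel and target -/
theorem fin_of {V W : Type*} [AddCommGroup V] [Module (ZMod 2) V] [AddCommGroup W]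
    [Module (ZMod 2) W] [FiniteDimensional (ZMod 2) W] (L : V →ₗ[ZMod 2] W)
    (hk : FiniteDimensional (ZMod 2) (LinearMap.ker L)) : FiniteDimensional (ZMod 2) V := by
  have h1 : Module.Finite (ZMod 2) (V ⧸ LinearMap.ker L) :=
    Module.Finite.equiv L.quotKerEquivRange.symm
  exact Module.Finite.of_submodule_quotient (LinearMap.ker L)

theorem shap_tr (hsm : Smooth F υ) (h : IsAct υ)
    (ht : ∀ v w, v ≠ 0 → w ≠ 0 → ∃ g, υ g v = w) {v₀ : P2} (hv₀ : v₀ ≠ 0)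
    (hfin : FiniteDimensional (ZMod 2) (homs (two (res F (Stc h v₀))) ⊤)) :
    FiniteDimensional (ZMod 2) (ZU F h) ∧ FiniteDimensional (ZMod 2) (homs (two F) ⊤) ∧
      Module.finrank (ZMod 2) (ZU F h) + Module.finrank (ZMod 2) (homs (two F) ⊤) =
        Module.finrank (ZMod 2) (homs (two (res F (Stc h v₀))) ⊤) + 2 := by
  have hinj : Function.Injective ((dM F hsm h).prod (0 : P2 →ₗ[ZMod 2] homs (two F) ⊤)) := by
    rw [← LinearMap.ker_eq_bot, LinearMap.ker_prod, ker_dM, fx_tr ht, bot_inf_eq]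
  have hk := LT_ker F hsm h ht hv₀
  have hk1 : Module.finrank (ZMod 2) (LinearMap.ker (LT F h v₀)) = 2 := by
    rw [hk, LinearMap.finrank_range_of_inj hinj, p2_finrank]
  have hk2 : FiniteDimensional (ZMod 2) (LinearMap.ker (LT F h v₀)) := by
    rw [hk]
    infer_instance
  have hf := fin_of (LT F h v₀) hk2
  have h1 := LinearMap.finrank_range_add_finrank_ker (LT F h v₀)
  rw [LinearMap.range_eq_top.2 (LT_surj F hsm h ht hv₀), finrank_top, hk1] at h1
  have hf1 : FiniteDimensional (ZMod 2) (ZU F h) :=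
    FiniteDimensional.of_surjective (LinearMap.fst (ZMod 2) (ZU F h) (homs (two F) ⊤))
      Prod.fst_surjective
  have hf2 : FiniteDimensional (ZMod 2) (homs (two F) ⊤) :=
    FiniteDimensional.of_surjective (LinearMap.snd (ZMod 2) (ZU F h) (homs (two F) ⊤))
      Prod.snd_surjective
  refine ⟨hf1, hf2, ?_⟩
  rw [h1, Module.finrank_prod]

end tr

end act

end Pool.Agent.Work.MP_787500_nt.KS
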