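import Mathlib
import Pool.Agent.Work.MP_787500_nt.KS.V3

/-!
The number of cocycles with values in the plane over the field with two elements, for groups whose open
subgroups `C` have `d * (G : C) + 2` independent homomorphisms.
-/

set_option autoImplicit false
set_option linter.unusedSectionVars false

namespace Pool.Agent.Work.MP_787500_nt.KS

open Pool.Agent.Work.MP_787500_nt.GP (IsAct d0)
open Pool.Agent.Work.MP_787500_nt.PA (TwoSys homs)
open Pool.Agent.Work.MP_787500_nt.KR (FSys Z1 Sm1 Smooth two res zM)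

variable {G : Type*} [Group G] (F : FSys G) {υ : G → P2 → P2}

/-! ## Trivial action -/

theorem shap_triv (h : IsAct υ) (h1 : ∀ g m, υ g m = m)
    (hfin : FiniteDimensional (ZMod 2) (homs (two F) ⊤)) :
    FiniteDimensional (ZMod 2) (ZU F h) ∧
      Module.finrank (ZMod 2) (ZU F h) = 2 * Module.finrank (ZMod 2) (homs (two F) ⊤) := by
  let e : ZU F h ≃ₗ[ZMod 2] (homs (two F) ⊤ × homs (two F) ⊤) :=
    { toFun := fun x => (⟨fun g => (x : G → P2) g 0, by
        obtain ⟨⟨W, hW, h2⟩, h3⟩ := (mem_zu_iff F h).1 x.2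
        rw [mem_homs_two]
        exact ⟨⟨W, hW, fun w hw => by rw [h2 w hw]; rfl⟩, fun a b => by rw [h3, h1]; rfl⟩⟩,
        ⟨fun g => (x : G → P2) g 1, by
        obtain ⟨⟨W, hW, h2⟩, h3⟩ := (mem_zu_iff F h).1 x.2
        rw [mem_homs_two]
        exact ⟨⟨W, hW, fun w hw => by rw [h2 w hw]; rfl⟩, fun a b => by rw [h3, h1]; rfl⟩⟩)
      invFun := fun p => ⟨fun g => ![(p.1 : G → ZMod 2) g, (p.2 : G → ZMod 2) g], by
        obtain ⟨⟨W, hW, h2⟩, h3⟩ := (mem_homs_two F).1 p.1.2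
        obtain ⟨⟨W', hW', h2'⟩, h3'⟩ := (mem_homs_two F).1 p.2.2
        rw [mem_ZU, mem_zu_iff F h]
        refine ⟨⟨W ⊓ W', F.inf hW hW', fun w hw => ?_⟩, fun a b => ?_⟩
        · rw [h2 w hw.1, h2' w hw.2]
          ext i
          fin_cases i <;> rfl
        · rw [h1, h3, h3']
          ext i
          fin_cases i <;> rfl⟩
      map_add' := fun x y => rfl
      map_smul' := fun a x => rfl
      left_inv := fun x => by
        apply Subtype.ext
        funext g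
        ext i
        fin_cases i <;> rfl
      right_inv := fun p => rfl }
  refine ⟨e.symm.finiteDimensional, ?_⟩
  rw [e.finrank_eq, Module.finrank_prod, two_mul]

/-! ## Action of order two -/

section two

variable {v₀ v₁ : P2}

theorem p2_pair : ∀ v₀ v₁ v : P2, v₀ = 0 ∨ v₁ = 0 ∨ v₁ = v₀ ∨ v = 0 ∨ v = v₀ ∨ v = v₁ ∨
    v = v₁ + v₀ := by
  decide

theorem p2_dual2 : ∀ v₀ v₁ : P2, v₀ = 0 ∨ v₁ = 0 ∨ v₁ = v₀ ∨
    (ee v₁ (v₁ + v₀) = 1 ∧ ee (v₁ + v₀) v₁ = 1 ∧ v₁ ≠ v₁ + v₀ ∧ v₁ + v₀ ≠ 0) := by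
  unfold ee
  decide

/-- the two vectors that are exchanged -/
abbrev BB (v₀ v₁ : P2) : Finset P2 := {v₁, v₁ + v₀}

theorem act_BB (h : IsAct υ) (hv₀ : v₀ ≠ 0) (hv₁ : v₁ ≠ 0) (hv : v₁ ≠ v₀)
    (hf : ∀ g, υ g v₀ = v₀) (g : G) {v : P2} (hB : v ∈ BB v₀ v₁) : υ g v ∈ BB v₀ v₁ := by
  have key : ∀ v : P2, v ≠ 0 → v ≠ v₀ → v ∈ BB v₀ v₁ := by
    intro v h1 h2
    have := (((((p2_pair v₀ v₁ v).resolve_left hv₀).resolve_left hv₁).resolve_left hv).resolve_left
      h1).resolve_left h2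
    rw [Finset.mem_insert, Finset.mem_singleton]
    exact this
  have hd := (((p2_dual2 v₀ v₁).resolve_left hv₀).resolve_left hv₁).resolve_left hv
  have h1 : v ≠ 0 ∧ v ≠ v₀ := by
    rw [Finset.mem_insert, Finset.mem_singleton] at hB
    rcases hB with rfl | rfl
    · exact ⟨hv₁, hv⟩
    · exact ⟨hd.2.2.2, fun h3 => hv₁ (add_eq_right.1 h3)⟩
  refine key _ (fun h3 => h1.1 (act_inj h g (h3.trans (act_zero h g).symm))) fun h3 => h1.2 ?_
  exact act_inj h g (h3.trans (hf g).symm)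

/-- restriction to the stabilizer, paired with the fixed vector -/
def LS (h : IsAct υ) (v₁ : P2) :
    ZU F h →ₗ[ZMod 2] homs (two (res F (Stc h v₁))) ⊤ where
  toFun p := ⟨fun c => ee v₁ ((p : G → P2) c), by
    rw [mem_homs_res]
    obtain ⟨⟨W, hW, h1⟩, h2⟩ := (mem_zu_iff F h).1 p.2
    refine ⟨⟨W, hW, fun w hw => ?_⟩, fun a b => ?_⟩
    · rw [h1 _ hw, ee_zero_right]
    · have h3 : υ (a : G) v₁ = v₁ := a.2
      rw [Subgroup.coe_mul, h2, ee_add_right, ee_fix h h3]⟩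
  map_add' p q := by
    apply Subtype.ext
    funext c
    exact ee_add_right _ _ _
  map_smul' a p := by
    apply Subtype.ext
    funext c
    exact ee_smul_right _ _ _

theorem LS_apply (h : IsAct υ) (v₁ : P2) (p : ZU F h) (c : Stc h v₁) :
    (LS F h v₁ p : Stc h v₁ → ZMod 2) c = ee v₁ ((p : G → P2) c) := rfl

theorem bb_tr (h : IsAct υ) (hv₀ : v₀ ≠ 0) (hv₁ : v₁ ≠ 0) (hv : v₁ ≠ v₀)
    (hf : ∀ g, υ g v₀ = v₀) {g₀ : G} (hg : υ g₀ v₁ ≠ v₁) {v : P2} (hB : v ∈ BB v₀ v₁) :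
    ∃ g, υ g v₁ = v := by
  have h1 := act_BB h hv₀ hv₁ hv hf g₀ (v := v₁) (Finset.mem_insert_self _ _)
  rw [Finset.mem_insert, Finset.mem_singleton] at hB h1
  rcases hB with rfl | rfl
  · exact ⟨1, h.one _⟩
  · exact ⟨g₀, h1.resolve_left hg⟩

theorem LS_surj (hsm : Smooth F υ) (h : IsAct υ) (hv₀ : v₀ ≠ 0) (hv₁ : v₁ ≠ 0) (hv : v₁ ≠ v₀)
    (hf : ∀ g, υ g v₀ = v₀) {g₀ : G} (hg : υ g₀ v₁ ≠ v₁) : Function.Surjective (LS F h v₁) := by
  rintro ⟨ω, hω⟩
  have hd := (((p2_dual2 v₀ v₁).resolve_left hv₀).resolve_left hv₁).resolve_left hv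
  obtain ⟨h1, h2⟩ := (mem_homs_res F).1 hω
  obtain ⟨s, hs, hs1⟩ := exists_sec (h := h) (BB v₀ v₁) (v₀ := v₁)
    fun v hB => bb_tr h hv₀ hv₁ hv hf hg hB
  have hx : crs υ (BB v₀ v₁) s ω (fun v => v + v₀) ∈ ZU F h := by
    rw [mem_ZU, mem_zu_iff F h]
    exact ⟨crs_sm hsm s h1 _, fun a b => crs_mul h (act_smul h) h
      (fun g v hB => act_BB h hv₀ hv₁ hv hf g hB) hs h2 (fun g v _ => by rw [h.add, hf]) a b⟩
  refine ⟨⟨_, hx⟩, Subtype.ext (funext fun c => ?_)⟩
  rw [LS_apply]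
  have hself : v₁ ∈ BB v₀ v₁ := Finset.mem_insert_self _ _
  refine crs_res (h := h) (B := BB v₀ v₁) hself hs1 ω (fun v => v + v₀) (eeL v₁)
    (fun v hB => ?_) c
  rw [eeL_apply]
  rw [Finset.mem_insert, Finset.mem_singleton] at hB
  rcases hB with rfl | rfl
  · rw [if_pos rfl, hd.1]
  · rw [if_neg (Ne.symm hd.2.2.1), add_assoc, p2_add_self, add_zero, ee_self]

theorem LS_ker (hsm : Smooth F υ) (h : IsAct υ) (hv₀ : v₀ ≠ 0) (hv₁ : v₁ ≠ 0) (hv : v₁ ≠ v₀)
    (hf : ∀ g, υ g v₀ = v₀) {g₀ : G} (hg : υ g₀ v₁ ≠ v₁) :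
    LinearMap.ker (LS F h v₁) = LinearMap.range (dM F hsm h) := by
  have hd := (((p2_dual2 v₀ v₁).resolve_left hv₀).resolve_left hv₁).resolve_left hv
  ext x
  rw [LinearMap.mem_ker, LinearMap.mem_range]
  constructor
  · intro h1
    have hx : Z1 F υ (x : G → P2) := x.2
    have h2 : ∀ g, υ g v₁ = v₁ → ee v₁ ((x : G → P2) g) = (fun _ : G => (0 : ZMod 2)) g := by
      intro g hg
      exact congrFun (congrArg Subtype.val h1) ⟨g, hg⟩
    obtain ⟨s, hs, hs1⟩ := exists_sec (h := h) (BB v₀ v₁) (v₀ := v₁)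
      fun v hB => bb_tr h hv₀ hv₁ hv hf hg hB
    let φ : P2 → ZMod 2 := fun v => ee v ((x : G → P2) (s v))
    have h4 : ∀ g, ∀ v ∈ BB v₀ v₁, ee v ((x : G → P2) g) = φ v + φ (υ g⁻¹ v) := by
      intro g v hB
      have := shap_formula F (h := h) hx (f := fun _ => 0) (fun _ _ => rfl) h2 hs (g := g) hB
        (act_BB h hv₀ hv₁ hv hf _ hB)
      simpa using this
    set m : P2 := φ v₁ • (v₁ + v₀) + φ (v₁ + v₀) • v₁ with hm
    have hm1 : ∀ v ∈ BB v₀ v₁, ee v m = φ v := by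
      intro v hB
      rw [Finset.mem_insert, Finset.mem_singleton] at hB
      rcases hB with rfl | rfl
      · rw [hm, ee_add_right, ee_smul_right, ee_smul_right, hd.1, ee_self, mul_one, mul_zero,
          add_zero]
      · rw [hm, ee_add_right, ee_smul_right, ee_smul_right, hd.2.1, ee_self, mul_one, mul_zero,
          zero_add]
    refine ⟨m, Subtype.ext (funext fun g => ?_)⟩
    rw [dM_apply]
    have h5 : ∀ v ∈ BB v₀ v₁, ee v (υ g m + m) = ee v ((x : G → P2) g) := by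
      intro v hB
      rw [h4 g v hB, ee_add_right, hm1 v hB]
      have h7 : ee v (υ g m) = ee (υ g⁻¹ v) m := by
        have := act_ee h g⁻¹ v (υ g m)
        rw [act_inv h] at this
        exact this.symm
      rw [h7, hm1 _ (act_BB h hv₀ hv₁ hv hf _ hB), add_comm]
    have h6 : ∀ y z : P2, ee v₁ y = ee v₁ z → ee (v₁ + v₀) y = ee (v₁ + v₀) z → y = z := by
      intro y z h8 h9
      refine ee_sep fun v hv2 => ?_
      rw [ee_add_left, ee_add_left, h8] at h9
      have h10 := add_left_cancel h9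
      rcases ((((((p2_pair v₀ v₁ v).resolve_left hv₀).resolve_left hv₁).resolve_left hv).resolve_left
        hv2) : v = v₀ ∨ v = v₁ ∨ v = v₁ + v₀) with rfl | rfl | rfl
      · exact h10
      · exact h8
      · rw [ee_add_left, ee_add_left, h8, h10]
    exact h6 _ _ (h5 _ (Finset.mem_insert_self _ _))
      (h5 _ (Finset.mem_insert_of_mem (Finset.mem_singleton_self _)))
  · rintro ⟨m, rfl⟩
    apply Subtype.ext
    funext c
    rw [LS_apply, dM_apply, ee_add_right, ee_fix h c.2]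
    exact CharTwo.add_self_eq_zero _

theorem shap_two (hsm : Smooth F υ) (h : IsAct υ) (hv₀ : v₀ ≠ 0) (hv₁ : v₁ ≠ 0) (hv : v₁ ≠ v₀)
    (hf : ∀ g, υ g v₀ = v₀) {g₀ : G} (hg : υ g₀ v₁ ≠ v₁)
    (hfin : FiniteDimensional (ZMod 2) (homs (two (res F (Stc h v₁))) ⊤)) :
    FiniteDimensional (ZMod 2) (ZU F h) ∧ Module.finrank (ZMod 2) (ZU F h) =
      Module.finrank (ZMod 2) (homs (two (res F (Stc h v₁))) ⊤) + 1 := by
  have hk := LS_ker F hsm h hv₀ hv₁ hv hf hg
  have hk2 : FiniteDimensional (ZMod 2) (LinearMap.ker (LS F h v₁)) := by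
    rw [hk]
    infer_instance
  have hk1 : Module.finrank (ZMod 2) (LinearMap.ker (LS F h v₁)) = 1 := by
    have h1 := LinearMap.finrank_range_add_finrank_ker (dM F hsm h)
    rw [ker_dM, (fx_two hv₀ hg hf).2, p2_finrank] at h1
    rw [hk]
    omega
  have hf := fin_of (LS F h v₁) hk2
  have h1 := LinearMap.finrank_range_add_finrank_ker (LS F h v₁)
  rw [LinearMap.range_eq_top.2 (LS_surj F hsm h hv₀ hv₁ hv ‹_› hg), finrank_top, hk1] at h1
  exact ⟨hf, h1.symm⟩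

end two

/-! ## The count -/

/-- the orbit has as many elements as the stabilizer has cosets -/
theorem index_Stc (h : IsAct υ) (v : P2) {B : Finset P2} (h1 : ∀ g, υ g v ∈ B)
    (h2 : ∀ w ∈ B, ∃ g, υ g v = w) : (Stc h v).index = B.card := by
  let _ : MulAction G P2 :=
    { smul := υ
      one_smul := h.one
      mul_smul := h.mul }
  have e1 : Stc h v = MulAction.stabilizer G v := rfl
  have e2 : MulAction.orbit G v = (B : Set P2) := by
    ext w
    constructor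
    · rintro ⟨g, rfl⟩
      exact h1 g
    · intro hw
      obtain ⟨g, hg⟩ := h2 w hw
      exact ⟨g, hg⟩
  rw [e1, MulAction.index_stabilizer, e2, Set.ncard_coe_finset]

theorem local_count (hsm : Smooth F υ) (h : IsAct υ) {d : ℕ}
    (hc1 : FiniteDimensional (ZMod 2) (homs (two F) ⊤) ∧
      Module.finrank (ZMod 2) (homs (two F) ⊤) = d + 2)
    (hc : ∀ v, v ≠ 0 → FiniteDimensional (ZMod 2) (homs (two (res F (Stc h v))) ⊤) ∧
      Module.finrank (ZMod 2) (homs (two (res F (Stc h v))) ⊤) = d * (Stc h v).index + 2) :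
    FiniteDimensional (ZMod 2) (ZU F h) ∧
      Module.finrank (ZMod 2) (ZU F h) = 2 * d + 2 + Module.finrank (ZMod 2) (FX h) := by
  rcases act_cases h with h1 | ⟨v, g, w, hv, hw, hf⟩ | ht
  · have h2 := shap_triv F h h1 hc1.1
    refine ⟨h2.1, ?_⟩
    rw [h2.2, hc1.2, fx_triv h1]
    ring
  · have hw0 : w ≠ 0 := fun h0 => hw (by rw [h0, act_zero h])
    have hwv : w ≠ v := fun h0 => hw (by rw [h0, hf])
    have h2 := shap_two F hsm h hv hw0 hwv hf hw (hc w hw0).1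
    refine ⟨h2.1, ?_⟩
    have h3 : (Stc h w).index = 2 := by
      rw [index_Stc h w (B := BB v w) (fun g => act_BB h hv hw0 hwv hf g (Finset.mem_insert_self _ _))
        fun u hu => bb_tr h hv hw0 hwv hf hw hu]
      refine Finset.card_pair fun h4 => hv ?_
      exact left_eq_add.1 h4
    rw [h2.2, (hc w hw0).2, h3, (fx_two hv hw hf).2]
    ring
  · have hb : b0 ≠ 0 := by decide
    have h2 := shap_tr F hsm h ht hb (hc b0 hb).1
    refine ⟨h2.1, ?_⟩
    have h3 : (Stc h b0).index = 3 := by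
      rw [index_Stc h b0 (B := NZ) (fun g => act_NZ h g (mem_NZ.2 hb))
        fun u hu => ht b0 u hb (mem_NZ.1 hu), p2_card_ne]
    have h4 := h2.2.2
    rw [hc1.2, (hc b0 hb).2, h3] at h4
    rw [fx_tr' ht]
    omega

end Pool.Agent.Work.MP_787500_nt.KS
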