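import Mathlib
import Pool.Agent.Work.MP_787500_nt.KS.V4
import Pool.Agent.Work.MP_787500_nt.KR.UDefs
import Pool.Agent.Work.MP_787500_nt.GA.RatCnt

/-!
Cocycles for the system `big F N`, and the local counts from `CountsF`.
-/

set_option autoImplicit false
set_option linter.unusedSectionVars false

namespace Pool.Agent.Work.MP_787500_nt.KS

open Pool.Agent.Work.MP_787500_nt.GP (IsAct d0)
open Pool.Agent.Work.MP_787500_nt.PA (TwoSys homs)
open Pool.Agent.Work.MP_787500_nt.KR (FSys Z1 Sm1 Smooth two res zM big CountsF Opn)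

variable {G : Type*} [Group G] {F : FSys G} {υ : G → P2 → P2}

/-- The cocycles for `big F N` if `N` acts trivially. -/
theorem z1_big (N : Subgroup G) (hN : N.Normal) (hop : ∃ W, F.mem W ∧ W ≤ N) (h : IsAct υ)
    (htr : ∀ g ∈ N, ∀ m, υ g m = m) {x : G → P2} : Z1 (big F N) υ x ↔ Z1 F υ x := by
  constructor
  · rintro ⟨⟨W, ⟨-, ⟨V, hV, hVW⟩, -⟩, h1⟩, h2⟩
    exact ⟨⟨V, hV, fun g w hw => h1 g w (hVW hw)⟩, h2⟩
  · intro hx
    obtain ⟨⟨W, hW, h1⟩, h2⟩ := (mem_zu_iff F h).1 hx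
    rw [mem_zu_iff (big F N) h]
    refine ⟨?_, h2⟩
    obtain ⟨V, hV, hVN⟩ := hop
    have hx1 : x 1 = 0 := z1_one (h := h) F hx
    let φ : N →* Multiplicative P2 :=
      { toFun := fun g => Multiplicative.ofAdd (x g)
        map_one' := by
          show Multiplicative.ofAdd (x 1) = 1
          rw [hx1]
          rfl
        map_mul' := fun a b => by
          show Multiplicative.ofAdd (x (a * b)) = _
          rw [h2, htr a a.2]
          rfl }
    have hk : ∀ a : N, a ∈ φ.ker ↔ x a = 0 := fun a => Iff.rfl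
    let W' : Subgroup G := φ.ker.map N.subtype
    have hW' : ∀ g, g ∈ W' ↔ g ∈ N ∧ x g = 0 := by
      intro g
      constructor
      · rintro ⟨a, ha, rfl⟩
        exact ⟨a.2, (hk a).1 ha⟩
      · rintro ⟨hg, hg'⟩
        exact ⟨⟨g, hg⟩, (hk _).2 hg', rfl⟩
    refine ⟨W', ⟨⟨fun w hw g => ?_⟩, ⟨W ⊓ V, F.inf hW hV, fun g hg => ?_⟩, ?_⟩, fun w hw =>
      ((hW' w).1 hw).2⟩
    · rw [hW'] at hw ⊢
      refine ⟨hN.conj_mem w hw.1 g, ?_⟩
      have h3 : x g + υ g (x g⁻¹) = 0 := by rw [← h2, mul_inv_cancel, hx1]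
      rw [h2, h2, hw.2, act_zero h, add_zero, h.mul, htr w hw.1, h3]
    · rw [hW']
      exact ⟨hVN hg.2, h1 g hg.1⟩
    · have h4 : W'.relIndex N = φ.ker.index := by
        show (W'.subgroupOf N).index = _
        congr 1
        ext a
        rw [Subgroup.mem_subgroupOf, hW', hk]
        exact ⟨fun h => h.2, fun h => ⟨a.2, h⟩⟩
      rw [h4, Subgroup.index_ker]
      have h5 : Nat.card φ.range ∣ Nat.card (Multiplicative P2) :=
        Subgroup.card_subgroup_dvd_card _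
      have h6 : Nat.card (Multiplicative P2) = 2 ^ 2 := by
        have : Nat.card (Multiplicative P2) = Nat.card P2 := rfl
        rw [this, Nat.card_eq_fintype_card]
        rfl
      rw [h6] at h5
      obtain ⟨k, -, hk⟩ := (Nat.dvd_prime_pow Nat.prime_two).1 h5
      exact ⟨k, hk⟩

theorem zu_big (N : Subgroup G) (hN : N.Normal) (hop : ∃ W, F.mem W ∧ W ≤ N) (h : IsAct υ)
    (htr : ∀ g ∈ N, ∀ m, υ g m = m) : ZU (big F N) h = ZU F h := by
  ext x
  exact z1_big N hN hop h htr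

theorem smooth_big {N : Subgroup G} (hs : Smooth (big F N) υ) : Smooth F υ := by
  obtain ⟨W, ⟨-, ⟨V, hV, hVW⟩, -⟩, h1⟩ := hs
  exact ⟨V, hV, fun w hw => h1 w (hVW hw)⟩

/-! ## The counts -/

theorem opn_Stc (hsm : Smooth F υ) (h : IsAct υ) (v : P2) : Opn F (Stc h v) := by
  obtain ⟨W, hW, h1⟩ := hsm
  exact ⟨W, hW, fun w hw => h1 w hw v⟩

theorem counts_top {d : ℕ} (hF : CountsF F d) :
    FiniteDimensional (ZMod 2) (homs (two F) ⊤) ∧
      Module.finrank (ZMod 2) (homs (two F) ⊤) = d + 2 := by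
  obtain ⟨W, hW⟩ := F.ex
  obtain ⟨h1, h2⟩ := hF ⊤ ⟨W, hW, le_top⟩
  let e : homs (two (res F ⊤)) (⊤ : Subgroup (⊤ : Subgroup G)) ≃ₗ[ZMod 2] homs (two F) ⊤ :=
    { toFun := fun f => ⟨fun g => (f : (⊤ : Subgroup G) → ZMod 2) ⟨g, trivial⟩, by
        obtain ⟨⟨V, hV, h3⟩, h4⟩ := (mem_homs_res F).1 f.2
        rw [mem_homs_two]
        exact ⟨⟨V, hV, fun w hw => h3 ⟨w, trivial⟩ hw⟩, fun a b => h4 ⟨a, trivial⟩ ⟨b, trivial⟩⟩⟩
      map_add' := fun _ _ => rfl
      map_smul' := fun _ _ => rfl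
      invFun := fun f => ⟨fun g => (f : G → ZMod 2) g, by
        obtain ⟨⟨V, hV, h3⟩, h4⟩ := (mem_homs_two F).1 f.2
        rw [mem_homs_res]
        exact ⟨⟨V, hV, fun w hw => h3 w hw⟩, fun a b => h4 a b⟩⟩
      left_inv := fun _ => rfl
      right_inv := fun _ => rfl }
  refine ⟨e.finiteDimensional, ?_⟩
  rw [← e.finrank_eq, h2, Subgroup.index_top, mul_one]

/-- The number of cocycles, from the numbers of homomorphisms of the open subgroups. -/
theorem count_F {d : ℕ} (hF : CountsF F d) (hsm : Smooth F υ) (h : IsAct υ) :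
    FiniteDimensional (ZMod 2) (ZU F h) ∧
      Module.finrank (ZMod 2) (ZU F h) = 2 * d + 2 + Module.finrank (ZMod 2) (FX h) :=
  local_count F hsm h (counts_top hF) fun v _ => hF _ (opn_Stc hsm h v)

theorem count_big {d : ℕ} (hF : CountsF F d) (N : Subgroup G) (hN : N.Normal)
    (hop : ∃ W, F.mem W ∧ W ≤ N) (h : IsAct υ) (htr : ∀ g ∈ N, ∀ m, υ g m = m) :
    FiniteDimensional (ZMod 2) (ZU (big F N) h) ∧
      Module.finrank (ZMod 2) (ZU (big F N) h) = 2 * d + 2 + Module.finrank (ZMod 2) (FX h) := by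
  rw [zu_big N hN hop h htr]
  obtain ⟨W, hW, hWN⟩ := hop
  exact count_F hF ⟨W, hW, fun w hw => htr w (hWN hw)⟩ h

end Pool.Agent.Work.MP_787500_nt.KS
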