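import Mathlib
import Pool.Agent.Work.MP_787500_nt.KS.V14
import Pool.Agent.Work.MP_787500_nt.GP.K3_Lam
import Pool.Agent.Work.MP_787500_nt.GP.G2_TameHoms

/-!
The local groups at the ramified primes of the quadratic field, abstractly: inertia acts trivially.
-/

set_option autoImplicit false
set_option linter.unusedSectionVars false

namespace Pool.Agent.Work.MP_787500_nt.KS

open Pool.Agent.Work.MP_787500_nt.GP (IsAct d0 TameD IsLam exists_lam tame_gen)
open Pool.Agent.Work.MP_787500_nt.PA (TwoSys homs)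
open Pool.Agent.Work.MP_787500_nt.KR (FSys Z1 Sm1 Smooth two res zM big CountsF Opn IsChar)

variable {G : Type*} [Group G] {F : FSys G} {υ : G → P2 → P2}

theorem pad_zero {x : ℤ_[2]} (h : ∀ n : ℕ, (2 : ℤ_[2]) ^ n ∣ x) : x = 0 := by
  rw [← PadicInt.ext_of_toZModPow]
  intro n
  rw [map_zero]
  have h1 : x ∈ RingHom.ker (PadicInt.toZModPow (p := 2) n) := by
    rw [PadicInt.ker_toZModPow, Ideal.mem_span_singleton]
    push_cast
    exact h n
  exact h1

theorem pad_unit {u : ℤ_[2]} (hu : (2 : ℤ_[2]) ∣ u - 1) : IsUnit u := by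
  by_contra hc
  have h1 : u ∈ IsLocalRing.maximalIdeal ℤ_[2] := (IsLocalRing.mem_maximalIdeal u).2 hc
  have h2 : (u - 1) ∈ IsLocalRing.maximalIdeal ℤ_[2] := by
    rw [PadicInt.maximalIdeal_eq_span_p, Ideal.mem_span_singleton]
    exact_mod_cast hu
  have h3 : (1 : ℤ_[2]) ∈ IsLocalRing.maximalIdeal ℤ_[2] := by
    have := Ideal.sub_mem _ h1 h2
    rwa [sub_sub_cancel] at this
  exact (IsLocalRing.maximalIdeal.isMaximal ℤ_[2]).ne_top ((Ideal.eq_top_iff_one _).2 h3)

theorem pad_mod (x : ℤ_[2]) : PadicInt.toZMod x = (0 : ZMod 2) ↔ (2 : ℤ_[2]) ∣ x := by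
  rw [← RingHom.mem_ker, PadicInt.ker_toZMod, PadicInt.maximalIdeal_eq_span_p,
    Ideal.mem_span_singleton]
  push_cast
  rfl

/-- A nonzero homomorphism that is trivial on the kernel of the character. -/
theorem unr_hom {χ : G → ℤ_[2]} (hχ : IsChar F χ) {C : Subgroup G} {σ : G} (hσC : σ ∈ C)
    (h1 : χ σ ≠ 1) (h2 : χ σ ≠ -1) :
    ∃ f ∈ homs (two (res F C)) (⊤ : Subgroup C), f ≠ 0 ∧ ∀ g : C, χ g = 1 → f g = 0 := by
  classical
  obtain ⟨lam, hlam⟩ := exists_lam
  have hu : ∀ g, IsUnit (χ g) := fun g => pad_unit (hχ.odd g)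
  have hmul : ∀ g k : C, lam (χ ((g * k : C) : G)) = lam (χ g) + lam (χ k) := by
    intro g k
    rw [Subgroup.coe_mul, hχ.mul]
    exact hlam.mul _ _ (hu _) (hu _)
  have hex : ∃ n : ℕ, ∃ g : C, ¬ (2 : ℤ_[2]) ^ (n + 1) ∣ lam (χ g) := by
    by_contra hcon
    push Not at hcon
    have h3 : ∀ n : ℕ, (2 : ℤ_[2]) ^ (n + 3) ∣ χ σ - 1 ∨ (2 : ℤ_[2]) ^ (n + 3) ∣ χ σ + 1 := fun n =>
      (hlam.dvd _ (hu σ) (n + 1)).1 (hcon n ⟨σ, hσC⟩)
    by_cases h4 : ∀ n : ℕ, (2 : ℤ_[2]) ^ n ∣ χ σ - 1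
    · exact h1 (sub_eq_zero.1 (pad_zero h4))
    · push Not at h4
      obtain ⟨m, hm⟩ := h4
      refine h2 (eq_neg_of_add_eq_zero_left (pad_zero fun n => ?_))
      rcases h3 (m + n) with h5 | h5
      · exact absurd ((pow_dvd_pow _ (by omega)).trans h5) hm
      · exact (pow_dvd_pow _ (by omega)).trans h5
  obtain ⟨g₀, hg₀⟩ := Nat.find_spec hex
  set n := Nat.find hex with hn
  have hmin : ∀ g : C, (2 : ℤ_[2]) ^ n ∣ lam (χ g) := by
    intro g
    by_cases h0 : n = 0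
    · rw [h0, pow_zero]
      exact one_dvd _
    · have h3 := Nat.find_min hex (m := n - 1) (by rw [← hn]; omega)
      push Not at h3
      have h4 := h3 g
      rwa [Nat.sub_add_cancel (by omega)] at h4
  choose q hq using hmin
  have h20 : (2 : ℤ_[2]) ^ n ≠ 0 := pow_ne_zero _ two_ne_zero
  have hqmul : ∀ g k : C, q (g * k) = q g + q k := by
    intro g k
    apply mul_left_cancel₀ h20
    rw [← hq, hmul, mul_add, ← hq, ← hq]
  refine ⟨fun g => PadicInt.toZMod (q g), ?_, ?_, ?_⟩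
  · rw [mem_homs_res]
    refine ⟨?_, fun a b => ?_⟩
    · obtain ⟨W, hW, h3⟩ := hχ.cont (n + 3)
      refine ⟨W, hW, fun w hw => ?_⟩
      show PadicInt.toZMod (q w) = (0 : ZMod 2)
      rw [pad_mod]
      have h4 := h3 1 w hw
      rw [one_mul, hχ.one] at h4
      have h5 : (2 : ℤ_[2]) ^ (n + 1) ∣ lam (χ w) := (hlam.dvd _ (hu _) (n + 1)).2 (Or.inl h4)
      rw [hq, pow_succ] at h5
      exact (mul_dvd_mul_iff_left h20).1 h5
    · show PadicInt.toZMod (q (a * b)) = PadicInt.toZMod (q a) + PadicInt.toZMod (q b)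
      rw [hqmul, map_add]
  · intro h3
    apply hg₀
    have h4 : PadicInt.toZMod (q g₀) = (0 : ZMod 2) := congrFun h3 g₀
    rw [pad_mod] at h4
    rw [hq, pow_succ]
    exact mul_dvd_mul_left _ h4
  · intro g hg
    have h3 : lam (1 : ℤ_[2]) = 0 := by
      have := hlam.mul 1 1 isUnit_one isUnit_one
      rw [mul_one] at this
      exact left_eq_add.1 this
    have h4 : q g = 0 := by
      apply mul_left_cancel₀ h20
      rw [← hq, hg, h3, mul_zero]
    show PadicInt.toZMod (q g) = (0 : ZMod 2)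
    rw [h4, map_zero]

/-- the kernel of the action -/
def Kr (h : IsAct υ) : Subgroup G where
  carrier := {g | ∀ m, υ g m = m}
  mul_mem' := by
    intro a b ha hb m
    rw [h.mul, hb, ha]
  one_mem' := h.one
  inv_mem' := by
    intro a ha m
    conv_lhs => rw [← ha m]
    rw [act_inv h]

theorem mem_Kr {h : IsAct υ} {g : G} : g ∈ Kr h ↔ ∀ m, υ g m = m := Iff.rfl

theorem kr_normal (h : IsAct υ) : (Kr h).Normal := ⟨fun n hn g => by
  rw [mem_Kr] at hn ⊢
  intro m
  rw [h.mul, h.mul, hn, act_inv' h]⟩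

/-- Cocycles are trivial on the part of the inertia group in the kernel of the ramified character. -/
theorem ram_abs (hF : CountsF F 0) {χ : G → ℤ_[2]} (hχ : IsChar F χ) {I : Set G}
    (hI : ∀ g ∈ I, χ g = 1) {σ : G} {l : ℕ} (hl : 2 < l) (hσ : χ σ = l) {ε : G → ZMod 2}
    (hε : ε ∈ homs (two F) (⊤ : Subgroup G)) {θ : G} (hθ : θ ∈ I) (hεθ : ε θ = 1) (h : IsAct υ)
    (hsm : Smooth F υ) (hin : ∀ g ∈ I, ∀ m, υ g m = m) {x : G → P2} (hx : Z1 F υ x) {g : G}
    (hg : g ∈ I) (hεg : ε g = 0) : x g = 0 := by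
  have hn := kr_normal h
  have hopn : Opn F (Kr h) := by
    obtain ⟨W, hW, h1⟩ := hsm
    exact ⟨W, hW, fun w hw => h1 w hw⟩
  obtain ⟨hfd, hrk⟩ := hF _ hopn
  rw [zero_mul, zero_add] at hrk
  have hidx : (Kr h).index ≠ 0 := by
    obtain ⟨W, hW, h1⟩ := hopn
    exact fun h0 => F.index hW (Nat.eq_zero_of_zero_dvd (h0 ▸ Subgroup.index_dvd_of_le h1))
  set k := (Kr h).index with hk
  have hσk : σ ^ k ∈ Kr h := Subgroup.pow_index_mem _ σ
  have hχpow : ∀ m : ℕ, χ (σ ^ m) = ((l ^ m : ℕ) : ℤ_[2]) := by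
    intro m
    induction m with
    | zero => rw [pow_zero, hχ.one]; simp
    | succ m ih => rw [pow_succ, hχ.mul, ih, hσ]; push_cast; ring
  have hlk : 1 < l ^ k := Nat.one_lt_pow hidx (by omega)
  obtain ⟨f, hf, hf0, hfI⟩ := unr_hom (C := Kr h) hχ hσk (by
    rw [hχpow]
    intro h1
    have : l ^ k = 1 := by exact_mod_cast h1
    omega) (by
    rw [hχpow]
    intro h1
    have h2 : ((l ^ k + 1 : ℕ) : ℤ_[2]) = 0 := by
      rw [Nat.cast_add, h1]
      simp
    have : l ^ k + 1 = 0 := by exact_mod_cast h2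
    omega)
  obtain ⟨⟨Wε, hWε, h1ε⟩, h2ε⟩ := (mem_homs_two F).1 hε
  obtain ⟨⟨Wx, hWx, h1x⟩, h2x⟩ := (mem_zu_iff F h).1 hx
  let e1 : homs (two (res F (Kr h))) (⊤ : Subgroup (Kr h)) := ⟨fun a => ε a, by
    rw [mem_homs_res]
    exact ⟨⟨Wε, hWε, fun w hw => h1ε w hw⟩, fun a b => h2ε a b⟩⟩
  let e2 : homs (two (res F (Kr h))) (⊤ : Subgroup (Kr h)) := ⟨f, hf⟩
  have hθK : θ ∈ Kr h := fun m => hin θ hθ m
  have hgK : g ∈ Kr h := fun m => hin g hg m
  have hli : LinearIndependent (ZMod 2) ![e1, e2] := by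
    rw [LinearIndependent.pair_iff]
    intro a b hab
    have h3 : ∀ y : Kr h, a * ε y + b * f y = 0 := fun y =>
      congrFun (congrArg Subtype.val hab) y
    have h4 := h3 ⟨θ, hθK⟩
    rw [hfI _ (hI θ hθ), mul_zero, add_zero] at h4
    have h5 : a = 0 := by
      have : a * ε θ = 0 := h4
      rwa [hεθ, mul_one] at this
    refine ⟨h5, ?_⟩
    by_contra hb
    apply hf0
    funext y
    have h6 := h3 y
    rw [h5, zero_mul, zero_add] at h6
    exact (mul_eq_zero.1 h6).resolve_left hb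
  have hspan := hli.span_eq_top_of_card_eq_finrank' (by rw [hrk]; rfl)
  have key : ∀ i : Fin 2, x g i = 0 := by
    intro i
    let y : homs (two (res F (Kr h))) (⊤ : Subgroup (Kr h)) := ⟨fun a => x a i, by
      rw [mem_homs_res]
      refine ⟨⟨Wx, hWx, fun w hw => ?_⟩, fun a b => ?_⟩
      · rw [h1x w hw]
        rfl
      · rw [Subgroup.coe_mul, h2x, a.2]
        rfl⟩
    have h3 : y ∈ Submodule.span (ZMod 2) (Set.range ![e1, e2]) := by
      rw [hspan]
      trivial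
    have h4 : Set.range ![e1, e2] = {e1, e2} := by
      rw [Matrix.range_cons, Matrix.range_cons, Matrix.range_empty, Set.union_empty]
      rfl
    rw [h4, Submodule.mem_span_pair] at h3
    obtain ⟨a, b, hab⟩ := h3
    have h5 : a * ε g + b * f ⟨g, hgK⟩ = x g i := congrFun (congrArg Subtype.val hab) ⟨g, hgK⟩
    rw [← h5, hεg, hfI _ (hI g hg), mul_zero, mul_zero, add_zero]
  funext i
  exact key i

/-! ## The sign of the generator -/

theorem p2_sg_one : ∀ p q v w : P2, ee p q ≠ 1 ∨ v = 0 ∨ v 0 • p + v 1 • q ≠ v ∨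
    w 0 • p + w 1 • q = w ∨ p 0 + p 1 + q 0 + q 1 + q 0 * p 1 = 1 := by
  unfold ee
  decide

theorem p2_sg_fix : ∀ p q : P2, ee p q ≠ 1 ∨ p 0 + p 1 + q 0 + q 1 + q 0 * p 1 ≠ 1 ∨
    ∃ v : P2, v ≠ 0 ∧ v 0 • p + v 1 • q = v ∧ ∀ m : P2, m 0 • p + m 1 • q ≠ m ∨ m = 0 ∨ m = v := by
  unfold ee
  decide

theorem sg_of_move (h : IsAct υ) {g : G} {v w : P2} (hv : v ≠ 0) (h1 : υ g v = v)
    (h2 : υ g w ≠ w) : sg (υ g) = 1 := by
  have h3 := p2_sg_one (υ g b0) (υ g b1) v w
  rw [← p2_eq (h.add g), ← p2_eq (h.add g)] at h3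
  exact (((h3.resolve_left (not_not.2 (inj_det (act_inj h g) (act_zero h g)))).resolve_left
    hv).resolve_left (not_not.2 h1)).resolve_left h2

theorem fix_of_sg (h : IsAct υ) {g : G} (h1 : sg (υ g) = 1) :
    ∃ v : P2, v ≠ 0 ∧ υ g v = v ∧ ∀ m : P2, υ g m = m → m = 0 ∨ m = v := by
  obtain ⟨v, hv, h2, h3⟩ := ((p2_sg_fix (υ g b0) (υ g b1)).resolve_left
    (not_not.2 (inj_det (act_inj h g) (act_zero h g)))).resolve_left (not_not.2 h1)
  rw [← p2_eq (h.add g)] at h2
  refine ⟨v, hv, h2, fun m hm => ?_⟩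
  have h4 := h3 m
  rw [← p2_eq (h.add g)] at h4
  exact h4.resolve_left (not_not.2 hm)

/-- The parity of the dimension of the fixed space of a tame local group, inertia acts trivially. -/
theorem fx_gen {χ a : G → ℤ_[2]} {σ τ : G} {l : ℕ} (ht : TameD (two F) χ a σ τ l) (h : IsAct υ)
    (hsm : Smooth F υ) (hcomm : ∀ a b : G, ∀ m, υ (a * b * a⁻¹ * b⁻¹) m = m)
    (hτ : ∀ m, υ τ m = m) : (Module.finrank (ZMod 2) (FX h) : ZMod 2) = sg (υ σ) := by
  have hc : ∀ a b m, υ a (υ b m) = υ b (υ a m) := by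
    intro a b m
    have h1 := hcomm a b (υ (b * a) m)
    have e : a * b * a⁻¹ * b⁻¹ * (b * a) = a * b := by group
    rw [← h.mul, e, h.mul, h.mul] at h1
    exact h1
  rcases act_cases h with h1 | ⟨v, g, w, hv, hw, hf⟩ | htr
  · exact fx_sg fun m _ => fun g => h1 g m
  · refine fx_sg fun m hm k => ?_
    by_contra hmk
    -- `σ` acts trivially
    have hm0 : m ≠ 0 := fun h0 => hmk (by rw [h0, act_zero h])
    have hmv : v ≠ m := fun h0 => hmk (by rw [← h0, hf])
    have hσ : ∀ y, υ σ y = y := by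
      intro y
      rcases p2_span v y m hv hm0 hmv with rfl | rfl | rfl | rfl
      · exact act_zero h σ
      · exact hf σ
      · exact hm
      · rw [h.add, hf, hm]
    -- so the sign is trivial
    have hsgone : ∀ y : G, (∀ m, υ y m = m) → sg (υ y) = 0 := by
      intro y hy
      have h3 := act_sg_mul h y y
      have h4 : υ (y * y) = υ y := funext fun m => by rw [h.mul, hy]
      rw [h4] at h3
      exact left_eq_add.1 h3
    obtain ⟨W, hW, h2⟩ := hsm
    have hWk : ∀ w ∈ W, sg (υ w) = 0 := fun w hw => hsgone w (h2 w hw)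
    have hsg := sg_of_move h hv (hf g) hw
    let φ : G →* Multiplicative (ZMod 2) :=
      { toFun := fun g => Multiplicative.ofAdd (sg (υ g))
        map_one' := by
          rw [hsgone 1 h.one]
          rfl
        map_mul' := fun a b => by rw [act_sg_mul h]; rfl }
    have hker : (two F).mem φ.ker := by
      refine ⟨inferInstance, ⟨W, hW, fun w hw => hWk w hw⟩, ?_⟩
      have h8 : Nat.card φ.range ∣ Nat.card (Multiplicative (ZMod 2)) :=
        Subgroup.card_subgroup_dvd_card _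
      have h9 : Nat.card (Multiplicative (ZMod 2)) = 2 ^ 1 := by
        rw [pow_one]
        exact Nat.card_zmod 2
      rw [h9] at h8
      obtain ⟨k, -, hk⟩ := (Nat.dvd_prime_pow Nat.prime_two).1 h8
      exact ⟨k, (Subgroup.index_ker φ).trans hk⟩
    obtain ⟨i, j, hij⟩ := tame_gen ht hker g
    have h5 : φ ((τ ^ j * σ ^ i)⁻¹ * g) = 1 := hij
    have h6 : φ σ = 1 := by
      show Multiplicative.ofAdd (sg (υ σ)) = 1
      rw [hsgone σ hσ]
      rfl
    have h7 : φ τ = 1 := by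
      show Multiplicative.ofAdd (sg (υ τ)) = 1
      rw [hsgone τ hτ]
      rfl
    rw [map_mul, map_inv, map_mul, map_pow, map_pow, h6, h7, one_pow, one_pow, one_mul, inv_one,
      one_mul] at h5
    have h8 : sg (υ g) = 0 := h5
    rw [h8] at hsg
    exact zero_ne_one hsg
  · rw [fx_tr' htr]
    by_contra hne
    have h1 : sg (υ σ) = 1 := by
      have h01 : ∀ a : ZMod 2, ((0 : ℕ) : ZMod 2) ≠ a → a = 1 := by decide
      exact h01 _ hne
    obtain ⟨v, hv, h2, h3⟩ := fix_of_sg h h1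
    obtain ⟨w, hw0, hw⟩ := p2_ne v
    obtain ⟨g, hg⟩ := htr v w hv hw0
    have h4 : υ σ w = w := by
      rw [← hg, hc, h2]
    rcases h3 w h4 with h5 | h5
    · exact hw0 h5
    · exact hw h5

end Pool.Agent.Work.MP_787500_nt.KS
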