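import Mathlib
import Pool.Agent.Work.MP_787500_nt.KS.V15
import Pool.Agent.Work.MP_787500_nt.KS.V10
import Pool.Agent.Work.MP_787500_nt.GA.GlueK

/-!
The group of an imaginary quadratic field in the group of the rational numbers: the two systems of subgroups.
-/

set_option autoImplicit false
set_option linter.unusedSectionVars false

namespace Pool.Agent.Work.MP_787500_nt.KS

open NumberField
open Pool.Agent.Work.MP_787500_nt.GP (IsAct d0 TameD IsLam exists_lam tame_gen inT stabD)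
open Pool.Agent.Work.MP_787500_nt.PA (TwoSys homs)
open Pool.Agent.Work.MP_787500_nt.KR (FSys Z1 Sm1 Smooth two res zM big CountsF Opn IsChar fullK fullQ
  fullC fullD)
open Pool.Agent.Work.MP_787500_nt.HP
open Pool.Agent.Work.MP_787500_nt.GA

universe u

variable {K : Type u} [Field K] [NumberField K] {D : ℕ} {s : K}
  {c : AlgebraicClosure K ≃+* AlgebraicClosure K} {κ : AbsGal K →* AbsGal K} {T : Finset ℕ}
  {P : ℕ → Ideal (𝓞 (AlgebraicClosure K))}

/-- the absolute Galois group of `K` in the group of all automorphisms -/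
noncomputable abbrev iK (K : Type u) [Field K] : AbsGal K →* (AlgebraicClosure K ≃+* AlgebraicClosure K) :=
  emb (RingEquiv.refl (AlgebraicClosure K))

theorem iK_apply (σ : AbsGal K) (x : AlgebraicClosure K) : iK K σ x = σ x := rfl

/-- the system over the rational numbers -/
noncomputable abbrev sQ (K : Type u) [Field K] (T : Finset ℕ) (D : ℕ) :
    FSys (AlgebraicClosure K ≃+* AlgebraicClosure K) :=
  fullQ (AlgebraicClosure K) ((T ∪ D.primeFactors : Finset ℕ) : Set ℕ)

section basic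

theorem c_sq (hc : PA.IsConj s c) : c * c = 1 := RingEquiv.ext hc.sq

theorem iK_cases (hK : IsQ K D s) (hc : PA.IsConj s c)
    (g : AlgebraicClosure K ≃+* AlgebraicClosure K) : (∃ n, g = iK K n) ∨ ∃ n, g = iK K n * c := by
  rcases sq_or (RingEquiv.refl (AlgebraicClosure K)) hK g with h | h
  · obtain ⟨n, hn⟩ := (emb_sq (RingEquiv.refl (AlgebraicClosure K)) hK g).2 h
    exact Or.inl ⟨n, hn.symm⟩
  · have h1 : (g * c) (algebraMap K (AlgebraicClosure K) s) = algebraMap K (AlgebraicClosure K) s := by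
      show g (c _) = _
      rw [hc.neg, map_neg]
      have h2 : g (algebraMap K (AlgebraicClosure K) s) = -algebraMap K (AlgebraicClosure K) s := h
      rw [h2, neg_neg]
    obtain ⟨n, hn⟩ := (emb_sq (RingEquiv.refl (AlgebraicClosure K)) hK (g * c)).2 h1
    refine Or.inr ⟨n, ?_⟩
    show g = emb (RingEquiv.refl (AlgebraicClosure K)) n * c
    rw [hn, mul_assoc, c_sq hc, mul_one]

theorem s_ne (hK : IsQ K D s) : algebraMap K (AlgebraicClosure K) s ≠
    -algebraMap K (AlgebraicClosure K) s := by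
  intro h
  have h1 : (2 : AlgebraicClosure K) * algebraMap K (AlgebraicClosure K) s = 0 := by
    linear_combination h
  have h2 := (mul_eq_zero.1 h1).resolve_left two_ne_zero
  rw [map_eq_zero] at h2
  have h3 := hK.sq
  rw [h2, zero_pow two_ne_zero, eq_comm, neg_eq_zero, Nat.cast_eq_zero] at h3
  have := hK.mod
  omega

theorem iK_nc (hK : IsQ K D s) (hc : PA.IsConj s c) (n : AbsGal K) : iK K n ≠ c := by
  intro h
  have h1 : iK K n (algebraMap K (AlgebraicClosure K) s) = algebraMap K (AlgebraicClosure K) s :=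
    AlgEquiv.commutes n s
  rw [h, hc.neg] at h1
  exact s_ne hK h1.symm

theorem mem_map_c (hc : PA.IsConj s c)
    (hκ : ∀ (σ : AbsGal K) (x : AlgebraicClosure K), κ σ x = c (σ (c x))) (σ : AbsGal K) :
    c * iK K σ * c⁻¹ = iK K (κ σ) := by
  rw [c_inv hc, emb_kap hκ]

/-- The image of a member of the system over `K` contains a member of the system over the rational
numbers. -/
theorem push (hK : IsQ K D s) (hc : PA.IsConj s c)
    (hκ : ∀ (σ : AbsGal K) (x : AlgebraicClosure K), κ σ x = c (σ (c x))) {W₁ : Subgroup (AbsGal K)}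
    (hW : (fullK (K := K) T).mem W₁) :
    ∃ W, (sQ K T D).mem W ∧ ∀ w ∈ W, ∃ n ∈ W₁, iK K n = w := by
  classical
  have hn := (fullK (K := K) T).normal hW
  obtain ⟨-, hidx, ⟨s₁, hs₁⟩, hin⟩ := ((emdK (RingEquiv.refl (AlgebraicClosure K)) T).sys W₁).1 hW
  have hkk : ∀ g, κ (κ g) = g := kap_kap hc hκ
  have hmap : ∀ w, w ∈ (W₁ ⊓ W₁.comap κ).map (iK K) ↔ ∃ n, n ∈ W₁ ∧ κ n ∈ W₁ ∧ iK K n = w := by
    intro w
    constructor
    · rintro ⟨n, ⟨h1, h2⟩, rfl⟩
      exact ⟨n, h1, h2, rfl⟩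
    · rintro ⟨n, h1, h2, rfl⟩
      exact ⟨n, ⟨h1, h2⟩, rfl⟩
  refine ⟨(W₁ ⊓ W₁.comap κ).map (iK K), ⟨⟨⟨s₁ ∪ s₁.image c ∪
    {algebraMap K (AlgebraicClosure K) s}, fun g hg => ?_⟩, ⟨fun w hw g => ?_⟩, ?_⟩,
    fun Q hQ h2 hTD g hg => ?_⟩, fun w hw => ?_⟩
  · have h1 : g (algebraMap K (AlgebraicClosure K) s) = algebraMap K (AlgebraicClosure K) s :=
      hg _ (Finset.mem_union_right _ (Finset.mem_singleton_self _))
    obtain ⟨n, rfl⟩ := (emb_sq (RingEquiv.refl (AlgebraicClosure K)) hK g).2 h1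
    rw [hmap]
    refine ⟨n, hs₁ n fun x hx => hg x (Finset.mem_union_left _ (Finset.mem_union_left _ hx)),
      hs₁ _ fun x hx => ?_, rfl⟩
    rw [emb_kap hκ]
    show c (iK K n (c x)) = x
    rw [hg (c x) (Finset.mem_union_left _ (Finset.mem_union_right _
      (Finset.mem_image_of_mem c hx))), hc.sq]
  · rw [hmap] at hw ⊢
    obtain ⟨n, h1, h2, rfl⟩ := hw
    rcases iK_cases hK hc g with ⟨m, rfl⟩ | ⟨m, rfl⟩
    · refine ⟨m * n * m⁻¹, hn.conj_mem n h1 m, ?_, by rw [map_mul, map_mul, map_inv]⟩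
      rw [map_mul, map_mul, map_inv]
      exact hn.conj_mem _ h2 _
    · refine ⟨m * κ n * m⁻¹, hn.conj_mem _ h2 m, ?_, ?_⟩
      · rw [map_mul, map_mul, map_inv, hkk]
        exact hn.conj_mem _ h1 _
      · rw [map_mul, map_mul, map_inv, ← mem_map_c hc hκ]
        group
  · rw [Subgroup.index_map_of_injective _ (emb_inj _), index_emb, hK.deg]
    have h1 : (W₁.comap κ).index ≠ 0 := by
      have h2 : (W₁.comap κ).index ∣ W₁.index := by
        rw [Subgroup.index_comap]
        exact Subgroup.relIndex_dvd_index_of_normal _ _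
      exact fun h0 => hidx (Nat.eq_zero_of_zero_dvd (h0 ▸ h2))
    exact mul_ne_zero (Subgroup.index_inf_ne_zero hidx h1) two_ne_zero
  · have hD : ∀ p : ℕ, p.Prime → p ∣ D → (p : 𝓞 (AlgebraicClosure K)) ∉ Q := fun p hp hpD =>
      hTD p (by
        rw [Finset.mem_coe]
        exact Finset.mem_union_right _ (Nat.mem_primeFactors.2 ⟨hp, hpD, hK.sqf.ne_zero⟩))
    have hT : ∀ l ∈ T, (l : 𝓞 (AlgebraicClosure K)) ∉ Q := fun l hl =>
      hTD l (by
        rw [Finset.mem_coe]
        exact Finset.mem_union_left _ hl)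
    obtain ⟨n, -, rfl⟩ := inr_le (RingEquiv.refl (AlgebraicClosure K)) hK hQ h2 hD hg
    rw [hmap]
    refine ⟨n, hin Q hQ h2 hT n hg, hin (cj c Q) (cj_prime hQ) (fun h => h2 (two_mem_cj.1 h))
      (fun l hl h => hT l hl ((nat_mem_cj l).1 h)) (κ n) ?_, rfl⟩
    rw [inr_cj, emb_kap hκ]
    have e : c⁻¹ * (c * emb (RingEquiv.refl (AlgebraicClosure K)) n * c) * c =
        emb (RingEquiv.refl (AlgebraicClosure K)) n * (c * c) := by group
    rw [e, c_sq hc, mul_one]
    exact hg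
  · obtain ⟨n, h1, -, h3⟩ := (hmap w).1 hw
    exact ⟨n, h1, h3⟩

/-- The character with kernel the group of `K`. -/
theorem ep_add (hK : IsQ K D s) (hc : PA.IsConj s c)
    (hκ : ∀ (σ : AbsGal K) (x : AlgebraicClosure K), κ σ x = c (σ (c x)))
    (g k : AlgebraicClosure K ≃+* AlgebraicClosure K) :
    ep (iK K) (g * k) = ep (iK K) g + ep (iK K) k := by
  have hn : ∀ n, ep (iK K) (iK K n * c) = 1 := by
    intro n
    refine if_neg ?_
    rintro ⟨m, hm⟩
    apply iK_nc hK hc (n⁻¹ * m)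
    rw [map_mul, map_inv, hm]
    group
  have hcm : ∀ m, c * iK K m = iK K (κ m) * c := by
    intro m
    rw [emb_kap hκ, mul_assoc, c_sq hc, mul_one]
  rcases iK_cases hK hc g with ⟨n, rfl⟩ | ⟨n, rfl⟩
  · rcases iK_cases hK hc k with ⟨m, rfl⟩ | ⟨m, rfl⟩
    · rw [← map_mul, ep_ι, ep_ι, ep_ι, add_zero]
    · rw [← mul_assoc, ← map_mul, hn, ep_ι, hn, zero_add]
  · rcases iK_cases hK hc k with ⟨m, rfl⟩ | ⟨m, rfl⟩
    · rw [mul_assoc, hcm, ← mul_assoc, ← map_mul, hn, ep_ι, hn, add_zero]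
    · rw [mul_assoc, ← mul_assoc c, hcm, mul_assoc, c_sq hc, mul_one, ← map_mul, ep_ι, hn, hn]
      decide

theorem ep_zero (g : AlgebraicClosure K ≃+* AlgebraicClosure K) :
    ep (iK K) g = 0 ↔ ∃ n, iK K n = g := by
  unfold ep
  split_ifs with h
  · simp [h]
  · simp [h]

/-- members of the system over the rational numbers induce members of the local systems -/
theorem res_stb {T' : Set ℕ} {W : Subgroup (AlgebraicClosure K ≃+* AlgebraicClosure K)}
    (hW : (fullQ (AlgebraicClosure K) T').mem W)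
    (C : Subgroup (AlgebraicClosure K ≃+* AlgebraicClosure K)) : (fullC C).mem (W.subgroupOf C) := by
  obtain ⟨⟨⟨s₁, hs⟩, hn, hi⟩, -⟩ := hW
  refine ⟨⟨s₁, fun g hg => hs g hg⟩, inferInstance, fun h0 => hi ?_⟩
  exact Nat.eq_zero_of_zero_dvd (h0 ▸ Subgroup.relIndex_dvd_index_of_normal W C)

end basic

end Pool.Agent.Work.MP_787500_nt.KS
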