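import Mathlib
import Pool.Agent.Work.MP_787500_nt.KS.V16
import Pool.Agent.Work.MP_787500_nt.RQ.Basic
import Pool.Agent.Work.MP_787500_nt.RQ.ComI

/-!
The cocycles over an imaginary quadratic field and over the rational numbers.
-/

set_option autoImplicit false
set_option linter.unusedSectionVars false

namespace Pool.Agent.Work.MP_787500_nt.KS

open NumberField
open Pool.Agent.Work.MP_787500_nt.GP (A0 IsAct d0 TameD IsLam exists_lam tame_gen inT stabD)
open Pool.Agent.Work.MP_787500_nt.PA (TwoSys homs)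
open Pool.Agent.Work.MP_787500_nt.KR (FSys Z1 Sm1 Smooth two res zM big CountsF Opn IsChar fullK fullQ
  fullC fullD)
open Pool.Agent.Work.MP_787500_nt.HP
open Pool.Agent.Work.MP_787500_nt.GA

universe u

variable {K : Type u} [Field K] [NumberField K] {D : ℕ} {s : K}
  {c : AlgebraicClosure K ≃+* AlgebraicClosure K} {κ : AbsGal K →* AbsGal K} {T : Finset ℕ}
  {P : ℕ → Ideal (𝓞 (AlgebraicClosure K))} {N₀ : Subgroup (AbsGal K)}
  {υ : (AlgebraicClosure K ≃+* AlgebraicClosure K) → P2 → P2}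

/-- The arithmetic data. -/
structure Ar (s : K) (c : AlgebraicClosure K ≃+* AlgebraicClosure K) (κ : AbsGal K →* AbsGal K)
    (D : ℕ) (T : Finset ℕ) (P : ℕ → Ideal (𝓞 (AlgebraicClosure K))) : Prop where
  hK : IsQ K D s
  hc : PA.IsConj s c
  hκ : ∀ (σ : AbsGal K) (x : AlgebraicClosure K), κ σ x = c (σ (c x))
  hT : ∀ l ∈ T, Spl D l
  hP : IsP (T ∪ D.primeFactors) P

/-- The action is trivial on `N₀` and on the inertia groups at the prime divisors of `D`. -/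
structure AcU (T : Finset ℕ) (D : ℕ) (P : ℕ → Ideal (𝓞 (AlgebraicClosure K)))
    (N₀ : Subgroup (AbsGal K)) (υ : (AlgebraicClosure K ≃+* AlgebraicClosure K) → P2 → P2) :
    Prop where
  act : IsAct υ
  n0 : (fullK (K := K) T).mem N₀
  ker : ∀ g ∈ N₀, ∀ m, υ (iK K g) m = m
  in0 : ∀ p ∈ D.primeFactors, ∀ g ∈ inr (P p), ∀ m, υ g m = m

theorem Ar.memD {p : ℕ} (hp : p ∈ D.primeFactors) : p ∈ T ∪ D.primeFactors :=
  Finset.mem_union_right _ hp

theorem AcU.sm (H : Ar s c κ D T P) (h : AcU T D P N₀ υ) : Smooth (sQ K T D) υ := by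
  obtain ⟨W, hW, h1⟩ := push H.hK H.hc H.hκ h.n0
  refine ⟨W, hW, fun w hw m => ?_⟩
  obtain ⟨n, hn, rfl⟩ := h1 w hw
  exact h.ker n hn m

theorem AcU.smE (H : Ar s c κ D T P) (h : AcU T D P N₀ υ)
    (C : Subgroup (AlgebraicClosure K ≃+* AlgebraicClosure K)) :
    Smooth (fullC C) (fun d : C => υ (d : AlgebraicClosure K ≃+* AlgebraicClosure K)) := by
  obtain ⟨W, hW, h1⟩ := h.sm H
  exact ⟨W.subgroupOf C, res_stb hW C, fun w hw m => h1 _ hw m⟩

/-- the character of `K` on a subgroup -/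
theorem ep_homs (H : Ar s c κ D T P) (C : Subgroup (AlgebraicClosure K ≃+* AlgebraicClosure K)) :
    (fun d : C => ep (iK K) (d : AlgebraicClosure K ≃+* AlgebraicClosure K)) ∈
      homs (two (fullC C)) (⊤ : Subgroup C) := by
  rw [mem_homs_two]
  obtain ⟨W, hW, h1⟩ := push (T := T) H.hK H.hc H.hκ (W₁ := ⊤)
    ⟨inferInstance, isOpen_univ, fun _ _ => trivial⟩
  refine ⟨⟨W.subgroupOf C, res_stb hW C, fun w hw => ?_⟩, fun a b => ?_⟩
  · obtain ⟨n, -, hn⟩ := h1 _ hw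
    exact (ep_zero _).2 ⟨n, hn⟩
  · exact ep_add H.hK H.hc H.hκ _ _

/-- A prime that contains the odd prime number `p` does not contain 2. -/
theorem two_notMem {p : ℕ} (hp : p.Prime) (hp2 : p ≠ 2) {Q : Ideal (𝓞 (AlgebraicClosure K))}
    (hQ : Q.IsPrime) (hpQ : (p : 𝓞 (AlgebraicClosure K)) ∈ Q) : (2 : 𝓞 (AlgebraicClosure K)) ∉ Q := by
  intro h
  have h1 : ((2 : ℤ) : 𝓞 (AlgebraicClosure K)) ∈ Q := by
    rw [Int.cast_ofNat]
    exact h
  rw [nat_mem hp hQ hpQ] at h1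
  have h2 : p ∣ 2 := by exact_mod_cast h1
  exact hp2 ((Nat.prime_dvd_prime_iff_eq hp Nat.prime_two).1 h2)

section ram

variable {invQ : ∀ w : Option (T ∪ D.primeFactors : Finset ℕ),
  (stb (HP.PP P w) → stb (HP.PP P w) → A0) → A0}

theorem Ar.two_P (H : Ar s c κ D T P) {p : ℕ} (hp : p ∈ D.primeFactors) :
    (2 : 𝓞 (AlgebraicClosure K)) ∉ P p := by
  have hm := Ar.memD (T := T) hp
  exact two_notMem (H.hP.prime p hm) (H.hP.odd p hm) (H.hP.isPrime p (Or.inl hm))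
    (H.hP.mem p (Or.inl hm))

theorem Ar.ne_P (H : Ar s c κ D T P) {p : ℕ} (hp : p ∈ D.primeFactors) : P p ≠ ⊥ :=
  PP_ne H.hP (some ⟨p, Ar.memD hp⟩)

theorem Ar.counts (H : Ar s c κ D T P) {p : ℕ} (hp : p ∈ D.primeFactors) :
    CountsF (fullC (stb (P p))) 0 := by
  have hm := Ar.memD (T := T) hp
  obtain ⟨α⟩ := exists_ratEquiv (alg_closure K)
  have h1 := countsF_Q α (H.hP.isPrime p (Or.inl hm)) (H.ne_P hp)
  rwa [if_neg (H.two_P hp)] at h1

/-- a cocycle at `P p` is trivial on the inertia group of `K` -/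
theorem ram_P (H : Ar s c κ D T P) (hQ : QDat c (T ∪ D.primeFactors) P invQ)
    (h : AcU T D P N₀ υ) {p : ℕ} (hp : p ∈ D.primeFactors) {x : stb (P p) → P2}
    (hx : Z1 (fullC (stb (P p)))
      (fun d => υ (d : AlgebraicClosure K ≃+* AlgebraicClosure K)) x)
    {g : stb (P p)} (hg : (g : AlgebraicClosure K ≃+* AlgebraicClosure K) ∈ inr (P p))
    (hgK : ∃ n, iK K n = g) : x g = 0 := by
  have hm := Ar.memD (T := T) hp
  have hpp := H.hP.prime p hm
  have hQp := H.hP.isPrime p (Or.inl hm)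
  have hpQ := H.hP.mem p (Or.inl hm)
  obtain ⟨a, u, σ, τ, hu, hτ, hττ, hTam, -⟩ := hQ.tame ⟨p, hm⟩
  have hτn : ep (iK K) (τ : AlgebraicClosure K ≃+* AlgebraicClosure K) = 1 := by
    refine if_neg fun h1 => ?_
    have h2 := (emb_sq (RingEquiv.refl (AlgebraicClosure K)) H.hK
      (τ : AlgebraicClosure K ≃+* AlgebraicClosure K)).1 h1
    have h3 := inr_neg (RingEquiv.refl (AlgebraicClosure K)) H.hK hpp
      (Nat.dvd_of_mem_primeFactors hp) hQp hpQ hτ hττ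
    exact s_ne H.hK (h2.symm.trans h3)
  exact ram_abs (H.counts hp) (RQ.char_lfull (stb (P p)))
    (I := {g | (g : AlgebraicClosure K ≃+* AlgebraicClosure K) ∈ inr (P p)})
    (fun g hg => cyQ_inr hQp (H.two_P hp) hg) hTam.lt hTam.σχ (ep_homs H (stb (P p))) hτ hτn
    (h.act.comp (stb (P p)).subtype) (h.smE H (stb (P p))) (fun g hg m => h.in0 p hp g hg m) hx hg
    ((ep_zero _).2 hgK)

/-- a cocycle over the rational numbers is trivial on the inertia groups of `K` at the prime divisors of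
`D` -/
theorem ram_Q (H : Ar s c κ D T P) (hQ : QDat c (T ∪ D.primeFactors) P invQ)
    (h : AcU T D P N₀ υ) {p : ℕ} (hp : p ∈ D.primeFactors)
    {x : (AlgebraicClosure K ≃+* AlgebraicClosure K) → P2} (hx : Z1 (sQ K T D) υ x)
    {Q : Ideal (𝓞 (AlgebraicClosure K))} (hQp : Q.IsPrime) (hpQ : (p : 𝓞 (AlgebraicClosure K)) ∈ Q)
    {n : AbsGal K} (hn : iK K n ∈ inr Q) (hn0 : n ∈ N₀) : x (iK K n) = 0 := by
  have hm := Ar.memD (T := T) hp
  obtain ⟨g, rfl⟩ := exists_cj (alg_closure K) (H.hP.prime p hm) (H.hP.isPrime p (Or.inl hm)) hQp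
    (H.hP.mem p (Or.inl hm)) hpQ
  rw [inr_cj] at hn
  set y := g⁻¹ * iK K n * g with hy
  have hact : ∀ m, υ y m = m := by
    intro m
    rw [hy, h.act.mul, h.act.mul, h.ker n hn0, act_inv h.act]
  have hep : ∃ m, iK K m = y := by
    rw [← ep_zero, hy, ep_add H.hK H.hc H.hκ, ep_add H.hK H.hc H.hκ, ep_ι, add_zero,
      ← ep_add H.hK H.hc H.hκ, inv_mul_cancel, ep_zero]
    exact ⟨1, map_one _⟩
  have hx1 : Z1 (fullC (stb (P p)))
      (fun d : stb (P p) => υ (d : AlgebraicClosure K ≃+* AlgebraicClosure K))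
      (fun d => x (d : AlgebraicClosure K ≃+* AlgebraicClosure K)) := by
    obtain ⟨⟨W, hW, h1⟩, h2⟩ := hx
    exact ⟨⟨W.subgroupOf (stb (P p)), res_stb hW _, fun g w hw => h1 _ _ hw⟩,
      fun a b => h2 _ _⟩
  have h1 : x y = 0 := ram_P H hQ h hp hx1 (g := ⟨y, inr_le_stb _ hn⟩) hn hep
  have h2 : iK K n = g * y * g⁻¹ := by
    rw [hy]
    group
  rw [h2, hx.2, hx.2, h1, act_zero h.act, add_zero, h.act.mul, hact, ← hx.2, mul_inv_cancel,
    z1_one (h := h.act) _ hx]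

end ram

/-- The two notions of smooth cocycles agree. -/
theorem smx_K (H : Ar s c κ D T P)
    {invQ : ∀ w : Option (T ∪ D.primeFactors : Finset ℕ),
      (stb (HP.PP P w) → stb (HP.PP P w) → A0) → A0}
    (hQ : QDat c (T ∪ D.primeFactors) P invQ)
    (h : AcU T D P N₀ υ) {x : (AlgebraicClosure K ≃+* AlgebraicClosure K) → P2}
    (hx : ∀ a b, x (a * b) = x a + υ a (x b)) :
    (∃ W, (sQ K T D).mem W ∧ ∀ w ∈ W, x w = 0) ↔
      ∃ W, (big (fullK (K := K) T) N₀).mem W ∧ ∀ w ∈ W, x (iK K w) = 0 := by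
  classical
  have hact : IsAct (fun g => υ (iK K g)) := h.act.comp (iK K)
  have hN := (fullK (K := K) T).normal h.n0
  have hxK : ∀ a b, x (iK K (a * b)) = x (iK K a) + υ (iK K a) (x (iK K b)) := fun a b => by
    rw [map_mul, hx]
  have hbig : Z1 (big (fullK (K := K) T) N₀) (fun g => υ (iK K g)) (fun g => x (iK K g)) ↔
      Z1 (fullK (K := K) T) (fun g => υ (iK K g)) (fun g => x (iK K g)) :=
    z1_big N₀ hN ⟨N₀, h.n0, le_rfl⟩ hact h.ker
  constructor
  · rintro ⟨W, hW, h1⟩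
    have hxz : Z1 (sQ K T D) υ x := (mem_zu_iff _ h.act).2 ⟨⟨W, hW, h1⟩, hx⟩
    refine ((mem_zu_iff _ hact).1 (hbig.2 ((mem_zu_iff _ hact).2 ⟨?_, hxK⟩))).1
    -- the subgroup of `N₀` on which `x` vanishes
    have hx1 : x 1 = 0 := z1_one (h := h.act) _ hxz
    let W' : Subgroup (AbsGal K) :=
      { carrier := {g | g ∈ N₀ ∧ x (iK K g) = 0}
        mul_mem' := by
          rintro a b ⟨ha, ha'⟩ ⟨hb, hb'⟩
          refine ⟨mul_mem ha hb, ?_⟩
          rw [hxK, ha', hb', act_zero h.act, add_zero]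
        one_mem' := ⟨N₀.one_mem, by rw [map_one, hx1]⟩
        inv_mem' := by
          rintro a ⟨ha, ha'⟩
          refine ⟨inv_mem ha, ?_⟩
          have h2 := hxK a a⁻¹
          rw [mul_inv_cancel, map_one, hx1, ha', zero_add, h.ker a ha] at h2
          exact h2.symm }
    have hW' : ∀ g, g ∈ W' ↔ g ∈ N₀ ∧ x (iK K g) = 0 := fun g => Iff.rfl
    obtain ⟨-, hi0, ⟨s₀, hs₀⟩, hin0⟩ :=
      ((emdK (RingEquiv.refl (AlgebraicClosure K)) T).sys N₀).1 h.n0
    obtain ⟨⟨⟨s₁, hs₁⟩, hn1, hi1⟩, hin1⟩ := hW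
    refine ⟨W', ((emdK (RingEquiv.refl (AlgebraicClosure K)) T).sys W').2
      ⟨⟨fun w hw g => ?_⟩, ?_, ⟨s₀ ∪ s₁, fun g hg => ?_⟩, fun Q hQp h2 hTQ g hg => ?_⟩,
      fun w hw => hw.2⟩
    · rw [hW'] at hw ⊢
      refine ⟨hN.conj_mem w hw.1 g, ?_⟩
      have h3 : x (iK K g) + υ (iK K g) (x (iK K g⁻¹)) = 0 := by
        rw [← hxK, mul_inv_cancel, map_one, hx1]
      rw [hxK, hxK, hw.2, act_zero h.act, add_zero, map_mul, h.act.mul, h.ker w hw.1, h3]
    · have h3 : N₀ ⊓ W.comap (iK K) ≤ W' := fun g hg => ⟨hg.1, h1 _ hg.2⟩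
      have h4 : (W.comap (iK K)).index ≠ 0 := by
        rw [Subgroup.index_comap]
        exact fun h0 => hi1 (Nat.eq_zero_of_zero_dvd (h0 ▸
          Subgroup.relIndex_dvd_index_of_normal _ _))
      exact fun h0 => Subgroup.index_inf_ne_zero hi0 h4
        (Nat.eq_zero_of_zero_dvd (h0 ▸ Subgroup.index_dvd_of_le h3))
    · exact ⟨hs₀ g fun x hx => hg x (Finset.mem_union_left _ hx),
        h1 _ (hs₁ _ fun x hx => hg x (Finset.mem_union_right _ hx))⟩
    · have hg0 : g ∈ N₀ := hin0 Q hQp h2 hTQ g hg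
      refine ⟨hg0, ?_⟩
      by_cases hD : ∃ p ∈ D.primeFactors, (p : 𝓞 (AlgebraicClosure K)) ∈ Q
      · obtain ⟨p, hp, hpQ⟩ := hD
        exact ram_Q H hQ h hp hxz hQp hpQ hg hg0
      · push Not at hD
        refine h1 _ (hin1 Q hQp h2 (fun l hl => ?_) hg)
        rw [Finset.mem_coe, Finset.mem_union] at hl
        rcases hl with hl | hl
        · exact hTQ l hl
        · exact hD l hl
  · rintro ⟨W, ⟨-, ⟨V, hV, hVW⟩, -⟩, h1⟩
    obtain ⟨W₁, hW₁, h2⟩ := push H.hK H.hc H.hκ hV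
    refine ⟨W₁, hW₁, fun w hw => ?_⟩
    obtain ⟨n, hn, rfl⟩ := h2 w hw
    exact h1 n (hVW hn)

/-- The two groups. -/
theorem ext2_K (H : Ar s c κ D T P)
    {invQ : ∀ w : Option (T ∪ D.primeFactors : Finset ℕ),
      (stb (HP.PP P w) → stb (HP.PP P w) → A0) → A0}
    (hQ : QDat c (T ∪ D.primeFactors) P invQ) (h : AcU T D P N₀ υ) :
    Ext2 (sQ K T D) (iK K) c κ (big (fullK (K := K) T) N₀) υ where
  inj := emb_inj _
  cc := c_sq H.hc
  kap := emb_kap H.hκ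
  cases := iK_cases H.hK H.hc
  nc := iK_nc H.hK H.hc
  act := h.act
  sm := h.sm H
  smx _ hx := smx_K H hQ h hx

end Pool.Agent.Work.MP_787500_nt.KS
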