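import Mathlib
import Pool.Agent.Work.MP_787500_nt.KS.V17
import Pool.Agent.Work.MP_787500_nt.RQ.Defs

/-!
Reciprocity over the rational numbers: the places of the quadratic field and the prime divisors of `D`.
-/

set_option autoImplicit false
set_option linter.unusedSectionVars false

namespace Pool.Agent.Work.MP_787500_nt.KS

open NumberField
open Pool.Agent.Work.MP_787500_nt.GP (A0 hf hf_zero hf_add IsAct d0 d1 tw TameD stabD)
open Pool.Agent.Work.MP_787500_nt.PA (TwoSys homs)
open Pool.Agent.Work.MP_787500_nt.KR (FSys Z1 Z2 Sm1 Sm2 Smooth two res zM big CountsF Opn IsChar fullK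
  fullQ fullC fullD)
open Pool.Agent.Work.MP_787500_nt.HP
open Pool.Agent.Work.MP_787500_nt.GA
open Pool.Agent.Work.MP_787500_nt.RQ (rs LocF ufull coc_hf char_ufull)

universe u

/-- the inclusion of the places -/
def incl {T U : Finset ℕ} : Option T → Option (T ∪ U : Finset ℕ)
  | none => none
  | some l => some ⟨l, Finset.mem_union_left _ l.2⟩

theorem sum_split {A : Type*} [AddCommMonoid A] {T U : Finset ℕ} (hd : Disjoint T U)
    (F : Option (T ∪ U : Finset ℕ) → A) :
    ∑ w, F w = ∑ w : Option T, F (incl w) +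
      ∑ p : U, F (some ⟨p, Finset.mem_union_right _ p.2⟩) := by
  classical
  rw [Fintype.sum_option, Fintype.sum_option, add_assoc]
  congr 1
  let G : ℕ → A := fun n => if h : n ∈ T ∪ U then F (some ⟨n, h⟩) else 0
  have hG : ∀ n (h : n ∈ T ∪ U), G n = F (some ⟨n, h⟩) := fun n h => dif_pos h
  have h1 : ∑ l : (T ∪ U : Finset ℕ), F (some l) = ∑ n ∈ T ∪ U, G n := by
    rw [← Finset.sum_coe_sort (T ∪ U) G]
    exact Finset.sum_congr rfl fun l _ => (hG l l.2).symm
  have h2 : ∑ l : T, F (incl (some l)) = ∑ n ∈ T, G n := by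
    rw [← Finset.sum_coe_sort T G]
    exact Finset.sum_congr rfl fun l _ => (hG l (Finset.mem_union_left _ l.2)).symm
  have h3 : ∑ p : U, F (some ⟨p, Finset.mem_union_right _ p.2⟩) = ∑ n ∈ U, G n := by
    rw [← Finset.sum_coe_sort U G]
    exact Finset.sum_congr rfl fun l _ => (hG l (Finset.mem_union_right _ l.2)).symm
  rw [h1, h2, h3, Finset.sum_union hd]

variable {K : Type u} [Field K] [NumberField K] {D : ℕ} {s : K}
  {c : AlgebraicClosure K ≃+* AlgebraicClosure K} {κ : AbsGal K →* AbsGal K} {T : Finset ℕ}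
  {P : ℕ → Ideal (𝓞 (AlgebraicClosure K))} {N₀ : Subgroup (AbsGal K)}
  {υ : (AlgebraicClosure K ≃+* AlgebraicClosure K) → P2 → P2}

theorem Ar.disj (H : Ar s c κ D T P) : Disjoint T D.primeFactors := by
  rw [Finset.disjoint_left]
  intro l hl hlD
  exact (H.hT l hl).2.2.1 (Nat.dvd_of_mem_primeFactors hlD)

/-- The invariants over the rational numbers (`invQ`, `invF`) and over `K` (`inv`). -/
structure InvD (c : AlgebraicClosure K ≃+* AlgebraicClosure K) (T : Finset ℕ) (D : ℕ)
    (P : ℕ → Ideal (𝓞 (AlgebraicClosure K)))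
    (inv : ∀ w : Option T, (stabD (HP.PP P w) → stabD (HP.PP P w) → A0) → A0)
    (invQ invF : ∀ w : Option (T ∪ D.primeFactors : Finset ℕ),
      (stb (HP.PP P w) → stb (HP.PP P w) → A0) → A0) : Prop where
  qdat : QDat c (T ∪ D.primeFactors) P invQ
  locF : ∀ w, LocF (stb (HP.PP P w)) (invQ w) (invF w)
  recip : ∀ f, KR.Z2 (ufull (AlgebraicClosure K) ((T ∪ D.primeFactors : Finset ℕ) : Set ℕ))
    (tw cyQ) f → ∑ w, invF w (rs (stb (HP.PP P w)) f) + (f c c + f 1 1) = 0
  none : ∀ f : (AlgebraicClosure K ≃+* AlgebraicClosure K) →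
    (AlgebraicClosure K ≃+* AlgebraicClosure K) → A0,
    inv none (fun a b => f (iK K a) (iK K b)) = invF none (rs (stb (P 2)) f)
  some : ∀ (l : T) (f : (AlgebraicClosure K ≃+* AlgebraicClosure K) →
    (AlgebraicClosure K ≃+* AlgebraicClosure K) → A0),
    inv (some l) (fun a b => f (iK K a) (iK K b)) =
      invF (some ⟨l, Finset.mem_union_left _ l.2⟩) (rs (stb (P l)) f)

variable {inv : ∀ w : Option T, (stabD (HP.PP P w) → stabD (HP.PP P w) → A0) → A0}
  {invQ invF : ∀ w : Option (T ∪ D.primeFactors : Finset ℕ),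
      (stb (HP.PP P w) → stb (HP.PP P w) → A0) → A0}

/-- Reciprocity for the plane. -/
theorem recU_K (H : Ar s c κ D T P) (R : InvD c T D P inv invQ invF) :
    RecU (Φ := Option T) (D := fun w => stabD (HP.PP P w)) (sQ K T D) (iK K) c
      (fun w => (stabD (HP.PP P w)).subtype) inv (Ψ := D.primeFactors) (E := fun p => stb (P p))
      (fun p => fullC (stb (P p))) (fun p => (stb (P p)).subtype)
      (fun p d => cyQ (d : AlgebraicClosure K ≃+* AlgebraicClosure K))
      (fun p => invF (some ⟨p, Finset.mem_union_right _ p.2⟩)) where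
  jsm p W hW := ⟨W.subgroupOf (stb (P p)), res_stb hW _, fun x hx => hx⟩
  loc p := (R.locF (some ⟨p, Finset.mem_union_right _ p.2⟩)).loc
  recip f hf1 hf2 := by
    have h1 := R.recip (fun a b => hf (f a b)) (coc_hf (char_ufull _) ⟨hf1, hf2⟩)
    rw [sum_split H.disj] at h1
    have h2 : ∑ w : Option T, inv w (fun a b => hf (f (iK K ((stabD (HP.PP P w)).subtype a))
        (iK K ((stabD (HP.PP P w)).subtype b)))) =
        ∑ w : Option T, invF (incl w) (rs (stb (HP.PP P (incl w))) fun a b => hf (f a b)) := by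
      refine Finset.sum_congr rfl fun w _ => ?_
      match w with
      | none => exact R.none (fun a b => hf (f a b))
      | some l => exact R.some l (fun a b => hf (f a b))
    rw [h2, hf_add]
    exact h1

end Pool.Agent.Work.MP_787500_nt.KS
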