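import Mathlib
import Pool.Agent.Work.MP_787500_nt.KS.V18

/-!
The local term at the prime divisors of `D`, and the local counts.
-/

set_option autoImplicit false
set_option linter.unusedSectionVars false

namespace Pool.Agent.Work.MP_787500_nt.KS

open NumberField
open Pool.Agent.Work.MP_787500_nt.GP (A0 hf hf_zero hf_one hf_add hf_neg smul_hf IsAct d0 d1 tw TameD
  stabD iota)
open Pool.Agent.Work.MP_787500_nt.PA (TwoSys homs)
open Pool.Agent.Work.MP_787500_nt.KR (FSys Z1 Z2 Sm1 Sm2 Smooth two res zM big CountsF Opn IsChar fullK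
  fullQ fullC fullD two_fullC)
open Pool.Agent.Work.MP_787500_nt.HP
open Pool.Agent.Work.MP_787500_nt.GA
open Pool.Agent.Work.MP_787500_nt.RQ (rs LocF ufull coc_hf char_ufull char_ofTwo)

universe u

/-- the cup product of two homomorphisms -/
theorem cup_z2 {G : Type*} [Group G] {S : TwoSys G} {χ : G → ℤ_[2]} (hχ : PA.IsChar S χ)
    {ψ φ : G → ZMod 2} (hψ : ψ ∈ homs S (⊤ : Subgroup G)) (hφ : φ ∈ homs S (⊤ : Subgroup G)) :
    GP.Z2 S (tw χ) (fun a b => hf (ψ a * φ b)) := by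
  obtain ⟨⟨W, hW, h1⟩, -, h2⟩ := hψ
  obtain ⟨⟨W', hW', h1'⟩, -, h2'⟩ := hφ
  have h3 : KR.Coc (KR.ofTwo S) (fun a b => ψ a * φ b) := by
    refine ⟨⟨W ⊓ W', S.inf hW hW', fun g k w hw w' hw' => ?_⟩, fun g k l => ?_⟩
    · show ψ (g * w) * φ (k * w') = ψ g * φ k
      rw [h1 g w hw.1, h1' k w' hw'.2]
    · show ψ g * φ k + ψ (g * k) * φ l = ψ k * φ l + ψ g * φ (k * l)
      rw [h2 g trivial k trivial, h2' k trivial l trivial]
      ring
  exact coc_hf (char_ofTwo hχ) h3

/-- the explicit invariant of a cup product with a homomorphism that is unramified -/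
theorem iota_cup {G : Type*} [Group G] {S : TwoSys G} {ψ φ : G → ZMod 2}
    (hψ : ψ ∈ homs S (⊤ : Subgroup G)) {σ τ : G} {l : ℕ} (hl : Odd l) (h1 : ψ τ = 1) (h2 : φ τ = 0) :
    iota σ τ l (fun a b => hf (ψ a * φ b)) = hf (φ σ) := by
  have hmul : ∀ a b, ψ (a * b) = ψ a + ψ b := fun a b => hψ.2.2 a trivial b trivial
  have hψ1 : ψ 1 = 0 := by
    have := hmul 1 1
    rw [mul_one] at this
    exact left_eq_add.1 this
  have hpow : ∀ n : ℕ, ψ (τ ^ n) = n := by
    intro n
    induction n with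
    | zero => rw [pow_zero, hψ1, Nat.cast_zero]
    | succ n ih => rw [pow_succ, hmul, ih, h1, Nat.cast_succ]
  unfold iota
  have h4 : ∑ i ∈ Finset.Ico 1 l, hf (ψ (τ ^ i) * φ τ) = 0 :=
    Finset.sum_eq_zero fun i _ => by rw [h2, mul_zero, hf_zero]
  show hf (ψ σ * φ τ) - hf (ψ (τ ^ l) * φ σ) - ∑ i ∈ Finset.Ico 1 l, hf (ψ (τ ^ i) * φ τ) = _
  rw [h4, h2, mul_zero, hf_zero, hpow, sub_zero, zero_sub, hf_neg]
  obtain ⟨k, rfl⟩ := hl
  have h3 : ((2 * k + 1 : ℕ) : ZMod 2) = 1 := by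
    push_cast
    rw [show (2 : ZMod 2) = 0 from rfl, zero_mul, zero_add]
  rw [h3, one_mul]

variable {K : Type u} [Field K] [NumberField K] {D : ℕ} {s : K}
  {c : AlgebraicClosure K ≃+* AlgebraicClosure K} {κ : AbsGal K →* AbsGal K} {T : Finset ℕ}
  {P : ℕ → Ideal (𝓞 (AlgebraicClosure K))} {N₀ : Subgroup (AbsGal K)}
  {υ : (AlgebraicClosure K ≃+* AlgebraicClosure K) → P2 → P2}
  {inv : ∀ w : Option T, (stabD (HP.PP P w) → stabD (HP.PP P w) → A0) → A0}
  {invQ invF : ∀ w : Option (T ∪ D.primeFactors : Finset ℕ),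
      (stb (HP.PP P w) → stb (HP.PP P w) → A0) → A0}

theorem pad_two {u : ℤ_[2]} (hu : IsUnit u) : (2 : ℤ_[2]) ∣ u - 1 := by
  have h1 : IsUnit (PadicInt.toZMod u) := hu.map _
  have h2 : PadicInt.toZMod u = (1 : ZMod 2) := by
    have : ∀ a : ZMod 2, a ≠ 0 → a = 1 := by decide
    exact this _ h1.ne_zero
  rw [← pad_mod, map_sub, h2, map_one, sub_self]

/-- the sign of the action on a local group -/
theorem sg_homs (H : Ar s c κ D T P) (h : AcU T D P N₀ υ)
    (C : Subgroup (AlgebraicClosure K ≃+* AlgebraicClosure K)) :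
    (fun d : C => sg (υ (d : AlgebraicClosure K ≃+* AlgebraicClosure K))) ∈
      homs (two (fullC C)) (⊤ : Subgroup C) := by
  rw [mem_homs_two]
  obtain ⟨W, hW, h1⟩ := h.smE H C
  refine ⟨⟨W, hW, fun w hw => ?_⟩, fun a b => act_sg_mul h.act _ _⟩
  have h2 : υ (w : AlgebraicClosure K ≃+* AlgebraicClosure K) = υ 1 := by
    funext m
    rw [h.act.one]
    exact h1 w hw m
  have h3 := act_sg_mul h.act 1 1
  rw [one_mul] at h3
  rw [h2]
  exact left_eq_add.1 h3

/-- The local term at a prime divisor of `D`. -/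
theorem hloc_K (H : Ar s c κ D T P) (R : InvD c T D P inv invQ invF) (h : AcU T D P N₀ υ)
    (hE : ∀ p : D.primeFactors, IsAct (fun d : stb (P p) =>
      υ (d : AlgebraicClosure K ≃+* AlgebraicClosure K)))
    (p : D.primeFactors) :
    invF (some ⟨p, Finset.mem_union_right _ p.2⟩) (fun a b : stb (P p) =>
      hf (ep (iK K) (a : AlgebraicClosure K ≃+* AlgebraicClosure K) *
        sg (υ (b : AlgebraicClosure K ≃+* AlgebraicClosure K)))) =
      hf (Module.finrank (ZMod 2) (FX (hE p)) : ZMod 2) := by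
  have hm := Ar.memD (T := T) p.2
  have hpp := H.hP.prime p hm
  have hQp := H.hP.isPrime p (Or.inl hm)
  have hpQ := H.hP.mem p (Or.inl hm)
  obtain ⟨a, u, σ, τ, hu, hτ, hττ, hTam, hinv⟩ := R.qdat.tame ⟨p, hm⟩
  have hτn : ep (iK K) (τ : AlgebraicClosure K ≃+* AlgebraicClosure K) = 1 := by
    refine if_neg fun h1 => ?_
    have h2 := (emb_sq (RingEquiv.refl (AlgebraicClosure K)) H.hK
      (τ : AlgebraicClosure K ≃+* AlgebraicClosure K)).1 h1
    have h3 := inr_neg (RingEquiv.refl (AlgebraicClosure K)) H.hK hpp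
      (Nat.dvd_of_mem_primeFactors p.2) hQp hpQ hτ hττ
    exact s_ne H.hK (h2.symm.trans h3)
  have hτa : ∀ m, υ (τ : AlgebraicClosure K ≃+* AlgebraicClosure K) m = m :=
    fun m => h.in0 p p.2 τ hτ m
  have hτs : sg (υ (τ : AlgebraicClosure K ≃+* AlgebraicClosure K)) = 0 := by
    have h2 : υ (τ : AlgebraicClosure K ≃+* AlgebraicClosure K) = υ 1 := by
      funext m
      rw [h.act.one, hτa]
    have h3 := act_sg_mul h.act 1 1
    rw [one_mul] at h3
    rw [h2]
    exact left_eq_add.1 h3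
  have hψ := ep_homs H (stb (P p))
  have hφ := sg_homs H h (stb (P p))
  have h1 := fx_gen (F := fullC (stb (P p))) (by rw [two_fullC]; exact hTam) (hE p)
    (h.smE H (stb (P p))) (fun a b m => h.in0 p p.2 _ (RQ.comm_inr hQp hpp hpQ a.2 b.2) m) hτa
  rw [h1]
  rw [two_fullC] at hψ hφ
  have h2 := (R.locF (some ⟨p, hm⟩)).ext _ (cup_z2 (isChar_stb (stb (P p))) hψ hφ)
  have h3 : invF (some ⟨p, hm⟩) (fun a b : stb (P p) =>
      hf (ep (iK K) (a : AlgebraicClosure K ≃+* AlgebraicClosure K) *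
        sg (υ (b : AlgebraicClosure K ≃+* AlgebraicClosure K)))) = _ := h2
  refine h3.trans ?_
  have h4 := hinv (fun a b : stb (P p) =>
      hf (ep (iK K) (a : AlgebraicClosure K ≃+* AlgebraicClosure K) *
        sg (υ (b : AlgebraicClosure K ≃+* AlgebraicClosure K))))
  refine h4.trans ?_
  rw [iota_cup hψ hTam.odd hτn hτs]
  exact smul_hf (pad_two hu) _

/-! ## The local counts -/

open scoped Classical in
/-- the number of cocycles at the places of `K` -/
theorem hD_K (H : Ar s c κ D T P) (h : AcU T D P N₀ υ) (hPT : IsP T P) (w : Option T)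
    (hw : IsAct (fun d : stabD (HP.PP P w) => υ (iK K (d : AbsGal K)))) :
    FiniteDimensional (ZMod 2)
      (ZU (big (fullD (stabD (HP.PP P w))) (N₀.comap (stabD (HP.PP P w)).subtype)) hw) ∧
    Module.finrank (ZMod 2)
      (ZU (big (fullD (stabD (HP.PP P w))) (N₀.comap (stabD (HP.PP P w)).subtype)) hw) =
      2 * (if w = none then 1 else 0) + 2 + Module.finrank (ZMod 2) (FX hw) := by
  have hN := (fullK (K := K) T).normal h.n0
  refine count_big (cnt_fullD H.hK H.hT hPT w) (N₀.comap (stabD (HP.PP P w)).subtype)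
    (hN.comap _) ⟨_, ⟨hN.comap _, ?_, N₀, h.n0.2.1, le_rfl⟩, le_rfl⟩ hw fun g hg m => h.ker _ hg m
  intro h0
  have h1 := (fullK (K := K) T).index h.n0
  have h2 : (N₀.comap (stabD (HP.PP P w)).subtype).index ∣ N₀.index := by
    rw [Subgroup.index_comap]
    exact Subgroup.relIndex_dvd_index_of_normal _ _
  exact h1 (Nat.eq_zero_of_zero_dvd (h0 ▸ h2))

/-- the number of cocycles at the prime divisors of `D` -/
theorem hE_K (H : Ar s c κ D T P) (h : AcU T D P N₀ υ) (p : D.primeFactors)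
    (hp : IsAct (fun d : stb (P p) => υ (d : AlgebraicClosure K ≃+* AlgebraicClosure K))) :
    FiniteDimensional (ZMod 2) (ZU (fullC (stb (P p))) hp) ∧
    Module.finrank (ZMod 2) (ZU (fullC (stb (P p))) hp) =
      2 + Module.finrank (ZMod 2) (FX hp) := by
  have h1 := count_F (H.counts p.2) (h.smE H (stb (P p))) hp
  rw [mul_zero, zero_add] at h1
  exact h1

end Pool.Agent.Work.MP_787500_nt.KS
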