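import Mathlib
import Pool.Agent.Work.MP_787500_nt.KS.V10

/-!
The extension of the action to the larger group.
-/

set_option autoImplicit false
set_option linter.unusedSectionVars false

namespace Pool.Agent.Work.MP_787500_nt.KS

open Pool.Agent.Work.MP_787500_nt.GP (IsAct)

theorem exists_ext {G Gq : Type*} [Group G] [Group Gq] {ι : G →* Gq} {c : Gq} {κ : G →* G}
    (hinj : Function.Injective ι) (hcc : c * c = 1) (hkap : ∀ g, ι (κ g) = c * ι g * c)
    (hcases : ∀ g, (∃ n, g = ι n) ∨ ∃ n, g = ι n * c) (hnc : ∀ n, ι n ≠ c)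
    {υ : G → P2 → P2} (h : IsAct υ) {C : P2 → P2} (hadd : ∀ x y, C (x + y) = C x + C y)
    (hC : ∀ x, C (C x) = x) (hck : ∀ g x, C (υ (κ g) x) = υ g (C x)) :
    ∃ υq : Gq → P2 → P2, IsAct υq ∧ (∀ g, υq (ι g) = υ g) ∧ υq c = C := by
  classical
  let υq : Gq → P2 → P2 := fun g => if h : ∃ n, ι n = g then υ h.choose else
    if h' : ∃ n, ι n * c = g then fun x => υ h'.choose (C x) else id
  have hcs : ∀ n m : G, ι n ≠ ι m * c := by
    intro n m h1
    apply hnc (m⁻¹ * n)
    rw [map_mul, map_inv, h1]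
    group
  have h1 : ∀ n, υq (ι n) = υ n := by
    intro n
    have h2 : ∃ m, ι m = ι n := ⟨n, rfl⟩
    have h3 : υq (ι n) = υ h2.choose := dif_pos h2
    rw [h3, hinj h2.choose_spec]
  have h2 : ∀ n x, υq (ι n * c) x = υ n (C x) := by
    intro n x
    have h0 : ¬ ∃ m, ι m = ι n * c := fun ⟨m, hm⟩ => hcs m n hm
    have h3 : ∃ m, ι m * c = ι n * c := ⟨n, rfl⟩
    have h4 : υq (ι n * c) = fun x => υ h3.choose (C x) := by
      show dite _ _ _ = _
      rw [dif_neg h0, dif_pos h3]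
    rw [h4, hinj (mul_right_cancel h3.choose_spec)]
  have hck' : ∀ g x, C (υ g x) = υ (κ g) (C x) := by
    intro g x
    have := hck g (C x)
    rw [hC] at this
    rw [← this, hC]
  have hcm : ∀ m, c * ι m = ι (κ m) * c := by
    intro m
    rw [hkap, mul_assoc, hcc, mul_one]
  refine ⟨υq, ⟨fun m => ?_, fun g k m => ?_, fun g m m' => ?_⟩, h1, ?_⟩
  · have := congrFun (h1 1) m
    rw [map_one] at this
    rw [this, h.one]
  · rcases hcases g with ⟨n, rfl⟩ | ⟨n, rfl⟩
    · rcases hcases k with ⟨l, rfl⟩ | ⟨l, rfl⟩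
      · rw [← map_mul, h1, h1, h1, h.mul]
      · rw [← mul_assoc, ← map_mul, h2, h1, h2, h.mul]
    · rcases hcases k with ⟨l, rfl⟩ | ⟨l, rfl⟩
      · have e1 : ι n * c * ι l = ι (n * κ l) * c := by rw [mul_assoc, hcm, map_mul, mul_assoc]
        rw [e1, h2, h2, h1, hck', h.mul]
      · have e1 : ι n * c * (ι l * c) = ι (n * κ l) := by
          rw [mul_assoc, ← mul_assoc c, hcm, map_mul, mul_assoc, hcc, mul_one]
        rw [e1, h1, h2, h2, hck', hC, h.mul]
  · rcases hcases g with ⟨n, rfl⟩ | ⟨n, rfl⟩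
    · rw [h1, h.add]
    · rw [h2, h2, h2, hadd, h.add]
  · funext x
    have := h2 1 x
    rw [map_one, one_mul, h.one] at this
    exact this

end Pool.Agent.Work.MP_787500_nt.KS
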