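import Mathlib
import Pool.Agent.Work.MP_787500_nt.KR.F08
import Pool.Agent.Work.MP_787500_nt.KR.F07
import Pool.Agent.Work.MP_787500_nt.KR.U4
import Pool.Agent.Work.MP_787500_nt.KS.V10

/-!
The hypotheses of the Kramer step over the quadratic field, from the hypotheses of the parity theorem.
-/

set_option autoImplicit false
set_option linter.unusedSectionVars false

namespace Pool.Agent.Work.MP_787500_nt.KS

open Matrix
open Pool.Agent.Work.MP_787500_nt.GP (A0 half hf hf_zero hf_one hf_add hf_inj hf_two eq_hf smul_hf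
  IsAct d0 d1 tw cup11 cup01)
open Pool.Agent.Work.MP_787500_nt.PA (TwoSys homs)
open Pool.Agent.Work.MP_787500_nt.KR (FSys Z1 Z2 Sm1 Sm2 Smooth two res zM LocH Pair IsChar ParD
  SDualF recip_sel middle_sel alt_zero local_one selM perpM Betw)

universe v

variable {G : Type*} [Group G] {S : FSys G} {Φ : Type*} [Fintype Φ] {D : Φ → Type*}
  [∀ w, Group (D w)] {SD : ∀ w, FSys (D w)} {j : ∀ w, D w →* G} {χ : G → ℤ_[2]}
  {inv : ∀ w, (D w → D w → A0) → A0} {κ : G →* G} {Θ : Set (G × G)}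
  {O : Type*} [CommRing O] {M : Type v} [AddCommGroup M] [Module O M] [Finite M]
  {ρ : G → M → M} {b : M →+ M →+ A0}
  {e : M ≃+ P2} {A : G →* Matrix (Fin 2) (Fin 2) (ZMod 2)} {P : Matrix (Fin 2) (Fin 2) (ZMod 2)}

/-- The identification of the module with the plane. -/
structure Idn (ρ : G → M → M) (b : M →+ M →+ A0) (κ : G →* G) (e : M ≃+ P2)
    (A : G →* Matrix (Fin 2) (Fin 2) (ZMod 2)) (P : Matrix (Fin 2) (Fin 2) (ZMod 2)) : Prop where
  eqv : ∀ g m, e (ρ g m) = A g *ᵥ e m
  pp : P * P = 1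
  pk : ∀ g, P * A (κ g) * P = A g
  form : ∀ m m', b m m' = hf (ee (e m) (P *ᵥ e m'))

section

variable (I : Idn ρ b κ e A P)

include I in
theorem Idn.pk' (g : G) (x : P2) : P *ᵥ (A (κ g) *ᵥ x) = A g *ᵥ (P *ᵥ x) := by
  rw [mulVec_mulVec, mulVec_mulVec, ← I.pk g, mul_assoc _ P P, I.pp, mul_one]

include I in
theorem Idn.ppx (x : P2) : P *ᵥ (P *ᵥ x) = x := by
  rw [mulVec_mulVec, I.pp, one_mulVec]

theorem actA (A : G →* Matrix (Fin 2) (Fin 2) (ZMod 2)) : IsAct (fun g (x : P2) => A g *ᵥ x) :=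
  ⟨fun m => by rw [map_one, one_mulVec], fun g h m => by rw [map_mul, mulVec_mulVec],
    fun g m m' => mulVec_add _ _ _⟩

/-- cocycles with values in the module and in the plane; `f` is a homomorphism to `G` -/
theorem Idn.z1_iff {X : Type*} [Group X] {T : FSys X} {f : X → G} (I : Idn ρ b κ e A P) {x : X → M} :
    Z1 T (fun d => ρ (f d)) x ↔ Z1 T (fun d (m : P2) => A (f d) *ᵥ m) (fun d => e (x d)) := by
  constructor
  · rintro ⟨⟨W, hW, h1⟩, h2⟩
    refine ⟨⟨W, hW, fun g w hw => congrArg e (h1 g w hw)⟩, fun a c => ?_⟩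
    show e (x (a * c)) = e (x a) + A (f a) *ᵥ e (x c)
    rw [h2, map_add, I.eqv]
  · rintro ⟨⟨W, hW, h1⟩, h2⟩
    refine ⟨⟨W, hW, fun g w hw => e.injective (h1 g w hw)⟩, fun a c => e.injective ?_⟩
    have h3 : e (x (a * c)) = e (x a) + A (f a) *ᵥ e (x c) := h2 a c
    rw [h3, map_add, I.eqv]

/-- the twisted cocycles -/
theorem Idn.z1k_iff {X : Type*} [Group X] {T : FSys X} {f : X → G} (I : Idn ρ b κ e A P)
    {x : X → M} :
    Z1 T (fun d => ρ (κ (f d))) x ↔ Z1 T (fun d (m : P2) => A (f d) *ᵥ m) (fun d => P *ᵥ e (x d)) := by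
  constructor
  · rintro ⟨⟨W, hW, h1⟩, h2⟩
    refine ⟨⟨W, hW, fun g w hw => congrArg (fun m => P *ᵥ e m) (h1 g w hw)⟩, fun a c => ?_⟩
    show P *ᵥ e (x (a * c)) = P *ᵥ e (x a) + A (f a) *ᵥ (P *ᵥ e (x c))
    rw [h2, map_add, I.eqv, mulVec_add, I.pk']
  · rintro ⟨⟨W, hW, h1⟩, h2⟩
    refine ⟨⟨W, hW, fun g w hw => ?_⟩, fun a c => ?_⟩
    · have h3 := congrArg (fun m => P *ᵥ m) (h1 g w hw)
      simp only [I.ppx] at h3
      exact e.injective h3
    · have h3 := congrArg (fun m => P *ᵥ m) (h2 a c)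
      simp only [mulVec_add, I.ppx] at h3
      apply e.injective
      rw [h3, map_add, I.eqv]
      congr 1
      rw [← I.pk', I.ppx]

theorem Idn.cup {X : Type*} [Group X] {f : X → G} (I : Idn ρ b κ e A P) (x y : X → M) :
    cup11 (fun d => ρ (κ (f d))) b x y =
      cup11 (fun d (m : P2) => A (f d) *ᵥ m) eP (fun d => e (x d)) (fun d => P *ᵥ e (y d)) := by
  funext s t
  show b (x s) (ρ (κ (f s)) (y t)) = hf (ee (e (x s)) (A (f s) *ᵥ (P *ᵥ e (y t))))
  rw [I.form, I.eqv, I.pk']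

end

theorem KU_of (H : ParD.{v} S SD j χ inv κ Θ) (h : SDualF S χ κ Θ O ρ b) (I : Idn ρ b κ e A P)
    (sha : ∀ x : G → P2, Z1 S (fun g (m : P2) => A g *ᵥ m) x →
      (∀ w, ∃ m, ∀ d, x (j w d) = A (j w d) *ᵥ m + m) →
      (∀ w, ∃ m, ∀ d, P *ᵥ (x (κ (j w d))) = A (j w d) *ᵥ m + m) → ∃ m, ∀ g, x g = A g *ᵥ m + m)
    (nofix : ∀ m : P2, (∀ g, A g *ᵥ m = m) → m = 0) :
    KU S SD j χ inv κ (fun g (m : P2) => A g *ᵥ m) (fun m => P *ᵥ m) := by
  have hsm : Smooth S (fun g (m : P2) => A g *ᵥ m) := by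
    obtain ⟨W, hW, h1⟩ := h.sm
    refine ⟨W, hW, fun w hw m => ?_⟩
    have h2 := I.eqv w (e.symm m)
    rw [h1 w hw, e.apply_symm_apply] at h2
    exact h2.symm
  have hfinL : ∀ w, Finite {x : D w → M // Z1 (SD w) (fun d => ρ (j w d)) x} := fun w =>
    ((H.loc w).ld (h.locPair H w)).fin
  have hloc : LocU SD (fun w d => χ (j w d)) inv (fun w d (m : P2) => A (j w d) *ᵥ m) := by
    refine ⟨fun w => (actA A).comp (j w), fun w => hsm.comp (H.jsm w), fun w => (H.loc w).toLocH,
      fun w x hx h0 => ?_, fun w => ?_⟩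
    · have hx' : Z1 (SD w) (fun d => ρ (j w d)) (fun d => e.symm (x d)) := by
        rw [I.z1_iff]
        simp only [e.apply_symm_apply]
        exact hx
      obtain ⟨m, hm⟩ := local_one (H.loc w) (h.locPair H w) hx' fun y hy => by
        rw [I.cup]
        simp only [e.apply_symm_apply]
        exact h0 _ (I.z1k_iff.1 hy)
      refine ⟨e m, funext fun d => ?_⟩
      have h3 := congrArg e (congrFun hm d)
      rw [e.apply_symm_apply] at h3
      rw [h3]
      show e (ρ (j w d) m - m) = A (j w d) *ᵥ e m - e m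
      rw [map_sub, I.eqv]
    · have h1 := hfinL w
      have : Finite (ZU (SD w) ((actA A).comp (j w))) := by
        refine Finite.of_injective (fun x : ZU (SD w) ((actA A).comp (j w)) =>
          (⟨fun d => e.symm ((x : D w → P2) d), by
            rw [I.z1_iff]
            simp only [e.apply_symm_apply]
            exact x.2⟩ : {x : D w → M // Z1 (SD w) (fun d => ρ (j w d)) x})) ?_
        intro x y hxy
        apply Subtype.ext
        funext d
        exact e.symm.injective (congrFun (congrArg Subtype.val hxy) d)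
      exact Module.Finite.of_finite
  have hcoc : ∀ {x : G → P2}, Z1 S (fun g (m : P2) => A g *ᵥ m) x →
      Z1 S ρ (fun d => e.symm (x d)) := by
    intro x hx
    refine (I.z1_iff (f := fun g : G => g)).2 ?_
    simp only [e.apply_symm_apply]
    exact hx
  have hconj : ∀ {x : G → P2}, Z1 S (fun g (m : P2) => A g *ᵥ m) x →
      Z1 S (fun g (m : P2) => A g *ᵥ m) (fun g => P *ᵥ (x (κ g))) := by
    rintro x ⟨⟨W, hW, h1⟩, h2⟩
    obtain ⟨W', hW', h3⟩ := H.ksys W hW
    refine ⟨⟨W', hW', fun g w hw => ?_⟩, fun a c => ?_⟩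
    · show P *ᵥ (x (κ (g * w))) = P *ᵥ (x (κ g))
      rw [map_mul, h1 _ _ (h3 w hw)]
    · show P *ᵥ (x (κ (a * c))) = P *ᵥ (x (κ a)) + A a *ᵥ (P *ᵥ (x (κ c)))
      rw [map_mul, h2, mulVec_add, I.pk']
  have hswap : ∀ w {x y : D w → P2}, Z1 (SD w) (fun d (m : P2) => A (j w d) *ᵥ m) x →
      Z1 (SD w) (fun d (m : P2) => A (j w d) *ᵥ m) y →
      inv w (cup11 (fun d (m : P2) => A (j w d) *ᵥ m) eP x y) =
        inv w (cup11 (fun d (m : P2) => A (j w d) *ᵥ m) eP y x) := by
    intro w x y hx hy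
    have h1 := hf_bL (hloc.loc w) (hloc.act w) (hloc.sm w) ⟨x, hx⟩ ⟨y, hy⟩
    have h2 := hf_bL (hloc.loc w) (hloc.act w) (hloc.sm w) ⟨y, hy⟩ ⟨x, hx⟩
    rw [bL_symm] at h1
    exact h1.symm.trans h2
  refine
    { act := actA A
      sm := hsm
      cadd := fun x y => mulVec_add _ _ _
      cc := I.ppx
      ck := fun g x => I.pk' g x
      kk := H.kk
      ksys := H.ksys
      jsm := H.jsm
      fin := ?_
      loc := hloc
      mid := ?_
      recip := ?_
      alt := ?_
      sha := sha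
      nofix := nofix }
  · have h1 := H.fin (h.pair H)
    have : Finite (ZU S (actA A)) := by
      refine Finite.of_injective (fun x : ZU S (actA A) =>
        (⟨fun d => e.symm ((x : G → P2) d), hcoc x.2⟩ : {x : G → M // Z1 S ρ x})) ?_
      intro x y hxy
      apply Subtype.ext
      funext d
      exact e.symm.injective (congrFun (congrArg Subtype.val hxy) d)
    exact Module.Finite.of_finite
  · intro c c' hc hc' h0
    obtain ⟨X, m, m', hX, h1, h2⟩ := middle_sel H h (fun w d => e.symm (c w d))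
      (fun w d => e.symm (P *ᵥ (c' w d))) (fun w => by
        rw [I.z1_iff]
        simp only [e.apply_symm_apply]
        exact hc w) (fun w => by
        rw [I.z1k_iff]
        simp only [e.apply_symm_apply, I.ppx]
        exact hc' w) (fun x hx => by
        have hx' : Z1 S (fun g (m : P2) => A g *ᵥ m) (fun g => e (x g)) :=
          (I.z1_iff (f := fun g : G => g)).1 hx
        have h3 := h0 _ (hconj hx')
        rw [← h3]
        refine Finset.sum_congr rfl fun w _ => ?_
        rw [I.cup, I.cup]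
        simp only [e.apply_symm_apply, I.ppx, H.kk]
        congr 1
        exact hswap w (Z1.comp (H.jsm w) hx') (hc' w))
    refine ⟨fun g => e (X g), fun w => e (m w), fun w => P *ᵥ e (m' w),
      (I.z1_iff (f := fun g : G => g)).1 hX, fun w d => ?_, fun w d => ?_⟩
    · have h3 := congrArg e (h1 w d)
      rw [e.apply_symm_apply] at h3
      rw [h3]
      show e (X (j w d) - (ρ (j w d) (m w) - m w)) = _
      rw [map_sub, map_sub, I.eqv, p2_sub, p2_sub]
    · have h3 := congrArg (fun m => P *ᵥ e m) (h2 w d)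
      simp only [e.apply_symm_apply, I.ppx] at h3
      rw [h3]
      show P *ᵥ e (X (κ (j w d)) - (ρ (κ (j w d)) (m' w) - m' w)) = _
      rw [map_sub, map_sub, I.eqv, p2_sub, p2_sub, mulVec_add, mulVec_add, I.pk']
  · intro x y hx hy
    have h1 := recip_sel H h (hcoc hx) (hcoc (hconj hy))
    rw [← h1]
    refine Finset.sum_congr rfl fun w _ => ?_
    rw [I.cup, I.cup]
    simp only [e.apply_symm_apply, I.ppx, H.kk]
    congr 1
    exact hswap w (Z1.comp (H.jsm w) (hconj hx)) (Z1.comp (H.jsm w) (hconj hy))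
  · intro x hx
    have h1 := alt_zero H h (hcoc hx) 1
    simp only [one_smul] at h1
    rw [← h1]
    refine Finset.sum_congr rfl fun w _ => ?_
    rw [I.cup]
    simp only [e.apply_symm_apply]

end Pool.Agent.Work.MP_787500_nt.KS
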