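import Mathlib
import Pool.Agent.Work.MP_787500_nt.KS.V12

/-!
From the plane over the field with two elements to a self-dual module with four elements.
-/

set_option autoImplicit false
set_option linter.unusedSectionVars false

namespace Pool.Agent.Work.MP_787500_nt.KS

open Matrix
open Pool.Agent.Work.MP_787500_nt.GP (A0 half hf hf_zero hf_one hf_add hf_inj hf_two eq_hf smul_hf
  IsAct d0 d1 tw cup11 cup01 EvPow)
open Pool.Agent.Work.MP_787500_nt.PA (TwoSys homs)
open Pool.Agent.Work.MP_787500_nt.KR (FSys Z1 Z2 Sm1 Sm2 Smooth two res zM LocH Pair IsChar ParD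
  SDualF recip_sel middle_sel alt_zero local_one selM perpM Betw)

universe v

variable {G : Type*} [Group G] {S : FSys G} {Φ : Type*} [Fintype Φ] {D : Φ → Type*}
  [∀ w, Group (D w)] {SD : ∀ w, FSys (D w)} {j : ∀ w, D w →* G} {χ : G → ℤ_[2]}
  {inv : ∀ w, (D w → D w → A0) → A0} {κ : G →* G} {Θ : Set (G × G)}
  {O : Type*} [CommRing O] {M : Type v} [AddCommGroup M] [Module O M] [Finite M]
  {ρ : G → M → M} {b : M →+ M →+ A0}
  {e : M ≃+ P2} {A : G →* Matrix (Fin 2) (Fin 2) (ZMod 2)} {P : Matrix (Fin 2) (Fin 2) (ZMod 2)}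

theorem smul_cases (hO : ∀ (a : O) (m : M), a • m = 0 ∨ a • m = m) (a : O) :
    (∀ m : M, a • m = 0) ∨ ∀ m : M, a • m = m := by
  by_contra h
  push Not at h
  obtain ⟨⟨m, hm⟩, m', hm'⟩ := h
  have h1 := (hO a m).resolve_left hm
  have h2 := (hO a m').resolve_right hm'
  rcases hO a (m + m') with h3 | h3
  · rw [smul_add, h1, h2, add_zero] at h3
    exact hm (h1.trans h3)
  · rw [smul_add, h1, h2, add_zero] at h3
    exact hm' (h2.trans (left_eq_add.1 h3).symm)

/-- the submodule that corresponds to a subspace -/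
def lamO (hO : ∀ (a : O) (m : M), a • m = 0 ∨ a • m = m) (e : M ≃+ P2) {X : Type*}
    (L : Submodule (ZMod 2) (X → P2)) : Submodule O (X → M) where
  carrier := {x | (fun d => e (x d)) ∈ L}
  add_mem' := by
    intro x y hx hy
    have h1 : (fun d => e ((x + y) d)) = (fun d => e (x d)) + fun d => e (y d) :=
      funext fun d => map_add e _ _
    show (fun d => e ((x + y) d)) ∈ L
    rw [h1]
    exact L.add_mem hx hy
  zero_mem' := by
    have h1 : (fun d => e ((0 : X → M) d)) = 0 := funext fun d => map_zero e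
    show (fun d => e ((0 : X → M) d)) ∈ L
    rw [h1]
    exact L.zero_mem
  smul_mem' := by
    intro a x hx
    show (fun d => e ((a • x) d)) ∈ L
    rcases smul_cases hO a with h1 | h1
    · have h2 : (fun d => e ((a • x) d)) = 0 := funext fun d => by
        rw [Pi.smul_apply, h1, map_zero]
        rfl
      rw [h2]
      exact L.zero_mem
    · have h2 : (fun d => e ((a • x) d)) = fun d => e (x d) := funext fun d => by
        rw [Pi.smul_apply, h1]
      rw [h2]
      exact hx

theorem mem_lamO {hO : ∀ (a : O) (m : M), a • m = 0 ∨ a • m = m} {e : M ≃+ P2} {X : Type*}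
    {L : Submodule (ZMod 2) (X → P2)} {x : X → M} :
    x ∈ lamO hO e L ↔ (fun d => e (x d)) ∈ L := Iff.rfl

/-- The parity formula for a self-dual module with four elements. -/
theorem PU_of_P2 (H : ParD.{v} S SD j χ inv κ Θ) (h : SDualF S χ κ Θ O ρ b) (I : Idn ρ b κ e A P)
    (hO : ∀ (a : O) (m : M), a • m = 0 ∨ a • m = m)
    (K : KU S SD j χ inv κ (fun g (m : P2) => A g *ᵥ m) (fun m => P *ᵥ m))
    (par : ∀ L : ∀ w, Submodule (ZMod 2) (ZU (SD w) (K.loc.act w)),
      (∀ w, ann (bL (K.loc.loc w) (K.loc.act w) (K.loc.sm w)) (L w) = L w) →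
      ((Module.finrank (ZMod 2) (K.sel L) + ∑ w, Module.finrank (ZMod 2) (L w) : ℕ) : ZMod 2) = 0) :
    ∃ Λ : ∀ w, Submodule O (D w → M), (∀ w, Betw (SD w) (fun d => ρ (j w d)) (Λ w)) ∧
      EvPow 2 (Nat.card (selM h j Λ fun w => perpM H h w (Λ w)) * ∏ w, Nat.card (Λ w)) := by
  have hfin := K.loc.fin
  have hG := K.fin
  have hex : ∀ w, ∃ L : Submodule (ZMod 2) (ZU (SD w) (K.loc.act w)),
      ann (bL (K.loc.loc w) (K.loc.act w) (K.loc.sm w)) L = L := fun w =>
    exists_lagr (bL_symm _ _ _) (bL_self _ _ _)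
  choose L hL using hex
  let Λ : ∀ w, Submodule O (D w → M) := fun w =>
    lamO hO e ((L w).map (ZU (SD w) (K.loc.act w)).subtype)
  have hmem : ∀ w (x : D w → M), x ∈ Λ w ↔ ∃ hx : Z1 (SD w) (fun d (m : P2) => A (j w d) *ᵥ m)
      (fun d => e (x d)), (⟨fun d => e (x d), hx⟩ : ZU (SD w) (K.loc.act w)) ∈ L w := by
    intro w x
    constructor
    · intro hx
      obtain ⟨y, hy, hxy⟩ := (mem_lamO.1 hx : _ ∈ (L w).map _)
      have h1 : (y : D w → P2) = fun d => e (x d) := hxy
      refine ⟨h1 ▸ y.2, ?_⟩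
      have h2 : y = ⟨fun d => e (x d), h1 ▸ y.2⟩ := Subtype.ext h1
      rw [← h2]
      exact hy
    · rintro ⟨hx, hx'⟩
      exact mem_lamO.2 ⟨_, hx', rfl⟩
  refine ⟨Λ, fun w => ⟨fun m => ?_, fun x hx => ?_⟩, ?_⟩
  · -- coboundaries
    have hx : Z1 (SD w) (fun d (m : P2) => A (j w d) *ᵥ m)
        (fun d => e (d0 (fun d => ρ (j w d)) m d)) :=
      (I.z1_iff (f := j w)).1 (KR.d0_Z1 (h.act.comp (j w)) (h.sm.comp (H.jsm w)) m)
    rw [hmem]
    refine ⟨hx, ?_⟩
    have h1 : (⟨_, hx⟩ : ZU (SD w) (K.loc.act w)) = dM (SD w) (K.loc.sm w) (K.loc.act w) (e m) := by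
      apply Subtype.ext
      funext d
      rw [dM_apply]
      show e (ρ (j w d) m - m) = A (j w d) *ᵥ e m + e m
      rw [map_sub, I.eqv, p2_sub]
    rw [h1, ← hL w]
    intro y _
    exact bL_cob _ _ _ _ _
  · obtain ⟨hx1, -⟩ := (hmem w x).1 hx
    exact (I.z1_iff (f := j w)).2 hx1
  · -- the numbers of elements
    have c1 : ∀ w, Nat.card (Λ w) = 2 ^ Module.finrank (ZMod 2) (L w) := by
      intro w
      have h1 : Nat.card (L w) = 2 ^ Module.finrank (ZMod 2) (L w) := by
        rw [Module.natCard_eq_pow_finrank (K := ZMod 2), Nat.card_zmod]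
      rw [← h1]
      refine Nat.card_congr
        { toFun := fun x => ⟨⟨fun d => e (x.1 d), ((hmem w x.1).1 x.2).1⟩, ((hmem w x.1).1 x.2).2⟩
          invFun := fun y => ⟨fun d => e.symm ((y.1 : D w → P2) d), ?_⟩
          left_inv := fun x => Subtype.ext (funext fun d => e.symm_apply_apply _)
          right_inv := fun y => Subtype.ext (Subtype.ext (funext fun d => e.apply_symm_apply _)) }
      rw [hmem]
      have h2 : (fun d => e (e.symm ((y.1 : D w → P2) d))) = (y.1 : D w → P2) :=
        funext fun d => e.apply_symm_apply _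
      refine ⟨h2.symm ▸ y.1.2, ?_⟩
      have h3 : (⟨fun d => e (e.symm ((y.1 : D w → P2) d)), h2.symm ▸ y.1.2⟩ :
        ZU (SD w) (K.loc.act w)) = y.1 := Subtype.ext h2
      rw [h3]
      exact y.2
    have c2 : Nat.card (selM h j Λ fun w => perpM H h w (Λ w)) =
        2 ^ Module.finrank (ZMod 2) (K.sel L) := by
      have h1 : Nat.card (K.sel L) = 2 ^ Module.finrank (ZMod 2) (K.sel L) := by
        rw [Module.natCard_eq_pow_finrank (K := ZMod 2), Nat.card_zmod]
      rw [← h1]
      have hz : ∀ {x : G → M}, Z1 S ρ x ↔ Z1 S (fun g (m : P2) => A g *ᵥ m) (fun g => e (x g)) :=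
        fun {x} => I.z1_iff (f := fun g : G => g)
      have key : ∀ (x : G → M) (hx : Z1 S ρ x), x ∈ selM h j Λ (fun w => perpM H h w (Λ w)) ↔
          (⟨fun g => e (x g), hz.1 hx⟩ : ZU S K.act) ∈ K.sel L := by
        intro x hx
        rw [K.mem_sel]
        have hk : Z1 S (fun g => ρ (κ g)) (fun g => x (κ g)) := Z1.comp H.ksys hx
        constructor
        · rintro ⟨-, h2, h3⟩
          refine ⟨fun w => ?_, fun w => ?_⟩
          · obtain ⟨h4, h5⟩ := (hmem w _).1 (h2 w)
            exact h5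
          · rw [← hL w]
            intro y hy
            apply hf_inj
            rw [bL_symm, hf_bL, hf_zero]
            have h4 : (fun d => e.symm ((y : D w → P2) d)) ∈ Λ w := by
              rw [hmem]
              have h5 : (fun d => e (e.symm ((y : D w → P2) d))) = (y : D w → P2) :=
                funext fun d => e.apply_symm_apply _
              refine ⟨h5.symm ▸ y.2, ?_⟩
              have h6 : (⟨fun d => e (e.symm ((y : D w → P2) d)), h5.symm ▸ y.2⟩ :
                ZU (SD w) (K.loc.act w)) = y := Subtype.ext h5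
              rw [h6]
              exact hy
            have h5 := (h3 w).2 _ h4 ((I.z1_iff (f := j w)).2 ((hmem w _).1 h4).1)
            rw [I.cup] at h5
            simp only [e.apply_symm_apply] at h5
            exact h5
        · rintro ⟨h2, h3⟩
          refine ⟨hx, fun w => ?_, fun w => ?_⟩
          · rw [hmem]
            exact ⟨_, h2 w⟩
          · refine ⟨Z1.comp (H.jsm w) hk, fun y hy hy1 => ?_⟩
            obtain ⟨h4, h5⟩ := (hmem w _).1 hy
            rw [I.cup]
            have h6 := h3 w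
            rw [← hL w] at h6
            have h7 := h6 _ h5
            rw [bL_symm] at h7
            have h8 := congrArg hf h7
            rw [hf_bL, hf_zero] at h8
            exact h8
      refine Nat.card_congr
        { toFun := fun x => ⟨⟨fun g => e (x.1 g), hz.1 x.2.1⟩, (key x.1 x.2.1).1 x.2⟩
          invFun := fun y => ⟨fun g => e.symm ((y.1 : G → P2) g), ?_⟩
          left_inv := fun x => Subtype.ext (funext fun d => e.symm_apply_apply _)
          right_inv := fun y => Subtype.ext (Subtype.ext (funext fun d => e.apply_symm_apply _)) }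
      have h2 : (fun g => e (e.symm ((y.1 : G → P2) g))) = (y.1 : G → P2) :=
        funext fun d => e.apply_symm_apply _
      have h3 : Z1 S ρ (fun g => e.symm ((y.1 : G → P2) g)) := hz.2 (h2.symm ▸ y.1.2)
      rw [key _ h3]
      have h4 : (⟨fun g => e (e.symm ((y.1 : G → P2) g)), hz.1 h3⟩ : ZU S K.act) = y.1 :=
        Subtype.ext h2
      rw [h4]
      exact y.2
    have h1 := par L hL
    rw [ZMod.natCast_eq_zero_iff] at h1
    obtain ⟨m, hm⟩ := h1
    refine ⟨m, ?_⟩
    rw [c2, Finset.prod_congr rfl fun w _ => c1 w, Finset.prod_pow_eq_pow_sum, ← pow_add, hm]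

end Pool.Agent.Work.MP_787500_nt.KS
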