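import Mathlib
import Pool.Agent.Work.MP_787500_nt.KS.V19
import Pool.Agent.Work.MP_787500_nt.GA.Counts

/-!
The lower bound for the number of cocycles over the rational numbers.
-/

set_option autoImplicit false
set_option linter.unusedSectionVars false

namespace Pool.Agent.Work.MP_787500_nt.KS

open NumberField
open Pool.Agent.Work.MP_787500_nt.GP (A0 hf IsAct d0 stabD)
open Pool.Agent.Work.MP_787500_nt.PA (TwoSys homs)
open Pool.Agent.Work.MP_787500_nt.KR (FSys Z1 Z2 Sm1 Sm2 Smooth two res zM big CountsF Opn IsChar fullK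
  fullQ fullC fullD two_fullC)
open Pool.Agent.Work.MP_787500_nt.HP
open Pool.Agent.Work.MP_787500_nt.GA

universe u

/-! ## Orbits -/

/-- the nonzero vectors -/
abbrev NV : Type := {v : P2 // v ≠ 0}

/-- the action on the nonzero vectors -/
@[reducible] def actNV {X : Type*} [Group X] {υ : X → P2 → P2} (h : IsAct υ) : MulAction X NV where
  smul g v := ⟨υ g v, fun h0 => v.2 (act_inj h g (h0.trans (act_zero h g).symm))⟩
  one_smul v := Subtype.ext (h.one v)
  mul_smul g k v := Subtype.ext (h.mul g k v)

theorem card_quot {X V A : Type*} [Group X] [MulAction X V] (f : V → A)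
    (hs : Function.Surjective f) (hf : ∀ x y, f x = f y ↔ x ∈ MulAction.orbit X y) :
    Nat.card (MulAction.orbitRel.Quotient X V) = Nat.card A := by
  refine Nat.card_congr (Equiv.ofBijective
    (Quotient.lift (s := MulAction.orbitRel X V) f fun x y h => (hf x y).2 h) ⟨?_, ?_⟩)
  · rintro ⟨x⟩ ⟨y⟩ hxy
    exact Quotient.sound (s := MulAction.orbitRel X V) ((hf x y).1 hxy)
  · intro a
    obtain ⟨x, rfl⟩ := hs a
    exact ⟨Quotient.mk (MulAction.orbitRel X V) x, rfl⟩

theorem card_NV : Nat.card NV = 3 := by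
  rw [Nat.card_eq_fintype_card]
  decide

/-- The number of orbits on the nonzero vectors. -/
theorem card_orb {X : Type*} [Group X] {υ : X → P2 → P2} (h : IsAct υ) [MulAction X NV]
    (hs : ∀ (g : X) (v : NV), ((g • v : NV) : P2) = υ g v) :
    Nat.card (MulAction.orbitRel.Quotient X NV) = 1 + Module.finrank (ZMod 2) (FX h) := by
  classical
  have horb : ∀ x y : NV, x ∈ MulAction.orbit X y ↔ ∃ g, υ g y = x := by
    intro x y
    constructor
    · rintro ⟨g, hg⟩
      exact ⟨g, by
        rw [← hs]
        exact congrArg Subtype.val hg⟩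
    · rintro ⟨g, hg⟩
      exact ⟨g, Subtype.ext (by rw [← hg]; exact hs g y)⟩
  rcases act_cases h with h1 | ⟨v, g, w, hv, hw, hf⟩ | ht
  · rw [fx_triv h1, card_quot (A := NV) id Function.surjective_id, card_NV]
    intro x y
    rw [horb]
    constructor
    · intro hxy
      exact ⟨1, by rw [h.one]; exact congrArg Subtype.val hxy.symm⟩
    · rintro ⟨g, hg⟩
      have h2 : x = y := Subtype.ext (by rw [← hg, h1])
      exact h2
  · rw [(fx_two hv hw hf).2]
    have hw0 : w ≠ 0 := fun h0 => hw (by rw [h0, act_zero h])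
    have hwv : w ≠ v := fun h0 => hw (by rw [h0, hf])
    rw [card_quot (X := X) (V := NV) (A := Bool) (fun x => decide ((x : P2) = v))]
    · rw [Nat.card_eq_fintype_card]
      rfl
    · intro b
      cases b
      · exact ⟨⟨w, hw0⟩, decide_eq_false hwv⟩
      · exact ⟨⟨v, hv⟩, decide_eq_true rfl⟩
    · intro x y
      rw [horb]
      constructor
      · intro hxy
        by_cases hx : (x : P2) = v
        · have hy : (y : P2) = v := by
            have : decide ((y : P2) = v) = true := by rw [← hxy]; exact decide_eq_true hx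
            exact of_decide_eq_true this
          exact ⟨1, by rw [h.one, hx, hy]⟩
        · have hy : (y : P2) ≠ v := by
            have : decide ((y : P2) = v) = false := by rw [← hxy]; exact decide_eq_false hx
            exact of_decide_eq_false this
          have hmem : ∀ z : P2, z ≠ 0 → z ≠ v → z ∈ BB v w := by
            intro z hz hz'
            rw [Finset.mem_insert, Finset.mem_singleton, add_comm w v]
            rcases p2_span v z w hv hw0 hwv.symm with h2 | h2 | h2 | h2
            · exact absurd h2 hz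
            · exact absurd h2 hz'
            · exact Or.inl h2
            · exact Or.inr h2
          obtain ⟨g₁, hg₁⟩ := bb_tr h hv hw0 hwv hf hw (hmem x x.2 hx)
          obtain ⟨g₂, hg₂⟩ := bb_tr h hv hw0 hwv hf hw (hmem y y.2 hy)
          exact ⟨g₁ * g₂⁻¹, by rw [← hg₂, ← h.mul, inv_mul_cancel_right, hg₁]⟩
      · rintro ⟨k, hk⟩
        have h2 : (x : P2) = v ↔ (y : P2) = v := by
          constructor
          · intro hx
            exact act_inj h k (by rw [hk, hx, hf])
          · intro hy
            rw [← hk, hy, hf]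
        show decide ((x : P2) = v) = decide ((y : P2) = v)
        exact decide_eq_decide.2 h2
  · rw [fx_tr' ht, card_quot (A := Unit) (fun _ => ())]
    · simp
    · intro a
      exact ⟨⟨b0, by decide⟩, rfl⟩
    · intro x y
      rw [horb]
      exact ⟨fun _ => ht y x y.2 x.2, fun _ => rfl⟩

/-- the number of nonzero fixed vectors of an involution -/
theorem card_fix1 {f : P2 → P2} (hf : ∀ x y, f (x + y) = f x + f y) (hff : ∀ x, f (f x) = x) :
    3 + Nat.card {x : NV // f x = x} = 2 * (1 + Module.finrank (ZMod 2) (FX1 f hf)) := by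
  have h0 : f 0 = 0 := by
    have := hf 0 0
    rw [add_zero] at this
    exact left_eq_add.1 this
  have h1 : Nat.card (FX1 f hf) = 2 ^ Module.finrank (ZMod 2) (FX1 f hf) := by
    rw [Module.natCard_eq_pow_finrank (K := ZMod 2), Nat.card_zmod]
  have h2 : Nat.card (FX1 f hf) = Nat.card {x : NV // f x = x} + 1 := by
    let e : FX1 f hf ≃ Option {x : NV // f x = x} :=
      { toFun := fun m => if hm : (m : P2) = 0 then none else some ⟨⟨m, hm⟩, m.2⟩
        invFun := fun o => match o with
          | none => ⟨0, h0⟩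
          | some x => ⟨x.1, x.2⟩
        left_inv := fun m => by
          by_cases hm : (m : P2) = 0
          · simp only [hm, dite_true]
            exact Subtype.ext hm.symm
          · simp only [hm, dite_false]
        right_inv := fun o => by
          match o with
          | none => exact dif_pos rfl
          | some x => exact dif_neg x.1.2 }
    rw [Nat.card_congr e, Finite.card_option]
  have h3 : Module.finrank (ZMod 2) (FX1 f hf) ≤ 2 := by
    have := Submodule.finrank_le (FX1 f hf)
    rwa [p2_finrank] at this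
  have h4 : Module.finrank (ZMod 2) (FX1 f hf) ≠ 0 := by
    intro h5
    rw [h5, pow_zero] at h1
    have h6 : ∀ m : P2, f m = m → m = 0 := by
      intro m hm
      have h7 := (Nat.card_eq_one_iff_unique.1 h1).1
      exact congrArg Subtype.val (h7.elim (⟨m, hm⟩ : FX1 f hf) ⟨0, h0⟩)
    have h7 : ∀ m, f m = m := by
      intro m
      have h8 : f m + m = 0 := h6 _ (by rw [hf, hff, add_comm])
      exact (CharTwo.add_eq_zero (R := P2)).1 h8
    have h8 := h6 b0 (h7 b0)
    revert h8
    unfold b0
    decide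
  have h5 : Module.finrank (ZMod 2) (FX1 f hf) = 1 ∨ Module.finrank (ZMod 2) (FX1 f hf) = 2 := by
    omega
  rcases h5 with h5 | h5
  · rw [h5] at h1 ⊢
    omega
  · rw [h5] at h1 ⊢
    omega

/-! ## The bound -/

variable {K : Type u} [Field K] [NumberField K] {D : ℕ} {s : K}
  {c : AlgebraicClosure K ≃+* AlgebraicClosure K} {κ : AbsGal K →* AbsGal K} {T : Finset ℕ}
  {P : ℕ → Ideal (𝓞 (AlgebraicClosure K))} {N₀ : Subgroup (AbsGal K)}
  {υ : (AlgebraicClosure K ≃+* AlgebraicClosure K) → P2 → P2}

/-- the fixed vectors of a subgroup -/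
noncomputable def fxs (h : IsAct υ) (C : Subgroup (AlgebraicClosure K ≃+* AlgebraicClosure K)) : ℕ :=
  Module.finrank (ZMod 2) (FX (h.comp C.subtype))

theorem fxs_eq (H : Ar s c κ D T P) (h : IsAct υ) (hPT : IsP T P) (w : Option T)
    (hw : IsAct (fun d : stabD (HP.PP P w) => υ (iK K (d : AbsGal K)))) :
    Module.finrank (ZMod 2) (FX hw) = fxs h (stb (HP.PP P w)) := by
  have e : FX hw = FX (h.comp (stb (HP.PP P w)).subtype) := by
    ext m
    constructor
    · intro hm g
      obtain ⟨σ, hσ⟩ := stb_le_refl H.hK H.hT hPT w g.2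
      have h1 : σ ∈ stabD (HP.PP P w) := by
        rw [← emb_refl_stb, hσ]
        exact g.2
      have h2 : υ (iK K σ) m = m := hm ⟨σ, h1⟩
      rw [hσ] at h2
      exact h2
    · intro hm d
      exact hm ⟨iK K d, emb_refl_stb.2 d.2⟩
  rw [e, fxs]

/-- The lower bound. -/
theorem low_K (H : Ar s c κ D T P) (h : AcU T D P N₀ υ)
    (ht : ∀ v w, v ≠ 0 → w ≠ 0 → ∃ g, υ g v = w) :
    2 + ∑ w : Option (T ∪ D.primeFactors : Finset ℕ), fxs h.act (stb (HP.PP P w)) +
      Module.finrank (ZMod 2) (FX1 (υ c) (h.act.add c)) ≤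
      Module.finrank (ZMod 2) (ZU (sQ K T D) h.act) := by
  classical
  let _ := actNV h.act
  have hsm := h.sm H
  have hb : b0 ≠ 0 := by decide
  let v0 : NV := ⟨b0, hb⟩
  have hop : ∃ W, (sQ K T D).mem W ∧ W ≤ Stc h.act b0 := by
    obtain ⟨W, hW, h1⟩ := hsm
    exact ⟨W, hW, fun w hw => h1 w hw b0⟩
  have hst : MulAction.stabilizer (AlgebraicClosure K ≃+* AlgebraicClosure K) v0 =
      Stc h.act b0 := by
    ext g
    rw [MulAction.mem_stabilizer_iff, mem_Stc]
    exact ⟨fun h1 => congrArg Subtype.val h1, fun h1 => Subtype.ext h1⟩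
  have htr : ∀ x : NV, ∃ g : AlgebraicClosure K ≃+* AlgebraicClosure K, g • v0 = x := by
    intro x
    obtain ⟨g, hg⟩ := ht b0 x hb x.2
    exact ⟨g, Subtype.ext hg⟩
  obtain ⟨hfd, hle⟩ := coreQ (alg_closure K) (c := c) H.hc.sq
    ⟨algebraMap K (AlgebraicClosure K) s, by rw [H.hc.neg]; exact (s_ne H.hK).symm⟩
    (isP_ne H.hP) hop (plcQ (alg_closure K) H.hP) hst htr
  obtain ⟨-, -, h1⟩ := shap_tr (sQ K T D) hsm h.act ht hb hfd
  obtain ⟨-, h2⟩ := finrank_rat (alg_closure K) H.hP
  rw [h2] at h1
  have h3 : nPl (MonoidHom.id (AlgebraicClosure K ≃+* AlgebraicClosure K))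
      (fun w : Option (T ∪ D.primeFactors : Finset ℕ) => HP.PP P w) NV =
      ∑ w : Option (T ∪ D.primeFactors : Finset ℕ), (1 + fxs h.act (stb (HP.PP P w))) := by
    unfold nPl
    refine Finset.sum_congr rfl fun w _ => ?_
    exact card_orb (h.act.comp (stb (HP.PP P w)).subtype) fun g v => rfl
  have h4 : Nat.card {x : NV // c • x = x} = Nat.card {x : NV // υ c x = x} :=
    Nat.card_congr (Equiv.subtypeEquivRight fun x =>
      ⟨fun h5 => congrArg Subtype.val h5, fun h5 => Subtype.ext h5⟩)
  have h5 := card_fix1 (h.act.add c) fun x => by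
    rw [← h.act.mul, c_sq H.hc, h.act.one]
  have h6 : ∑ w : Option (T ∪ D.primeFactors : Finset ℕ), (1 + fxs h.act (stb (HP.PP P w))) =
      ((T ∪ D.primeFactors).card + 1) +
        ∑ w : Option (T ∪ D.primeFactors : Finset ℕ), fxs h.act (stb (HP.PP P w)) := by
    rw [Finset.sum_add_distrib, Finset.sum_const, Finset.card_univ, Fintype.card_option,
      Fintype.card_coe, smul_eq_mul, mul_one]
  rw [h3, h4, h6, card_NV, h5] at hle
  have hle' : 2 * (1 + Module.finrank (ZMod 2) (FX1 (υ c) (h.act.add c))) +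
      2 * (((T ∪ D.primeFactors).card + 1) +
        ∑ w : Option (T ∪ D.primeFactors : Finset ℕ), fxs h.act (stb (HP.PP P w))) ≤
      2 * Module.finrank (ZMod 2) (homs (two (res (sQ K T D) (Stc h.act b0))) ⊤) := hle
  omega

end Pool.Agent.Work.MP_787500_nt.KS
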