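import Mathlib
import Pool.Agent.Work.MP_787500_nt.KS.V20
import Pool.Agent.Work.MP_787500_nt.KS.V13
import Pool.Agent.Work.MP_787500_nt.KS.V11

/-!
Classes in degree 1 with values in the plane that are locally trivial are trivial.
-/

set_option autoImplicit false
set_option linter.unusedSectionVars false

namespace Pool.Agent.Work.MP_787500_nt.KS

open Pool.Agent.Work.MP_787500_nt.GP (IsAct d0)
open Pool.Agent.Work.MP_787500_nt.PA (TwoSys homs)
open Pool.Agent.Work.MP_787500_nt.KR (FSys Z1 Sm1 Smooth two res zM InjC)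

theorem sha_of_inj {G : Type*} [Group G] (F : FSys G) {υ : G → P2 → P2} (h : IsAct υ)
    (hsm : Smooth F υ) (ht : ∀ v w, v ≠ 0 → w ≠ 0 → ∃ g, υ g v = w) {v₀ : P2} (hv₀ : v₀ ≠ 0)
    {I : Type*} {D : I → Type*} [∀ i, Group (D i)] {j : ∀ i, D i →* G}
    (hinj : InjC F (Stc h v₀) j) {x : G → P2} (hx : Z1 F υ x)
    (hl : ∀ i, ∃ m, ∀ d, x (j i d) = υ (j i d) m + m) : ∃ m, ∀ g, x g = υ g m + m := by
  have h1 : (LT F h v₀ (⟨x, hx⟩, 0) : Stc h v₀ → ZMod 2) = 0 := by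
    refine hinj _ (LT F h v₀ (⟨x, hx⟩, 0)).2 fun i g d hd => ?_
    rw [LT_apply]
    show ee v₀ (x (g * j i d * g⁻¹)) + 0 = 0
    rw [add_zero]
    obtain ⟨m, hm⟩ := hl i
    have hfix : υ (g * j i d * g⁻¹) v₀ = v₀ := hd
    have hgi := z1_inv (h := h) F hx g
    have e1 : υ g (x g⁻¹) = x g := by rw [hgi, act_inv' h]
    have e2 : x (g * j i d * g⁻¹) = υ (g * j i d * g⁻¹) (x g + υ g m) + (x g + υ g m) := by
      have e3 : υ (g * j i d * g⁻¹) (υ g m) = υ g (υ (j i d) m) := by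
        rw [← h.mul, inv_mul_cancel_right, h.mul]
      have e4 : υ (g * j i d * g⁻¹) (x g) = υ (g * j i d) (x g⁻¹) := by
        rw [hgi, ← h.mul]
      rw [hx.2, hx.2, hm, h.add, h.add, e3, e4]
      have e5 : x g + (υ g (υ (j i d) m) + υ g m) + υ (g * j i d) (x g⁻¹) =
          υ (g * j i d) (x g⁻¹) + υ g (υ (j i d) m) + (x g + υ g m) := by abel
      exact e5
    rw [e2, ee_add_right, ee_fix h hfix]
    exact CharTwo.add_self_eq_zero _
  have h2 : ((⟨x, hx⟩, 0) : ZU F h × homs (two F) ⊤) ∈ LinearMap.ker (LT F h v₀) := by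
    rw [LinearMap.mem_ker]
    exact Subtype.ext h1
  rw [LT_ker F hsm h ht hv₀] at h2
  obtain ⟨m, hm⟩ := h2
  refine ⟨m, fun g => ?_⟩
  have h3 : dM F hsm h m = ⟨x, hx⟩ := congrArg Prod.fst hm
  have h4 := congrFun (congrArg Subtype.val h3) g
  rw [dM_apply] at h4
  exact h4.symm

end Pool.Agent.Work.MP_787500_nt.KS
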