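import Mathlib
import Pool.Agent.Work.MP_787500_nt.KS.V21

/-!
# The parity formula for the plane over the field with two elements

`PU`: for a self-dual module with four elements, on which the group acts transitively on the nonzero elements.
-/

set_option autoImplicit false
set_option linter.unusedSectionVars false

namespace Pool.Agent.Work.MP_787500_nt.KS

open Matrix NumberField
open Pool.Agent.Work.MP_787500_nt.GP (A0 half hf hf_zero hf_one hf_add hf_inj hf_two eq_hf smul_hf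
  IsAct d0 d1 tw cup11 cup01 EvPow stabD)
open Pool.Agent.Work.MP_787500_nt.PA (TwoSys homs cyc)
open Pool.Agent.Work.MP_787500_nt.KR (FSys Z1 Z2 Sm1 Sm2 Smooth two res zM LocH Pair IsChar ParD
  SDualF selM perpM Betw big fullK fullD fullQ fullC InjC)
open Pool.Agent.Work.MP_787500_nt.HP (IsQ Spl IsP inr stb emb cyQ)
open Pool.Agent.Work.MP_787500_nt.GA

universe u v

variable {K : Type u} [Field K] [NumberField K] {D : ℕ} {s : K}
  {c : AlgebraicClosure K ≃+* AlgebraicClosure K} {κ : AbsGal K →* AbsGal K} {T : Finset ℕ}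
  {P : ℕ → Ideal (𝓞 (AlgebraicClosure K))} {N₀ : Subgroup (AbsGal K)}
  {inv : ∀ w : Option T, (stabD (HP.PP P w) → stabD (HP.PP P w) → A0) → A0}
  {invQ invF : ∀ w : Option (T ∪ D.primeFactors : Finset ℕ),
      (stb (HP.PP P w) → stb (HP.PP P w) → A0) → A0}

theorem Ar.isPT (H : Ar s c κ D T P) : IsP T P where
  prime l hl := H.hP.prime l (Finset.mem_union_left _ hl)
  odd l hl := H.hP.odd l (Finset.mem_union_left _ hl)
  isPrime l hl := H.hP.isPrime l (hl.imp_left fun h => Finset.mem_union_left _ h)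
  mem l hl := H.hP.mem l (hl.imp_left fun h => Finset.mem_union_left _ h)

/-- the local systems over `K` -/
noncomputable abbrev sD (P : ℕ → Ideal (𝓞 (AlgebraicClosure K))) (N₀ : Subgroup (AbsGal K))
    (w : Option T) : FSys (stabD (HP.PP P w)) :=
  big (fullD (stabD (HP.PP P w))) (N₀.comap (stabD (HP.PP P w)).subtype)

/-- The parity formula for the plane, for an action of the large group. -/
theorem par_K (H : Ar s c κ D T P) (R : InvD c T D P inv invQ invF)
    {υ : (AlgebraicClosure K ≃+* AlgebraicClosure K) → P2 → P2} (h : AcU T D P N₀ υ)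
    (ht : ∀ v w, v ≠ 0 → w ≠ 0 → ∃ g, υ g v = w)
    (hU : KU (big (fullK (K := K) T) N₀) (sD P N₀) (fun w : Option T => (stabD (HP.PP P w)).subtype)
      cyc inv κ (fun g => υ (iK K g)) (υ c))
    {L : ∀ w : Option T, Submodule (ZMod 2) (ZU (sD P N₀ w) (hU.loc.act w))}
    (hL : ∀ w, ann (bL (hU.loc.loc w) (hU.loc.act w) (hU.loc.sm w)) (L w) = L w) :
    ((Module.finrank (ZMod 2) (hU.sel L) + ∑ w, Module.finrank (ZMod 2) (L w) : ℕ) : ZMod 2) = 0 := by
  classical
  have X := ext2_K H R.qdat h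
  have RU := recU_K H R
  refine parity_P2 X hU RU ?_ (fun p => ?_) (fun w => if w = none then 1 else 0) ?_ (fun w => ?_)
    (fun p => hE_K H h p _) ?_ hL
  · obtain ⟨W, hW, h1⟩ := push (T := T) H.hK H.hc H.hκ (W₁ := ⊤)
      ⟨inferInstance, isOpen_univ, fun _ _ => trivial⟩
    refine ⟨W, hW, fun w hw => ?_⟩
    obtain ⟨n, -, hn⟩ := h1 w hw
    exact ⟨n, hn⟩
  · exact hloc_K H R h (fun p => h.act.comp (stb (P p)).subtype) p
  · rw [Finset.sum_ite_eq' Finset.univ none]
    simp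
  · exact (hD_K H h H.isPT w (hU.loc.act w)).2
  · have h1 := low_K H h ht
    rw [sum_split H.disj] at h1
    have h2 : ∑ w : Option T, Module.finrank (ZMod 2) (FX (hU.loc.act w)) =
        ∑ w : Option T, fxs h.act (stb (HP.PP P (incl (U := D.primeFactors) w))) := by
      refine Finset.sum_congr rfl fun w _ => ?_
      have h3 := fxs_eq H h.act H.isPT w (hU.loc.act w)
      match w with
      | none => exact h3
      | some l => exact h3
    rw [h2, ← add_assoc] at *
    exact h1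

theorem mulVec_fix {B : Matrix (Fin 2) (Fin 2) (ZMod 2)} (hB : ∀ y : P2, B *ᵥ y = 0 → y = 0)
    (h : ∀ y : P2, ee y (B *ᵥ y) = 0) (y : P2) : B *ᵥ y = y := by
  have key : ∀ y z : P2, ee y z ≠ 0 ∨ y = 0 ∨ z = 0 ∨ z = y := by
    unfold ee
    decide
  rcases (key y (B *ᵥ y)).resolve_left (not_not.2 (h y)) with h1 | h1 | h1
  · rw [h1, mulVec_zero]
  · rw [hB y h1, mulVec_zero]
  · exact h1

/-- THE PARITY FORMULA for a self-dual module with four elements. -/
theorem PU (H : Ar s c κ D T P) (R : InvD c T D P inv invQ invF) {Θ : Set (AbsGal K × AbsGal K)}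
    (hPar : ParD.{v} (big (fullK (K := K) T) N₀) (sD P N₀)
      (fun w : Option T => (stabD (HP.PP P w)).subtype) cyc inv κ Θ)
    (hn0 : (fullK (K := K) T).mem N₀)
    (hΘ : ∀ p ∈ D.primeFactors, ∃ q ∈ Θ, iK K q.1 * c ∈ inr (P p))
    {O : Type*} [CommRing O] {M : Type v} [AddCommGroup M] [Module O M]
    {ρ : AbsGal K → M → M} {b : M →+ M →+ A0}
    (h : SDualF (big (fullK (K := K) T) N₀) cyc κ Θ O ρ b)
    (hM : Nat.card M = 4) (h2 : ∀ m : M, m + m = 0)
    (hO : ∀ (a : O) (m : M), a • m = 0 ∨ a • m = m)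
    (htr : ∀ m m' : M, m ≠ 0 → m' ≠ 0 → ∃ g, ρ g m = m')
    (hN : ∀ g ∈ N₀, ∀ m, ρ g m = m)
    {C : Subgroup (AbsGal K)} {m₀ : M} (hm₀ : m₀ ≠ 0) (hC : ∀ g, g ∈ C ↔ ρ g m₀ = m₀)
    (hinj : InjC (fullK (K := K) T) C
      (jK κ P : ∀ i : Option T × Bool, stabD (HP.PP P i.1) →* AbsGal K)) :
    ∃ Λ : ∀ w : Option T, Submodule O (stabD (HP.PP P w) → M),
      (∀ w, Betw (sD P N₀ w) (fun d => ρ ((stabD (HP.PP P w)).subtype d)) (Λ w)) ∧
      EvPow 2 (Nat.card (selM h (fun w : Option T => (stabD (HP.PP P w)).subtype) Λ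
        fun w => perpM hPar h w (Λ w)) * ∏ w, Nat.card (Λ w)) := by
  classical
  have hfin : Finite M := Nat.finite_of_card_ne_zero (by rw [hM]; norm_num)
  obtain ⟨e, A, B, h1, -, h3, -, h5, h6⟩ := KR.exists_U4 h hPar.glob.char.odd hM h2
  have I : Idn ρ b κ e A B := ⟨h1, h3, h5, h6⟩
  obtain ⟨υ, hυ, hυK, hυc⟩ := exists_ext (ι := iK K) (c := c) (κ := κ) (HP.emb_inj _) (c_sq H.hc)
    (emb_kap H.hκ) (iK_cases H.hK H.hc) (iK_nc H.hK H.hc) (actA A) (C := fun m => B *ᵥ m)
    (fun x y => mulVec_add _ _ _) I.ppx (fun g x => I.pk' g x)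
  have hυK' : ∀ g m, υ (iK K g) m = A g *ᵥ m := fun g m => by rw [hυK]
  have hN' : ∀ g ∈ N₀, ∀ m, υ (iK K g) m = m := by
    intro g hg m
    have h7 := h1 g (e.symm m)
    rw [hN g hg, e.apply_symm_apply] at h7
    rw [hυK', ← h7]
  have hinK := ((emdK (RingEquiv.refl (AlgebraicClosure K)) T).sys N₀).1 hn0
  have hAc : AcU T D P N₀ υ := by
    refine ⟨hυ, hn0, hN', fun p hp g hg m => ?_⟩
    have hm := Ar.memD (T := T) hp
    have hin1 : ∀ n, iK K n ∈ inr (P p) → ∀ m, υ (iK K n) m = m := fun n hn =>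
      hN' n (hinK.2.2.2 (P p) (H.hP.isPrime p (Or.inl hm)) (H.two_P hp) (fun l hl hlp => by
        have h8 := (HP.nat_mem (H.hP.prime p hm) (H.hP.isPrime p (Or.inl hm))
          (H.hP.mem p (Or.inl hm)) (l : ℤ)).1 (by rw [Int.cast_natCast]; exact hlp)
        have h9 : p ∣ l := by exact_mod_cast h8
        have h10 := (Nat.prime_dvd_prime_iff_eq (H.hP.prime p hm) (H.hT l hl).1).1 h9
        exact (H.hT l hl).2.2.1 (h10 ▸ Nat.dvd_of_mem_primeFactors hp)) n hn)
    rcases iK_cases H.hK H.hc g with ⟨n, rfl⟩ | ⟨n, rfl⟩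
    · exact hin1 n hg m
    · obtain ⟨q, hq, hqi⟩ := hΘ p hp
      -- the element of `Θ` acts trivially
      have hq1 : ∀ m, υ (iK K q.1 * c) m = m := by
        intro m
        have h8 : ∀ y : P2, (B * A q.1) *ᵥ y = y := by
          refine mulVec_fix (fun y hy => ?_) fun y => ?_
          · rw [← mulVec_mulVec] at hy
            have h9 : A q.1 *ᵥ y = 0 := by rw [← I.ppx (A q.1 *ᵥ y), hy, mulVec_zero]
            have h10 : A q.1⁻¹ *ᵥ (A q.1 *ᵥ y) = y := by
              rw [mulVec_mulVec, ← map_mul, inv_mul_cancel, map_one, one_mulVec]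
            rw [← h10, h9, mulVec_zero]
          · have h9 := h.alt q hq 1 (e.symm y)
            rw [one_smul, h6, h1, e.apply_symm_apply, mulVec_mulVec] at h9
            exact hf_inj (h9.trans hf_zero.symm)
        have h9 : ∀ y, A q.1 *ᵥ y = B *ᵥ y := by
          intro y
          have h10 := congrArg (fun z => B *ᵥ z) (h8 y)
          simp only [← mulVec_mulVec, I.ppx] at h10
          exact h10
        rw [hυ.mul, hυc, hυK']
        show A q.1 *ᵥ (B *ᵥ m) = m
        rw [h9, I.ppx]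
      have h8 : iK K n * c = iK K (n * q.1⁻¹) * (iK K q.1 * c) := by
        rw [map_mul, map_inv]
        group
      have h9 : iK K (n * q.1⁻¹) ∈ inr (P p) := by
        have h10 : iK K (n * q.1⁻¹) = (iK K n * c) * (iK K q.1 * c)⁻¹ := by
          rw [map_mul, map_inv]
          group
        rw [h10]
        exact mul_mem hg (inv_mem hqi)
      rw [h8, hυ.mul, hq1, hin1 _ h9]
  have htK : ∀ v w : P2, v ≠ 0 → w ≠ 0 → ∃ g, A g *ᵥ v = w := by
    intro v w hv hw
    obtain ⟨g, hg⟩ := htr (e.symm v) (e.symm w) (fun h7 => hv (by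
      rw [← e.apply_symm_apply v, h7, map_zero])) (fun h7 => hw (by
      rw [← e.apply_symm_apply w, h7, map_zero]))
    refine ⟨g, ?_⟩
    have h8 := h1 g (e.symm v)
    rw [e.apply_symm_apply] at h8
    rw [← h8, hg, e.apply_symm_apply]
  have ht : ∀ v w : P2, v ≠ 0 → w ≠ 0 → ∃ g, υ g v = w := by
    intro v w hv hw
    obtain ⟨g, hg⟩ := htK v w hv hw
    exact ⟨iK K g, by rw [hυK', hg]⟩
  have hsmB : Smooth (big (fullK (K := K) T) N₀) (fun g (m : P2) => A g *ᵥ m) := by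
    obtain ⟨W, hW, h7⟩ := h.sm
    refine ⟨W, hW, fun w hw m => ?_⟩
    have h8 := I.eqv w (e.symm m)
    rw [h7 w hw, e.apply_symm_apply] at h8
    exact h8.symm
  have hnofix : ∀ m : P2, (∀ g, A g *ᵥ m = m) → m = 0 := by
    intro m hm
    by_contra h0
    obtain ⟨w, hw0, hw⟩ := p2_ne m
    obtain ⟨g, hg⟩ := htK m w h0 hw0
    exact hw (hg.symm.trans (hm g))
  have hv₀ : e m₀ ≠ 0 := fun h7 => hm₀ (by rw [← e.symm_apply_apply m₀, h7, map_zero])
  have hCS : C = Stc (actA A) (e m₀) := by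
    ext g
    rw [hC, mem_Stc]
    constructor
    · intro h7
      show A g *ᵥ e m₀ = e m₀
      rw [← h1, h7]
    · intro h7
      apply e.injective
      rw [h1]
      exact h7
  subst hCS
  have K0 : KU (big (fullK (K := K) T) N₀) (sD P N₀)
      (fun w : Option T => (stabD (HP.PP P w)).subtype) cyc inv κ
      (fun g (m : P2) => A g *ᵥ m) (fun m => B *ᵥ m) := by
    refine KU_of hPar h I (fun x hx hl1 hl2 => ?_) hnofix
    have hx1 : Z1 (fullK (K := K) T) (fun g (m : P2) => A g *ᵥ m) x := by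
      obtain ⟨⟨W, ⟨-, ⟨V, hV, hVW⟩, -⟩, h7⟩, h8⟩ := hx
      exact ⟨⟨V, hV, fun g w hw => h7 g w (hVW hw)⟩, h8⟩
    refine sha_of_inj (fullK (K := K) T) (actA A) (smooth_big hsmB) htK hv₀ hinj hx1 ?_
    rintro ⟨w, bb⟩
    cases bb
    · exact hl1 w
    · obtain ⟨m, hm⟩ := hl2 w
      refine ⟨B *ᵥ m, fun d => ?_⟩
      show x (κ (d : AbsGal K)) = A (κ (d : AbsGal K)) *ᵥ (B *ᵥ m) + B *ᵥ m
      have h7 := congrArg (fun z => B *ᵥ z) (hm d)
      simp only [I.ppx, mulVec_add] at h7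
      have h8 : x (κ (d : AbsGal K)) = B *ᵥ (A (d : AbsGal K) *ᵥ m) + B *ᵥ m := h7
      rw [h8]
      congr 1
      rw [← I.pk' (κ (d : AbsGal K)), hPar.kk]
  refine PU_of_P2 hPar h I hO K0 ?_
  -- the action of the large group
  have e1 : (fun g => υ (iK K g)) = fun g (m : P2) => A g *ᵥ m := funext fun g => hυK g
  have hgen : ∀ (υ' : AbsGal K → P2 → P2) (C' : P2 → P2), (fun g => υ (iK K g)) = υ' → υ c = C' →
      ∀ K0 : KU (big (fullK (K := K) T) N₀) (sD P N₀)
      (fun w : Option T => (stabD (HP.PP P w)).subtype) cyc inv κ υ' C',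
      ∀ L : ∀ w : Option T, Submodule (ZMod 2) (ZU (sD P N₀ w) (K0.loc.act w)),
      (∀ w, ann (bL (K0.loc.loc w) (K0.loc.act w) (K0.loc.sm w)) (L w) = L w) →
      ((Module.finrank (ZMod 2) (K0.sel L) + ∑ w, Module.finrank (ZMod 2) (L w) : ℕ) : ZMod 2) =
        0 := by
    rintro υ' C' rfl rfl K0 L hL
    exact par_K H R hAc ht K0 hL
  exact hgen _ _ e1 hυc K0

end Pool.Agent.Work.MP_787500_nt.KS
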