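import Mathlib
import Pool.Agent.Work.MP_787500_nt.KS.V22
import Pool.Agent.Work.MP_787500_nt.KR.G5_Main
import Pool.Agent.Work.MP_787500_nt.RQ.HypK

/-!
# The parity formula for all planes

`parPl`: the hypothesis `KR.ParPl` of `KR.finite_parity3`.
-/

set_option autoImplicit false
set_option linter.unusedSectionVars false

namespace Pool.Agent.Work.MP_787500_nt.KS

open NumberField
open Pool.Agent.Work.MP_787500_nt.GP (A0 IsAct tw stabD)
open Pool.Agent.Work.MP_787500_nt.PA (TwoSys homs cyc)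
open Pool.Agent.Work.MP_787500_nt.KR (FSys two res ParD SDualF big fullK fullD fullQ fullC InjC Tri ParPl
  IsPl)
open Pool.Agent.Work.MP_787500_nt.HP (IsQ Spl IsP inr stb emb cyQ QDat)
open Pool.Agent.Work.MP_787500_nt.GA
open Pool.Agent.Work.MP_787500_nt.RQ (rs LocF ufull KDatF)

universe u v

variable {K : Type u} [Field K] [NumberField K] {D : ℕ} {s : K}
  {c : AlgebraicClosure K ≃+* AlgebraicClosure K} {κ : AbsGal K →* AbsGal K} {T : Finset ℕ}
  {P : ℕ → Ideal (𝓞 (AlgebraicClosure K))} {N₀ C : Subgroup (AbsGal K)}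
  {inv : ∀ w : Option T, (stabD (HP.PP P w) → stabD (HP.PP P w) → A0) → A0}
  {invQ invF : ∀ w : Option (T ∪ D.primeFactors : Finset ℕ),
      (stb (HP.PP P w) → stb (HP.PP P w) → A0) → A0}

theorem smul_local {O : Type*} [CommRing O] [IsLocalRing O]
    (hq : Nat.card (IsLocalRing.ResidueField O) = 2) {U : Type*} [AddCommGroup U] [Module O U]
    (hm : ∀ a ∈ IsLocalRing.maximalIdeal O, ∀ u : U, a • u = 0) (a : O) (u : U) :
    a • u = 0 ∨ a • u = u := by
  by_cases ha : a ∈ IsLocalRing.maximalIdeal O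
  · exact Or.inl (hm a ha u)
  · right
    have h1 : IsLocalRing.residue O a = 1 := by
      have h2 : IsLocalRing.residue O a ≠ 0 := by
        rwa [Ne, IsLocalRing.residue_eq_zero_iff]
      have h3 := hq
      rw [Nat.card_eq_two_iff] at h3
      obtain ⟨x, y, hxy, hxy'⟩ := h3
      have h6 : ∀ z : IsLocalRing.ResidueField O, z = x ∨ z = y := by
        intro z
        have : z ∈ ({x, y} : Set (IsLocalRing.ResidueField O)) := by rw [hxy']; trivial
        simpa using this
      have k0 := h6 0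
      have k1 := h6 1
      have k2 := h6 (IsLocalRing.residue O a)
      have n1 : (1 : IsLocalRing.ResidueField O) ≠ 0 := one_ne_zero
      rcases k0 with k0 | k0 <;> rcases k1 with k1 | k1 <;> rcases k2 with k2 | k2 <;>
        first
        | exact k2.trans k1.symm
        | exact absurd (k1.trans k0.symm) n1
        | exact absurd (k2.trans k0.symm) h2
    have h2 : a - 1 ∈ IsLocalRing.maximalIdeal O := by
      rw [← IsLocalRing.residue_eq_zero_iff, map_sub, h1, map_one, sub_self]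
    have h3 := hm _ h2 u
    rwa [sub_smul, one_smul, sub_eq_zero] at h3

/-- The kernel acts trivially. -/
theorem pl_ker {G : Type*} [Group G] {F : FSys G} {N₀ C : Subgroup G} (hC : Tri F N₀ C)
    {U : Type*} [AddCommGroup U] {υ : G → U → U} (h : IsPl υ) {u₀ : U} (hu₀ : u₀ ≠ 0)
    (hst : ∀ g, g ∈ C ↔ υ g u₀ = u₀) (g : G) (hg : g ∈ N₀) (u : U) : υ g u = u := by
  by_cases hu : u = 0
  · rw [hu, h.act.zero]
  · obtain ⟨k, rfl⟩ := h.tr u₀ u hu₀ hu
    have h1 : k⁻¹ * g * k ∈ N₀ := by
      have := hC.normal.conj_mem g hg k⁻¹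
      rwa [inv_inv] at this
    have h2 := (hst _).1 (hC.le h1)
    have e : g * k = k * (k⁻¹ * g * k) := by group
    rw [← h.act.mul, e, h.act.mul, h2]

/-- THE PARITY FORMULA FOR ALL PLANES. -/
theorem parPl (H : Ar s c κ D T P) (hQ : QDat c (T ∪ D.primeFactors) P invQ)
    (hF : ∀ w, LocF (stb (HP.PP P w)) (invQ w) (invF w))
    (hrec : ∀ f, KR.Z2 (ufull (AlgebraicClosure K) ((T ∪ D.primeFactors : Finset ℕ) : Set ℕ))
      (tw cyQ) f → ∑ w, invF w (rs (stb (HP.PP P w)) f) + (f c c + f 1 1) = 0)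
    (hcomp : ∀ (w : Option T) (f : (AlgebraicClosure K ≃+* AlgebraicClosure K) →
          (AlgebraicClosure K ≃+* AlgebraicClosure K) → A0),
        inv w (fun a b => f (emb (RingEquiv.refl _) (a : AbsGal K))
          (emb (RingEquiv.refl _) (b : AbsGal K))) =
          invF (RQ.incl Finset.subset_union_left w) (fun a b => f a b))
    {θ φ : ℕ → AbsGal K}
    (hθ : ∀ p ∈ D.primeFactors, emb (RingEquiv.refl (AlgebraicClosure K)) (θ p) * c ∈ inr (P p))
    (hC : Tri (fullK (K := K) T) N₀ C)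
    (hinj : InjC (fullK (K := K) T) C
      (jK κ P : ∀ i : Option T × Bool, stabD (HP.PP P i.1) →* AbsGal K))
    (hPar : ParD.{v} (big (fullK (K := K) T) N₀)
      (fun w : Option T => big (fullD (stabD (HP.PP P w)))
        (N₀.comap (stabD (HP.PP P w)).subtype))
      (fun w : Option T => (stabD (HP.PP P w)).subtype) cyc inv κ
      {p | ∃ n ∈ D.primeFactors, p = (θ n, φ n)})
    {O : Type*} [CommRing O] [IsLocalRing O] (hq : Nat.card (IsLocalRing.ResidueField O) = 2) :
    ParPl hPar O := by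
  intro U _ _ _ υ β h hpl hm
  obtain ⟨u₀, hu₀, hst⟩ := hpl.base hC h.sm
  have hn0 : (fullK (K := K) T).mem N₀ := by
    obtain ⟨W, hW, hWN⟩ := hC.opn
    exact RQ.up_fullK T W N₀ hW hWN hC.normal
  have R : InvD c T D P inv invQ invF :=
    ⟨hQ, hF, hrec, fun f => hcomp none f, fun l f => hcomp (some l) f⟩
  exact PU H R hPar hn0 (fun p hp => ⟨(θ p, φ p), ⟨p, hp, rfl⟩, hθ p hp⟩) h hpl.four hpl.two
    (smul_local hq hm) hpl.tr (pl_ker hC hpl hu₀ hst) hu₀ hst hinj

end Pool.Agent.Work.MP_787500_nt.KS
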